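import Pool.Agent.OFK.Defs

/-! # OFK, package Pairs: chain pairs through LYM (0.7 h)

`F` antichain, no covering pair (`A ∪ B ≠ univ`), disjoint members have `|A| + |B| ≤ 2 s + 1`.
Let `X` be the members of size `≥ s + i` and `G` the members of size `≥ s + 2 - i` (`1 ≤ i ≤ s+1`).
The complements of the members of `X` together with `G` form an antichain (both are antichains;
`B ⊆ Aᶜ` means `A, B` disjoint, but `|A| + |B| ≥ 2 s + 2`; `Aᶜ ⊆ B` means `A ∪ B = univ`), and
`Aᶜ ≠ B` for the same reason. LYM (`Finset.sum_card_slice_div_choose_le_one` or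
`lubell_yamamoto_meshalkin_inequality_sum_card_div_choose` in Mathlib) for this antichain, with
`C(n, n-a) = C(n, a)`, reads `up F (s+i) + (sum of pl F m over m ≥ s+2-i) ≤ 1`, and the second sum
is `1 - miss F - dn F (s+1-i)`. For `i = 1` take `X` and `G` both equal to the members of size
`≥ s+1`: `2 up F (s+1) ≤ 1`. -/

set_option autoImplicit false

namespace Pool.Agent.OFK

open Finset

variable {n : ℕ}

/-- the weight of a set -/
private noncomputable def wPairs (n : ℕ) (A : Finset (Fin n)) : ℝ := (n.choose A.card : ℝ)⁻¹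

private theorem plPairs (F : Finset (Finset (Fin n))) (m : ℕ) :
    pl F m = ∑ A ∈ F.filter (fun A => A.card = m), wPairs n A := by
  unfold pl
  have h : ∀ A ∈ F.filter (fun A => A.card = m), wPairs n A = (n.choose m : ℝ)⁻¹ := by
    intro A hA
    rw [mem_filter] at hA
    unfold wPairs
    rw [hA.2]
  rw [sum_congr rfl h, sum_const, nsmul_eq_mul, div_eq_mul_inv]

private theorem sumPairs (F : Finset (Finset (Fin n))) (P : ℕ → Prop) [DecidablePred P] :
    ∑ m ∈ (range (n + 1)).filter P, pl F m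
      = ∑ A ∈ F.filter (fun A => P A.card), wPairs n A := by
  have h1 : ∀ A ∈ F.filter (fun A => P A.card), A.card ∈ (range (n + 1)).filter P := by
    intro A hA
    rw [mem_filter] at hA ⊢
    refine ⟨?_, hA.2⟩
    rw [mem_range]
    have := card_le_univ A
    rw [Fintype.card_fin] at this
    omega
  rw [← sum_fiberwise_of_maps_to h1]
  refine sum_congr rfl ?_
  intro m hm
  rw [mem_filter] at hm
  rw [plPairs, filter_filter]
  refine sum_congr ?_ (fun _ _ => rfl)
  ext A
  simp only [mem_filter]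
  constructor
  · rintro ⟨h, h'⟩
    exact ⟨h, h' ▸ hm.2, h'⟩
  · rintro ⟨h, _, h'⟩
    exact ⟨h, h'⟩

private theorem complPairs (A : Finset (Fin n)) : wPairs n Aᶜ = wPairs n A := by
  unfold wPairs
  have h := card_le_univ A
  rw [Fintype.card_fin] at h
  rw [card_compl, Fintype.card_fin, Nat.choose_symm h]

private theorem mainPairs (s : ℕ) (F : Finset (Finset (Fin n)))
    (hF : IsAntichain (· ⊆ ·) (F : Set (Finset (Fin n))))
    (hc : ∀ A ∈ F, ∀ B ∈ F, A ∪ B ≠ univ)
    (hd : ∀ A ∈ F, ∀ B ∈ F, Disjoint A B → A.card + B.card ≤ 2 * s + 1)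
    (a b : ℕ) (hab : 2 * s + 2 ≤ a + b) :
    ∑ A ∈ F.filter (fun A => a ≤ A.card), wPairs n A
      + ∑ A ∈ F.filter (fun A => b ≤ A.card), wPairs n A ≤ 1 := by
  set X := (F.filter (fun A => a ≤ A.card)).image (fun A => Aᶜ) with hX
  set G := F.filter (fun A => b ≤ A.card) with hG
  have hcov : ∀ A ∈ F, ∀ B ∈ F, Aᶜ ⊆ B → False := by
    intro A hA B hB h
    refine hc A hA B hB ?_
    rw [eq_univ_iff_forall]
    intro x
    rw [mem_union]
    by_cases hx : x ∈ A
    · exact Or.inl hx
    · exact Or.inr (h (mem_compl.2 hx))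
  have hdis : Disjoint X G := by
    rw [disjoint_left]
    intro B hB hB'
    rw [hX, mem_image] at hB
    obtain ⟨A, hA, rfl⟩ := hB
    rw [mem_filter] at hA
    rw [hG, mem_filter] at hB'
    exact hcov A hA.1 Aᶜ hB'.1 (subset_refl _)
  have hanti : IsAntichain (· ⊆ ·) ((X ∪ G : Finset (Finset (Fin n))) :
      Set (Finset (Fin n))) := by
    intro U hU V hV hne hsub
    rw [mem_coe, mem_union] at hU hV
    rcases hU with hU | hU <;> rcases hV with hV | hV
    · rw [hX, mem_image] at hU hV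
      obtain ⟨A, hA, rfl⟩ := hU
      obtain ⟨B, hB, rfl⟩ := hV
      rw [mem_filter] at hA hB
      have h : B ⊆ A := compl_subset_compl.1 hsub
      refine hF (mem_coe.2 hB.1) (mem_coe.2 hA.1) ?_ h
      rintro rfl
      exact hne rfl
    · rw [hX, mem_image] at hU
      obtain ⟨A, hA, rfl⟩ := hU
      rw [mem_filter] at hA
      rw [hG, mem_filter] at hV
      exact hcov A hA.1 V hV.1 hsub
    · rw [hX, mem_image] at hV
      obtain ⟨A, hA, rfl⟩ := hV
      rw [mem_filter] at hA
      rw [hG, mem_filter] at hU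
      have hdj : Disjoint A U := by
        rw [disjoint_left]
        intro x hx hx'
        exact (mem_compl.1 (hsub hx')) hx
      have := hd A hA.1 U hU.1 hdj
      have h1 := hA.2
      have h2 := hU.2
      omega
    · rw [hG, mem_filter] at hU hV
      exact hF (mem_coe.2 hU.1) (mem_coe.2 hV.1) hne hsub
  have hlym := lubell_yamamoto_meshalkin_inequality_sum_inv_choose (𝕜 := ℝ) hanti
  rw [Fintype.card_fin] at hlym
  have hsum : ∑ A ∈ X ∪ G, wPairs n A
      = ∑ A ∈ F.filter (fun A => a ≤ A.card), wPairs n A + ∑ A ∈ G, wPairs n A := by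
    rw [sum_union hdis, hX, sum_image]
    · congr 1
      exact sum_congr rfl (fun A _ => complPairs A)
    · intro A _ B _ h
      exact compl_injective h
  rw [← hsum]
  exact hlym

theorem up_le_dn (s : ℕ) (F : Finset (Finset (Fin n)))
    (hF : IsAntichain (· ⊆ ·) (F : Set (Finset (Fin n))))
    (hc : ∀ A ∈ F, ∀ B ∈ F, A ∪ B ≠ univ)
    (hd : ∀ A ∈ F, ∀ B ∈ F, Disjoint A B → A.card + B.card ≤ 2 * s + 1)
    (i : ℕ) (hi : 1 ≤ i) (his : i ≤ s + 1) :
    up F (s + i) ≤ dn F (s + 1 - i) + miss F := by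
  have h := mainPairs s F hF hc hd (s + i) (s + 2 - i) (by omega)
  have e1 : up F (s + i) = ∑ A ∈ F.filter (fun A => s + i ≤ A.card), wPairs n A := by
    unfold up
    exact sumPairs F (fun m => s + i ≤ m)
  have e2 : dn F (s + 1 - i) = ∑ A ∈ F.filter (fun A => A.card ≤ s + 1 - i), wPairs n A := by
    unfold dn
    exact sumPairs F (fun m => m ≤ s + 1 - i)
  have e3 : miss F = 1 - ∑ A ∈ F, wPairs n A := by
    unfold miss
    have h0 := sumPairs F (fun _ => True)
    simp only [filter_true] at h0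
    rw [h0]
  have e4 : ∑ A ∈ F.filter (fun A => A.card ≤ s + 1 - i), wPairs n A
      + ∑ A ∈ F.filter (fun A => s + 2 - i ≤ A.card), wPairs n A = ∑ A ∈ F, wPairs n A := by
    rw [← sum_filter_add_sum_filter_not F (fun A => A.card ≤ s + 1 - i)]
    congr 1
    refine sum_congr ?_ (fun _ _ => rfl)
    ext A
    simp only [mem_filter]
    constructor
    · rintro ⟨h1, h2⟩
      exact ⟨h1, by omega⟩
    · rintro ⟨h1, h2⟩
      exact ⟨h1, by omega⟩
  rw [e1, e2, e3]
  linarith

theorem up_half (s : ℕ) (F : Finset (Finset (Fin n)))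
    (hF : IsAntichain (· ⊆ ·) (F : Set (Finset (Fin n))))
    (hc : ∀ A ∈ F, ∀ B ∈ F, A ∪ B ≠ univ)
    (hd : ∀ A ∈ F, ∀ B ∈ F, Disjoint A B → A.card + B.card ≤ 2 * s + 1) :
    up F (s + 1) ≤ 1 / 2 := by
  have h := mainPairs s F hF hc hd (s + 1) (s + 1) (by omega)
  have e1 : up F (s + 1) = ∑ A ∈ F.filter (fun A => s + 1 ≤ A.card), wPairs n A := by
    unfold up
    exact sumPairs F (fun m => s + 1 ≤ m)
  rw [e1]
  linarith

end Pool.Agent.OFK
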