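import Mathlib

/-! # OFK, package Ratio: ratios of binomial coefficients near the middle (0.8 h)

`n = 2 s + 1 + k`. For `m = s + h`, `h ≥ 0`: `C(n,s+h)/C(n,s) = ∏_{i=1}^{h} (1 + (k+2-2i)/(s+i))`,
which for `h ≤ k+2` is `1 + (∑_{i ≤ h} (k+2-2i))/(s+1) + O_k(1/s²)`; for `h > k+2` the coefficient
is at most the one of `h = k+2` (beyond the middle `s + (k+1)/2` they decrease). For `m = s - j`:
`∏_{i=0}^{j-1} (1 - (k+2+2i)/(s+k+2+i))`, which for `j ≤ k+2` is
`1 - (∑_{i=1}^{j} (k+2i))/(s+1) + O_k(1/s²)`, and decreasing in `j`. -/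

set_option autoImplicit false

namespace Pool.Agent.OFK

open Finset

/-- `f s ≤ 1 + u / (s + 1) + o(1 / s)` -/
private def PR_Ratio (f : ℕ → ℝ) (u : ℝ) : Prop :=
  ∀ ε : ℝ, 0 < ε → ∀ᶠ s : ℕ in Filter.atTop, f s ≤ 1 + (u + ε) / ((s : ℝ) + 1)

private theorem step_Ratio {f g : ℕ → ℝ} {u a b : ℝ} (hb : 0 < b) (hf : PR_Ratio f u)
    (hg : ∀ᶠ s : ℕ in Filter.atTop, g s = f s * (1 + a / ((s : ℝ) + b))) :
    PR_Ratio g (u + a) := by
  intro ε hε
  have h1 := hf (ε / 2) (half_pos hε)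
  have h2 : ∀ᶠ s : ℕ in Filter.atTop, |a| ≤ (s : ℝ) := by
    filter_upwards [Filter.eventually_ge_atTop ⌈|a|⌉₊] with s hs
    exact Nat.ceil_le.1 hs
  have h3 : ∀ᶠ s : ℕ in Filter.atTop, (a * (1 - b) + a * (u + ε / 2)) / (ε / 2) ≤ (s : ℝ) := by
    filter_upwards [Filter.eventually_ge_atTop
      ⌈(a * (1 - b) + a * (u + ε / 2)) / (ε / 2)⌉₊] with s hs
    exact Nat.ceil_le.1 hs
  filter_upwards [h1, h2, h3, hg] with s e1 e2 e3 e4
  have hs : (0 : ℝ) ≤ (s : ℝ) := Nat.cast_nonneg s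
  have hs1 : (0 : ℝ) < (s : ℝ) + 1 := by linarith
  have hsb : (0 : ℝ) < (s : ℝ) + b := by linarith
  have ha : 0 ≤ 1 + a / ((s : ℝ) + b) := by
    have h4 : 1 + a / ((s : ℝ) + b) = ((s : ℝ) + b + a) / ((s : ℝ) + b) := by
      field_simp
    rw [h4]
    refine div_nonneg ?_ hsb.le
    have := neg_abs_le a
    linarith
  rw [e4]
  refine (mul_le_mul_of_nonneg_right e1 ha).trans ?_
  have h5 : (1 + (u + ε / 2) / ((s : ℝ) + 1)) * (1 + a / ((s : ℝ) + b)) =
      (((s : ℝ) + 1 + (u + ε / 2)) * ((s : ℝ) + b + a)) / (((s : ℝ) + 1) * ((s : ℝ) + b)) := by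
    field_simp
  have h6 : 1 + (u + a + ε) / ((s : ℝ) + 1) =
      (((s : ℝ) + 1 + (u + a + ε)) * ((s : ℝ) + b)) / (((s : ℝ) + 1) * ((s : ℝ) + b)) := by
    field_simp
  rw [h5, h6]
  refine div_le_div_of_nonneg_right ?_ (mul_pos hs1 hsb).le
  rw [div_le_iff₀ (half_pos hε)] at e3
  have h7 : (s : ℝ) * (ε / 2) ≤ ((s : ℝ) + b) * (ε / 2) := by
    refine mul_le_mul_of_nonneg_right ?_ (half_pos hε).le
    linarith
  nlinarith [e3, h7]

/-- the partial sums -/
private def S_Ratio (M : ℕ) (g : ℕ → ℝ) (h : ℕ) : ℝ := ∑ i ∈ Icc 1 M, if i ≤ h then g i else 0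

private theorem S_zero_Ratio (M : ℕ) (g : ℕ → ℝ) : S_Ratio M g 0 = 0 := by
  unfold S_Ratio
  refine sum_eq_zero fun i hi => ?_
  rw [mem_Icc] at hi
  rw [if_neg (by omega)]

private theorem S_succ_Ratio {M : ℕ} (g : ℕ → ℝ) {h : ℕ} (hM : h + 1 ≤ M) :
    S_Ratio M g (h + 1) = S_Ratio M g h + g (h + 1) := by
  unfold S_Ratio
  have h1 : g (h + 1) = ∑ i ∈ Icc 1 M, if i = h + 1 then g i else 0 := by
    rw [sum_ite_eq' (Icc 1 M) (h + 1) g, if_pos (mem_Icc.2 ⟨by omega, hM⟩)]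
  rw [h1, ← sum_add_distrib]
  refine sum_congr rfl fun i _ => ?_
  by_cases h2 : i = h + 1
  · subst h2
    rw [if_pos le_rfl, if_neg (by omega), if_pos rfl, zero_add]
  · rw [if_neg h2, add_zero]
    by_cases h3 : i ≤ h
    · rw [if_pos h3, if_pos (by omega)]
    · rw [if_neg h3, if_neg (by omega)]

private theorem S_top_Ratio {M : ℕ} (g : ℕ → ℝ) {h : ℕ} (hM : M ≤ h) :
    S_Ratio M g h = S_Ratio M g M := by
  unfold S_Ratio
  refine sum_congr rfl fun i hi => ?_
  rw [mem_Icc] at hi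
  rw [if_pos (by omega), if_pos hi.2]

private theorem one_Ratio (f : ℕ → ℝ) (hf : ∀ s, f s = 1) : PR_Ratio f 0 := by
  intro ε hε
  refine Filter.Eventually.of_forall fun s => ?_
  rw [hf, zero_add]
  have : 0 ≤ ε / ((s : ℝ) + 1) := div_nonneg hε.le (by positivity)
  linarith

private theorem pos_Ratio (k s : ℕ) : (0 : ℝ) < ((2 * s + 1 + k).choose s : ℝ) := by
  have : 0 < (2 * s + 1 + k).choose s := Nat.choose_pos (by omega)
  exact_mod_cast this

private theorem up_Ratio (k : ℕ) : ∀ h : ℕ, h ≤ k + 2 →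
    PR_Ratio (fun s => ((2 * s + 1 + k).choose (s + h) : ℝ) / ((2 * s + 1 + k).choose s : ℝ))
      (S_Ratio (k + 2) (fun i => (k : ℝ) + 2 - 2 * i) h) := by
  intro h
  induction h with
  | zero =>
    intro _
    rw [S_zero_Ratio]
    refine one_Ratio _ fun s => ?_
    exact div_self (pos_Ratio k s).ne'
  | succ h ih =>
    intro hh
    rw [S_succ_Ratio _ hh]
    refine step_Ratio (b := (h : ℝ) + 1) (by positivity) (ih (by omega)) ?_
    filter_upwards [Filter.eventually_ge_atTop 1] with s hs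
    have h1 := Nat.choose_succ_right_eq (2 * s + 1 + k) (s + h)
    have h2 : 2 * s + 1 + k - (s + h) = s + 1 + k - h := by omega
    rw [h2] at h1
    have h3 : ((2 * s + 1 + k).choose (s + (h + 1)) : ℝ) * ((s : ℝ) + (h + 1)) =
        ((2 * s + 1 + k).choose (s + h) : ℝ) * ((s : ℝ) + 1 + k - h) := by
      have h4 : ((s + 1 + k - h : ℕ) : ℝ) = (s : ℝ) + 1 + k - h := by
        rw [Nat.cast_sub (by omega)]
        push_cast
        ring
      rw [← h4]
      have h5 : (((2 * s + 1 + k).choose (s + h + 1) * (s + h + 1) : ℕ) : ℝ) =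
        (((2 * s + 1 + k).choose (s + h) * (s + 1 + k - h) : ℕ) : ℝ) := by rw [h1]
      rw [Nat.cast_mul, Nat.cast_mul] at h5
      rw [← h5, ← add_assoc s h 1]
      push_cast
      ring
    have hp : (0 : ℝ) < (s : ℝ) + ((h : ℝ) + 1) := by positivity
    have h6 : (1 + ((k : ℝ) + 2 - 2 * ((h + 1 : ℕ) : ℝ)) / ((s : ℝ) + ((h : ℝ) + 1))) =
        ((s : ℝ) + 1 + k - h) / ((s : ℝ) + ((h : ℝ) + 1)) := by
      push_cast
      field_simp
      ring
    rw [h6, div_mul_div_comm, ← h3]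
    exact (mul_div_mul_right _ _ hp.ne').symm

private theorem down_Ratio (k : ℕ) : ∀ j : ℕ, j ≤ k + 2 →
    PR_Ratio (fun s => ((2 * s + 1 + k).choose (s - j) : ℝ) / ((2 * s + 1 + k).choose s : ℝ))
      (-(S_Ratio (k + 2) (fun i => (k : ℝ) + 2 * i) j)) := by
  intro j
  induction j with
  | zero =>
    intro _
    rw [S_zero_Ratio, neg_zero]
    refine one_Ratio _ fun s => ?_
    rw [Nat.sub_zero]
    exact div_self (pos_Ratio k s).ne'
  | succ j ih =>
    intro hj
    rw [S_succ_Ratio _ hj, neg_add]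
    refine step_Ratio (b := (k : ℝ) + 2 + j) (by positivity) (ih (by omega)) ?_
    filter_upwards [Filter.eventually_ge_atTop (j + 1)] with s hs
    have h1 := Nat.choose_succ_right_eq (2 * s + 1 + k) (s - (j + 1))
    have h0 : s - (j + 1) + 1 = s - j := by omega
    have h2 : 2 * s + 1 + k - (s - (j + 1)) = s + k + 2 + j := by omega
    rw [h2, h0] at h1
    have h3 : ((2 * s + 1 + k).choose (s - (j + 1)) : ℝ) * ((s : ℝ) + (k + 2 + j)) =
        ((2 * s + 1 + k).choose (s - j) : ℝ) * ((s : ℝ) - j) := by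
      have h4 : ((s - j : ℕ) : ℝ) = (s : ℝ) - j := by
        rw [Nat.cast_sub (by omega)]
      rw [← h4]
      have h5 : (((2 * s + 1 + k).choose (s - j) * (s - j) : ℕ) : ℝ) =
        (((2 * s + 1 + k).choose (s - (j + 1)) * (s + k + 2 + j) : ℕ) : ℝ) := by rw [h1]
      rw [Nat.cast_mul, Nat.cast_mul] at h5
      rw [h5]
      push_cast
      ring
    have hp : (0 : ℝ) < (s : ℝ) + ((k : ℝ) + 2 + j) := by positivity
    have h6 : (1 + (-((k : ℝ) + 2 * ((j + 1 : ℕ) : ℝ))) / ((s : ℝ) + ((k : ℝ) + 2 + j))) =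
        ((s : ℝ) - j) / ((s : ℝ) + ((k : ℝ) + 2 + j)) := by
      push_cast
      field_simp
      ring
    rw [h6, div_mul_div_comm, ← h3]
    exact (mul_div_mul_right _ _ hp.ne').symm

private theorem dec_Ratio {n m : ℕ} (h : n ≤ 2 * m + 1) : ∀ m', m ≤ m' →
    n.choose m' ≤ n.choose m := by
  intro m' hm
  induction m', hm using Nat.le_induction with
  | base => exact le_rfl
  | succ m' hm ih =>
    refine le_trans ?_ ih
    have h1 := Nat.choose_succ_right_eq n m'
    have h2 : n - m' ≤ m' + 1 := by omega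
    have h3 : n.choose (m' + 1) * (m' + 1) ≤ n.choose m' * (m' + 1) := by
      rw [h1]
      exact Nat.mul_le_mul_left _ h2
    exact Nat.le_of_mul_le_mul_right h3 (Nat.succ_pos m')

private theorem inc_Ratio {n m : ℕ} (h : 2 * m ≤ n + 1) : ∀ j, n.choose (m - j) ≤ n.choose m := by
  intro j
  induction j with
  | zero => exact le_rfl
  | succ j ih =>
    refine le_trans ?_ ih
    rcases Nat.lt_or_ge j m with hj | hj
    · have h1 := Nat.choose_succ_right_eq n (m - (j + 1))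
      have h0 : m - (j + 1) + 1 = m - j := by omega
      rw [h0] at h1
      have h2 : m - j ≤ n - (m - (j + 1)) := by omega
      have h3 : n.choose (m - (j + 1)) * (m - j) ≤ n.choose (m - j) * (m - j) := by
        rw [h1]
        exact Nat.mul_le_mul_left _ h2
      exact Nat.le_of_mul_le_mul_right h3 (by omega)
    · have e : m - (j + 1) = m - j := by omega
      rw [e]

theorem ratio (k : ℕ) (ε : ℝ) (hε : 0 < ε) : ∃ N : ℕ, ∀ s : ℕ, N ≤ s → ∀ m ≤ 2 * s + 1 + k,
    ((2 * s + 1 + k).choose m : ℝ) ≤ ((2 * s + 1 + k).choose s : ℝ) *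
      (1 + ((∑ i ∈ Icc 1 (k + 2), if s + i ≤ m then ((k : ℝ) + 2 - 2 * i) else 0)
        - (∑ i ∈ Icc 1 (k + 2), if m + i ≤ s then ((k : ℝ) + 2 * i) else 0) + ε) / (s + 1)) := by
  have hu : ∀ᶠ s : ℕ in Filter.atTop, ∀ h ∈ range (k + 3),
      ((2 * s + 1 + k).choose (s + h) : ℝ) / ((2 * s + 1 + k).choose s : ℝ) ≤
        1 + (S_Ratio (k + 2) (fun i => (k : ℝ) + 2 - 2 * i) h + ε) / ((s : ℝ) + 1) := by
    refine (Filter.eventually_all_finset (range (k + 3))).2 fun h hh => ?_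
    rw [mem_range] at hh
    exact up_Ratio k h (by omega) ε hε
  have hd : ∀ᶠ s : ℕ in Filter.atTop, ∀ j ∈ range (k + 3),
      ((2 * s + 1 + k).choose (s - j) : ℝ) / ((2 * s + 1 + k).choose s : ℝ) ≤
        1 + (-(S_Ratio (k + 2) (fun i => (k : ℝ) + 2 * i) j) + ε) / ((s : ℝ) + 1) := by
    refine (Filter.eventually_all_finset (range (k + 3))).2 fun j hj => ?_
    rw [mem_range] at hj
    exact down_Ratio k j (by omega) ε hε
  obtain ⟨N, hN⟩ := Filter.eventually_atTop.1 (hu.and hd)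
  refine ⟨N + k + 2, fun s hs m hm => ?_⟩
  obtain ⟨hu, hd⟩ := hN s (by omega)
  have hp := pos_Ratio k s
  rcases Nat.lt_or_ge m s with hms | hms
  · obtain ⟨j, rfl⟩ : ∃ j, m = s - j := ⟨s - m, by omega⟩
    have hjs : j ≤ s ∨ s < j := le_or_gt j s
    have h1 : (∑ i ∈ Icc 1 (k + 2), if s + i ≤ s - j then ((k : ℝ) + 2 - 2 * i) else 0) = 0 := by
      refine sum_eq_zero fun i hi => ?_
      rw [mem_Icc] at hi
      rw [if_neg (by omega)]
    have h2 : ∃ j', j' ≤ k + 2 ∧ (2 * s + 1 + k).choose (s - j) ≤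
        (2 * s + 1 + k).choose (s - j') ∧
        (∑ i ∈ Icc 1 (k + 2), if s - j + i ≤ s then ((k : ℝ) + 2 * i) else 0) =
          S_Ratio (k + 2) (fun i => (k : ℝ) + 2 * i) j' := by
      rcases Nat.lt_or_ge (k + 2) j with hj | hj
      · refine ⟨k + 2, le_rfl, ?_, ?_⟩
        · have h3 := inc_Ratio (n := 2 * s + 1 + k) (m := s - (k + 2)) (by omega) (j - (k + 2))
          have h4 : s - (k + 2) - (j - (k + 2)) = s - j := by omega
          rwa [h4] at h3
        · unfold S_Ratio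
          refine sum_congr rfl fun i hi => ?_
          rw [mem_Icc] at hi
          rw [if_pos (by omega), if_pos hi.2]
      · refine ⟨j, hj, le_rfl, ?_⟩
        unfold S_Ratio
        refine sum_congr rfl fun i hi => ?_
        rw [mem_Icc] at hi
        by_cases h5 : i ≤ j
        · rw [if_pos h5, if_pos (by omega)]
        · rw [if_neg h5, if_neg (by omega)]
    obtain ⟨j', hj', h3, h4⟩ := h2
    rw [h1, h4, zero_sub]
    have h5 := hd j' (mem_range.2 (by omega))
    rw [div_le_iff₀ hp] at h5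
    refine le_trans ?_ (h5.trans_eq (mul_comm _ _))
    exact_mod_cast h3
  · obtain ⟨h, rfl⟩ := Nat.exists_eq_add_of_le hms
    have h1 : (∑ i ∈ Icc 1 (k + 2), if s + h + i ≤ s then ((k : ℝ) + 2 * i) else 0) = 0 := by
      refine sum_eq_zero fun i hi => ?_
      rw [mem_Icc] at hi
      rw [if_neg (by omega)]
    have h2 : ∃ h', h' ≤ k + 2 ∧ (2 * s + 1 + k).choose (s + h) ≤
        (2 * s + 1 + k).choose (s + h') ∧
        (∑ i ∈ Icc 1 (k + 2), if s + i ≤ s + h then ((k : ℝ) + 2 - 2 * i) else 0) =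
          S_Ratio (k + 2) (fun i => (k : ℝ) + 2 - 2 * i) h' := by
      rcases Nat.lt_or_ge (k + 2) h with hj | hj
      · refine ⟨k + 2, le_rfl, ?_, ?_⟩
        · exact dec_Ratio (n := 2 * s + 1 + k) (m := s + (k + 2)) (by omega) (s + h) (by omega)
        · unfold S_Ratio
          refine sum_congr rfl fun i hi => ?_
          rw [mem_Icc] at hi
          rw [if_pos (by omega), if_pos hi.2]
      · refine ⟨h, hj, le_rfl, ?_⟩
        unfold S_Ratio
        refine sum_congr rfl fun i hi => ?_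
        rw [mem_Icc] at hi
        by_cases h5 : i ≤ h
        · rw [if_pos h5, if_pos (by omega)]
        · rw [if_neg h5, if_neg (by omega)]
    obtain ⟨h', hh', h3, h4⟩ := h2
    rw [h1, h4, sub_zero]
    have h5 := hu h' (mem_range.2 (by omega))
    rw [div_le_iff₀ hp] at h5
    refine le_trans ?_ (h5.trans_eq (mul_comm _ _))
    exact_mod_cast h3

end Pool.Agent.OFK
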