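import Pool.Agent.OFK.Kap
import Pool.Agent.OFK.Pairs
import Pool.Agent.OFK.Ratio

/-! # OFK, package Account: the first order account (0.8 h)

`|F| = ∑_m pl F m * C(n,m)`. If `C(n,s) < |F|`, divide by `C(n,s)`, use `Ratio` (with `ε/4`), exchange
the sums (`∑_m pl F m [s+i ≤ m] = up F (s+i)`, `∑_m pl F m [m+i ≤ s] = dn F (s-i)` for `i ≤ s`;
`∑_m pl F m = 1 - miss F`, `0 ≤ miss F`):
`(s+1) miss ≤ ∑_{i=1}^{k+2} (k+2-2i) up(s+i) - ∑_{i=1}^{k+2} (k+2i) dn(s-i) + ε/4`.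
`Pairs` with `i+1` in place of `i`: `dn(s-i) ≥ up(s+i+1) - miss`, `i = 1, …, k+2`. So the right side is
`≤ k up(s+1) - ∑_{i=2}^{k+2} 4(i-1) up(s+i) + c miss + ε/4`, `c = ∑_{i=1}^{k+2} (k+2i)`.
With `up(s+1) ≤ 1/2`: `(s+1-c) miss ≤ k/2 + ε/4`, hence (for `ε ≤ 1` wlog, `s` large)
`(s+1) miss ≤ k+1`, and then `c miss ≤ c (k+1)/(s+1) ≤ ε/2` for `s` large. -/

set_option autoImplicit false

namespace Pool.Agent.OFK

open Finset

private theorem tele_Account (k : ℝ) (a : ℕ → ℝ) (ha : ∀ i, 0 ≤ a i) (K : ℕ) :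
    (∑ i ∈ range (K + 1), (k - 2 * i) * a (i + 1)) -
      (∑ i ∈ range (K + 1), (k + 2 * i + 2) * a (i + 2)) + (k + 2 * K + 2) * a (K + 2) ≤
      k * a 1 - 4 * ∑ i ∈ range K, a (i + 2) := by
  induction K with
  | zero => simp
  | succ K ih =>
    rw [sum_range_succ (fun i : ℕ => (k - 2 * i) * a (i + 1)) (K + 1),
      sum_range_succ (fun i : ℕ => (k + 2 * i + 2) * a (i + 2)) (K + 1),
      sum_range_succ (fun i : ℕ => a (i + 2)) K]
    push_cast
    have h1 := mul_nonneg (Nat.cast_nonneg (α := ℝ) K) (ha (K + 2))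
    linarith

private theorem icc_Account (f : ℕ → ℝ) (K : ℕ) :
    ∑ i ∈ Icc 1 K, f i = ∑ i ∈ range K, f (i + 1) := by
  rw [range_eq_Ico, Finset.sum_Ico_add' f 0 K 1]
  rfl

private theorem icc2_Account (f : ℕ → ℝ) (K : ℕ) :
    ∑ i ∈ Icc 2 (K + 1), f i = ∑ i ∈ range K, f (i + 2) := by
  rw [range_eq_Ico, Finset.sum_Ico_add' f 0 K 2]
  rfl

private theorem card_Account {n : ℕ} (F : Finset (Finset (Fin n))) :
    (F.card : ℝ) = ∑ m ∈ range (n + 1), pl F m * (n.choose m : ℝ) := by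
  have h1 : F.card = ∑ m ∈ range (n + 1), (F.filter fun A => A.card = m).card := by
    refine card_eq_sum_card_fiberwise ?_
    intro A _
    have := card_le_univ A
    rw [Fintype.card_fin] at this
    simpa using Nat.lt_succ_of_le this
  rw [h1]
  push_cast
  refine sum_congr rfl fun m hm => ?_
  have h2 : (n.choose m : ℝ) ≠ 0 := by
    have : 0 < n.choose m := Nat.choose_pos (Nat.lt_succ_iff.1 (mem_range.1 hm))
    positivity
  unfold pl
  field_simp

private theorem swap_Account {n : ℕ} (F : Finset (Finset (Fin n))) (k s K : ℕ) (hK : K ≤ s) :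
    ∑ m ∈ range (n + 1), pl F m *
      ((∑ i ∈ Icc 1 K, if s + i ≤ m then ((k : ℝ) + 2 - 2 * i) else 0)
        - (∑ i ∈ Icc 1 K, if m + i ≤ s then ((k : ℝ) + 2 * i) else 0)) =
    (∑ i ∈ Icc 1 K, ((k : ℝ) + 2 - 2 * i) * up F (s + i)) -
      ∑ i ∈ Icc 1 K, ((k : ℝ) + 2 * i) * dn F (s - i) := by
  simp only [mul_sub, sum_sub_distrib, mul_sum]
  congr 1
  · rw [sum_comm]
    refine sum_congr rfl fun i _ => ?_
    unfold up
    rw [sum_filter, mul_sum]
    refine sum_congr rfl fun m _ => ?_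
    split_ifs
    · ring
    · simp
  · rw [sum_comm]
    refine sum_congr rfl fun i hi => ?_
    have hi' : i ≤ s := (mem_Icc.1 hi).2.trans hK
    unfold dn
    rw [sum_filter, mul_sum]
    refine sum_congr rfl fun m _ => ?_
    by_cases h : m + i ≤ s
    · rw [if_pos h, if_pos (show m ≤ s - i by omega)]
      ring
    · rw [if_neg h, if_neg (show ¬ m ≤ s - i by omega)]
      simp

theorem account (k : ℕ) (hk : 1 ≤ k) (ε : ℝ) (hε : 0 < ε) : ∃ N : ℕ, ∀ s n : ℕ, N ≤ s →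
    n = 2 * s + 1 + k → ∀ F : Finset (Finset (Fin n)),
    IsAntichain (· ⊆ ·) (F : Set (Finset (Fin n))) →
    (∀ A ∈ F, ∀ B ∈ F, A ∪ B ≠ univ) →
    (∀ A ∈ F, ∀ B ∈ F, Disjoint A B → A.card + B.card ≤ 2 * s + 1) →
    n.choose s < F.card →
    ((s : ℝ) + 1) * miss F ≤ k + 1 ∧
    ((s : ℝ) + 1) * miss F ≤ k * up F (s + 1) - 4 * ∑ i ∈ Icc 2 (k + 1), up F (s + i) + ε := by
  classical
  have hmin : 0 < min ε 1 := lt_min hε one_pos
  have hm1 : min ε 1 ≤ 1 := min_le_right _ _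
  have hm2 : min ε 1 ≤ ε := min_le_left _ _
  obtain ⟨N1, hN1⟩ := ratio k (min ε 1 / 4) (by positivity)
  obtain ⟨c, hc⟩ : ∃ c : ℝ, c = ∑ i ∈ Icc 1 (k + 2), ((k : ℝ) + 2 * i) := ⟨_, rfl⟩
  have hc0 : 0 ≤ c := by
    rw [hc]
    exact sum_nonneg fun i _ => by positivity
  obtain ⟨N2, hN2⟩ := exists_nat_ge (4 * c)
  obtain ⟨N3, hN3⟩ := exists_nat_ge (2 * c * (k + 1) / min ε 1)
  refine ⟨max (max N1 (k + 3)) (max N2 N3), ?_⟩
  intro s n hs hn F hF hcov hd hlt
  have hs1 : N1 ≤ s := (le_max_left _ _).trans ((le_max_left _ _).trans hs)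
  have hs2 : k + 3 ≤ s := (le_max_right _ _).trans ((le_max_left _ _).trans hs)
  have hs3 : (N2 : ℝ) ≤ s := by
    exact_mod_cast (le_max_left _ _).trans ((le_max_right _ _).trans hs)
  have hs4 : (N3 : ℝ) ≤ s := by
    exact_mod_cast (le_max_right _ _).trans ((le_max_right _ _).trans hs)
  have hspos : (0 : ℝ) < s + 1 := by positivity
  have hpl : ∀ m, 0 ≤ pl F m := fun m => by
    unfold pl
    positivity
  have hup : ∀ t, 0 ≤ up F t := fun t => sum_nonneg fun m _ => hpl m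
  have hmiss : 0 ≤ miss F := miss_nonneg F hF
  have hCs : (0 : ℝ) < (n.choose s : ℝ) := by
    exact_mod_cast Nat.choose_pos (by omega)
  -- the account
  have h1 : (n.choose s : ℝ) < ∑ m ∈ range (n + 1), pl F m * (n.choose m : ℝ) := by
    rw [← card_Account]
    exact_mod_cast hlt
  obtain ⟨Φ, hΦ⟩ : ∃ Φ : ℕ → ℝ, Φ = fun m =>
      ((∑ i ∈ Icc 1 (k + 2), if s + i ≤ m then ((k : ℝ) + 2 - 2 * i) else 0)
        - (∑ i ∈ Icc 1 (k + 2), if m + i ≤ s then ((k : ℝ) + 2 * i) else 0)) := ⟨_, rfl⟩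
  have h2 : ∑ m ∈ range (n + 1), pl F m * (n.choose m : ℝ) ≤
      ∑ m ∈ range (n + 1), pl F m * ((n.choose s : ℝ) * (1 + (Φ m + min ε 1 / 4) / (s + 1))) := by
    refine sum_le_sum fun m hm => mul_le_mul_of_nonneg_left ?_ (hpl m)
    have hm' : m ≤ 2 * s + 1 + k := by
      have := Nat.lt_succ_iff.1 (mem_range.1 hm)
      omega
    have h3 := hN1 s hs1 m hm'
    rw [hΦ, hn]
    exact h3
  have h3 : ∑ m ∈ range (n + 1), pl F m * ((n.choose s : ℝ) *
      (1 + (Φ m + min ε 1 / 4) / (s + 1))) =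
      (n.choose s : ℝ) * ((1 - miss F) + ((∑ m ∈ range (n + 1), pl F m * Φ m) +
        min ε 1 / 4 * (1 - miss F)) / (s + 1)) := by
    have e : 1 - miss F = ∑ m ∈ range (n + 1), pl F m := by
      unfold miss
      ring
    rw [e, mul_sum, ← sum_add_distrib, sum_div, ← sum_add_distrib, mul_sum]
    refine sum_congr rfl fun m _ => ?_
    ring
  have h4 : (1 : ℝ) < (1 - miss F) + ((∑ m ∈ range (n + 1), pl F m * Φ m) +
        min ε 1 / 4 * (1 - miss F)) / (s + 1) := by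
    have := h1.trans_le (h2.trans h3.le)
    nlinarith
  have h5 : (s + 1) * miss F < (∑ m ∈ range (n + 1), pl F m * Φ m) +
      min ε 1 / 4 * (1 - miss F) := by
    have h6 : miss F < ((∑ m ∈ range (n + 1), pl F m * Φ m) +
        min ε 1 / 4 * (1 - miss F)) / (s + 1) := by linarith
    rw [lt_div_iff₀ hspos] at h6
    linarith
  have h6 : ∑ m ∈ range (n + 1), pl F m * Φ m =
      (∑ i ∈ Icc 1 (k + 2), ((k : ℝ) + 2 - 2 * i) * up F (s + i)) -
      ∑ i ∈ Icc 1 (k + 2), ((k : ℝ) + 2 * i) * dn F (s - i) := by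
    rw [hΦ]
    exact swap_Account F k s (k + 2) (by omega)
  -- chain pairs
  have h7 : ∀ i ∈ Icc 1 (k + 2), ((k : ℝ) + 2 * i) * up F (s + i + 1) - ((k : ℝ) + 2 * i) * miss F ≤
      ((k : ℝ) + 2 * i) * dn F (s - i) := by
    intro i hi
    rw [mem_Icc] at hi
    have h8 := up_le_dn s F hF hcov hd (i + 1) (by omega) (by omega)
    have e1 : s + 1 - (i + 1) = s - i := by omega
    rw [e1, ← add_assoc] at h8
    have h9 : (0 : ℝ) ≤ (k : ℝ) + 2 * i := by positivity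
    nlinarith
  have h8 := sum_le_sum h7
  rw [sum_sub_distrib, ← sum_mul, ← hc] at h8
  -- the telescope
  have h9 := tele_Account k (fun i => up F (s + i)) (fun i => hup _) (k + 1)
  have e2 : ∑ i ∈ Icc 1 (k + 2), ((k : ℝ) + 2 - 2 * i) * up F (s + i) =
      ∑ i ∈ range (k + 1 + 1), ((k : ℝ) - 2 * i) * up F (s + (i + 1)) := by
    rw [icc_Account]
    refine sum_congr rfl fun i _ => ?_
    push_cast
    ring
  have e3 : ∑ i ∈ Icc 1 (k + 2), ((k : ℝ) + 2 * i) * up F (s + i + 1) =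
      ∑ i ∈ range (k + 1 + 1), ((k : ℝ) + 2 * i + 2) * up F (s + (i + 2)) := by
    rw [icc_Account]
    refine sum_congr rfl fun i _ => ?_
    push_cast
    rw [show s + (i + 1) + 1 = s + (i + 2) by ring]
    ring
  have e4 : ∑ i ∈ Icc 2 (k + 1), up F (s + i) = ∑ i ∈ range k, up F (s + (i + 2)) :=
    icc2_Account (fun i => up F (s + i)) k
  have h10 : ∑ i ∈ range k, up F (s + (i + 2)) ≤ ∑ i ∈ range (k + 1), up F (s + (i + 2)) := by
    rw [sum_range_succ]
    have := hup (s + (k + 2))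
    linarith
  have h11 : (0 : ℝ) ≤ ((k : ℝ) + 2 * ((k + 1 : ℕ) : ℝ) + 2) * up F (s + (k + 1 + 2)) :=
    mul_nonneg (by positivity) (hup _)
  rw [h6, e2] at h5
  rw [e3] at h8
  have h12 : (s + 1) * miss F ≤ k * up F (s + 1) - 4 * ∑ i ∈ Icc 2 (k + 1), up F (s + i) +
      c * miss F + min ε 1 / 4 := by
    rw [e4]
    have h13 : min ε 1 / 4 * (1 - miss F) ≤ min ε 1 / 4 := by nlinarith
    linarith
  have hhalf := up_half s F hF hcov hd
  have hsum : 0 ≤ ∑ i ∈ Icc 2 (k + 1), up F (s + i) := sum_nonneg fun i _ => hup _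
  have hk0 : (0 : ℝ) ≤ k := Nat.cast_nonneg k
  have h14 : (s + 1) * miss F ≤ k / 2 + c * miss F + 1 / 4 := by nlinarith
  have h15 : ((s : ℝ) + 1) * miss F ≤ k + 1 := by
    have h16 : c * miss F ≤ (s + 1) * miss F / 4 := by nlinarith
    linarith
  refine ⟨h15, ?_⟩
  have h16 : c * miss F ≤ min ε 1 / 2 := by
    have h17 : 2 * c * (k + 1) ≤ s * min ε 1 := by
      have := hN3.trans hs4
      rwa [div_le_iff₀ hmin] at this
    have h18 : c * ((s + 1) * miss F) ≤ c * (k + 1) := mul_le_mul_of_nonneg_left h15 hc0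
    have h19 : (s + 1) * (c * miss F) ≤ (s + 1) * (min ε 1 / 2) := by nlinarith
    exact le_of_mul_le_mul_left h19 hspos
  linarith

end Pool.Agent.OFK
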