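import Mathlib

/-! # OFK, package BinA: the law of the trace on a bounded set, levels near the middle (0.8 h)

`C(n-j, m-c)/C(n,m) = [m]_c [n-m]_{j-c} / [n]_j` (falling factorials), and for `n = 2s+1+k`,
`s ≤ m ≤ s+k+2`, `c ≤ j` fixed it tends to `2^{-j}`, uniformly. -/

set_option autoImplicit false

namespace Pool.Agent.OFK

open Finset

private def P_BinA (k j c : ℕ) : Prop :=
  ∀ ε : ℝ, 0 < ε → ∃ N : ℕ, ∀ s : ℕ, N ≤ s → ∀ m : ℕ, s ≤ m → m ≤ s + k + 2 →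
    (1 - ε) * ((2 * s + 1 + k).choose m : ℝ) ≤
      2 ^ j * ((2 * s + 1 + k - j).choose (m - c) : ℝ) ∧
    2 ^ j * ((2 * s + 1 + k - j).choose (m - c) : ℝ) ≤
      (1 + ε) * ((2 * s + 1 + k).choose m : ℝ)

private theorem mul_BinA {e x y X r : ℝ} (he : 0 < e) (he1 : e ≤ 1) (hX : 0 ≤ X)
    (h1 : (1 - e) * X ≤ x) (h2 : x ≤ (1 + e) * X) (h3 : 1 - e ≤ r) (h4 : r ≤ 1 + e)
    (hy : y = r * x) : (1 - 3 * e) * X ≤ y ∧ y ≤ (1 + 3 * e) * X := by
  subst hy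
  have hx : 0 ≤ x := le_trans (mul_nonneg (by linarith) hX) h1
  have h5 : 0 ≤ e * X := mul_nonneg he.le hX
  have h6 : 0 ≤ e * e * X := mul_nonneg (mul_nonneg he.le he.le) hX
  have h7 : e * e * X ≤ e * 1 * X :=
    mul_le_mul_of_nonneg_right (mul_le_mul_of_nonneg_left he1 he.le) hX
  constructor
  · have h8 : (1 - 3 * e) * X ≤ (1 - e) * ((1 - e) * X) := by nlinarith
    have h9 : (1 - e) * ((1 - e) * X) ≤ (1 - e) * x :=
      mul_le_mul_of_nonneg_left h1 (by linarith)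
    exact h8.trans (h9.trans (mul_le_mul_of_nonneg_right h3 hx))
  · have h8 : (1 + e) * ((1 + e) * X) ≤ (1 + 3 * e) * X := by nlinarith
    have h9 : (1 + e) * x ≤ (1 + e) * ((1 + e) * X) :=
      mul_le_mul_of_nonneg_left h2 (by linarith)
    exact (mul_le_mul_of_nonneg_right h4 hx).trans (h9.trans h8)

/-- common part of the two steps: `y = r x`, `a r = 2 q`, `|a - 2 q| ≤ B`, `B ≤ e a`. -/
private theorem ratio_BinA {a q e B : ℝ} (ha : 0 < a) (h1 : |a - 2 * q| ≤ B) (h2 : B ≤ e * a) :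
    1 - e ≤ 2 * q / a ∧ 2 * q / a ≤ 1 + e := by
  obtain ⟨h3, h4⟩ := abs_le.1 h1
  constructor
  · rw [le_div_iff₀ ha]; nlinarith
  · rw [div_le_iff₀ ha]; nlinarith

private theorem step_BinA (k j c c' : ℕ) (hc : c ≤ j) (hc' : c' = c ∨ c' = c + 1)
    (h : P_BinA k j c) : P_BinA k (j + 1) c' := by
  intro ε hε
  set e : ℝ := min (ε / 3) 1 with he
  have he0 : 0 < e := lt_min (by linarith) one_pos
  have he1 : e ≤ 1 := min_le_right _ _
  have he3 : 3 * e ≤ ε := by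
    have := min_le_left (ε / 3) 1
    rw [← he] at this
    linarith
  obtain ⟨N, hN⟩ := h e he0
  obtain ⟨N', hN'⟩ := exists_nat_gt ((3 * k + 3 * j + 10 : ℝ) / e)
  refine ⟨N + N' + j + 2, fun s hs m hm1 hm2 => ?_⟩
  obtain ⟨h1, h2⟩ := hN s (by omega) m hm1 hm2
  set n := 2 * s + 1 + k with hn
  -- a = n - j, b = m - c
  obtain ⟨a, ha⟩ : ∃ a, n - j = a + 1 := ⟨n - j - 1, by omega⟩
  obtain ⟨b, hb⟩ : ∃ b, m - c = b + 1 := ⟨m - c - 1, by omega⟩
  have haN : (n : ℤ) = a + 1 + j := by omega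
  have hbN : (m : ℤ) = b + 1 + c := by omega
  have hba : b ≤ a := by omega
  have hX : (0 : ℝ) ≤ (n.choose m : ℝ) := Nat.cast_nonneg _
  have haR : (n : ℝ) = a + 1 + j := by exact_mod_cast haN
  have hbR : (m : ℝ) = b + 1 + c := by exact_mod_cast hbN
  have hnR : (n : ℝ) = 2 * s + 1 + k := by rw [hn]; push_cast; ring
  have ha0 : (0 : ℝ) < (a : ℝ) + 1 := by positivity
  have hm1R : (s : ℝ) ≤ m := by exact_mod_cast hm1
  have hm2R : (m : ℝ) ≤ s + k + 2 := by exact_mod_cast hm2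
  have hcR : (c : ℝ) ≤ j := by exact_mod_cast hc
  have hc0 : (0 : ℝ) ≤ c := Nat.cast_nonneg _
  have hk0 : (0 : ℝ) ≤ k := Nat.cast_nonneg _
  have hj0 : (0 : ℝ) ≤ j := Nat.cast_nonneg _
  have hbig : (3 * k + 3 * j + 10 : ℝ) ≤ e * ((a : ℝ) + 1) := by
    have h3 : (3 * k + 3 * j + 10 : ℝ) < N' * e := (div_lt_iff₀ he0).1 hN'
    have h4 : (N' : ℝ) ≤ (a : ℝ) + 1 := by
      have : N' ≤ a + 1 := by omega
      exact_mod_cast this
    nlinarith
  rw [ha, hb] at h1 h2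
  have hsub : n - (j + 1) = a := by omega
  rw [hsub]
  have fin : ∀ q : ℝ, |(a : ℝ) + 1 - 2 * q| ≤ 3 * k + 3 * j + 10 →
      (2 : ℝ) ^ (j + 1) * ((a.choose (m - c') : ℕ) : ℝ) =
        2 * q / ((a : ℝ) + 1) * (2 ^ j * (((a + 1).choose (b + 1) : ℕ) : ℝ)) →
      (1 - ε) * (n.choose m : ℝ) ≤ 2 ^ (j + 1) * ((a.choose (m - c') : ℕ) : ℝ) ∧
      2 ^ (j + 1) * ((a.choose (m - c') : ℕ) : ℝ) ≤ (1 + ε) * (n.choose m : ℝ) := by
    intro q hq hy
    obtain ⟨h5, h6⟩ := ratio_BinA ha0 hq hbig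
    obtain ⟨h7, h8⟩ := mul_BinA he0 he1 hX h1 h2 h5 h6 hy
    constructor
    · refine le_trans ?_ h7
      exact mul_le_mul_of_nonneg_right (by linarith) hX
    · refine le_trans h8 ?_
      exact mul_le_mul_of_nonneg_right (by linarith) hX
  rcases hc' with rfl | rfl
  · -- C(a, b+1) = (a - b)/(a+1) C(a+1, b+1)
    rw [hb] at fin ⊢
    refine fin ((a : ℝ) - b) ?_ ?_
    · rw [abs_le]
      constructor <;> nlinarith
    · have h3 : (a + 1).choose (b + 1) * (a + 1 - (b + 1)) = (a + 1) * a.choose (b + 1) := by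
        have := Nat.choose_mul_succ_eq a (b + 1)
        rw [← this]; ring
      have h4 : (((a + 1).choose (b + 1) : ℕ) : ℝ) * ((a : ℝ) - b) =
          ((a : ℝ) + 1) * ((a.choose (b + 1) : ℕ) : ℝ) := by
        have h5 : a + 1 - (b + 1) = a - b := by omega
        rw [h5] at h3
        have h6 := congrArg (Nat.cast : ℕ → ℝ) h3
        rw [Nat.cast_mul, Nat.cast_mul, Nat.cast_sub hba] at h6
        push_cast at h6 ⊢
        exact h6
      rw [div_mul_eq_mul_div, eq_div_iff ha0.ne', pow_succ]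
      linear_combination (-(2 : ℝ) ^ j * 2) * h4
  · have hm' : m - (c + 1) = b := by omega
    rw [hm']
    rw [hm'] at fin
    refine fin ((b : ℝ) + 1) ?_ ?_
    · rw [abs_le]
      constructor <;> nlinarith
    · have h3 : (a + 1) * a.choose b = (a + 1).choose (b + 1) * (b + 1) :=
        Nat.add_one_mul_choose_eq a b
      have h4 : ((a : ℝ) + 1) * ((a.choose b : ℕ) : ℝ) =
          (((a + 1).choose (b + 1) : ℕ) : ℝ) * ((b : ℝ) + 1) := by
        exact_mod_cast h3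
      rw [div_mul_eq_mul_div, eq_div_iff ha0.ne', pow_succ]
      linear_combination ((2 : ℝ) ^ j * 2) * h4

private theorem all_BinA (k j : ℕ) : ∀ c ≤ j, P_BinA k j c := by
  induction j with
  | zero =>
    intro c hc ε hε
    obtain rfl : c = 0 := by omega
    refine ⟨0, fun s _ m _ _ => ?_⟩
    have hX : (0 : ℝ) ≤ ((2 * s + 1 + k).choose m : ℝ) := Nat.cast_nonneg _
    simp only [Nat.sub_zero, pow_zero, one_mul]
    constructor <;> nlinarith
  | succ j ih =>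
    intro c hc
    rcases Nat.eq_zero_or_pos c with rfl | h0
    · exact step_BinA k j 0 0 (Nat.zero_le _) (Or.inl rfl) (ih 0 (Nat.zero_le _))
    · obtain ⟨c, rfl⟩ : ∃ c', c = c' + 1 := ⟨c - 1, by omega⟩
      exact step_BinA k j c (c + 1) (by omega) (Or.inr rfl) (ih c (by omega))

theorem binA (j k : ℕ) (ε : ℝ) (hε : 0 < ε) : ∃ N : ℕ, ∀ s : ℕ, N ≤ s → ∀ m : ℕ,
    s ≤ m → m ≤ s + k + 2 → ∀ c ≤ j,
    (1 - ε) * ((2 * s + 1 + k).choose m : ℝ) ≤
      2 ^ j * ((2 * s + 1 + k - j).choose (m - c) : ℝ) ∧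
    2 ^ j * ((2 * s + 1 + k - j).choose (m - c) : ℝ) ≤
      (1 + ε) * ((2 * s + 1 + k).choose m : ℝ) := by
  classical
  have h : ∀ c : ℕ, ∃ N : ℕ, c ≤ j → ∀ s : ℕ, N ≤ s → ∀ m : ℕ, s ≤ m → m ≤ s + k + 2 →
      (1 - ε) * ((2 * s + 1 + k).choose m : ℝ) ≤
        2 ^ j * ((2 * s + 1 + k - j).choose (m - c) : ℝ) ∧
      2 ^ j * ((2 * s + 1 + k - j).choose (m - c) : ℝ) ≤
        (1 + ε) * ((2 * s + 1 + k).choose m : ℝ) := by
    intro c
    by_cases hc : c ≤ j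
    · obtain ⟨N, hN⟩ := all_BinA k j c hc ε hε
      exact ⟨N, fun _ => hN⟩
    · exact ⟨0, fun h => absurd h hc⟩
  choose N hN using h
  refine ⟨∑ c ∈ range (j + 1), N c, fun s hs m h1 h2 c hc => ?_⟩
  refine hN c hc s (le_trans ?_ hs) m h1 h2
  exact single_le_sum (f := N) (fun i _ => Nat.zero_le _) (mem_range.2 (by omega))

/-- the constant used for the excess over a pattern -/
theorem binA' (j k : ℕ) : ∃ N : ℕ, ∀ s : ℕ, N ≤ s → ∀ m : ℕ,
    s ≤ m → m ≤ s + k + 2 → ∀ c ≤ j,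
    ((2 * s + 1 + k).choose m : ℝ) * (((2 * s + 1 + k : ℕ) : ℝ) - m) ≤
      2 ^ (j + 1) * (((2 * s + 1 + k - j).choose (m - c) : ℝ) *
        (((2 * s + 1 + k : ℕ) : ℝ) - j - (m - c))) := by
  obtain ⟨N, hN⟩ := binA j k (1 / 4) (by norm_num)
  refine ⟨N + 3 * j + 1, fun s hs m h1 h2 c hc => ?_⟩
  obtain ⟨h3, -⟩ := hN s (by omega) m h1 h2 c hc
  have hX : (0 : ℝ) ≤ ((2 * s + 1 + k).choose m : ℝ) := Nat.cast_nonneg _
  set X : ℝ := ((2 * s + 1 + k).choose m : ℝ)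
  set Y : ℝ := ((2 * s + 1 + k - j).choose (m - c) : ℝ)
  have hs' : (3 * j + 1 : ℝ) ≤ s := by
    have : 3 * j + 1 ≤ s := by omega
    exact_mod_cast this
  have h2' : (m : ℝ) ≤ s + k + 2 := by exact_mod_cast h2
  have hc' : (c : ℝ) ≤ j := by exact_mod_cast hc
  have hc0 : (0 : ℝ) ≤ c := Nat.cast_nonneg _
  have hj0 : (0 : ℝ) ≤ j := Nat.cast_nonneg _
  push_cast
  have h4 : (0 : ℝ) ≤ 2 * (s : ℝ) + 1 + k - j - (m - c) := by linarith
  have h5 : X * (2 * (s : ℝ) + 1 + k - m) ≤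
      X * (3 / 2 * (2 * (s : ℝ) + 1 + k - j - (m - c))) :=
    mul_le_mul_of_nonneg_left (by linarith) hX
  refine le_trans h5 ?_
  have h6 : (1 - 1 / 4) * X * (2 * (s : ℝ) + 1 + k - j - (m - c)) ≤
      2 ^ j * Y * (2 * (s : ℝ) + 1 + k - j - (m - c)) := mul_le_mul_of_nonneg_right h3 h4
  rw [pow_succ]
  nlinarith

end Pool.Agent.OFK
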