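import Mathlib

/-! # OFK, package BinW: the law of the trace in the window `|ℓ - n/2| ≤ M √n` (0.8 h)

`C(n-j,ℓ-c)(n-j-(ℓ-c)) / (C(n,ℓ)(n-ℓ)) = [ℓ]_c [n-ℓ-1]_{j-c} / [n]_j` tends to `2^{-j}` uniformly for
`|ℓ - n/2| ≤ M √n`, so it is `≥ 2^{-j-1}` for large `n`. (E.g. every factor `(ℓ-c)/n`, `(n-ℓ-j)/n` is
`≥ (1-δ)/2` for large `n`, and `(1-δ)^j ≥ 1/2`.) -/

set_option autoImplicit false

namespace Pool.Agent.OFK

open Finset

private noncomputable def a_BinW (n l : ℕ) : ℝ := (n.choose l : ℝ) * ((n : ℝ) - l)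

private theorem one_BinW (m k : ℕ) :
    a_BinW m k * ((m : ℝ) + 1) = ((k : ℝ) + 1) * a_BinW (m + 1) (k + 1) := by
  have h : ((m : ℝ) + 1) * (m.choose k : ℝ) = ((m + 1).choose (k + 1) : ℝ) * ((k : ℝ) + 1) := by
    exact_mod_cast Nat.add_one_mul_choose_eq m k
  simp only [a_BinW]
  push_cast
  linear_combination ((m : ℝ) - k) * h

private theorem two_BinW {m l : ℕ} (hl : l ≤ m + 1) :
    a_BinW m l * ((m : ℝ) + 1) = ((m : ℝ) - l) * a_BinW (m + 1) l := by
  have h : (m.choose l : ℝ) * ((m : ℝ) + 1) = ((m + 1).choose l : ℝ) * ((m : ℝ) + 1 - l) := by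
    have h1 := Nat.choose_mul_succ_eq m l
    have h2 : ((m.choose l * (m + 1) : ℕ) : ℝ) = (((m + 1).choose l * (m + 1 - l) : ℕ) : ℝ) := by
      rw [h1]
    rw [Nat.cast_mul, Nat.cast_mul, Nat.cast_sub hl] at h2
    push_cast at h2
    exact h2
  simp only [a_BinW]
  push_cast
  linear_combination ((m : ℝ) - l) * h

private theorem a_nonneg_BinW {n l : ℕ} (h : l ≤ n) : 0 ≤ a_BinW n l := by
  unfold a_BinW
  have : (l : ℝ) ≤ n := by exact_mod_cast h
  exact mul_nonneg (Nat.cast_nonneg _) (sub_nonneg.2 this)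

private theorem step_BinW {n l j : ℕ} {q : ℝ} (hq : 0 < q) (hn : 0 < n)
    (h1 : q * n ≤ (l : ℝ) - j) (h2 : q * n ≤ (n : ℝ) - l - j) (i : ℕ) (hi : i ≤ j) :
    ∀ c ≤ i, a_BinW n l * q ^ i ≤ a_BinW (n - i) (l - c) := by
  have hqn : 0 < q * n := mul_pos hq (by exact_mod_cast hn)
  have hjl : j < l := by
    have : (j : ℝ) < l := by linarith
    exact_mod_cast this
  have hjn : l + j < n := by
    have : (l : ℝ) + j < n := by linarith
    exact_mod_cast this
  induction i with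
  | zero =>
    intro c hc
    rw [Nat.le_zero.1 hc, pow_zero, mul_one, Nat.sub_zero, Nat.sub_zero]
  | succ i ih =>
    intro c hc
    have ih' := ih (by omega)
    obtain ⟨m, hm⟩ : ∃ m, n - i = m + 1 := ⟨n - i - 1, by omega⟩
    have hm' : n - (i + 1) = m := by omega
    have hmn : (m : ℝ) + 1 ≤ n := by
      have : m + 1 ≤ n := by omega
      exact_mod_cast this
    have hm0 : (0 : ℝ) < (m : ℝ) + 1 := by positivity
    rw [hm']
    by_cases hci : c ≤ i
    · have h3 := ih' c hci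
      rw [hm] at h3
      have h4 := two_BinW (m := m) (l := l - c) (by omega)
      have hcast : ((l - c : ℕ) : ℝ) = (l : ℝ) - c := Nat.cast_sub (by omega)
      have h5 : q * ((m : ℝ) + 1) ≤ (m : ℝ) - ((l - c : ℕ) : ℝ) := by
        have h6 : (m : ℝ) = n - (i + 1) := by
          have : ((n - (i + 1) : ℕ) : ℝ) = (n : ℝ) - ((i + 1 : ℕ) : ℝ) := Nat.cast_sub (by omega)
          rw [← hm', this]
          push_cast
          ring
        have h7 : (i : ℝ) + 1 ≤ j := by exact_mod_cast hi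
        have h8 : (0 : ℝ) ≤ c := Nat.cast_nonneg c
        have h9 : q * ((m : ℝ) + 1) ≤ q * n := mul_le_mul_of_nonneg_left hmn hq.le
        rw [hcast]
        linarith
      have h10 : 0 ≤ a_BinW (m + 1) (l - c) := a_nonneg_BinW (by omega)
      have h11 : q * ((m : ℝ) + 1) * a_BinW (m + 1) (l - c) ≤
          a_BinW m (l - c) * ((m : ℝ) + 1) := by
        rw [h4]
        exact mul_le_mul_of_nonneg_right h5 h10
      have h12 : q * a_BinW (m + 1) (l - c) ≤ a_BinW m (l - c) := by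
        refine le_of_mul_le_mul_right ?_ hm0
        linarith
      calc a_BinW n l * q ^ (i + 1) = q * (a_BinW n l * q ^ i) := by ring
        _ ≤ q * a_BinW (m + 1) (l - c) := mul_le_mul_of_nonneg_left h3 hq.le
        _ ≤ a_BinW m (l - c) := h12
    · have hc' : c = i + 1 := by omega
      subst hc'
      have h3 := ih' i le_rfl
      rw [hm] at h3
      obtain ⟨k, hk⟩ : ∃ k, l - i = k + 1 := ⟨l - i - 1, by omega⟩
      have hk' : l - (i + 1) = k := by omega
      rw [hk] at h3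
      rw [hk']
      have h4 := one_BinW m k
      have h5 : q * ((m : ℝ) + 1) ≤ (k : ℝ) + 1 := by
        have h6 : (k : ℝ) + 1 = l - i := by
          have : ((l - i : ℕ) : ℝ) = (l : ℝ) - i := Nat.cast_sub (by omega)
          rw [← this, hk]
          push_cast
          ring
        have h7 : (i : ℝ) + 1 ≤ j := by exact_mod_cast hi
        have h9 : q * ((m : ℝ) + 1) ≤ q * n := mul_le_mul_of_nonneg_left hmn hq.le
        rw [h6]
        linarith
      have h10 : 0 ≤ a_BinW (m + 1) (k + 1) := a_nonneg_BinW (by omega)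
      have h11 : q * ((m : ℝ) + 1) * a_BinW (m + 1) (k + 1) ≤ a_BinW m k * ((m : ℝ) + 1) := by
        rw [h4]
        exact mul_le_mul_of_nonneg_right h5 h10
      have h12 : q * a_BinW (m + 1) (k + 1) ≤ a_BinW m k := by
        refine le_of_mul_le_mul_right ?_ hm0
        linarith
      calc a_BinW n l * q ^ (i + 1) = q * (a_BinW n l * q ^ i) := by ring
        _ ≤ q * a_BinW (m + 1) (k + 1) := mul_le_mul_of_nonneg_left h3 hq.le
        _ ≤ a_BinW m k := h12

theorem binW (j k : ℕ) (M : ℝ) : ∃ N : ℕ, ∀ r n : ℕ, N ≤ r → n = 2 * r + 1 + k → ∀ l : ℕ,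
    |(n : ℝ) - 2 * l| ≤ M * Real.sqrt n → ∀ c ≤ j,
    c ≤ l ∧ l - c < n - j ∧
    (n.choose l : ℝ) * ((n : ℝ) - l) ≤
      2 ^ (j + 1) * (((n - j).choose (l - c) : ℝ) * ((n : ℝ) - j - (l - c))) := by
  set δ : ℝ := 1 / (2 * j + 2) with hδ
  have hj0 : (0 : ℝ) ≤ j := Nat.cast_nonneg j
  have hδ0 : 0 < δ := by positivity
  have hδj : j * δ ≤ 1 / 2 := by
    rw [hδ, mul_one_div, div_le_div_iff₀ (by positivity) (by norm_num)]
    linarith
  have hδ1 : δ ≤ 1 / 2 := by
    rw [hδ]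
    exact one_div_le_one_div_of_le (by norm_num) (by linarith)
  set S : ℝ := (|M| + 2 * j) / δ with hS
  have hS0 : 0 ≤ S := by positivity
  refine ⟨⌈S ^ 2⌉₊ + 1, fun r n hr hn l hl c hc => ?_⟩
  have hn1 : 1 ≤ n := by omega
  have hn1' : (1 : ℝ) ≤ n := by exact_mod_cast hn1
  have hSn : S ^ 2 ≤ n := by
    refine (Nat.le_ceil _).trans ?_
    have : ⌈S ^ 2⌉₊ ≤ n := by omega
    exact_mod_cast this
  have hs : S ≤ Real.sqrt n := Real.le_sqrt_of_sq_le hSn
  have hs1 : 1 ≤ Real.sqrt n := Real.one_le_sqrt.2 hn1'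
  have hsq : Real.sqrt n * Real.sqrt n = n := Real.mul_self_sqrt (by linarith)
  have hM : M * Real.sqrt n + 2 * j ≤ δ * n := by
    have h1 : (|M| + 2 * j) ≤ δ * Real.sqrt n := by
      have h2 : S * δ = |M| + 2 * j := by
        rw [hS]
        field_simp
      rw [← h2, mul_comm]
      exact mul_le_mul_of_nonneg_left hs hδ0.le
    have h3 : (|M| + 2 * j) * Real.sqrt n ≤ δ * n := by
      calc (|M| + 2 * j) * Real.sqrt n ≤ δ * Real.sqrt n * Real.sqrt n :=
            mul_le_mul_of_nonneg_right h1 (by linarith)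
        _ = δ * n := by rw [mul_assoc, hsq]
    have h4 : M * Real.sqrt n ≤ |M| * Real.sqrt n :=
      mul_le_mul_of_nonneg_right (le_abs_self M) (by linarith)
    nlinarith
  obtain ⟨q, hq⟩ : ∃ q, q = (1 - δ) / 2 := ⟨_, rfl⟩
  have hq0 : 0 < q := by rw [hq]; linarith
  obtain ⟨hl1, hl2⟩ := abs_le.1 hl
  have h1 : q * n ≤ (l : ℝ) - j := by rw [hq]; linarith
  have h2 : q * n ≤ (n : ℝ) - l - j := by rw [hq]; linarith
  have hqn : 0 < q * n := mul_pos hq0 (by linarith)
  have hjl : j < l := by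
    have : (j : ℝ) < l := by linarith
    exact_mod_cast this
  have hjn : l + j < n := by
    have : (l : ℝ) + j < n := by linarith
    exact_mod_cast this
  refine ⟨by omega, by omega, ?_⟩
  have h3 := step_BinW hq0 (by omega) h1 h2 j le_rfl c hc
  have h4 : a_BinW (n - j) (l - c) =
      (((n - j).choose (l - c) : ℝ) * ((n : ℝ) - j - (l - c))) := by
    unfold a_BinW
    rw [Nat.cast_sub (by omega : j ≤ n), Nat.cast_sub (by omega : c ≤ l)]
  rw [← h4]
  change a_BinW n l ≤ _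
  have h5 : 0 ≤ a_BinW n l := a_nonneg_BinW (by omega)
  have h6 : (1 : ℝ) / 2 ≤ (1 - δ) ^ j := by
    have h7 := one_add_mul_le_pow (a := -δ) (by linarith) j
    have h8 : (1 : ℝ) + j * -δ = 1 - j * δ := by ring
    rw [h8] at h7
    have h9 : (1 : ℝ) + -δ = 1 - δ := by ring
    rw [h9] at h7
    linarith
  have h10 : (2 : ℝ) ^ (j + 1) * q ^ j = 2 * (1 - δ) ^ j := by
    rw [hq, div_pow, pow_succ]
    field_simp
  calc a_BinW n l ≤ a_BinW n l * (2 ^ (j + 1) * q ^ j) := by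
        rw [h10]
        nlinarith
    _ = 2 ^ (j + 1) * (a_BinW n l * q ^ j) := by ring
    _ ≤ 2 ^ (j + 1) * a_BinW (n - j) (l - c) :=
        mul_le_mul_of_nonneg_left h3 (by positivity)

end Pool.Agent.OFK
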