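import Pool.Agent.RKF.Main
import Pool.Agent.OFK44.Growth
import Pool.Agent.OFK44.Num

/-! # MP_f155e9_co: odd half for fixed `k`, first case (few sets of size `s+2`)

`n = 2s+1+k`, `F` an antichain of subsets of an `n`-set, disjoint members of which have sizes
with sum at most `2s+1`. If the number of the `(s+2)`-sets inside members of `F` is at most
`C(n, s+2) / 2 ^ (3k+3)` and `n ≥ 24 k ^ 2 + 16 k + 4`, then `|F| ≤ C(n, s)`. -/

set_option autoImplicit false

namespace Pool.Agent.OFK

open Finset
open scoped FinsetFamily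

variable {n : ℕ}

/-- the `m`-sets inside members of `F` -/
def below (F : Finset (Finset (Fin n))) (m : ℕ) : Finset (Finset (Fin n)) :=
  (powersetCard m univ).filter (fun Y => ∃ A ∈ F, Y ⊆ A)

theorem mem_below {F : Finset (Finset (Fin n))} {m : ℕ} {Y : Finset (Fin n)} :
    Y ∈ below F m ↔ Y.card = m ∧ ∃ A ∈ F, Y ⊆ A := by
  simp [below]

theorem sized_below (F : Finset (Finset (Fin n))) (m : ℕ) :
    ((below F m : Finset (Finset (Fin n))) : Set (Finset (Fin n))).Sized m := fun _ hY =>
  (mem_below.1 (mem_coe.1 hY)).1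

theorem slice_subset_below (F : Finset (Finset (Fin n))) (m : ℕ) :
    F.filter (fun A => A.card = m) ⊆ below F m := fun A hA =>
  mem_below.2 ⟨(mem_filter.1 hA).2, A, (mem_filter.1 hA).1, Subset.rfl⟩

theorem shadow_below_subset (F : Finset (Finset (Fin n))) (m : ℕ) :
    ∂ (below F (m + 1)) ⊆ below F m := by
  intro Y hY
  obtain ⟨Z, hZ, a, ha, rfl⟩ := mem_shadow_iff.1 hY
  obtain ⟨hc, A, hA, hZA⟩ := mem_below.1 hZ
  exact mem_below.2 ⟨by rw [card_erase_of_mem ha, hc]; rfl, A, hA, (erase_subset _ _).trans hZA⟩

/-- a member of `F` is not in the shadow of the `(m+1)`-sets inside members -/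
theorem notMem_shadow_below {F : Finset (Finset (Fin n))}
    (hF : IsAntichain (· ⊆ ·) (F : Set (Finset (Fin n)))) (m : ℕ) {Y : Finset (Fin n)}
    (hY : Y ∈ F) : Y ∉ ∂ (below F m) := by
  intro h
  obtain ⟨Z, hZ, a, ha, rfl⟩ := mem_shadow_iff.1 h
  obtain ⟨hc, A, hA, hZA⟩ := mem_below.1 hZ
  have h1 : Z.erase a ⊆ A := (erase_subset _ _).trans hZA
  have h2 : Z.erase a = A := hF.eq hY hA h1
  exact notMem_erase a Z (h2 ▸ hZA ha)

theorem card_slice_add {F : Finset (Finset (Fin n))}
    (hF : IsAntichain (· ⊆ ·) (F : Set (Finset (Fin n)))) (m : ℕ) :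
    (F.filter (fun A => A.card = m)).card + (∂ (below F (m + 1))).card ≤ (below F m).card := by
  rw [← card_union_of_disjoint]
  · exact card_le_card (union_subset (slice_subset_below F m) (shadow_below_subset F m))
  · rw [disjoint_left]
    intro Y hY
    exact notMem_shadow_below hF _ (mem_filter.1 hY).1

/-- if the shadows of the families of `m`-sets inside members, `m > m₀`, do not shrink, the
members of size at least `m₀` are at most as many as the `m₀`-sets inside them -/
theorem card_ge_le {F : Finset (Finset (Fin n))}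
    (hF : IsAntichain (· ⊆ ·) (F : Set (Finset (Fin n)))) {m₀ : ℕ}
    (h : ∀ m, m₀ < m → (below F m).card ≤ (∂ (below F m)).card) :
    (F.filter (fun A => m₀ ≤ A.card)).card ≤ (below F m₀).card := by
  suffices H : ∀ d m, m₀ ≤ m → n + 1 ≤ m + d →
      (F.filter (fun A => m ≤ A.card)).card ≤ (below F m).card from
    H (n + 1) m₀ le_rfl (by omega)
  intro d
  induction d with
  | zero =>
    intro m _ h2
    have : F.filter (fun A => m ≤ A.card) = ∅ := by
      rw [filter_eq_empty_iff]
      intro A _ h3
      have h4 := card_le_univ A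
      rw [Fintype.card_fin] at h4
      omega
    rw [this]; simp
  | succ d ih =>
    intro m h1 h2
    have h3 := ih (m + 1) (by omega) (by omega)
    have h4 := h (m + 1) (by omega)
    have h5 := card_slice_add hF m
    have h6 : (F.filter (fun A => m ≤ A.card)).card ≤
        (F.filter (fun A => A.card = m)).card + (F.filter (fun A => m + 1 ≤ A.card)).card := by
      refine le_trans (card_le_card ?_) (card_union_le _ _)
      intro A hA
      rw [mem_filter] at hA
      rw [mem_union, mem_filter, mem_filter]
      rcases Nat.eq_or_lt_of_le hA.2 with h7 | h7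
      · exact Or.inl ⟨hA.1, h7.symm⟩
      · exact Or.inr ⟨hA.1, h7⟩
    omega

/-- above the middle shadows do not shrink -/
theorem card_le_shadow_of_large {V : Finset (Finset (Fin n))} {m : ℕ}
    (hV : (V : Set (Finset (Fin n))).Sized m) (hm : n + 1 ≤ 2 * m) : V.card ≤ (∂ V).card := by
  have h1 := card_mul_le_card_shadow_mul hV
  rw [Fintype.card_fin] at h1
  have h2 : V.card * m ≤ (∂ V).card * m := h1.trans (Nat.mul_le_mul_left _ (by omega))
  exact Nat.le_of_mul_le_mul_right h2 (by omega)

/-- densities decrease upwards -/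
theorem density_below {F : Finset (Finset (Fin n))} {c m₀ : ℕ}
    (h : c * (below F m₀).card ≤ n.choose m₀) :
    ∀ m, m₀ ≤ m → c * (below F m).card ≤ n.choose m := by
  intro m hm
  induction m, hm using Nat.le_induction with
  | base => exact h
  | succ m hm ih =>
    have h1 := card_mul_le_card_shadow_mul (sized_below F (m + 1))
    rw [Fintype.card_fin] at h1
    have h2 := card_le_card (shadow_below_subset F m)
    rcases Nat.lt_or_ge n (m + 1) with h3 | h3
    · have h4 : below F (m + 1) = ∅ := by
        rw [eq_empty_iff_forall_notMem]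
        intro Y hY
        have h5 := (mem_below.1 hY).1
        have h6 := card_le_univ Y
        rw [Fintype.card_fin] at h6
        omega
      rw [h4]; simp
    · have h7 : n - (m + 1) + 1 = n - m := by omega
      rw [h7] at h1
      have h8 := Nat.choose_succ_right_eq n m
      refine Nat.le_of_mul_le_mul_right (c := m + 1) ?_ (by omega)
      calc c * (below F (m + 1)).card * (m + 1) = c * ((below F (m + 1)).card * (m + 1)) := by ring
        _ ≤ c * ((∂ (below F (m + 1))).card * (n - m)) := Nat.mul_le_mul_left _ h1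
        _ ≤ c * ((below F m).card * (n - m)) :=
            Nat.mul_le_mul_left _ (Nat.mul_le_mul_right _ h2)
        _ = c * (below F m).card * (n - m) := by ring
        _ ≤ n.choose m * (n - m) := Nat.mul_le_mul_right _ ih
        _ = n.choose (m + 1) * (m + 1) := h8.symm

/-- the small members are at most as many as the `s`-sets above them -/
theorem card_small_le {F : Finset (Finset (Fin n))}
    (hF : IsAntichain (· ⊆ ·) (F : Set (Finset (Fin n)))) {s : ℕ} (hs : 2 * s ≤ n + 1) :
    (F.filter (fun A => A.card < s)).card ≤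
      ((powersetCard s univ).filter (fun Y => ∃ A ∈ F, A.card < s ∧ A ⊆ Y)).card := by
  classical
  rcases Nat.eq_zero_or_pos s with h0 | h0
  · subst h0
    simp
  set G : Finset (Finset (Fin n)) := (F.filter (fun A => A.card < s)).image compl with hG
  have hinj : Function.Injective (compl : Finset (Fin n) → Finset (Fin n)) := compl_injective
  have hGc : G.card = (F.filter (fun A => A.card < s)).card := card_image_of_injective _ hinj
  have hGa : IsAntichain (· ⊆ ·) (G : Set (Finset (Fin n))) := by
    intro A hA B hB hAB hsub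
    rw [hG, mem_coe, mem_image] at hA hB
    obtain ⟨A', hA', rfl⟩ := hA
    obtain ⟨B', hB', rfl⟩ := hB
    rw [compl_subset_compl] at hsub
    exact hAB (by rw [hF.eq (mem_filter.1 hB').1 (mem_filter.1 hA').1 hsub])
  have hcc : ∀ A : Finset (Fin n), (Aᶜ).card + A.card = n := by
    intro A
    have := card_compl_add_card A
    rwa [Fintype.card_fin] at this
  have h1 := card_ge_le hGa (m₀ := n - s) (fun m hm =>
    card_le_shadow_of_large (sized_below G m) (by omega))
  have h2 : G.filter (fun A => n - s ≤ A.card) = G := by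
    rw [filter_eq_self]
    intro A hA
    rw [hG, mem_image] at hA
    obtain ⟨A', hA', rfl⟩ := hA
    have h3 := hcc A'
    have h4 := (mem_filter.1 hA').2
    omega
  rw [h2, hGc] at h1
  refine h1.trans ?_
  refine card_le_card_of_injOn compl ?_ hinj.injOn
  intro Y hY
  rw [mem_coe, mem_below] at hY
  obtain ⟨hc, A, hA, hYA⟩ := hY
  rw [hG, mem_image] at hA
  obtain ⟨A', hA', rfl⟩ := hA
  have h3 := hcc Y
  have h4 := hcc A'
  rw [mem_filter] at hA'
  have h5 := card_le_card hYA
  rw [mem_coe, mem_filter, mem_powersetCard]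
  refine ⟨⟨subset_univ _, by omega⟩, A', hA'.1, hA'.2, ?_⟩
  rw [← compl_subset_compl, compl_compl]
  exact hYA

/-- **First case of the odd half**: few sets of size `s + 2` inside members. -/
theorem case_one {n s k : ℕ} (hn : n = 2 * s + 1 + k) (hk : 24 * k ^ 2 + 16 * k + 4 ≤ n)
    (F : Finset (Finset (Fin n))) (hF : IsAntichain (· ⊆ ·) (F : Set (Finset (Fin n))))
    (hDJ : ∀ A ∈ F, ∀ B ∈ F, Disjoint A B → A.card + B.card ≤ 2 * s + 1)
    (hd : 2 ^ (3 * k + 3) * ((powersetCard (s + 2) univ).filter
      (fun Y => ∃ A ∈ F, Y ⊆ A)).card ≤ n.choose (s + 2)) :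
    F.card ≤ n.choose s := by
  classical
  have hk2 : k ≤ k ^ 2 := Nat.le_self_pow (by norm_num) k
  have hd' : 2 ^ (3 * k + 3) * (below F (s + 2)).card ≤ n.choose (s + 2) := hd
  -- growth
  have hsmall : ∀ m, s + 2 ≤ m → 2 * m ≤ n + 4 →
      (below F m).card * m ≤ (∂ (below F m)).card * (n - 3 * k - m + 1) := by
    intro m hm1 hm2
    have h1 := density_below hd' m hm1
    have h2 := OFK44.choose_le_pow_mul hk hm2
    have h3 : (below F m).card ≤ (n - 3 * k).choose m :=
      Nat.le_of_mul_le_mul_left (h1.trans h2) (by positivity)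
    exact OFK44.shadow_growth (by omega) (sized_below F m) h3
  have hgrow : ∀ m, s + 2 < m → (below F m).card ≤ (∂ (below F m)).card := by
    intro m hm
    rcases Nat.lt_or_ge (2 * m) (n + 1) with h1 | h1
    · have h2 := hsmall m (by omega) (by omega)
      have h3 : (below F m).card * m ≤ (∂ (below F m)).card * m :=
        h2.trans (Nat.mul_le_mul_left _ (by omega))
      exact Nat.le_of_mul_le_mul_right h3 (by omega)
    · exact card_le_shadow_of_large (sized_below F m) h1
  have hbig : (F.filter (fun A => s + 2 ≤ A.card)).card ≤ (below F (s + 2)).card :=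
    card_ge_le hF hgrow
  have hV := hsmall (s + 2) le_rfl (by omega)
  have hNn : n - 3 * k - (s + 2) + 1 = s - 2 * k := by
    have : 2 * k ≤ s := by nlinarith
    omega
  rw [hNn] at hV
  -- the two levels
  set P : Finset (Finset (Fin n)) := F.filter (fun A => A.card = s + 1) with hP
  set N : Finset (Finset (Fin n)) := ∂ (below F (s + 2)) with hN
  have hPN : Disjoint P N := by
    rw [disjoint_left]
    intro Y hY
    exact notMem_shadow_below hF _ (mem_filter.1 hY).1
  have hUb : P ∪ N ⊆ below F (s + 1) :=
    union_subset (slice_subset_below F (s + 1)) (shadow_below_subset F (s + 1))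
  have hRK := RKF.robust_katona (n := n) (k := s) P (P ∪ N) subset_union_left
    (fun A hA => (mem_below.1 (hUb hA)).1) (by
      intro A hA B hB
      rw [← not_disjoint_iff_nonempty_inter]
      intro hd
      have h1 := hDJ A (mem_filter.1 hA).1 B (mem_filter.1 hB).1 hd
      have h2 := (mem_filter.1 hA).2
      have h3 := (mem_filter.1 hB).2
      omega)
  have hdiff : (P ∪ N) \ P = N := by
    rw [union_sdiff_left, sdiff_eq_self_of_disjoint hPN.symm]
  rw [hdiff, card_union_of_disjoint hPN] at hRK
  have hns : n - s = s + 1 + k := by omega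
  have hns2 : n - 2 * s - 1 = k := by omega
  rw [hns, hns2] at hRK
  -- the three families of `s`-sets
  have hL := card_small_le hF (s := s) (by omega)
  set M : Finset (Finset (Fin n)) :=
    (powersetCard s univ).filter (fun Y => ∃ A ∈ F, A.card < s ∧ A ⊆ Y) with hM
  set R : Finset (Finset (Fin n)) := F.filter (fun A => A.card = s) with hR
  have hSsub : ∂ (P ∪ N) ⊆ ∂ (below F (s + 1)) := shadow_monotone hUb
  have hRS : Disjoint R (∂ (P ∪ N)) := by
    rw [disjoint_left]
    intro Y hY h1
    exact notMem_shadow_below hF _ (mem_filter.1 hY).1 (hSsub h1)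
  have hRM : Disjoint R M := by
    rw [disjoint_left]
    intro Y hY h1
    obtain ⟨_, A, hA, hAs, hAY⟩ := mem_filter.1 h1
    have h2 := hF.eq hA (mem_filter.1 hY).1 hAY
    have h3 := (mem_filter.1 hY).2
    rw [h2] at hAs
    omega
  have hMS : Disjoint M (∂ (P ∪ N)) := by
    rw [disjoint_left]
    intro Y hY h1
    obtain ⟨_, A, hA, hAs, hAY⟩ := mem_filter.1 hY
    have h2 := shadow_below_subset F s (hSsub h1)
    obtain ⟨hYc, B, hB, hYB⟩ := mem_below.1 h2
    have h3 := hF.eq hA hB (hAY.trans hYB)
    have h4 := card_le_card hYB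
    rw [← h3] at h4
    omega
  have hsum : R.card + M.card + (∂ (P ∪ N)).card ≤ n.choose s := by
    rw [← card_union_of_disjoint hRM, ← card_union_of_disjoint
      (disjoint_union_left.2 ⟨hRS, hMS⟩)]
    have h1 : (powersetCard s (univ : Finset (Fin n))).card = n.choose s := by
      rw [card_powersetCard, card_univ, Fintype.card_fin]
    rw [← h1]
    refine card_le_card (union_subset (union_subset ?_ (filter_subset _ _)) ?_)
    · intro Y hY
      exact mem_powersetCard.2 ⟨subset_univ _, (mem_filter.1 hY).2⟩
    · intro Y hY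
      have h2 := mem_below.1 (shadow_below_subset F s (hSsub hY))
      exact mem_powersetCard.2 ⟨subset_univ _, h2.1⟩
  -- `F` in four parts
  have hFc : F.card ≤ (F.filter (fun A => A.card < s)).card + R.card + P.card +
      (F.filter (fun A => s + 2 ≤ A.card)).card := by
    refine le_trans (card_le_card ?_) ((card_union_le _ _).trans (Nat.add_le_add_right
      ((card_union_le _ _).trans (Nat.add_le_add_right (card_union_le _ _) _)) _))
    intro A hA
    rw [mem_union, mem_union, mem_union, mem_filter, mem_filter, mem_filter, mem_filter]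
    have : A.card < s ∨ A.card = s ∨ A.card = s + 1 ∨ s + 2 ≤ A.card := by omega
    tauto
  -- arithmetic
  have hks : 2 * k ≤ s := by nlinarith
  obtain ⟨t, ht⟩ : ∃ t, s = t + 2 * k := ⟨s - 2 * k, by omega⟩
  have h1 : (s + 1 + k) * (P.card + (below F (s + 2)).card) ≤
      (s + 1 + k) * (∂ (P ∪ N)).card := by
    have h2 : (s + 1 + k) * (below F (s + 2)).card + 2 * k * N.card ≤ (s + 1 + k) * N.card := by
      have h3 : s - 2 * k = t := by omega
      rw [h3] at hV
      have h4 : (s + 2) * ((s + 1 + k) * (below F (s + 2)).card + 2 * k * N.card) ≤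
          (s + 2) * ((s + 1 + k) * N.card) := by
        have h5 : (s + 1 + k) * ((below F (s + 2)).card * (s + 2)) ≤
            (s + 1 + k) * (N.card * t) := Nat.mul_le_mul_left _ hV
        have h6 : (s + 1 + k) * t + (s + 2) * (2 * k) ≤ (s + 2) * (s + 1 + k) := by
          subst ht
          nlinarith
        nlinarith [Nat.mul_le_mul_left N.card h6]
      exact Nat.le_of_mul_le_mul_left h4 (by omega)
    nlinarith
  have h2 : P.card + (below F (s + 2)).card ≤ (∂ (P ∪ N)).card :=
    Nat.le_of_mul_le_mul_left h1 (by omega)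
  omega

end Pool.Agent.OFK
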