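import Mathlib

/-! # OFK, package Var: the variance of the size of a random set (0.5 h)

`∑_x (N - 2|x|)^2 = N 2^N`: with `y_i = ±1` the sum of all cross terms `∑_x y_i y_j` (`i ≠ j`) is `0`;
or from `∑_k C(N,k) (k - N/2)^2 = N 2^N/4` (`bernsteinPolynomial.variance`), or by induction. -/

set_option autoImplicit false

namespace Pool.Agent.OFK

open Finset

private theorem pascal_Var (N : ℕ) (f : ℕ → ℝ) :
    ∑ l ∈ range (N + 2), ((N + 1).choose l : ℝ) * f l =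
      ∑ l ∈ range (N + 1), (N.choose l : ℝ) * (f l + f (l + 1)) := by
  have h1 : ∑ l ∈ range (N + 1), (N.choose l : ℝ) * f l =
      ∑ l ∈ range (N + 1), (N.choose (l + 1) : ℝ) * f (l + 1) + f 0 := by
    have h2 := sum_range_succ' (fun l => (N.choose l : ℝ) * f l) (N + 1)
    rw [sum_range_succ] at h2
    simp only [Nat.choose_succ_self, Nat.cast_zero, zero_mul, add_zero, Nat.choose_zero_right,
      Nat.cast_one, one_mul] at h2
    exact h2
  rw [sum_range_succ']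
  simp only [Nat.choose_succ_succ, Nat.cast_add, add_mul, mul_add, sum_add_distrib,
    Nat.choose_zero_right, Nat.cast_one, one_mul]
  rw [h1]
  ring

private theorem sum_choose_Var (N : ℕ) : ∑ l ∈ range (N + 1), (N.choose l : ℝ) = 2 ^ N := by
  have h := Nat.sum_range_choose N
  exact_mod_cast h

theorem sum_choose_sq (N : ℕ) :
    ∑ l ∈ range (N + 1), (N.choose l : ℝ) * ((N : ℝ) - 2 * l) ^ 2 = (N : ℝ) * 2 ^ N := by
  induction N with
  | zero => simp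
  | succ N ih =>
    rw [pascal_Var N fun l => (((N + 1 : ℕ) : ℝ) - 2 * l) ^ 2]
    have h1 : ∀ l ∈ range (N + 1), (N.choose l : ℝ) * ((((N + 1 : ℕ) : ℝ) - 2 * (l : ℝ)) ^ 2 +
        (((N + 1 : ℕ) : ℝ) - 2 * ((l + 1 : ℕ) : ℝ)) ^ 2) =
        2 * ((N.choose l : ℝ) * ((N : ℝ) - 2 * l) ^ 2) + 2 * (N.choose l : ℝ) := by
      intro l _
      push_cast
      ring
    rw [sum_congr rfl h1, sum_add_distrib, ← mul_sum, ← mul_sum, ih, sum_choose_Var]
    push_cast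
    ring

/-- Chebyshev -/
theorem tail_choose (N : ℕ) (t : ℝ) (ht : 0 < t) :
    ∑ l ∈ (range (N + 1)).filter (fun l : ℕ => t ≤ |(N : ℝ) - 2 * l|), (N.choose l : ℝ) ≤
      N * 2 ^ N / t ^ 2 := by
  have ht2 : 0 < t ^ 2 := by positivity
  rw [le_div_iff₀ ht2, sum_mul, ← sum_choose_sq N]
  refine (sum_le_sum fun l hl => ?_).trans (sum_le_sum_of_subset_of_nonneg (filter_subset _ _)
    fun l _ _ => mul_nonneg (Nat.cast_nonneg _) (sq_nonneg _))
  refine mul_le_mul_of_nonneg_left ?_ (Nat.cast_nonneg _)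
  rw [← sq_abs ((N : ℝ) - 2 * l)]
  exact pow_le_pow_left₀ ht.le (mem_filter.1 hl).2 2

/-- Cauchy–Schwarz -/
theorem sum_choose_abs (N : ℕ) :
    ∑ l ∈ range (N + 1), (N.choose l : ℝ) * |(N : ℝ) - 2 * l| ≤ Real.sqrt N * 2 ^ N := by
  rcases Nat.eq_zero_or_pos N with rfl | hN
  · simp
  have hN' : (0 : ℝ) < N := Nat.cast_pos.2 hN
  have hs : 0 < Real.sqrt N := Real.sqrt_pos.2 hN'
  have hss : Real.sqrt N * Real.sqrt N = N := Real.mul_self_sqrt hN'.le
  refine le_of_mul_le_mul_left (a := 2 * Real.sqrt N) ?_ (by positivity)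
  have h1 : 2 * Real.sqrt N * ∑ l ∈ range (N + 1), (N.choose l : ℝ) * |(N : ℝ) - 2 * l| ≤
      ∑ l ∈ range (N + 1), ((N.choose l : ℝ) * ((N : ℝ) - 2 * l) ^ 2 + N * (N.choose l : ℝ)) := by
    rw [mul_sum]
    refine sum_le_sum fun l _ => ?_
    have h2 : 0 ≤ (|(N : ℝ) - 2 * l| - Real.sqrt N) ^ 2 := sq_nonneg _
    have h3 : |(N : ℝ) - 2 * l| ^ 2 = ((N : ℝ) - 2 * l) ^ 2 := sq_abs _
    have h4 : 2 * Real.sqrt N * |(N : ℝ) - 2 * l| ≤ ((N : ℝ) - 2 * l) ^ 2 + N := by nlinarith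
    have h5 : (0 : ℝ) ≤ N.choose l := Nat.cast_nonneg _
    calc 2 * Real.sqrt N * ((N.choose l : ℝ) * |(N : ℝ) - 2 * l|) =
        (N.choose l : ℝ) * (2 * Real.sqrt N * |(N : ℝ) - 2 * l|) := by ring
      _ ≤ (N.choose l : ℝ) * (((N : ℝ) - 2 * l) ^ 2 + N) := mul_le_mul_of_nonneg_left h4 h5
      _ = _ := by ring
  rw [sum_add_distrib, sum_choose_sq, ← mul_sum, sum_choose_Var] at h1
  calc 2 * Real.sqrt N * ∑ l ∈ range (N + 1), (N.choose l : ℝ) * |(N : ℝ) - 2 * l| ≤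
      (N : ℝ) * 2 ^ N + N * 2 ^ N := h1
    _ = 2 * (Real.sqrt N * Real.sqrt N) * 2 ^ N := by rw [hss]; ring
    _ = _ := by ring

end Pool.Agent.OFK
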