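import Pool.Agent.OFK.Drift
import Pool.Agent.OFK.BinW
import Pool.Agent.OFK.Var

/-! # OFK, package CondAvg: the conditional average on the cube is the density on the slice (1.2 h)

Let `M` be large (`M ≥ 1`, `8/M² ≤ ε/2`-like), `W` = the levels `ℓ` with `|n - 2ℓ| ≤ M √n`. For large
`n`, `r + 1 ∈ W` and `W` is an interval, so by `drift` + `binW`, going from `r + 1` to `ℓ ∈ W`,
`|al ℓ - pd U (r+1) J u| ≤ |ℓ - (r+1)| 2^(j+1) 2 oU ≤ (M √n + k + 1) 2^(j+2) C/(r+1) → 0`.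
`avg = ∑_ℓ C(N,ℓ-|u|) al ℓ / 2^N`, `∑_ℓ C(N,ℓ-|u|) = 2^N`; outside `W` use `|al - pd| ≤ 1` and
`tail_choose` for `N = n - j`, `N - 2(ℓ-|u|) = (n - 2ℓ) - (j - 2|u|)`, so `|N - 2l'| ≥ M √n - j ≥ M√n/2`.
(`0 ≤ pd ≤ 1`: from `al_level` and `al_mem`.) -/

set_option autoImplicit false

namespace Pool.Agent.OFK

open Finset

theorem cond_avg (j k : ℕ) (C ε : ℝ) (hε : 0 < ε) : ∃ N : ℕ, ∀ r n : ℕ, N ≤ r →
    n = 2 * r + 1 + k → ∀ U : Finset (Finset (Fin n)),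
    U ⊆ powersetCard (r + 1) (univ : Finset (Fin n)) → ((r : ℝ) + 1) * oU U r ≤ C →
    ∀ J : Finset (Fin n), J.card = j → ∀ u ⊆ J,
    |avg (lf U (r + 1)) J u - pd U (r + 1) J u| ≤ ε := by
  sorry

end Pool.Agent.OFK
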