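import Mathlib

/-! # MP_f155e9_co, odd half for fixed `k` and all large `n`: definitions

`n = 2 s + 1 + k`. `F` is a family of subsets of `Fin n`. Page: `/team-store/h97_oddfix.md`.
All densities are real numbers. -/

set_option autoImplicit false

namespace Pool.Agent.OFK

open Finset

variable {n : ℕ}

/-- Level `m` of the down-closure of `F`: the `m`-sets contained in a member of `F`. -/
def KK (F : Finset (Finset (Fin n))) (m : ℕ) : Finset (Finset (Fin n)) :=
  (powersetCard m (univ : Finset (Fin n))).filter (fun T => ∃ A ∈ F, T ⊆ A)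

/-- density of the members of size `m` of `F` among all `m`-sets (the probability that a random
maximal chain meets `F` in an `m`-set) -/
noncomputable def pl (F : Finset (Finset (Fin n))) (m : ℕ) : ℝ :=
  ((F.filter (fun A => A.card = m)).card : ℝ) / (n.choose m : ℝ)

/-- density of level `m` of the down-closure -/
noncomputable def kap (F : Finset (Finset (Fin n))) (m : ℕ) : ℝ :=
  ((KK F m).card : ℝ) / (n.choose m : ℝ)

/-- the chains which leave the down-closure between levels `m` and `m+1` without meeting `F` -/
noncomputable def om (F : Finset (Finset (Fin n))) (m : ℕ) : ℝ :=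
  ((KK F (m + 1)).shadow.card : ℝ) / (n.choose m : ℝ) - kap F (m + 1)

/-- the probability that a random maximal chain does not meet the antichain `F` -/
noncomputable def miss (F : Finset (Finset (Fin n))) : ℝ :=
  1 - ∑ m ∈ range (n + 1), pl F m

/-- mass of the levels `≥ t` -/
noncomputable def up (F : Finset (Finset (Fin n))) (t : ℕ) : ℝ :=
  ∑ m ∈ (range (n + 1)).filter (fun m => t ≤ m), pl F m

/-- mass of the levels `≤ t` -/
noncomputable def dn (F : Finset (Finset (Fin n))) (t : ℕ) : ℝ :=
  ∑ m ∈ (range (n + 1)).filter (fun m => m ≤ t), pl F m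

/-- the members of `U` with trace `u` on `J` -/
def tr (U : Finset (Finset (Fin n))) (J u : Finset (Fin n)) : Finset (Finset (Fin n)) :=
  U.filter (fun A => A ∩ J = u)

/-- density of the `m`-sets with trace `u` on `J` (`u ⊆ J`) which lie in `U` -/
noncomputable def pd (U : Finset (Finset (Fin n))) (m : ℕ) (J u : Finset (Fin n)) : ℝ :=
  ((tr U J u).card : ℝ) / ((n - J.card).choose (m - u.card) : ℝ)

/-- the lift of a family `U` of `m`-sets to the cube: the density of `U` among the `m`-sets
comparable with `x` -/
noncomputable def lf (U : Finset (Finset (Fin n))) (m : ℕ) (x : Finset (Fin n)) : ℝ :=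
  if m ≤ x.card then ((U.filter (fun y => y ⊆ x)).card : ℝ) / (x.card.choose m : ℝ)
  else ((U.filter (fun y => x ⊆ y)).card : ℝ) / ((n - x.card).choose (m - x.card) : ℝ)

/-- influence of the point `i` for a family `U` of `(r+1)`-sets: `T + i` against `T + z`,
`T` a random `r`-set without `i`, `z` a random point outside `T + i` -/
noncomputable def infl (U : Finset (Finset (Fin n))) (r : ℕ) (i : Fin n) : ℝ :=
  (∑ T ∈ powersetCard r ((univ : Finset (Fin n)).erase i), ∑ z ∈ univ \ insert i T,
    |(if insert i T ∈ U then (1 : ℝ) else 0) - (if insert z T ∈ U then (1 : ℝ) else 0)|) /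
    (((n - 1).choose r : ℝ) * (n - 1 - r))

/-- the boundary excess of a family of `(r+1)`-sets -/
noncomputable def oU (U : Finset (Finset (Fin n))) (r : ℕ) : ℝ :=
  (U.shadow.card : ℝ) / (n.choose r : ℝ) - (U.card : ℝ) / (n.choose (r + 1) : ℝ)

/-- conditional average on the cube, given the trace on `J` -/
noncomputable def avg (f : Finset (Fin n) → ℝ) (J x : Finset (Fin n)) : ℝ :=
  (∑ y ∈ (univ : Finset (Finset (Fin n))).filter (fun y => y ∩ J = x ∩ J), f y) /
    2 ^ (n - J.card)

end Pool.Agent.OFK
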