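import Pool.Agent.OFK.CubeFourier
import Pool.Agent.OFK.Defs

/-!
# OFK: functions on the cube with small total influence are close to juntas

`cube_junta`: a function `f` on the subsets of `Fin n` with values in `[0, 1]` and with the total
`L¹`-influence at most `I₀` is close in quadratic mean to its mean values over the fibres of a set
`J` of at most `j₀ (I₀, ε)` coordinates.
-/

namespace Pool.Agent.OFK

open Finset

section

variable {α : Type*} [DecidableEq α]

/-- The kernel of the projection to the functions of the coordinates `J`. -/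
theorem kernel_eq (J x y : Finset α) :
    ∑ S ∈ J.powerset, w S y * w S x = if y ∩ J = x ∩ J then (2 : ℝ) ^ J.card else 0 := by
  split_ifs with h
  · have h1 : ∀ S ∈ J.powerset, w S y * w S x = 1 := by
      intro S hS
      have h2 : S ∩ y = S ∩ x := by
        have hSJ := mem_powerset.1 hS
        ext i
        constructor
        · intro hi
          have hi' := mem_inter.1 hi
          have h3 : i ∈ y ∩ J := mem_inter.2 ⟨hi'.2, hSJ hi'.1⟩
          rw [h] at h3
          exact mem_inter.2 ⟨hi'.1, (mem_inter.1 h3).1⟩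
        · intro hi
          have hi' := mem_inter.1 hi
          have h3 : i ∈ x ∩ J := mem_inter.2 ⟨hi'.2, hSJ hi'.1⟩
          rw [← h] at h3
          exact mem_inter.2 ⟨hi'.1, (mem_inter.1 h3).1⟩
      have h4 : w S y = w S x := by
        unfold w
        rw [h2]
      rw [h4, w_sq]
    rw [sum_congr rfl h1, sum_const, card_powerset, nsmul_eq_mul, mul_one]
    push_cast
    rfl
  · have h1 : ∃ i ∈ J, (i ∈ y ∧ i ∉ x) ∨ (i ∉ y ∧ i ∈ x) := by
      by_contra hcon
      push Not at hcon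
      apply h
      ext i
      rw [mem_inter, mem_inter]
      constructor
      · rintro ⟨h2, h3⟩
        exact ⟨(hcon i h3).1 h2, h3⟩
      · rintro ⟨h2, h3⟩
        refine ⟨?_, h3⟩
        by_contra hy
        exact (hcon i h3).2 hy h2
    obtain ⟨i, hiJ, hi⟩ := h1
    rw [← insert_erase hiJ, sum_insert_cube (notMem_erase i J)]
    refine sum_eq_zero fun S hS => ?_
    have hiS : i ∉ S := fun h2 => notMem_erase i J (mem_powerset.1 hS h2)
    rw [w_insert_left hiS, w_insert_left hiS]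
    rcases hi with ⟨h2, h3⟩ | ⟨h2, h3⟩
    · rw [if_pos h2, if_neg h3]
      ring
    · rw [if_neg h2, if_pos h3]
      ring

end

variable {n : ℕ}

theorem avg_eq (f : Finset (Fin n) → ℝ) (J x : Finset (Fin n)) :
    avg f J x = ∑ S, (if S ⊆ J then fc f S else 0) * w S x := by
  have hJ : J.card ≤ n := by
    have := card_le_univ J
    rwa [Fintype.card_fin] at this
  have h2 : (2 : ℝ) ^ n = 2 ^ (n - J.card) * 2 ^ J.card := by
    rw [← pow_add, Nat.sub_add_cancel hJ]
  have h1 : ∑ S, (if S ⊆ J then fc f S else 0) * w S x = ∑ S ∈ J.powerset, fc f S * w S x := by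
    have h3 : J.powerset = univ.filter fun S => S ⊆ J := by
      ext S
      simp
    rw [h3, sum_filter]
    refine sum_congr rfl fun S _ => ?_
    split_ifs <;> simp
  have h4 : ∑ S ∈ J.powerset, fc f S * w S x =
      (∑ y, f y * ∑ S ∈ J.powerset, w S y * w S x) / 2 ^ n := by
    unfold fc cE
    rw [Fintype.card_fin, sum_congr rfl fun S _ => div_mul_eq_mul_div _ _ _, ← sum_div]
    congr 1
    rw [sum_congr rfl fun S _ => sum_mul _ _ _, sum_comm]
    refine sum_congr rfl fun y _ => ?_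
    rw [mul_sum]
    refine sum_congr rfl fun S _ => ?_
    ring
  rw [h1, h4, sum_congr rfl fun y _ => by rw [kernel_eq J x y]]
  unfold avg
  rw [sum_filter, h2, div_eq_div_iff (by positivity) (by positivity), sum_mul, sum_mul]
  refine sum_congr rfl fun y _ => ?_
  split_ifs <;> ring

theorem cE_avg_sq (f : Finset (Fin n) → ℝ) (J : Finset (Fin n)) :
    cE (fun x => avg f J x ^ 2) = ∑ S with S ⊆ J, fc f S ^ 2 := by
  have h0 : (2 : ℝ) ^ Fintype.card (Fin n) ≠ 0 := by positivity
  have h1 := parseval (fun S => if S ⊆ J then fc f S else 0) (fun S => if S ⊆ J then fc f S else 0)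
  rw [sum_congr rfl fun x _ => by rw [← avg_eq f J x]] at h1
  unfold cE
  rw [div_eq_iff h0, mul_comm, sum_congr rfl fun x _ => sq (avg f J x), h1, sum_filter]
  congr 1
  refine sum_congr rfl fun S _ => ?_
  split_ifs
  · rw [sq]
  · rw [mul_zero]

/-- The defect is the weight of the coefficients outside `J`. -/
theorem defect_eq (f : Finset (Fin n) → ℝ) (J : Finset (Fin n)) :
    cE (fun x => f x ^ 2) - cE (fun x => avg f J x ^ 2) =
      ∑ S with ¬ S ⊆ J, fc f S ^ 2 := by
  rw [parseval_fc, cE_avg_sq, sub_eq_iff_eq_add', sum_filter_add_sum_filter_not]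

/-- The weight of the coefficients with `i ∈ S`, `|S| ≤ d`. -/
theorem weight_le (f : Finset (Fin n) → ℝ) (hf : ∀ x, 0 ≤ f x ∧ f x ≤ 1) (d : ℕ) (i : Fin n) {t : ℝ}
    (ht : 0 ≤ t) (hi : cE (fun x => |dif f i x|) ≤ t ^ 2) :
    ∑ S with i ∈ S ∧ S.card ≤ d, fc f S ^ 2 ≤ 3 ^ d * t * cE (fun x => |dif f i x|) := by
  obtain ⟨b, hb⟩ : ∃ b : ℝ, b = cE (fun x => |dif f i x|) := ⟨_, rfl⟩
  have hb0 : 0 ≤ b := by
    rw [hb]
    exact div_nonneg (sum_nonneg fun _ _ => abs_nonneg _) (by positivity)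
  have habs : ∀ x, |dif f i x| ≤ 1 := by
    intro x
    unfold dif
    rw [abs_le]
    constructor
    · linarith [(hf (insert i x)).1, (hf (x.erase i)).2]
    · linarith [(hf (insert i x)).2, (hf (x.erase i)).1]
  have h1 := level_d habs d
  rw [← hb] at h1 hi ⊢
  obtain ⟨W, hW⟩ : ∃ W : ℝ, W = ∑ T with T.card ≤ d, fc (dif f i) T ^ 2 := ⟨_, rfl⟩
  rw [← hW] at h1
  have hW0 : 0 ≤ W := by
    rw [hW]
    exact sum_nonneg fun _ _ => sq_nonneg _
  have h2 : W ≤ 3 ^ d * t * b := by
    apply le_of_sq_le_sq _ (by positivity)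
    calc W ^ 2 ≤ 9 ^ d * b ^ 3 := h1
      _ = 9 ^ d * b ^ 2 * b := by ring
      _ ≤ 9 ^ d * b ^ 2 * t ^ 2 := mul_le_mul_of_nonneg_left hi (by positivity)
      _ = (3 ^ d * t * b) ^ 2 := by
        have : (9 : ℝ) ^ d = (3 ^ d) ^ 2 := by
          rw [← pow_mul, mul_comm, pow_mul]
          norm_num
        rw [this]
        ring
  refine le_trans ?_ h2
  -- the injection `S ↦ S \ i`
  rw [hW]
  have h3 : ∀ S ∈ univ.filter (fun S : Finset (Fin n) => i ∈ S ∧ S.card ≤ d),
      fc f S ^ 2 ≤ fc (dif f i) (S.erase i) ^ 2 := by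
    intro S hS
    have hiS := (mem_filter.1 hS).2.1
    rw [fc_dif f (notMem_erase i S), insert_erase hiS]
    nlinarith [sq_nonneg (fc f S)]
  refine (sum_le_sum h3).trans ?_
  have hinj : Set.InjOn (fun S : Finset (Fin n) => S.erase i)
      (univ.filter (fun S : Finset (Fin n) => i ∈ S ∧ S.card ≤ d) : Set (Finset (Fin n))) := by
    intro S hS T hT h
    have hS' := (mem_filter.1 (mem_coe.1 hS)).2.1
    have hT' := (mem_filter.1 (mem_coe.1 hT)).2.1
    have h' : S.erase i = T.erase i := h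
    rw [← insert_erase hS', h', insert_erase hT']
  rw [← sum_image (f := fun T => fc (dif f i) T ^ 2) hinj]
  refine sum_le_sum_of_subset_of_nonneg ?_ fun _ _ _ => sq_nonneg _
  intro T hT
  obtain ⟨S, hS, rfl⟩ := mem_image.1 hT
  rw [mem_filter]
  exact ⟨mem_univ _, (card_erase_le).trans (mem_filter.1 hS).2.2⟩

/-- The total influence bounds the mean degree. -/
theorem degree_le (f : Finset (Fin n) → ℝ) (hf : ∀ x, 0 ≤ f x ∧ f x ≤ 1) :
    ∑ S, (S.card : ℝ) * fc f S ^ 2 ≤ ∑ i, cE (fun x => |dif f i x|) := by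
  have habs : ∀ i x, |dif f i x| ≤ 1 := by
    intro i x
    unfold dif
    rw [abs_le]
    constructor
    · linarith [(hf (insert i x)).1, (hf (x.erase i)).2]
    · linarith [(hf (insert i x)).2, (hf (x.erase i)).1]
  have h1 : ∀ S : Finset (Fin n), (S.card : ℝ) * fc f S ^ 2 =
      ∑ i, if i ∈ S then fc f S ^ 2 else 0 := by
    intro S
    rw [← sum_filter, sum_const, nsmul_eq_mul]
    congr 2
    simp
  rw [sum_congr rfl fun S _ => h1 S, sum_comm]
  refine sum_le_sum fun i _ => ?_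
  rw [← sum_filter]
  have h3 : ∀ S ∈ univ.filter (fun S : Finset (Fin n) => i ∈ S),
      fc f S ^ 2 ≤ fc (dif f i) (S.erase i) ^ 2 := by
    intro S hS
    have hiS := (mem_filter.1 hS).2
    rw [fc_dif f (notMem_erase i S), insert_erase hiS]
    nlinarith [sq_nonneg (fc f S)]
  refine (sum_le_sum h3).trans ?_
  have hinj : Set.InjOn (fun S : Finset (Fin n) => S.erase i)
      (univ.filter (fun S : Finset (Fin n) => i ∈ S) : Set (Finset (Fin n))) := by
    intro S hS T hT h
    have hS' := (mem_filter.1 (mem_coe.1 hS)).2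
    have hT' := (mem_filter.1 (mem_coe.1 hT)).2
    have h' : S.erase i = T.erase i := h
    rw [← insert_erase hS', h', insert_erase hT']
  rw [← sum_image (f := fun T => fc (dif f i) T ^ 2) hinj]
  refine (sum_le_sum_of_subset_of_nonneg (subset_univ _) fun _ _ _ => sq_nonneg _).trans ?_
  rw [← parseval_fc]
  unfold cE
  refine div_le_div_of_nonneg_right (sum_le_sum fun x _ => ?_) (by positivity)
  rw [← sq_abs]
  calc |dif f i x| ^ 2 = |dif f i x| * |dif f i x| := sq _
    _ ≤ |dif f i x| * 1 := mul_le_mul_of_nonneg_left (habs i x) (abs_nonneg _)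
    _ = |dif f i x| := mul_one _

/-- A function with bounded total influence is approximately a junta. -/
theorem cube_junta (I₀ ε : ℝ) (hε : 0 < ε) : ∃ j₀ : ℕ, ∀ (n : ℕ) (f : Finset (Fin n) → ℝ)
    (a : Fin n → ℝ), (∀ x, 0 ≤ f x ∧ f x ≤ 1) →
    (∀ i, (∑ x, |f (insert i x) - f (x.erase i)|) / 2 ^ n ≤ a i) → ∑ i, a i ≤ I₀ →
    ∃ J : Finset (Fin n), J.card ≤ j₀ ∧
      (∑ x, f x ^ 2) / 2 ^ n - (∑ x, avg f J x ^ 2) / 2 ^ n ≤ ε := by
  obtain ⟨I, hI⟩ : ∃ I : ℝ, I = max I₀ 1 := ⟨_, rfl⟩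
  have hI1 : 1 ≤ I := hI ▸ le_max_right _ _
  have hI0 : I₀ ≤ I := hI ▸ le_max_left _ _
  obtain ⟨d, hd⟩ := exists_nat_gt (2 * I / ε)
  have hd0 : (0 : ℝ) < d := lt_of_le_of_lt (by positivity) hd
  obtain ⟨t, ht⟩ : ∃ t : ℝ, t = ε / (2 * 3 ^ d * I) := ⟨_, rfl⟩
  have ht0 : 0 < t := by
    rw [ht]
    positivity
  obtain ⟨j₀, hj₀⟩ := exists_nat_gt (I / t ^ 2)
  refine ⟨j₀, fun n f a hf ha hsum => ?_⟩
  obtain ⟨b, hb⟩ : ∃ b : Fin n → ℝ, ∀ i, b i = cE (fun x => |dif f i x|) := ⟨_, fun _ => rfl⟩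
  have hb0 : ∀ i, 0 ≤ b i := by
    intro i
    rw [hb]
    exact div_nonneg (sum_nonneg fun _ _ => abs_nonneg _) (by positivity)
  have hba : ∀ i, b i ≤ a i := by
    intro i
    rw [hb]
    unfold cE dif
    rw [Fintype.card_fin]
    exact ha i
  have hbI : ∑ i, b i ≤ I := ((sum_le_sum fun i _ => hba i).trans hsum).trans hI0
  let J : Finset (Fin n) := univ.filter fun i => t ^ 2 < b i
  refine ⟨J, ?_, ?_⟩
  · have h1 : (J.card : ℝ) * t ^ 2 ≤ I := by
      calc (J.card : ℝ) * t ^ 2 = ∑ _i ∈ J, t ^ 2 := by rw [sum_const, nsmul_eq_mul]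
        _ ≤ ∑ i ∈ J, b i := sum_le_sum fun i hi => (mem_filter.1 hi).2.le
        _ ≤ ∑ i, b i := sum_le_sum_of_subset_of_nonneg (subset_univ _) fun i _ _ => hb0 i
        _ ≤ I := hbI
    have h2 : (J.card : ℝ) < j₀ := by
      refine lt_of_le_of_lt ?_ hj₀
      rwa [le_div_iff₀ (by positivity)]
    exact_mod_cast h2.le
  · have h1 := defect_eq f J
    unfold cE at h1
    rw [Fintype.card_fin] at h1
    rw [h1]
    -- high degrees
    have hhigh : ∑ S with d < S.card, fc f S ^ 2 ≤ ε / 2 := by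
      have h2 : (d : ℝ) * ∑ S with d < S.card, fc f S ^ 2 ≤ I := by
        calc (d : ℝ) * ∑ S with d < S.card, fc f S ^ 2
            = ∑ S with d < S.card, (d : ℝ) * fc f S ^ 2 := mul_sum _ _ _
          _ ≤ ∑ S with d < S.card, (S.card : ℝ) * fc f S ^ 2 := by
            refine sum_le_sum fun S hS => mul_le_mul_of_nonneg_right ?_ (sq_nonneg _)
            exact_mod_cast (mem_filter.1 hS).2.le
          _ ≤ ∑ S, (S.card : ℝ) * fc f S ^ 2 :=
            sum_le_sum_of_subset_of_nonneg (subset_univ _) fun S _ _ => by positivity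
          _ ≤ ∑ i, cE (fun x => |dif f i x|) := degree_le f hf
          _ = ∑ i, b i := sum_congr rfl fun i _ => (hb i).symm
          _ ≤ I := hbI
      have h3 : 2 * I < d * ε := by rwa [div_lt_iff₀ hε] at hd
      by_contra hcon
      push Not at hcon
      nlinarith [mul_lt_mul_of_pos_left hcon hd0]
    have hlow : ∑ i ∈ univ.filter (fun i => i ∉ J), ∑ S with i ∈ S ∧ S.card ≤ d, fc f S ^ 2 ≤
        ε / 2 := by
      calc ∑ i ∈ univ.filter (fun i => i ∉ J), ∑ S with i ∈ S ∧ S.card ≤ d, fc f S ^ 2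
          ≤ ∑ i ∈ univ.filter (fun i => i ∉ J), 3 ^ d * t * b i := by
            refine sum_le_sum fun i hi => ?_
            have h2 : b i ≤ t ^ 2 := by
              by_contra hcon
              push Not at hcon
              exact (mem_filter.1 hi).2 (mem_filter.2 ⟨mem_univ _, hcon⟩)
            rw [hb] at h2 ⊢
            exact weight_le f hf d i ht0.le h2
        _ = 3 ^ d * t * ∑ i ∈ univ.filter (fun i => i ∉ J), b i := (mul_sum _ _ _).symm
        _ ≤ 3 ^ d * t * I := by
            refine mul_le_mul_of_nonneg_left ?_ (by positivity)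
            exact (sum_le_sum_of_subset_of_nonneg (subset_univ _) fun i _ _ => hb0 i).trans hbI
        _ = ε / 2 := by
            rw [ht]
            field_simp
    have hsplit : ∑ S with ¬ S ⊆ J, fc f S ^ 2 ≤ ∑ S with d < S.card, fc f S ^ 2 +
        ∑ i ∈ univ.filter (fun i => i ∉ J), ∑ S with i ∈ S ∧ S.card ≤ d, fc f S ^ 2 := by
      have e1 : ∑ S with ¬ S ⊆ J, fc f S ^ 2 = ∑ S, if ¬ S ⊆ J then fc f S ^ 2 else 0 :=
        sum_filter _ _
      have e2 : ∑ S with d < S.card, fc f S ^ 2 = ∑ S, if d < S.card then fc f S ^ 2 else 0 :=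
        sum_filter _ _
      have e3 : ∑ i ∈ univ.filter (fun i => i ∉ J), ∑ S with i ∈ S ∧ S.card ≤ d, fc f S ^ 2 =
          ∑ S, ∑ i ∈ univ.filter (fun i => i ∉ J),
            if i ∈ S ∧ S.card ≤ d then fc f S ^ 2 else 0 := by
        rw [sum_comm]
        exact sum_congr rfl fun i _ => sum_filter _ _
      rw [e1, e2, e3, ← sum_add_distrib]
      refine sum_le_sum fun S _ => ?_
      have hnn : 0 ≤ ∑ i ∈ univ.filter (fun i => i ∉ J),
          if i ∈ S ∧ S.card ≤ d then fc f S ^ 2 else 0 := by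
        refine sum_nonneg fun i _ => ?_
        split_ifs
        · exact sq_nonneg _
        · exact le_refl _
      by_cases h2 : S ⊆ J
      · rw [if_neg (not_not.2 h2)]
        split_ifs
        · exact add_nonneg (sq_nonneg _) hnn
        · exact add_nonneg (le_refl _) hnn
      · rw [if_pos h2]
        by_cases h3 : d < S.card
        · rw [if_pos h3]
          exact le_add_of_nonneg_right hnn
        · rw [if_neg h3, zero_add]
          obtain ⟨i, hiS, hiJ⟩ := not_subset.1 h2
          have h4 : i ∈ univ.filter (fun i => i ∉ J) := mem_filter.2 ⟨mem_univ _, hiJ⟩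
          refine le_trans ?_ (single_le_sum (f := fun i =>
            if i ∈ S ∧ S.card ≤ d then fc f S ^ 2 else 0) (fun i _ => ?_) h4)
          · show fc f S ^ 2 ≤ if i ∈ S ∧ S.card ≤ d then fc f S ^ 2 else 0
            rw [if_pos ⟨hiS, not_lt.1 h3⟩]
          · show 0 ≤ if i ∈ S ∧ S.card ≤ d then fc f S ^ 2 else 0
            split_ifs
            · exact sq_nonneg _
            · exact le_refl _
    linarith

/-- `cube_junta` in the form used by `junta`. -/
theorem cube_junta' (I0 eps : ℝ) (heps : 0 < eps) : ∃ j0 : ℕ, ∀ n : ℕ,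
    ∀ f : Finset (Fin n) → ℝ, (∀ x, 0 ≤ f x ∧ f x ≤ 1) → ∀ a : Fin n → ℝ,
    (∀ i, (∑ x : Finset (Fin n), |f (insert i x) - f (x.erase i)|) / 2 ^ n ≤ a i) →
    ∑ i, a i ≤ I0 → ∃ J : Finset (Fin n), J.card ≤ j0 ∧
      (∑ x : Finset (Fin n), f x ^ 2) / 2 ^ n -
        (∑ x : Finset (Fin n), avg f J x ^ 2) / 2 ^ n ≤ eps := by
  obtain ⟨j0, h⟩ := cube_junta I0 eps heps
  exact ⟨j0, fun n f hf a ha hs => h n f a hf ha hs⟩

end Pool.Agent.OFK
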