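import Mathlib

/-!
# OFK: Walsh functions on the subsets of a finite set, the (2,4) inequality of Bonami

`w S x = (-1) ^ |S ∩ x|`.  `bonami_deg`: for a function of degree at most `d` on the cube
`E h ^ 4 ≤ 9 ^ d * (E h ^ 2) ^ 2`.
-/

namespace Pool.Agent.OFK

open Finset

variable {α : Type*} [DecidableEq α]

/-- The Walsh function. -/
def w (S x : Finset α) : ℝ := (-1) ^ (S ∩ x).card

theorem w_comm (S x : Finset α) : w S x = w x S := by
  unfold w
  rw [inter_comm]

theorem w_empty (x : Finset α) : w ∅ x = 1 := by simp [w]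

theorem w_sq (S x : Finset α) : w S x * w S x = 1 := by
  unfold w
  rw [← pow_add, ← two_mul, pow_mul]
  simp

theorem w_insert_left {i : α} {S : Finset α} (hi : i ∉ S) (x : Finset α) :
    w (insert i S) x = (if i ∈ x then -1 else 1) * w S x := by
  unfold w
  by_cases hx : i ∈ x
  · rw [insert_inter_of_mem hx, card_insert_of_notMem (fun h => hi (mem_inter.1 h).1), if_pos hx,
      pow_succ]
    ring
  · rw [insert_inter_of_notMem hx, if_neg hx, one_mul]

theorem w_insert_right {i : α} {x : Finset α} (hi : i ∉ x) (S : Finset α) :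
    w S (insert i x) = (if i ∈ S then -1 else 1) * w S x := by
  rw [w_comm, w_insert_left hi, w_comm]

/-- The polynomial with coefficients `c` in the variables `s`. -/
def H (s : Finset α) (c : Finset α → ℝ) (x : Finset α) : ℝ := ∑ S ∈ s.powerset, c S * w S x

theorem H_insert {i : α} {t : Finset α} (hi : i ∉ t) (c : Finset α → ℝ) (x : Finset α) :
    H (insert i t) c x = H t c x + (if i ∈ x then -1 else 1) * H t (fun S => c (insert i S)) x := by
  unfold H
  rw [sum_powerset_insert hi, mul_sum]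
  congr 1
  refine sum_congr rfl fun S hS => ?_
  have hiS : i ∉ S := fun h => hi (mem_powerset.1 hS h)
  rw [w_insert_left hiS]
  ring

theorem H_insert_right {i : α} {t x : Finset α} (hi : i ∉ t) (hx : i ∉ x) (c : Finset α → ℝ) :
    H t c (insert i x) = H t c x := by
  unfold H
  refine sum_congr rfl fun S hS => ?_
  have hiS : i ∉ S := fun h => hi (mem_powerset.1 hS h)
  rw [w_insert_right hx, if_neg hiS, one_mul]

/-- A sum over the subsets of `insert i t`. -/
theorem sum_insert_cube {i : α} {t : Finset α} (hi : i ∉ t) (f : Finset α → ℝ) :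
    ∑ x ∈ (insert i t).powerset, f x = ∑ x ∈ t.powerset, (f x + f (insert i x)) := by
  rw [sum_powerset_insert hi, sum_add_distrib]

theorem bonami_T (r : ℝ) (hr : r ^ 2 = 1 / 3) (s : Finset α) : ∀ c : Finset α → ℝ,
    ∑ x ∈ s.powerset, H s (fun S => r ^ S.card * c S) x ^ 4 ≤
      2 ^ s.card * (∑ S ∈ s.powerset, c S ^ 2) ^ 2 := by
  induction s using Finset.induction_on with
  | empty =>
    intro c
    simp [H, w_empty]
    ring_nf
    exact le_refl _
  | insert i t hi ih =>
    intro c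
    have h1 := ih c
    have h2 := ih (fun S => c (insert i S))
    set A : Finset α → ℝ := H t (fun S => r ^ S.card * c S) with hA
    set B : Finset α → ℝ := H t (fun S => r ^ S.card * c (insert i S)) with hB
    have hB' : ∀ x, H t (fun S => r ^ (insert i S).card * c (insert i S)) x = r * B x := by
      intro x
      rw [hB]
      unfold H
      rw [mul_sum]
      refine sum_congr rfl fun S hS => ?_
      have hiS : i ∉ S := fun h => hi (mem_powerset.1 hS h)
      show r ^ (insert i S).card * c (insert i S) * w S x =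
        r * (r ^ S.card * c (insert i S) * w S x)
      rw [card_insert_of_notMem hiS, pow_succ]
      ring
    have h3 : ∑ x ∈ (insert i t).powerset, H (insert i t) (fun S => r ^ S.card * c S) x ^ 4 =
        2 * ∑ x ∈ t.powerset, A x ^ 4 + 4 * ∑ x ∈ t.powerset, A x ^ 2 * B x ^ 2 +
          2 / 9 * ∑ x ∈ t.powerset, B x ^ 4 := by
      rw [sum_insert_cube hi, mul_sum, mul_sum, mul_sum, ← sum_add_distrib, ← sum_add_distrib]
      refine sum_congr rfl fun x hx => ?_
      have hix : i ∉ x := fun h => hi (mem_powerset.1 hx h)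
      rw [H_insert hi, H_insert hi, H_insert_right hi hix, H_insert_right hi hix, if_neg hix,
        if_pos (mem_insert_self i x), hB', one_mul]
      have e1 : r ^ 4 = 1 / 9 := by
        have : r ^ 4 = (r ^ 2) ^ 2 := by ring
        rw [this, hr]
        norm_num
      show (A x + r * B x) ^ 4 + (A x + -1 * (r * B x)) ^ 4 = _
      have e2 : (A x + r * B x) ^ 4 + (A x + -1 * (r * B x)) ^ 4 =
          2 * A x ^ 4 + 12 * (r ^ 2) * (A x ^ 2 * B x ^ 2) + 2 * r ^ 4 * B x ^ 4 := by ring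
      rw [e2, hr, e1]
      ring
    have h4 : ∑ S ∈ (insert i t).powerset, c S ^ 2 =
        ∑ S ∈ t.powerset, c S ^ 2 + ∑ S ∈ t.powerset, c (insert i S) ^ 2 := by
      rw [sum_powerset_insert hi]
    set a : ℝ := ∑ S ∈ t.powerset, c S ^ 2 with ha
    set b : ℝ := ∑ S ∈ t.powerset, c (insert i S) ^ 2 with hb
    have ha0 : 0 ≤ a := sum_nonneg fun _ _ => sq_nonneg _
    have hb0 : 0 ≤ b := sum_nonneg fun _ _ => sq_nonneg _
    set N : ℝ := 2 ^ t.card with hN
    have hN0 : 0 < N := by positivity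
    have h5 : ∑ x ∈ t.powerset, A x ^ 2 * B x ^ 2 ≤ N * (a * b) := by
      have h6 : (∑ x ∈ t.powerset, A x ^ 2 * B x ^ 2) ^ 2 ≤
          (∑ x ∈ t.powerset, A x ^ 4) * ∑ x ∈ t.powerset, B x ^ 4 := by
        have h7 := sum_mul_sq_le_sq_mul_sq t.powerset (fun x => A x ^ 2) (fun x => B x ^ 2)
        have e1 : ∀ f : Finset α → ℝ, ∑ x ∈ t.powerset, (f x ^ 2) ^ 2 = ∑ x ∈ t.powerset, f x ^ 4 :=
          fun f => sum_congr rfl fun x _ => by ring
        rw [e1, e1] at h7
        exact h7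
      have h8 : (∑ x ∈ t.powerset, A x ^ 4) * ∑ x ∈ t.powerset, B x ^ 4 ≤
          (N * a ^ 2) * (N * b ^ 2) :=
        mul_le_mul h1 h2 (sum_nonneg fun _ _ => by positivity) (by positivity)
      have h9 : (∑ x ∈ t.powerset, A x ^ 2 * B x ^ 2) ^ 2 ≤ (N * (a * b)) ^ 2 := by
        calc _ ≤ (N * a ^ 2) * (N * b ^ 2) := h6.trans h8
          _ = _ := by ring
      exact le_of_sq_le_sq h9 (by positivity)
    rw [h3, h4, card_insert_of_notMem hi, pow_succ]
    show _ ≤ N * 2 * (a + b) ^ 2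
    have h10 : 0 ≤ N * b ^ 2 := by positivity
    nlinarith [h1, h2, h5, h10]

/-- Bonami's (2,4) inequality for polynomials of degree at most `d`. -/
theorem bonami_deg (s : Finset α) (c : Finset α → ℝ) (d : ℕ)
    (hc : ∀ S ∈ s.powerset, d < S.card → c S = 0) :
    ∑ x ∈ s.powerset, H s c x ^ 4 ≤ 2 ^ s.card * (9 ^ d * (∑ S ∈ s.powerset, c S ^ 2) ^ 2) := by
  obtain ⟨r, hr0, hr⟩ : ∃ r : ℝ, 0 < r ∧ r ^ 2 = 1 / 3 :=
    ⟨Real.sqrt (1 / 3), by positivity, Real.sq_sqrt (by norm_num)⟩
  have h1 := bonami_T r hr s (fun S => (r ^ S.card)⁻¹ * c S)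
  have e1 : ∀ x, H s (fun S => r ^ S.card * ((r ^ S.card)⁻¹ * c S)) x = H s c x := by
    intro x
    unfold H
    refine sum_congr rfl fun S _ => ?_
    show r ^ S.card * ((r ^ S.card)⁻¹ * c S) * w S x = c S * w S x
    rw [← mul_assoc, mul_inv_cancel₀ (pow_pos hr0 _).ne', one_mul]
  simp only [e1] at h1
  refine h1.trans (mul_le_mul_of_nonneg_left ?_ (by positivity))
  have h2 : ∑ S ∈ s.powerset, ((r ^ S.card)⁻¹ * c S) ^ 2 ≤ 3 ^ d * ∑ S ∈ s.powerset, c S ^ 2 := by
    rw [mul_sum]
    refine sum_le_sum fun S hS => ?_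
    by_cases hd : d < S.card
    · rw [hc S hS hd]
      simp
    · have e2 : ((r ^ S.card)⁻¹ * c S) ^ 2 = 3 ^ S.card * c S ^ 2 := by
        have e3 : ((r ^ S.card)⁻¹) ^ 2 = 3 ^ S.card := by
          rw [inv_pow, ← pow_mul, mul_comm S.card 2, pow_mul, hr, one_div, inv_pow, inv_inv]
        rw [mul_pow, e3]
      rw [e2]
      exact mul_le_mul_of_nonneg_right (pow_le_pow_right₀ (by norm_num) (not_lt.1 hd))
        (sq_nonneg _)
  calc (∑ S ∈ s.powerset, ((r ^ S.card)⁻¹ * c S) ^ 2) ^ 2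
      ≤ (3 ^ d * ∑ S ∈ s.powerset, c S ^ 2) ^ 2 :=
        pow_le_pow_left₀ (sum_nonneg fun _ _ => sq_nonneg _) h2 2
    _ = 9 ^ d * (∑ S ∈ s.powerset, c S ^ 2) ^ 2 := by
        rw [mul_pow, ← pow_mul, mul_comm d 2, pow_mul]
        norm_num

end Pool.Agent.OFK
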