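import Pool.Agent.OFK.CubeBonami

/-!
# OFK: Fourier analysis on the subsets of a finite set

Functions `f : Finset α → ℝ`; mean value `cE f`, coefficients `fc f S`, discrete derivatives
`dif f i`.
-/

namespace Pool.Agent.OFK

open Finset

variable {α : Type*} [DecidableEq α] [Fintype α]

/-- The mean value on the cube. -/
noncomputable def cE (f : Finset α → ℝ) : ℝ := (∑ x, f x) / 2 ^ Fintype.card α

/-- The Fourier coefficients. -/
noncomputable def fc (f : Finset α → ℝ) (S : Finset α) : ℝ := cE fun x => f x * w S x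

/-- The derivative in the direction `i`. -/
def dif (f : Finset α → ℝ) (i : α) (x : Finset α) : ℝ := f (insert i x) - f (x.erase i)

/-- A sum over the cube, split by the coordinate `i`. -/
theorem sum_split (i : α) (f : Finset α → ℝ) :
    ∑ x, f x = ∑ x ∈ ((univ : Finset α).erase i).powerset, (f x + f (insert i x)) := by
  rw [← sum_insert_cube (notMem_erase i _), insert_erase (mem_univ i), powerset_univ]

omit [DecidableEq α] in
theorem card_cube : ((univ : Finset (Finset α)).card : ℝ) = 2 ^ Fintype.card α := by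
  rw [card_univ, Fintype.card_finset]
  push_cast
  rfl

theorem notMem_of_mem_split {i : α} {x : Finset α}
    (hx : x ∈ ((univ : Finset α).erase i).powerset) : i ∉ x := fun h =>
  notMem_erase i _ (mem_powerset.1 hx h)

/-- Orthogonality. -/
theorem orth (S T : Finset α) :
    ∑ x, w S x * w T x = if S = T then (2 : ℝ) ^ Fintype.card α else 0 := by
  split_ifs with h
  · subst h
    rw [sum_congr rfl fun x _ => w_sq S x, sum_const, nsmul_eq_mul, mul_one, card_cube]
  · have h1 : ∃ i, (i ∈ S ∧ i ∉ T) ∨ (i ∉ S ∧ i ∈ T) := by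
      by_contra hcon
      push Not at hcon
      apply h
      ext i
      constructor
      · intro hi
        exact (hcon i).1 hi
      · intro hi
        by_contra hS
        exact (hcon i).2 hS hi
    obtain ⟨i, hi⟩ := h1
    rw [sum_split i]
    refine sum_eq_zero fun x hx => ?_
    have hix := notMem_of_mem_split hx
    rw [w_insert_right hix, w_insert_right hix]
    rcases hi with ⟨h2, h3⟩ | ⟨h2, h3⟩
    · rw [if_pos h2, if_neg h3]
      ring
    · rw [if_neg h2, if_pos h3]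
      ring

/-- Parseval's identity for two polynomials. -/
theorem parseval (c d : Finset α → ℝ) :
    ∑ x, (∑ S, c S * w S x) * (∑ S, d S * w S x) = 2 ^ Fintype.card α * ∑ S, c S * d S := by
  have h1 : ∀ x : Finset α, (∑ S, c S * w S x) * (∑ S, d S * w S x) =
      ∑ S, ∑ T, c S * d T * (w S x * w T x) := by
    intro x
    rw [sum_mul_sum]
    refine sum_congr rfl fun S _ => sum_congr rfl fun T _ => ?_
    ring
  rw [sum_congr rfl fun x _ => h1 x, sum_comm, mul_sum]
  refine sum_congr rfl fun S _ => ?_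
  rw [sum_comm]
  have h2 : ∀ T : Finset α, ∑ x, c S * d T * (w S x * w T x) =
      if S = T then c S * d T * 2 ^ Fintype.card α else 0 := by
    intro T
    rw [← mul_sum, orth]
    split_ifs <;> simp
  rw [sum_congr rfl fun T _ => h2 T, sum_ite_eq univ S, if_pos (mem_univ S)]
  ring

/-- Fourier inversion. -/
theorem inversion (f : Finset α → ℝ) (x : Finset α) : f x = ∑ S, fc f S * w S x := by
  have h0 : (2 : ℝ) ^ Fintype.card α ≠ 0 := by positivity
  have h1 : ∑ S, fc f S * w S x =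
      (∑ y, f y * ∑ S, w S y * w S x) / 2 ^ Fintype.card α := by
    unfold fc cE
    rw [sum_congr rfl fun S _ => div_mul_eq_mul_div _ _ _, ← sum_div]
    congr 1
    rw [sum_congr rfl fun S _ => sum_mul _ _ _, sum_comm]
    refine sum_congr rfl fun y _ => ?_
    rw [mul_sum]
    refine sum_congr rfl fun S _ => ?_
    ring
  have h2 : ∀ y : Finset α, ∑ S, w S y * w S x =
      if y = x then (2 : ℝ) ^ Fintype.card α else 0 := by
    intro y
    rw [← orth y x]
    refine sum_congr rfl fun S _ => ?_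
    rw [w_comm S y, w_comm S x]
  rw [h1, sum_congr rfl fun y _ => by rw [h2 y]]
  simp [h0]

/-- Parseval for a function. -/
theorem parseval_fc (f : Finset α → ℝ) : cE (fun x => f x ^ 2) = ∑ S, fc f S ^ 2 := by
  have h0 : (2 : ℝ) ^ Fintype.card α ≠ 0 := by positivity
  have h1 := parseval (fc f) (fc f)
  rw [sum_congr rfl fun x _ => by rw [← inversion f x]] at h1
  unfold cE
  rw [div_eq_iff h0, mul_comm, sum_congr rfl fun x _ => sq (f x), h1]
  congr 1
  exact sum_congr rfl fun S _ => (sq _).symm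

/-- The coefficients of the derivative. -/
theorem fc_dif (f : Finset α → ℝ) {i : α} {T : Finset α} (hi : i ∉ T) :
    fc (dif f i) T = -2 * fc f (insert i T) := by
  unfold fc cE
  rw [sum_split i, sum_split i, ← mul_div_assoc, mul_sum]
  congr 1
  refine sum_congr rfl fun x hx => ?_
  have hix := notMem_of_mem_split hx
  unfold dif
  rw [insert_idem, erase_insert hix, erase_eq_of_notMem hix, w_insert_right hix, if_neg hi,
    w_insert_left hi, w_insert_left hi, if_neg hix, if_pos (mem_insert_self i x),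
    w_insert_right hix, if_neg hi]
  ring

/-- The level-`d` inequality. -/
theorem level_d {g : Finset α → ℝ} (hg : ∀ x, |g x| ≤ 1) (d : ℕ) :
    (∑ S with S.card ≤ d, fc g S ^ 2) ^ 2 ≤ 9 ^ d * cE (fun x => |g x|) ^ 3 := by
  obtain ⟨N, hN⟩ : ∃ N : ℝ, N = 2 ^ Fintype.card α := ⟨_, rfl⟩
  have hN0 : 0 < N := by rw [hN]; positivity
  obtain ⟨c, hc⟩ : ∃ c : Finset α → ℝ, ∀ S, c S = if S.card ≤ d then fc g S else 0 :=
    ⟨_, fun _ => rfl⟩
  obtain ⟨h, hh⟩ : ∃ h : Finset α → ℝ, ∀ x, h x = ∑ S, c S * w S x := ⟨_, fun _ => rfl⟩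
  obtain ⟨W, hW⟩ : ∃ W : ℝ, W = ∑ S with S.card ≤ d, fc g S ^ 2 := ⟨_, rfl⟩
  obtain ⟨G, hG⟩ : ∃ G : ℝ, G = ∑ x, |g x| := ⟨_, rfl⟩
  have hG0 : 0 ≤ G := by
    rw [hG]
    exact sum_nonneg fun _ _ => abs_nonneg _
  have hW0 : 0 ≤ W := by
    rw [hW]
    exact sum_nonneg fun _ _ => sq_nonneg _
  have hWc : W = ∑ S, c S ^ 2 := by
    rw [hW, sum_filter]
    refine sum_congr rfl fun S _ => ?_
    rw [hc]
    split_ifs <;> simp
  have hWg : N * W = ∑ x, g x * h x := by
    have h1 := parseval (fc g) c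
    rw [sum_congr rfl fun x _ => by rw [← inversion g x, ← hh x]] at h1
    rw [h1, hN, hWc]
    congr 1
    refine sum_congr rfl fun S _ => ?_
    rw [hc]
    split_ifs <;> ring
  have hB : ∑ x, h x ^ 4 ≤ N * (9 ^ d * W ^ 2) := by
    have h1 := bonami_deg (univ : Finset α) c d (fun S _ hS => by rw [hc, if_neg (not_le.2 hS)])
    rw [powerset_univ, card_univ, ← hN, ← hWc] at h1
    have h2 : ∀ x, H univ c x = h x := by
      intro x
      rw [hh]
      unfold H
      rw [powerset_univ]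
    rw [sum_congr rfl fun x _ => by rw [h2 x]] at h1
    exact h1
  -- Hölder
  have h1 : (∑ x, |g x| * |h x|) ^ 2 ≤ G * ∑ x, |g x| * h x ^ 2 := by
    have h2 := sum_mul_sq_le_sq_mul_sq univ (fun x => Real.sqrt |g x|)
      (fun x => Real.sqrt |g x| * |h x|)
    have e1 : ∀ x, Real.sqrt |g x| * (Real.sqrt |g x| * |h x|) = |g x| * |h x| := by
      intro x
      rw [← mul_assoc, Real.mul_self_sqrt (abs_nonneg _)]
    have e2 : ∀ x, Real.sqrt |g x| ^ 2 = |g x| := fun x => Real.sq_sqrt (abs_nonneg _)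
    have e3 : ∀ x, (Real.sqrt |g x| * |h x|) ^ 2 = |g x| * h x ^ 2 := by
      intro x
      rw [mul_pow, e2, sq_abs]
    rw [sum_congr rfl fun x _ => e1 x, sum_congr rfl fun x _ => e2 x,
      sum_congr rfl fun x _ => e3 x, ← hG] at h2
    exact h2
  have h3 : (∑ x, |g x| * h x ^ 2) ^ 2 ≤ G * ∑ x, h x ^ 4 := by
    have h2 := sum_mul_sq_le_sq_mul_sq univ (fun x => Real.sqrt |g x|)
      (fun x => Real.sqrt |g x| * h x ^ 2)
    have e1 : ∀ x, Real.sqrt |g x| * (Real.sqrt |g x| * h x ^ 2) = |g x| * h x ^ 2 := by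
      intro x
      rw [← mul_assoc, Real.mul_self_sqrt (abs_nonneg _)]
    have e2 : ∀ x, Real.sqrt |g x| ^ 2 = |g x| := fun x => Real.sq_sqrt (abs_nonneg _)
    rw [sum_congr rfl fun x _ => e1 x, sum_congr rfl fun x _ => e2 x, ← hG] at h2
    refine h2.trans (mul_le_mul_of_nonneg_left (sum_le_sum fun x _ => ?_) hG0)
    rw [mul_pow, e2]
    calc |g x| * (h x ^ 2) ^ 2 ≤ 1 * (h x ^ 2) ^ 2 :=
          mul_le_mul_of_nonneg_right (hg x) (sq_nonneg _)
      _ = h x ^ 4 := by ring
  have h4 : N * W ≤ ∑ x, |g x| * |h x| := by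
    rw [hWg]
    refine sum_le_sum fun x _ => ?_
    rw [← abs_mul]
    exact le_abs_self _
  obtain ⟨Y, hY⟩ : ∃ Y : ℝ, Y = ∑ x, |g x| * h x ^ 2 := ⟨_, rfl⟩
  have hY0 : 0 ≤ Y := by
    rw [hY]
    exact sum_nonneg fun _ _ => by positivity
  rw [← hY] at h1 h3
  have h5 : (N * W) ^ 2 ≤ G * Y :=
    (pow_le_pow_left₀ (by positivity) h4 2).trans h1
  have h6 : Y ^ 2 ≤ G * (N * (9 ^ d * W ^ 2)) := h3.trans (mul_le_mul_of_nonneg_left hB hG0)
  have h7 : (N * W) ^ 4 ≤ G ^ 3 * (N * (9 ^ d * W ^ 2)) := by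
    calc (N * W) ^ 4 = ((N * W) ^ 2) ^ 2 := by ring
      _ ≤ (G * Y) ^ 2 := pow_le_pow_left₀ (by positivity) h5 2
      _ = G ^ 2 * Y ^ 2 := by ring
      _ ≤ G ^ 2 * (G * (N * (9 ^ d * W ^ 2))) := mul_le_mul_of_nonneg_left h6 (by positivity)
      _ = _ := by ring
  have h8 : cE (fun x => |g x|) = G / N := by
    unfold cE
    rw [hG, hN]
  rw [h8, ← hW]
  rcases hW0.eq_or_lt with hW1 | hW1
  · rw [← hW1]
    have : 0 ≤ G / N := div_nonneg hG0 hN0.le
    calc (0 : ℝ) ^ 2 = 0 := by norm_num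
      _ ≤ 9 ^ d * (G / N) ^ 3 := by positivity
  · have h9 : W ^ 2 * (N ^ 4 * W ^ 2) ≤ (9 ^ d * (G / N) ^ 3) * (N ^ 4 * W ^ 2) := by
      have e1 : W ^ 2 * (N ^ 4 * W ^ 2) = (N * W) ^ 4 := by ring
      have e2 : (9 ^ d * (G / N) ^ 3) * (N ^ 4 * W ^ 2) = G ^ 3 * (N * (9 ^ d * W ^ 2)) := by
        field_simp
      rw [e1, e2]
      exact h7
    exact le_of_mul_le_mul_right h9 (by positivity)

end Pool.Agent.OFK
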