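import Pool.Agent.OFK.Level

/-! # OFK, package Drift: the conditional average of the lift over a pattern, level by level (1 h)

`N = n - |J|`, `al U r J u ℓ` = the average of `lf U (r+1) x` over the `ℓ`-sets `x` with `x ∩ J = u`.
For the pairs `(x, i)` with `|x| = ℓ`, `x ∩ J = u`, `i ∉ J ∪ x` (their number is
`C(N,ℓ-|u|)(N-(ℓ-|u|))`): the average of `lf(x)` is `al ℓ` and the average of `lf(x+i)` is `al (ℓ+1)`
(every `(ℓ+1)`-set `x'` with trace `u` occurs `|x' \ J| = ℓ+1-|u|` times). All these pairs occur in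
`level_drift`. -/

set_option autoImplicit false

namespace Pool.Agent.OFK

open Finset

variable {n : ℕ}

noncomputable def al (U : Finset (Finset (Fin n))) (r : ℕ) (J u : Finset (Fin n)) (l : ℕ) : ℝ :=
  (∑ x ∈ (powersetCard l (univ : Finset (Fin n))).filter (fun x => x ∩ J = u), lf U (r + 1) x) /
    ((n - J.card).choose (l - u.card) : ℝ)

/-- the sets of the pattern -/
private theorem mem_Drift {J u : Finset (Fin n)} {l : ℕ} {x : Finset (Fin n)} :
    x ∈ (powersetCard l (univ : Finset (Fin n))).filter (fun x => x ∩ J = u) ↔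
      x.card = l ∧ x ∩ J = u := by
  rw [mem_filter, mem_powersetCard]
  exact ⟨fun h => ⟨h.1.2, h.2⟩, fun h => ⟨⟨subset_univ _, h.1⟩, h.2⟩⟩

private theorem sdiff_card_Drift {J u x : Finset (Fin n)} {l : ℕ} (hx : x.card = l)
    (hxu : x ∩ J = u) : (x \ J).card = l - u.card := by
  have h := card_sdiff_add_card_inter x J
  rw [hxu, hx] at h
  omega

private theorem card_Drift (J u : Finset (Fin n)) (hu : u ⊆ J) (l : ℕ) (hul : u.card ≤ l) :
    ((powersetCard l (univ : Finset (Fin n))).filter (fun x => x ∩ J = u)).card =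
      (n - J.card).choose (l - u.card) := by
  have h1 : (univ \ J : Finset (Fin n)).card = n - J.card := by
    rw [card_sdiff_of_subset (subset_univ J), card_univ, Fintype.card_fin]
  rw [← h1, ← card_powersetCard]
  refine card_nbij' (fun x => x \ J) (fun y => u ∪ y) ?_ ?_ ?_ ?_
  · intro x hx
    obtain ⟨h2, h3⟩ := mem_Drift.1 hx
    exact mem_powersetCard.2 ⟨sdiff_subset_sdiff (subset_univ x) (subset_refl J),
      sdiff_card_Drift h2 h3⟩
  · intro y hy
    obtain ⟨h2, h3⟩ := mem_powersetCard.1 hy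
    have h4 : Disjoint y J := by
      rw [disjoint_left]
      intro a ha haJ
      exact (mem_sdiff.1 (h2 ha)).2 haJ
    refine mem_Drift.2 ⟨?_, ?_⟩
    · show (u ∪ y).card = l
      rw [card_union_of_disjoint (h4.symm.mono_left hu), h3]
      omega
    · show (u ∪ y) ∩ J = u
      rw [union_inter_distrib_right, inter_eq_left.2 hu, disjoint_iff_inter_eq_empty.1 h4,
        union_empty]
  · intro x hx
    obtain ⟨h2, h3⟩ := mem_Drift.1 hx
    show u ∪ x \ J = x
    rw [← h3, union_comm, sdiff_union_inter]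
  · intro y hy
    obtain ⟨h2, h3⟩ := mem_powersetCard.1 hy
    show (u ∪ y) \ J = y
    ext a
    rw [mem_sdiff, mem_union]
    constructor
    · rintro ⟨h5 | h5, h6⟩
      · exact absurd (hu h5) h6
      · exact h5
    · intro h5
      exact ⟨Or.inr h5, (mem_sdiff.1 (h2 h5)).2⟩

private theorem empty_Drift (J u : Finset (Fin n)) (l : ℕ) (hul : l < u.card) :
    (powersetCard l (univ : Finset (Fin n))).filter (fun x => x ∩ J = u) = ∅ := by
  rw [eq_empty_iff_forall_notMem]
  intro x hx
  obtain ⟨h2, h3⟩ := mem_Drift.1 hx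
  have h4 : u.card ≤ x.card := by
    rw [← h3]
    exact card_le_card inter_subset_left
  omega

/-- the number of the points outside of `J` and `x` -/
private theorem out_card_Drift {J u x : Finset (Fin n)} {l : ℕ} (hx : x.card = l)
    (hxu : x ∩ J = u) : (univ \ (J ∪ x) : Finset (Fin n)).card = n - J.card - (l - u.card) := by
  have h1 : J ∪ x = J ∪ (x \ J) := by rw [union_sdiff_self_eq_union]
  rw [card_sdiff_of_subset (subset_univ _), card_univ, Fintype.card_fin, h1,
    card_union_of_disjoint disjoint_sdiff, sdiff_card_Drift hx hxu]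
  omega

/-- double counting -/
private theorem double_Drift (J u : Finset (Fin n)) (l : ℕ) (hul : u.card ≤ l)
    (g : Finset (Fin n) → ℝ) :
    ∑ x ∈ (powersetCard l (univ : Finset (Fin n))).filter (fun x => x ∩ J = u),
        ∑ i ∈ univ \ (J ∪ x), g (insert i x) =
      ((l - u.card + 1 : ℕ) : ℝ) *
        ∑ x ∈ (powersetCard (l + 1) (univ : Finset (Fin n))).filter (fun x => x ∩ J = u),
          g x := by
  have h1 : ((l - u.card + 1 : ℕ) : ℝ) *
        ∑ x ∈ (powersetCard (l + 1) (univ : Finset (Fin n))).filter (fun x => x ∩ J = u), g x =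
      ∑ x ∈ (powersetCard (l + 1) (univ : Finset (Fin n))).filter (fun x => x ∩ J = u),
        ∑ _i ∈ x \ J, g x := by
    rw [mul_sum]
    refine sum_congr rfl fun x hx => ?_
    obtain ⟨h2, h3⟩ := mem_Drift.1 hx
    rw [sum_const, nsmul_eq_mul, sdiff_card_Drift h2 h3]
    congr 2
    omega
  rw [h1, sum_sigma', sum_sigma']
  refine sum_nbij' (fun p => ⟨insert p.2 p.1, p.2⟩) (fun p => ⟨p.1.erase p.2, p.2⟩)
    ?_ ?_ ?_ ?_ ?_
  · rintro ⟨x, i⟩ hp
    rw [mem_sigma] at hp ⊢
    obtain ⟨h2, h3⟩ := mem_Drift.1 hp.1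
    have h4 := (mem_sdiff.1 hp.2).2
    simp only [mem_union, not_or] at h4
    refine ⟨mem_Drift.2 ⟨?_, ?_⟩, ?_⟩
    · show (insert i x).card = l + 1
      rw [card_insert_of_notMem h4.2, h2]
    · show insert i x ∩ J = u
      rw [insert_inter_of_notMem h4.1, h3]
    · exact mem_sdiff.2 ⟨mem_insert_self i x, h4.1⟩
  · rintro ⟨x, i⟩ hp
    rw [mem_sigma] at hp ⊢
    obtain ⟨h2, h3⟩ := mem_Drift.1 hp.1
    obtain ⟨h4, h5⟩ := mem_sdiff.1 hp.2
    refine ⟨mem_Drift.2 ⟨?_, ?_⟩, ?_⟩
    · show (x.erase i).card = l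
      rw [card_erase_of_mem h4, h2]
      rfl
    · show x.erase i ∩ J = u
      rw [← h3]
      ext a
      rw [mem_inter, mem_erase, mem_inter]
      constructor
      · exact fun h => ⟨h.1.2, h.2⟩
      · exact fun h => ⟨⟨fun e => h5 (e ▸ h.2), h.1⟩, h.2⟩
    · refine mem_sdiff.2 ⟨mem_univ _, ?_⟩
      show i ∉ J ∪ x.erase i
      rw [mem_union, not_or]
      exact ⟨h5, notMem_erase i x⟩
  · rintro ⟨x, i⟩ hp
    rw [mem_sigma] at hp
    have h4 := (mem_sdiff.1 hp.2).2
    simp only [mem_union, not_or] at h4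
    show (⟨(insert i x).erase i, i⟩ : Σ _ : Finset (Fin n), Fin n) = ⟨x, i⟩
    rw [erase_insert h4.2]
  · rintro ⟨x, i⟩ hp
    rw [mem_sigma] at hp
    obtain ⟨h4, h5⟩ := mem_sdiff.1 hp.2
    show (⟨insert i (x.erase i), i⟩ : Σ _ : Finset (Fin n), Fin n) = ⟨x, i⟩
    rw [insert_erase h4]
  · rintro ⟨x, i⟩ _
    rfl

/-- the values are in `[0, 1]` -/
private theorem lf_mem_Drift (U : Finset (Finset (Fin n))) (m : ℕ)
    (hU : U ⊆ powersetCard m (univ : Finset (Fin n))) (x : Finset (Fin n)) :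
    0 ≤ lf U m x ∧ lf U m x ≤ 1 := by
  unfold lf
  split_ifs with h
  · refine ⟨by positivity, ?_⟩
    refine div_le_one_of_le₀ ?_ (Nat.cast_nonneg _)
    have h1 : U.filter (fun y => y ⊆ x) ⊆ powersetCard m x := by
      intro y hy
      obtain ⟨h2, h3⟩ := mem_filter.1 hy
      exact mem_powersetCard.2 ⟨h3, (mem_powersetCard.1 (hU h2)).2⟩
    have h2 := card_le_card h1
    rw [card_powersetCard] at h2
    exact_mod_cast h2
  · refine ⟨by positivity, ?_⟩
    refine div_le_one_of_le₀ ?_ (Nat.cast_nonneg _)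
    have h1 : U.filter (fun y => x ⊆ y) ⊆
        (powersetCard m (univ : Finset (Fin n))).filter (fun y => y ∩ x = x) := by
      intro y hy
      obtain ⟨h2, h3⟩ := mem_filter.1 hy
      exact mem_filter.2 ⟨hU h2, inter_eq_right.2 h3⟩
    have h2 := card_le_card h1
    rw [card_Drift x x (subset_refl x) m (by omega)] at h2
    exact_mod_cast h2

theorem drift (U : Finset (Finset (Fin n))) (r : ℕ)
    (hU : U ⊆ powersetCard (r + 1) (univ : Finset (Fin n))) (hrn : r + 2 ≤ n)
    (J u : Finset (Fin n)) (hu : u ⊆ J) (l : ℕ) (hul : u.card ≤ l)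
    (hl : l - u.card < n - J.card) :
    |al U r J u (l + 1) - al U r J u l| *
        (((n - J.card).choose (l - u.card) : ℝ) * ((n : ℝ) - J.card - (l - u.card))) ≤
      (n.choose l : ℝ) * ((n : ℝ) - l) * (2 * oU U r) := by
  have hJn : J.card ≤ n := (card_le_univ J).trans (Fintype.card_fin n).le
  have huJ : u.card ≤ J.card := card_le_card hu
  have hln : l < n := by omega
  obtain ⟨k, hk⟩ : ∃ k, k = l - u.card := ⟨_, rfl⟩
  obtain ⟨N, hN⟩ : ∃ N, N = n - J.card := ⟨_, rfl⟩
  have hkN : k < N := by omega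
  have e1 : (n : ℝ) - J.card - (l - u.card) = ((N - k : ℕ) : ℝ) := by
    rw [Nat.cast_sub hkN.le, hN, hk, Nat.cast_sub hJn, Nat.cast_sub hul]
  have e2 : l + 1 - u.card = k + 1 := by omega
  have c1 : (N.choose k : ℝ) ≠ 0 := by
    exact_mod_cast (Nat.choose_pos hkN.le).ne'
  have c2 : (N.choose (k + 1) : ℝ) ≠ 0 := by
    exact_mod_cast (Nat.choose_pos hkN).ne'
  have c3 : (N.choose (k + 1) : ℝ) * ((k + 1 : ℕ) : ℝ) = N.choose k * ((N - k : ℕ) : ℝ) := by
    exact_mod_cast Nat.choose_succ_right_eq N k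
  have key : (al U r J u (l + 1) - al U r J u l) * ((N.choose k : ℝ) * ((N - k : ℕ) : ℝ)) =
      ∑ x ∈ (powersetCard l (univ : Finset (Fin n))).filter (fun x => x ∩ J = u),
        ∑ i ∈ univ \ (J ∪ x), (lf U (r + 1) (insert i x) - lf U (r + 1) x) := by
    have h1 : ∑ x ∈ (powersetCard l (univ : Finset (Fin n))).filter (fun x => x ∩ J = u),
        ∑ i ∈ univ \ (J ∪ x), (lf U (r + 1) (insert i x) - lf U (r + 1) x) =
        ∑ x ∈ (powersetCard l (univ : Finset (Fin n))).filter (fun x => x ∩ J = u),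
          ∑ i ∈ univ \ (J ∪ x), lf U (r + 1) (insert i x) -
        ((N - k : ℕ) : ℝ) *
          ∑ x ∈ (powersetCard l (univ : Finset (Fin n))).filter (fun x => x ∩ J = u),
            lf U (r + 1) x := by
      rw [mul_sum, ← sum_sub_distrib]
      refine sum_congr rfl fun x hx => ?_
      obtain ⟨h2, h3⟩ := mem_Drift.1 hx
      rw [sum_sub_distrib, sum_const, nsmul_eq_mul, out_card_Drift h2 h3, ← hN, ← hk]
    rw [h1, double_Drift J u l hul, ← hk]
    unfold al
    rw [e2, ← hk, ← hN, sub_mul, ← c3, div_mul_eq_mul_div, ← mul_assoc,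
      mul_div_assoc]
    rw [show (∑ x ∈ (powersetCard (l + 1) (univ : Finset (Fin n))).filter (fun x => x ∩ J = u),
        lf U (r + 1) x) * (N.choose (k + 1) : ℝ) * (((k + 1 : ℕ) : ℝ) / (N.choose (k + 1) : ℝ)) =
        ((k + 1 : ℕ) : ℝ) *
        ∑ x ∈ (powersetCard (l + 1) (univ : Finset (Fin n))).filter (fun x => x ∩ J = u),
          lf U (r + 1) x by field_simp, c3]
    congr 1
    field_simp
  have hpos : 0 ≤ (N.choose k : ℝ) * ((N - k : ℕ) : ℝ) := by positivity
  rw [e1, ← hN, ← hk]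
  calc |al U r J u (l + 1) - al U r J u l| * ((N.choose k : ℝ) * ((N - k : ℕ) : ℝ)) =
      |(al U r J u (l + 1) - al U r J u l) * ((N.choose k : ℝ) * ((N - k : ℕ) : ℝ))| := by
        rw [abs_mul, abs_of_nonneg hpos]
    _ = |∑ x ∈ (powersetCard l (univ : Finset (Fin n))).filter (fun x => x ∩ J = u),
        ∑ i ∈ univ \ (J ∪ x), (lf U (r + 1) (insert i x) - lf U (r + 1) x)| := by rw [key]
    _ ≤ ∑ x ∈ (powersetCard l (univ : Finset (Fin n))).filter (fun x => x ∩ J = u),
        ∑ i ∈ univ \ (J ∪ x), |lf U (r + 1) (insert i x) - lf U (r + 1) x| :=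
      (abs_sum_le_sum_abs _ _).trans (sum_le_sum fun x _ => abs_sum_le_sum_abs _ _)
    _ ≤ ∑ x ∈ (powersetCard l (univ : Finset (Fin n))).filter (fun x => x ∩ J = u),
        ∑ i ∈ univ \ x, |lf U (r + 1) (insert i x) - lf U (r + 1) x| :=
      sum_le_sum fun x _ => sum_le_sum_of_subset_of_nonneg
        (sdiff_subset_sdiff (subset_refl _) subset_union_right) fun _ _ _ => abs_nonneg _
    _ ≤ ∑ x ∈ powersetCard l (univ : Finset (Fin n)),
        ∑ i ∈ univ \ x, |lf U (r + 1) (insert i x) - lf U (r + 1) x| :=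
      sum_le_sum_of_subset_of_nonneg (filter_subset _ _) fun _ _ _ =>
        sum_nonneg fun _ _ => abs_nonneg _
    _ ≤ (n.choose l : ℝ) * ((n : ℝ) - l) * (2 * oU U r) := level_drift U r hU hrn l hln

theorem al_level (U : Finset (Finset (Fin n))) (r : ℕ)
    (hU : U ⊆ powersetCard (r + 1) (univ : Finset (Fin n))) (J u : Finset (Fin n)) (hu : u ⊆ J) :
    al U r J u (r + 1) = pd U (r + 1) J u := by
  have h1 : ∀ x : Finset (Fin n), x.card = r + 1 →
      lf U (r + 1) x = if x ∈ U then (1 : ℝ) else 0 := by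
    intro x hx
    unfold lf
    rw [if_pos hx.ge, hx, Nat.choose_self, Nat.cast_one, div_one]
    split_ifs with h
    · have h2 : U.filter (fun y => y ⊆ x) = {x} := by
        ext y
        rw [mem_filter, mem_singleton]
        constructor
        · rintro ⟨h3, h4⟩
          refine eq_of_subset_of_card_le h4 ?_
          rw [hx, (mem_powersetCard.1 (hU h3)).2]
        · rintro rfl
          exact ⟨h, subset_refl _⟩
      rw [h2, card_singleton, Nat.cast_one]
    · have h2 : U.filter (fun y => y ⊆ x) = ∅ := by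
        rw [eq_empty_iff_forall_notMem]
        intro y hy
        obtain ⟨h3, h4⟩ := mem_filter.1 hy
        have h5 : y = x := by
          refine eq_of_subset_of_card_le h4 ?_
          rw [hx, (mem_powersetCard.1 (hU h3)).2]
        exact h (h5 ▸ h3)
      rw [h2, card_empty, Nat.cast_zero]
  unfold al pd
  congr 1
  rw [sum_congr rfl fun x hx => h1 x (mem_Drift.1 hx).1, sum_ite, sum_const, sum_const_zero,
    add_zero, nsmul_eq_mul, mul_one]
  congr 2
  unfold tr
  ext x
  rw [mem_filter, mem_Drift, mem_filter]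
  constructor
  · rintro ⟨⟨_, h2⟩, h3⟩
    exact ⟨h3, h2⟩
  · rintro ⟨h2, h3⟩
    exact ⟨⟨(mem_powersetCard.1 (hU h2)).2, h3⟩, h2⟩

/-- `avg` splits by the size of `y` -/
theorem avg_eq (U : Finset (Finset (Fin n))) (r : ℕ) (J u : Finset (Fin n)) (hu : u ⊆ J) :
    avg (lf U (r + 1)) J u = (∑ l ∈ Icc u.card (u.card + (n - J.card)),
      ((n - J.card).choose (l - u.card) : ℝ) * al U r J u l) / 2 ^ (n - J.card) := by
  have hJn : J.card ≤ n := (card_le_univ J).trans (Fintype.card_fin n).le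
  unfold avg
  congr 1
  have h1 : ∀ l ∈ Icc u.card (u.card + (n - J.card)),
      ((n - J.card).choose (l - u.card) : ℝ) * al U r J u l =
        ∑ x ∈ (powersetCard l (univ : Finset (Fin n))).filter (fun x => x ∩ J = u),
          lf U (r + 1) x := by
    intro l hl
    rw [mem_Icc] at hl
    have h2 : ((n - J.card).choose (l - u.card) : ℝ) ≠ 0 := by
      have h3 : 0 < (n - J.card).choose (l - u.card) := Nat.choose_pos (by omega)
      exact_mod_cast h3.ne'
    unfold al
    exact mul_div_cancel₀ _ h2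
  rw [sum_congr rfl h1]
  rw [← sum_fiberwise_of_maps_to (s := (univ : Finset (Finset (Fin n))).filter
    (fun y => y ∩ J = u ∩ J)) (t := Icc u.card (u.card + (n - J.card)))
    (g := fun y => y.card) (fun y hy => ?_) (fun y => lf U (r + 1) y)]
  · refine sum_congr rfl fun l _ => sum_congr ?_ fun _ _ => rfl
    ext x
    rw [mem_Drift, mem_filter, mem_filter, inter_eq_left.2 hu]
    exact ⟨fun h => ⟨h.2, h.1.2⟩, fun h => ⟨⟨mem_univ _, h.2⟩, h.1⟩⟩
  · have h3 := (mem_filter.1 hy).2
    rw [inter_eq_left.2 hu] at h3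
    rw [mem_Icc]
    have h4 : u.card ≤ y.card := by
      rw [← h3]
      exact card_le_card inter_subset_left
    have h5 := sdiff_card_Drift rfl h3
    have h6 : (y \ J).card ≤ n - J.card := by
      have h7 : (univ \ J : Finset (Fin n)).card = n - J.card := by
        rw [card_sdiff_of_subset (subset_univ J), card_univ, Fintype.card_fin]
      rw [← h7]
      exact card_le_card (sdiff_subset_sdiff (subset_univ y) (subset_refl J))
    omega

theorem al_mem (U : Finset (Finset (Fin n))) (r : ℕ)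
    (hU : U ⊆ powersetCard (r + 1) (univ : Finset (Fin n))) (J u : Finset (Fin n)) (hu : u ⊆ J)
    (l : ℕ) : 0 ≤ al U r J u l ∧ al U r J u l ≤ 1 := by
  unfold al
  constructor
  · exact div_nonneg (sum_nonneg fun x _ => (lf_mem_Drift U (r + 1) hU x).1) (Nat.cast_nonneg _)
  · refine div_le_one_of_le₀ ?_ (Nat.cast_nonneg _)
    by_cases hul : u.card ≤ l
    · refine (sum_le_card_nsmul _ _ 1 fun x _ => (lf_mem_Drift U (r + 1) hU x).2).trans ?_
      rw [card_Drift J u hu l hul, nsmul_eq_mul, mul_one]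
    · rw [empty_Drift J u l (by omega), sum_empty]
      exact Nat.cast_nonneg _

end Pool.Agent.OFK
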