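import Pool.Agent.OFK.MainTwo
import Pool.Agent.OFK.Account

/-! # OFK: the odd half for fixed `k` (final assembly) -/

set_option autoImplicit false

namespace Pool.Agent.OFK

open Finset

/-- Case 2: the level `s+2` of the down-closure has density `≥ δ`. -/
theorem case_two (k : ℕ) (hk : 1 ≤ k) (δ : ℝ) (hδ : 0 < δ) : ∃ N : ℕ, ∀ s n : ℕ, N ≤ s → n = 2 * s + 1 + k →
    ∀ F : Finset (Finset (Fin n)), IsAntichain (· ⊆ ·) (F : Set (Finset (Fin n))) →
    (∀ A ∈ F, ∀ B ∈ F, A ∪ B ≠ univ) →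
    (∀ A ∈ F, ∀ B ∈ F, Disjoint A B → A.card + B.card ≤ 2 * s + 1) →
    δ ≤ kap F (s + 2) → F.card ≤ n.choose s := by
  obtain ⟨N1, h1⟩ := account k hk (δ / 4) (by positivity)
  obtain ⟨N2, h2⟩ := main_two k hk (δ / 4) (by positivity)
  obtain ⟨N3, h3⟩ := exists_nat_ge (4 * ((k : ℝ) + 1) ^ 2 / δ)
  refine ⟨N1 + N2 + N3, fun s n hs hn F hF hc hd hkap => ?_⟩
  by_contra hcon
  push Not at hcon
  have hne : F.Nonempty := by
    rw [← card_pos]; omega
  obtain ⟨hM1, hM2⟩ := h1 s n (by omega) hn F hF hc hd hcon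
  have hmain := h2 s n (by omega) hn F hF hd hne hM1
  have hM0 : 0 ≤ miss F := miss_nonneg F hF
  have hspos : (0 : ℝ) < (s : ℝ) + 1 := by positivity
  have hk0 : (1 : ℝ) ≤ k := by exact_mod_cast hk
  -- compare `kap` and `up`
  have ha : up F (s + 1) ≤ kap F (s + 1) := up_le_kap F hF (s + 1)
  have hb : ∑ i ∈ Icc 2 (k + 1), kap F (s + i) ≤
      ∑ i ∈ Icc 2 (k + 1), up F (s + i) + k * miss F := by
    calc ∑ i ∈ Icc 2 (k + 1), kap F (s + i)
        ≤ ∑ i ∈ Icc 2 (k + 1), (up F (s + i) + miss F) :=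
          sum_le_sum fun i _ => kap_le_up F hF hne (s + i)
      _ = _ := by
          rw [sum_add_distrib, sum_const, Nat.card_Icc, nsmul_eq_mul]
          have : k + 1 + 1 - 2 = k := by omega
          rw [this]
  have hup0 : ∀ t, 0 ≤ up F t := fun t => sum_nonneg fun m _ => by unfold pl; positivity
  have h2in : (2 : ℕ) ∈ Icc 2 (k + 1) := by rw [mem_Icc]; omega
  have hc2 : up F (s + 2) ≤ ∑ i ∈ Icc 2 (k + 1), up F (s + i) :=
    single_le_sum (f := fun i => up F (s + i)) (fun i _ => hup0 (s + i)) h2in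
  have hd2 : δ ≤ up F (s + 2) + miss F := hkap.trans (kap_le_up F hF hne (s + 2))
  have hMle : ((k : ℝ) + 1) * miss F ≤ δ / 4 := by
    have h4 : 4 * ((k : ℝ) + 1) ^ 2 / δ ≤ s + 1 := by
      have : (N3 : ℝ) ≤ s := by exact_mod_cast (by omega : N3 ≤ s)
      linarith
    rw [div_le_iff₀ hδ] at h4
    have h5 : miss F ≤ ((k : ℝ) + 1) / (s + 1) := by
      rw [le_div_iff₀ hspos]; linarith
    calc ((k : ℝ) + 1) * miss F ≤ ((k : ℝ) + 1) * (((k : ℝ) + 1) / (s + 1)) := by gcongr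
      _ = ((k : ℝ) + 1) ^ 2 / (s + 1) := by ring
      _ ≤ δ / 4 := by rw [div_le_iff₀ hspos]; linarith
  have hka : (k : ℝ) * up F (s + 1) ≤ k * kap F (s + 1) := by gcongr
  have hkm : (k : ℝ) * miss F ≤ δ / 4 := by nlinarith
  have hm : miss F ≤ δ / 4 := by nlinarith
  linarith

/-- The odd half for fixed `k`, from its parts. -/
theorem odd_fixed_of
    (hcase : ∀ k : ℕ, ∃ N : ℕ, ∀ s n : ℕ, N ≤ s → n = 2 * s + 1 + k →
      ∀ F : Finset (Finset (Fin n)), IsAntichain (· ⊆ ·) (F : Set (Finset (Fin n))) →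
      (∀ A ∈ F, ∀ B ∈ F, Disjoint A B → A.card + B.card ≤ 2 * s + 1) →
      2 ^ (3 * k + 3) * (KK F (s + 2)).card ≤ n.choose (s + 2) → F.card ≤ n.choose s)
    (hnorm : ∀ s k n : ℕ, n = 2 * s + 1 + k → 1 ≤ k → ∀ F : Finset (Finset (Fin n)),
      IsAntichain (· ⊆ ·) (F : Set (Finset (Fin n))) →
      (∀ A ∈ F, ∀ B ∈ F, (symmDiff A B).card ≤ 2 * s + 1) →
      ∃ G : Finset (Finset (Fin n)), G.card = F.card ∧
        IsAntichain (· ⊆ ·) (G : Set (Finset (Fin n))) ∧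
        (∀ A ∈ G, ∀ B ∈ G, A ∪ B ≠ univ) ∧
        (∀ A ∈ G, ∀ B ∈ G, Disjoint A B → A.card + B.card ≤ 2 * s + 1))
    (k : ℕ) : ∃ N : ℕ, ∀ n : ℕ, N ≤ n → Odd (n + k) → ∀ F : Finset (Finset (Fin n)),
    IsAntichain (· ⊆ ·) (F : Set (Finset (Fin n))) →
    (∀ A ∈ F, ∀ B ∈ F, (symmDiff A B).card ≤ n - k) → F.card ≤ n.choose ((n + k + 1) / 2) := by
  rcases Nat.eq_zero_or_pos k with rfl | hk
  · refine ⟨0, fun n _ ho F hF _ => ?_⟩
    have h1 : F.card ≤ n.choose (n / 2) := by simpa using hF.sperner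
    obtain ⟨c, hc⟩ := ho
    have h2 : (n + 0 + 1) / 2 = n - n / 2 := by omega
    rw [h2, Nat.choose_symm (by omega)]
    exact h1
  obtain ⟨N1, h1⟩ := hcase k
  obtain ⟨N2, h2⟩ := case_two k hk (1 / 2 ^ (3 * k + 3)) (by positivity)
  refine ⟨2 * (N1 + N2) + 1 + k, fun n hn ho F hF hd => ?_⟩
  obtain ⟨c, hc⟩ := ho
  obtain ⟨s, hs⟩ : ∃ s, n = 2 * s + 1 + k := ⟨(n - k - 1) / 2, by omega⟩
  have hsN : N1 + N2 ≤ s := by omega
  have hnk : n - k = 2 * s + 1 := by omega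
  have hch : n.choose ((n + k + 1) / 2) = n.choose s := by
    have : (n + k + 1) / 2 = n - s := by omega
    rw [this, Nat.choose_symm (by omega)]
  rw [hch]
  obtain ⟨G, hG1, hG2, hG3, hG4⟩ := hnorm s k n hs hk F hF (fun A hA B hB => hnk ▸ hd A hA B hB)
  rw [← hG1]
  by_cases hcas : 2 ^ (3 * k + 3) * (KK G (s + 2)).card ≤ n.choose (s + 2)
  · exact h1 s n (by omega) hs G hG2 hG4 hcas
  · refine h2 s n (by omega) hs G hG2 hG3 hG4 ?_
    push Not at hcas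
    have hpos : (0 : ℝ) < (n.choose (s + 2) : ℝ) := by
      exact_mod_cast Nat.choose_pos (by omega)
    have h3 : (n.choose (s + 2) : ℝ) ≤ 2 ^ (3 * k + 3) * ((KK G (s + 2)).card : ℝ) := by
      exact_mod_cast hcas.le
    unfold kap
    rw [div_le_div_iff₀ (by positivity) hpos]
    linarith

end Pool.Agent.OFK
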