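import Pool.Agent.OFK.Defs

/-! # OFK, package InflSum: the total influence (0.7 h)

`∑_i ∑_{T ∌ i} ∑_{z ∉ T+i} |1_U(T+i) - 1_U(T+z)| = 2 #{(T,i,z) : i ≠ z, i, z ∉ T, T+i ∈ U, T+z ∉ U}
 ≤ 2 (n-r-1) #{(T,z) : T ∈ shadow U, z ∉ T, T+z ∉ U} = 2 (n-r-1) (|shadow U| (n-r) - |U| (r+1))
 = 2 (n-r-1) C(n,r) (n-r) oU U r` (`C(n,r+1)(r+1) = C(n,r)(n-r)`), and the denominator of `infl` is
`C(n-1,r)(n-1-r)`, with `C(n,r)(n-r) = n C(n-1,r)`. -/

set_option autoImplicit false

namespace Pool.Agent.OFK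

open Finset

variable {n : ℕ}

private def gd_is (U : Finset (Finset (Fin n))) (T : Finset (Fin n)) : Finset (Fin n) :=
  (univ \ T).filter (fun i => insert i T ∈ U)

private def bd_is (U : Finset (Finset (Fin n))) (T : Finset (Fin n)) : Finset (Fin n) :=
  (univ \ T).filter (fun i => ¬ insert i T ∈ U)

private theorem card_gb_is (U : Finset (Finset (Fin n))) {T : Finset (Fin n)} {r : ℕ}
    (hT : T.card = r) : (gd_is U T).card + (bd_is U T).card = n - r := by
  unfold gd_is bd_is
  rw [card_filter_add_card_filter_not, card_sdiff_of_subset (subset_univ T), card_univ,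
    Fintype.card_fin, hT]

private theorem abs_sum_is (U : Finset (Finset (Fin n))) (T : Finset (Fin n)) :
    ∑ i ∈ univ \ T, ∑ z ∈ univ \ T,
      |(if insert i T ∈ U then (1 : ℝ) else 0) - (if insert z T ∈ U then (1 : ℝ) else 0)| =
      2 * ((gd_is U T).card : ℝ) * ((bd_is U T).card : ℝ) := by
  have h1 : ∀ i ∈ univ \ T, ∑ z ∈ univ \ T,
      |(if insert i T ∈ U then (1 : ℝ) else 0) - (if insert z T ∈ U then (1 : ℝ) else 0)| =
      if insert i T ∈ U then ((bd_is U T).card : ℝ) else ((gd_is U T).card : ℝ) := by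
    intro i _
    by_cases hi : insert i T ∈ U
    · simp only [hi, if_true]
      have h2 : ∀ z ∈ univ \ T, |(1 : ℝ) - (if insert z T ∈ U then (1 : ℝ) else 0)| =
          if ¬ insert z T ∈ U then (1 : ℝ) else 0 := by
        intro z _
        by_cases hz : insert z T ∈ U <;> simp [hz]
      rw [sum_congr rfl h2, ← sum_filter]
      simp [bd_is]
    · simp only [hi, if_false]
      have h2 : ∀ z ∈ univ \ T, |(0 : ℝ) - (if insert z T ∈ U then (1 : ℝ) else 0)| =
          if insert z T ∈ U then (1 : ℝ) else 0 := by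
        intro z _
        by_cases hz : insert z T ∈ U <;> simp [hz]
      rw [sum_congr rfl h2, ← sum_filter]
      simp [gd_is]
  rw [sum_congr rfl h1, sum_ite]
  simp only [sum_const, nsmul_eq_mul]
  change ((gd_is U T).card : ℝ) * ((bd_is U T).card : ℝ) +
    ((bd_is U T).card : ℝ) * ((gd_is U T).card : ℝ) = _
  ring

private theorem term_le_is (U : Finset (Finset (Fin n))) {T : Finset (Fin n)} {r : ℕ}
    (hT : T.card = r) (hrn : r + 2 ≤ n) :
    ∑ i ∈ univ \ T, ∑ z ∈ univ \ insert i T,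
      |(if insert i T ∈ U then (1 : ℝ) else 0) - (if insert z T ∈ U then (1 : ℝ) else 0)| ≤
      2 * ((n : ℝ) - 1 - r) * (if T ∈ U.shadow then ((bd_is U T).card : ℝ) else 0) := by
  have h0 : ∑ i ∈ univ \ T, ∑ z ∈ univ \ insert i T,
      |(if insert i T ∈ U then (1 : ℝ) else 0) - (if insert z T ∈ U then (1 : ℝ) else 0)| ≤
      2 * ((gd_is U T).card : ℝ) * ((bd_is U T).card : ℝ) := by
    rw [← abs_sum_is]
    refine sum_le_sum fun i _ => sum_le_sum_of_subset_of_nonneg ?_ fun _ _ _ => abs_nonneg _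
    exact sdiff_subset_sdiff (subset_refl _) (subset_insert i T)
  refine h0.trans ?_
  have hc := card_gb_is U hT
  have hr : (0 : ℝ) ≤ (n : ℝ) - 1 - r := by
    have : ((r + 2 : ℕ) : ℝ) ≤ n := by exact_mod_cast hrn
    push_cast at this
    linarith
  by_cases hS : T ∈ U.shadow
  · rw [if_pos hS]
    rcases Nat.eq_zero_or_pos (bd_is U T).card with hb | hb
    · rw [hb]
      simp
    · have h1 : ((gd_is U T).card : ℝ) ≤ (n : ℝ) - 1 - r := by
        have h2 : (gd_is U T).card + 1 + r ≤ n := by omega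
        have h3 : (((gd_is U T).card + 1 + r : ℕ) : ℝ) ≤ n := by exact_mod_cast h2
        push_cast at h3
        linarith
      have h4 : (0 : ℝ) ≤ ((bd_is U T).card : ℝ) := Nat.cast_nonneg _
      nlinarith [mul_le_mul_of_nonneg_right h1 h4]
  · rw [if_neg hS]
    have hg : gd_is U T = ∅ := by
      rw [eq_empty_iff_forall_notMem]
      intro i hi
      unfold gd_is at hi
      rw [mem_filter, mem_sdiff] at hi
      exact hS (mem_shadow_iff_insert_mem.2 ⟨i, hi.1.2, hi.2⟩)
    rw [hg]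
    simp

private theorem double_is (U : Finset (Finset (Fin n))) (r : ℕ)
    (hU : U ⊆ powersetCard (r + 1) (univ : Finset (Fin n))) :
    ∑ T ∈ U.shadow, (gd_is U T).card = U.card * (r + 1) := by
  have h1 : ∑ A ∈ U, A.card = U.card * (r + 1) := by
    rw [sum_congr rfl (fun A hA => (mem_powersetCard.1 (hU hA)).2), sum_const, smul_eq_mul]
  rw [← h1, ← card_sigma, ← card_sigma U (fun A => A)]
  refine card_nbij' (fun p => ⟨insert p.2 p.1, p.2⟩) (fun p => ⟨p.1.erase p.2, p.2⟩) ?_ ?_ ?_ ?_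
  · rintro ⟨T, i⟩ h
    simp only [coe_sigma, Set.mem_sigma_iff, mem_coe] at h ⊢
    unfold gd_is at h
    rw [mem_filter, mem_sdiff] at h
    exact ⟨h.2.2, mem_insert_self _ _⟩
  · rintro ⟨A, i⟩ h
    simp only [coe_sigma, Set.mem_sigma_iff, mem_coe] at h ⊢
    unfold gd_is
    rw [mem_filter, mem_sdiff, insert_erase h.2]
    exact ⟨mem_shadow_iff.2 ⟨A, h.1, i, h.2, rfl⟩, ⟨mem_univ _, notMem_erase _ _⟩, h.1⟩
  · rintro ⟨T, i⟩ h
    simp only [coe_sigma, Set.mem_sigma_iff, mem_coe] at h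
    unfold gd_is at h
    rw [mem_filter, mem_sdiff] at h
    simp only
    rw [erase_insert h.2.1.2]
  · rintro ⟨A, i⟩ h
    simp only [coe_sigma, Set.mem_sigma_iff, mem_coe] at h
    simp only
    rw [insert_erase h.2]

theorem infl_sum (U : Finset (Finset (Fin n))) (r : ℕ)
    (hU : U ⊆ powersetCard (r + 1) (univ : Finset (Fin n))) (hrn : r + 2 ≤ n) :
    ∑ i, infl U r i ≤ 2 * n * oU U r := by
  have hr : (0 : ℝ) < (n : ℝ) - 1 - r := by
    have : ((r + 2 : ℕ) : ℝ) ≤ n := by exact_mod_cast hrn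
    push_cast at this
    linarith
  have hsh : U.shadow ⊆ powersetCard r (univ : Finset (Fin n)) := by
    intro T hT
    obtain ⟨A, hA, i, hi, rfl⟩ := mem_shadow_iff.1 hT
    rw [mem_powersetCard]
    refine ⟨subset_univ _, ?_⟩
    rw [card_erase_of_mem hi, (mem_powersetCard.1 (hU hA)).2, Nat.add_sub_cancel]
  have h1 : ∑ i : Fin n, ∑ T ∈ powersetCard r ((univ : Finset (Fin n)).erase i),
      ∑ z ∈ univ \ insert i T,
      |(if insert i T ∈ U then (1 : ℝ) else 0) - (if insert z T ∈ U then (1 : ℝ) else 0)| =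
      ∑ T ∈ powersetCard r (univ : Finset (Fin n)), ∑ i ∈ univ \ T, ∑ z ∈ univ \ insert i T,
      |(if insert i T ∈ U then (1 : ℝ) else 0) - (if insert z T ∈ U then (1 : ℝ) else 0)| := by
    refine sum_comm' fun i T => ?_
    simp only [mem_univ, true_and, mem_powersetCard, subset_erase, subset_univ, mem_sdiff]
  have h2 : ∑ T ∈ powersetCard r (univ : Finset (Fin n)), ∑ i ∈ univ \ T,
      ∑ z ∈ univ \ insert i T,
      |(if insert i T ∈ U then (1 : ℝ) else 0) - (if insert z T ∈ U then (1 : ℝ) else 0)| ≤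
      2 * ((n : ℝ) - 1 - r) * ((U.shadow.card : ℝ) * (n - r) - (U.card : ℝ) * (r + 1)) := by
    refine (sum_le_sum fun T hT => term_le_is U (mem_powersetCard.1 hT).2 hrn).trans ?_
    rw [← mul_sum, ← sum_filter]
    have h3 : (powersetCard r (univ : Finset (Fin n))).filter (fun T => T ∈ U.shadow) =
        U.shadow := by
      ext T
      rw [mem_filter]
      exact ⟨fun h => h.2, fun h => ⟨hsh h, h⟩⟩
    rw [h3]
    have h4 : ∀ T ∈ U.shadow, ((bd_is U T).card : ℝ) = ((n : ℝ) - r) - ((gd_is U T).card : ℝ) := by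
      intro T hT
      have h5 := card_gb_is U (mem_powersetCard.1 (hsh hT)).2
      have h6 : (gd_is U T).card + (bd_is U T).card + r = n := by omega
      have h7 : (((gd_is U T).card + (bd_is U T).card + r : ℕ) : ℝ) = n := by exact_mod_cast h6
      push_cast at h7
      linarith
    rw [sum_congr rfl h4, sum_sub_distrib, sum_const, nsmul_eq_mul]
    have h8 : ∑ T ∈ U.shadow, ((gd_is U T).card : ℝ) = (U.card : ℝ) * (r + 1) := by
      have := double_is U r hU
      exact_mod_cast this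
    rw [h8]
  have hC : (0 : ℝ) < ((n - 1).choose r : ℝ) := by
    have : 0 < (n - 1).choose r := Nat.choose_pos (by omega)
    exact_mod_cast this
  have hC1 : (0 : ℝ) < (n.choose r : ℝ) := by
    have : 0 < n.choose r := Nat.choose_pos (by omega)
    exact_mod_cast this
  have hC2 : (0 : ℝ) < (n.choose (r + 1) : ℝ) := by
    have : 0 < n.choose (r + 1) := Nat.choose_pos (by omega)
    exact_mod_cast this
  have hrn' : ((n - r : ℕ) : ℝ) = (n : ℝ) - r := by
    rw [Nat.cast_sub (by omega)]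
  have e1 : (n : ℝ) * ((n - 1).choose r : ℝ) = (n.choose r : ℝ) * ((n : ℝ) - r) := by
    obtain ⟨m, rfl⟩ : ∃ m, n = m + 1 := ⟨n - 1, by omega⟩
    have h9 := Nat.choose_mul_succ_eq m r
    have h10 : ((m.choose r * (m + 1) : ℕ) : ℝ) = (((m + 1).choose r * (m + 1 - r) : ℕ) : ℝ) := by
      exact_mod_cast h9
    rw [Nat.cast_mul, Nat.cast_mul, hrn'] at h10
    rw [Nat.add_sub_cancel]
    linarith
  have e2 : (n.choose (r + 1) : ℝ) * ((r : ℝ) + 1) = (n.choose r : ℝ) * ((n : ℝ) - r) := by
    have h9 := Nat.choose_succ_right_eq n r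
    have h10 : ((n.choose (r + 1) * (r + 1) : ℕ) : ℝ) = ((n.choose r * (n - r) : ℕ) : ℝ) := by
      exact_mod_cast h9
    rw [Nat.cast_mul, Nat.cast_mul, hrn'] at h10
    push_cast at h10
    exact h10
  unfold infl
  rw [← sum_div, h1, div_le_iff₀ (mul_pos hC hr)]
  refine h2.trans (le_of_eq ?_)
  unfold oU
  have e3 : (n : ℝ) * ((n - 1).choose r : ℝ) / (n.choose r : ℝ) = (n : ℝ) - r := by
    rw [e1]
    field_simp
  have e4 : (n : ℝ) * ((n - 1).choose r : ℝ) / (n.choose (r + 1) : ℝ) = (r : ℝ) + 1 := by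
    rw [e1, ← e2]
    field_simp
  calc 2 * ((n : ℝ) - 1 - r) * ((U.shadow.card : ℝ) * (n - r) - (U.card : ℝ) * (r + 1))
      = 2 * ((n : ℝ) - 1 - r) * ((U.shadow.card : ℝ) *
          ((n : ℝ) * ((n - 1).choose r : ℝ) / (n.choose r : ℝ)) - (U.card : ℝ) *
          ((n : ℝ) * ((n - 1).choose r : ℝ) / (n.choose (r + 1) : ℝ))) := by rw [e3, e4]
    _ = 2 * n * ((U.shadow.card : ℝ) / (n.choose r : ℝ) - (U.card : ℝ) / (n.choose (r + 1) : ℝ)) *
          (((n - 1).choose r : ℝ) * ((n : ℝ) - 1 - r)) := by ring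

theorem infl_nonneg (U : Finset (Finset (Fin n))) (r : ℕ) (hrn : r + 2 ≤ n) (i : Fin n) :
    0 ≤ infl U r i := by
  have hr : (0 : ℝ) ≤ (n : ℝ) - 1 - r := by
    have : ((r + 2 : ℕ) : ℝ) ≤ n := by exact_mod_cast hrn
    push_cast at this
    linarith
  unfold infl
  exact div_nonneg (sum_nonneg fun _ _ => sum_nonneg fun _ _ => abs_nonneg _)
    (mul_nonneg (Nat.cast_nonneg _) hr)

theorem lf_nonneg (U : Finset (Finset (Fin n))) (m : ℕ) (x : Finset (Fin n)) : 0 ≤ lf U m x := by
  unfold lf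
  split_ifs <;> positivity

/-- a family of `m`-sets: at most all comparable `m`-sets -/
theorem lf_le_one (U : Finset (Finset (Fin n))) (m : ℕ)
    (hU : U ⊆ powersetCard m (univ : Finset (Fin n))) (x : Finset (Fin n)) : lf U m x ≤ 1 := by
  unfold lf
  split_ifs with h
  · refine div_le_one_of_le₀ ?_ (Nat.cast_nonneg _)
    have h1 : (U.filter (fun y => y ⊆ x)).card ≤ x.card.choose m := by
      rw [← card_powersetCard]
      refine card_le_card fun y hy => ?_
      rw [mem_filter] at hy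
      exact mem_powersetCard.2 ⟨hy.2, (mem_powersetCard.1 (hU hy.1)).2⟩
    exact_mod_cast h1
  · refine div_le_one_of_le₀ ?_ (Nat.cast_nonneg _)
    have h1 : (U.filter (fun y => x ⊆ y)).card ≤ (n - x.card).choose (m - x.card) := by
      have h2 : (univ \ x : Finset (Fin n)).card = n - x.card := by
        rw [card_sdiff_of_subset (subset_univ x), card_univ, Fintype.card_fin]
      rw [← h2, ← card_powersetCard]
      refine card_le_card_of_injOn (fun y => y \ x) ?_ ?_
      · intro y hy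
        rw [mem_coe, mem_filter] at hy
        rw [mem_coe, mem_powersetCard]
        refine ⟨sdiff_subset_sdiff (subset_univ _) (subset_refl _), ?_⟩
        rw [card_sdiff_of_subset hy.2, (mem_powersetCard.1 (hU hy.1)).2]
      · intro y hy z hz hyz
        rw [mem_coe, mem_filter] at hy hz
        have hyz' : y \ x = z \ x := hyz
        rw [← sdiff_union_of_subset hy.2, ← sdiff_union_of_subset hz.2, hyz']
    exact_mod_cast h1

/-- on level `m` the lift is the indicator function -/
theorem lf_level (U : Finset (Finset (Fin n))) (m : ℕ)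
    (hU : U ⊆ powersetCard m (univ : Finset (Fin n))) (x : Finset (Fin n)) (hx : x.card = m) :
    lf U m x = if x ∈ U then 1 else 0 := by
  unfold lf
  rw [if_pos hx.ge, hx, Nat.choose_self, Nat.cast_one, div_one]
  by_cases h : x ∈ U
  · have h1 : U.filter (fun y => y ⊆ x) = {x} := by
      ext y
      rw [mem_filter, mem_singleton]
      constructor
      · rintro ⟨h2, h3⟩
        refine eq_of_subset_of_card_le h3 ?_
        rw [hx, (mem_powersetCard.1 (hU h2)).2]
      · rintro rfl
        exact ⟨h, subset_refl _⟩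
    rw [h1, if_pos h, card_singleton, Nat.cast_one]
  · have h1 : U.filter (fun y => y ⊆ x) = ∅ := by
      rw [eq_empty_iff_forall_notMem]
      intro y hy
      rw [mem_filter] at hy
      have h2 : y = x := by
        refine eq_of_subset_of_card_le hy.2 ?_
        rw [hx, (mem_powersetCard.1 (hU hy.1)).2]
      exact h (h2 ▸ hy.1)
    rw [h1, if_neg h, card_empty, Nat.cast_zero]

end Pool.Agent.OFK
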