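import Pool.Agent.OFK.Defs

/-! # OFK, package LiftDown: influence of the lift, levels below (1 h)

`U` a family of `(r+1)`-sets, `r + 2 ≤ n`, `ℓ ≤ r`, `x` an `ℓ`-set without `i`. Every `(r+1)`-set
containing `x` either contains `i` (their `U`-density is `lf(x+i)`, also when `ℓ = r`, where both
branches of the definition of `lf` agree: `1_U(x+i)`), or not: with `h(x)` = the average of `1_U(T+z)`
over the pairs (`x ⊆ T`, `|T| = r`, `i ∉ T`, `z ∉ T + i`),
`lf(x) = p lf(x+i) + (1-p) h(x)`, `p = (r+1-ℓ)/(n-ℓ)`. And `lf(x+i)` = the average of `1_U(T+i)` over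
the same `T`. So `|lf(x+i) - lf(x)| ≤ (1/(C(n-1-ℓ,r-ℓ)(n-1-r))) ∑_{T,z} |1_U(T+i) - 1_U(T+z)|`.
Sum over `x`: every `T` contains `C(r,ℓ)` sets `x`, and
`C(n-1,r) C(r,ℓ) = C(n-1,ℓ) C(n-1-ℓ,r-ℓ)`. -/

set_option autoImplicit false

namespace Pool.Agent.OFK

open Finset

variable {n : ℕ}

/-- the `r`-sets `T` without `i` containing `x` -/
private def AT_LiftDown (r : ℕ) (i : Fin n) (x : Finset (Fin n)) : Finset (Finset (Fin n)) :=
  (powersetCard r ((univ : Finset (Fin n)).erase i)).filter (fun T => x ⊆ T)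

private theorem mem_AT_LiftDown (r : ℕ) (i : Fin n) (x T : Finset (Fin n)) :
    T ∈ AT_LiftDown r i x ↔ (T.card = r ∧ i ∉ T) ∧ x ⊆ T := by
  unfold AT_LiftDown
  rw [mem_filter, mem_powersetCard]
  constructor
  · rintro ⟨⟨h1, h2⟩, h3⟩
    refine ⟨⟨h2, fun hi => ?_⟩, h3⟩
    have := h1 hi
    simp at this
  · rintro ⟨⟨h1, h2⟩, h3⟩
    refine ⟨⟨fun a ha => ?_, h1⟩, h3⟩
    rw [mem_erase]
    exact ⟨fun h => h2 (h ▸ ha), mem_univ _⟩

/-- the number of members of `U` above `x + i` -/
private theorem cardS1_LiftDown (U : Finset (Finset (Fin n))) (r : ℕ)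
    (hU : U ⊆ powersetCard (r + 1) (univ : Finset (Fin n))) (i : Fin n) (x : Finset (Fin n))
    (hx : i ∉ x) :
    (U.filter (fun y => insert i x ⊆ y)).card =
      ∑ T ∈ AT_LiftDown r i x, (if insert i T ∈ U then 1 else 0) := by
  rw [← card_filter]
  symm
  refine card_bij (fun T _ => insert i T) ?_ ?_ ?_
  · intro T hT
    rw [mem_filter, mem_AT_LiftDown] at hT
    rw [mem_filter]
    exact ⟨hT.2, insert_subset_insert _ hT.1.2⟩
  · intro T hT T' hT' h
    rw [mem_filter, mem_AT_LiftDown] at hT hT'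
    have h2 := congrArg (fun s => s.erase i) h
    simpa [erase_insert hT.1.1.2, erase_insert hT'.1.1.2] using h2
  · intro y hy
    rw [mem_filter] at hy
    have hiy : i ∈ y := hy.2 (mem_insert_self _ _)
    have hyc : y.card = r + 1 := (mem_powersetCard.1 (hU hy.1)).2
    refine ⟨y.erase i, ?_, insert_erase hiy⟩
    rw [mem_filter, mem_AT_LiftDown, insert_erase hiy]
    refine ⟨⟨⟨?_, notMem_erase _ _⟩, ?_⟩, hy.1⟩
    · rw [card_erase_of_mem hiy, hyc]; rfl
    · intro a ha
      rw [mem_erase]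
      exact ⟨fun h => hx (h ▸ ha), hy.2 (mem_insert_of_mem ha)⟩

/-- double count of the members of `U` above `x` without `i` -/
private theorem cardS2_LiftDown (U : Finset (Finset (Fin n))) (r : ℕ)
    (hU : U ⊆ powersetCard (r + 1) (univ : Finset (Fin n))) (i : Fin n) (x : Finset (Fin n)) :
    ∑ T ∈ AT_LiftDown r i x, ∑ z ∈ univ \ insert i T, (if insert z T ∈ U then 1 else 0) =
      (r + 1 - x.card) * (U.filter (fun y => x ⊆ y ∧ i ∉ y)).card := by
  have e1 : ∑ T ∈ AT_LiftDown r i x, ∑ z ∈ univ \ insert i T, (if insert z T ∈ U then 1 else 0) =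
      ((AT_LiftDown r i x).sigma (fun T => (univ \ insert i T).filter
        (fun z => insert z T ∈ U))).card := by
    rw [card_sigma]
    refine sum_congr rfl fun T _ => ?_
    rw [card_filter]
  have e2 : (r + 1 - x.card) * (U.filter (fun y => x ⊆ y ∧ i ∉ y)).card =
      ((U.filter (fun y => x ⊆ y ∧ i ∉ y)).sigma (fun y => y \ x)).card := by
    rw [card_sigma, sum_const_nat (m := r + 1 - x.card), mul_comm]
    intro y hy
    rw [mem_filter] at hy
    rw [card_sdiff_of_subset hy.2.1, (mem_powersetCard.1 (hU hy.1)).2]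
  rw [e1, e2]
  refine card_bij (fun (p : (_ : Finset (Fin n)) × Fin n) _ =>
    (⟨insert p.2 p.1, p.2⟩ : (_ : Finset (Fin n)) × Fin n)) ?_ ?_ ?_
  · rintro ⟨T, z⟩ hp
    simp only [mem_sigma, mem_filter, mem_AT_LiftDown, mem_sdiff, mem_univ, true_and,
      mem_insert, not_or] at hp ⊢
    obtain ⟨⟨⟨hTc, hiT⟩, hxT⟩, ⟨hzi, hzT⟩, hzU⟩ := hp
    refine ⟨⟨hzU, hxT.trans (subset_insert _ _), fun h => hzi h.symm, hiT⟩, Or.inl trivial,
      fun h => hzT (hxT h)⟩
  · rintro ⟨T, z⟩ hp ⟨T', z'⟩ hp' h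
    simp only [mem_sigma, mem_filter, mem_AT_LiftDown, mem_sdiff, mem_univ, true_and,
      mem_insert, not_or] at hp hp'
    simp only [Sigma.mk.injEq, heq_eq_eq] at h
    obtain ⟨h1, h2⟩ := h
    subst h2
    have h3 := congrArg (fun s => s.erase z) h1
    simp only [erase_insert hp.2.1.2, erase_insert hp'.2.1.2] at h3
    rw [h3]
  · rintro ⟨y, z⟩ hp
    simp only [mem_sigma, mem_filter, mem_sdiff] at hp
    obtain ⟨⟨hyU, hxy, hiy⟩, hzy, hzx⟩ := hp
    have hyc : y.card = r + 1 := (mem_powersetCard.1 (hU hyU)).2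
    refine ⟨⟨y.erase z, z⟩, ?_, ?_⟩
    · simp only [mem_sigma, mem_filter, mem_AT_LiftDown, mem_sdiff, mem_univ, true_and,
        mem_insert, not_or, insert_erase hzy]
      refine ⟨⟨⟨?_, fun h => hiy (mem_of_mem_erase h)⟩, ?_⟩, ⟨fun h => hiy (h ▸ hzy),
        notMem_erase _ _⟩, hyU⟩
      · rw [card_erase_of_mem hzy, hyc]; rfl
      · intro a ha
        rw [mem_erase]
        exact ⟨fun h => hzx (h ▸ ha), hxy ha⟩
    · simp only [insert_erase hzy]

private theorem cardAT_LiftDown (r : ℕ) (i : Fin n) (x : Finset (Fin n)) (hx : i ∉ x)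
    (hxr : x.card ≤ r) :
    (AT_LiftDown r i x).card = (n - 1 - x.card).choose (r - x.card) := by
  have hb : (AT_LiftDown r i x).card =
      (powersetCard (r - x.card) (((univ : Finset (Fin n)).erase i) \ x)).card := by
    refine card_bij (fun T _ => T \ x) ?_ ?_ ?_
    · intro T hT
      rw [mem_AT_LiftDown] at hT
      rw [mem_powersetCard]
      constructor
      · intro a ha
        rw [mem_sdiff] at ha
        rw [mem_sdiff, mem_erase]
        exact ⟨⟨fun h => hT.1.2 (h ▸ ha.1), mem_univ _⟩, ha.2⟩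
      · rw [card_sdiff_of_subset hT.2, hT.1.1]
    · intro T hT T' hT' h
      rw [mem_AT_LiftDown] at hT hT'
      have h1 : T \ x ∪ x = T' \ x ∪ x := congrArg (fun s => s ∪ x) h
      rwa [sdiff_union_of_subset hT.2, sdiff_union_of_subset hT'.2] at h1
    · intro S hS
      rw [mem_powersetCard] at hS
      have hd : Disjoint S x := by
        rw [disjoint_left]
        intro a ha
        exact (mem_sdiff.1 (hS.1 ha)).2
      refine ⟨S ∪ x, ?_, ?_⟩
      · rw [mem_AT_LiftDown]
        refine ⟨⟨?_, ?_⟩, subset_union_right⟩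
        · rw [card_union_of_disjoint hd, hS.2]; omega
        · rw [mem_union, not_or]
          refine ⟨fun h => ?_, hx⟩
          have := (mem_sdiff.1 (hS.1 h)).1
          simp at this
      · rw [union_sdiff_right, sdiff_eq_self_of_disjoint hd]
  rw [hb, card_powersetCard, card_sdiff_of_subset, card_erase_of_mem (mem_univ i), card_univ,
    Fintype.card_fin]
  intro a ha
  rw [mem_erase]
  exact ⟨fun h => hx (h ▸ ha), mem_univ _⟩

/-- pointwise bound -/
private theorem point_LiftDown (U : Finset (Finset (Fin n))) (r : ℕ)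
    (hU : U ⊆ powersetCard (r + 1) (univ : Finset (Fin n))) (i : Fin n) (l : ℕ) (hl : l ≤ r)
    (hrn : r + 2 ≤ n) (x : Finset (Fin n)) (hx : i ∉ x) (hxl : x.card = l) :
    |lf U (r + 1) (insert i x) - lf U (r + 1) x| ≤
      (∑ T ∈ AT_LiftDown r i x, ∑ z ∈ univ \ insert i T,
        |(if insert i T ∈ U then (1 : ℝ) else 0) - (if insert z T ∈ U then (1 : ℝ) else 0)|) /
      (((n - 1 - l).choose (r - l) : ℝ) * (n - 1 - r)) := by
  have hcard : (insert i x).card = l + 1 := by rw [card_insert_of_notMem hx, hxl]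
  set N1 : ℕ := (U.filter (fun y => insert i x ⊆ y)).card with hN1
  set N2 : ℕ := (U.filter (fun y => x ⊆ y ∧ i ∉ y)).card with hN2
  -- the two values
  have hv1 : lf U (r + 1) (insert i x) = (N1 : ℝ) / ((n - 1 - l).choose (r - l) : ℝ) := by
    unfold lf
    rw [hcard]
    split_ifs with h
    · have hlr : l = r := by omega
      subst hlr
      have e : U.filter (fun y => y ⊆ insert i x) = U.filter (fun y => insert i x ⊆ y) := by
        refine filter_congr fun y hy => ?_
        have hyc : y.card = l + 1 := (mem_powersetCard.1 (hU hy)).2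
        constructor
        · intro hyx
          rw [eq_of_subset_of_card_le hyx (by rw [hyc, hcard])]
        · intro hyx
          rw [eq_of_subset_of_card_le hyx (by rw [hyc, hcard])]
      rw [e, ← hN1]
      simp
    · rw [← hN1]
      congr 3 <;> omega
  have hv2 : lf U (r + 1) x = ((N1 : ℝ) + N2) / ((n - l).choose (r + 1 - l) : ℝ) := by
    unfold lf
    rw [hxl, if_neg (by omega)]
    congr 1
    have : (U.filter (fun y => x ⊆ y)).card = N1 + N2 := by
      rw [hN1, hN2, ← card_filter_add_card_filter_not (s := U.filter (fun y => x ⊆ y))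
        (fun y => i ∈ y), filter_filter, filter_filter]
      congr 2
      refine filter_congr fun y _ => ?_
      rw [insert_subset_iff, and_comm]
    rw [this]
    push_cast
    ring
  -- arithmetic
  obtain ⟨d, rfl⟩ : ∃ d, r = l + d := ⟨r - l, by omega⟩
  obtain ⟨m, rfl⟩ : ∃ m, n = l + d + 1 + (m + 1) := ⟨n - (l + d + 1) - 1, by omega⟩
  have q1 : l + d + 1 + (m + 1) - 1 - l = d + m + 1 := by omega
  have q2 : l + d - l = d := by omega
  have q3 : l + d + 1 + (m + 1) - l = d + m + 1 + 1 := by omega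
  have q4 : l + d + 1 - l = d + 1 := by omega
  rw [q1, q2] at hv1
  rw [q3, q4] at hv2
  rw [q1, q2, hv1, hv2]
  have hS1 : (N1 : ℝ) = ∑ T ∈ AT_LiftDown (l + d) i x, (if insert i T ∈ U then (1 : ℝ) else 0) := by
    rw [hN1, cardS1_LiftDown U (l + d) hU i x hx]
    push_cast
    rfl
  have hS2 : ∑ T ∈ AT_LiftDown (l + d) i x, ∑ z ∈ univ \ insert i T,
      (if insert z T ∈ U then (1 : ℝ) else 0) = ((d : ℝ) + 1) * N2 := by
    have := cardS2_LiftDown U (l + d) hU i x
    rw [hxl, q4, ← hN2] at this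
    have h2 : ((∑ T ∈ AT_LiftDown (l + d) i x, ∑ z ∈ univ \ insert i T,
      (if insert z T ∈ U then 1 else 0) : ℕ) : ℝ) = (((d + 1) * N2 : ℕ) : ℝ) := by rw [this]
    push_cast at h2
    exact h2
  have hcz : ∀ T ∈ AT_LiftDown (l + d) i x, ((univ \ insert i T).card : ℝ) = m + 1 := by
    intro T hT
    rw [mem_AT_LiftDown] at hT
    rw [card_sdiff_of_subset (subset_univ _), card_univ, Fintype.card_fin,
      card_insert_of_notMem hT.1.2, hT.1.1]
    have : l + d + 1 + (m + 1) - (l + d + 1) = m + 1 := by omega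
    rw [this]
    push_cast
    ring
  have hD : ∑ T ∈ AT_LiftDown (l + d) i x, ∑ z ∈ univ \ insert i T,
      ((if insert i T ∈ U then (1 : ℝ) else 0) - (if insert z T ∈ U then (1 : ℝ) else 0)) =
      ((m : ℝ) + 1) * N1 - ((d : ℝ) + 1) * N2 := by
    rw [← hS2, hS1, mul_sum, ← sum_sub_distrib]
    refine sum_congr rfl fun T hT => ?_
    rw [sum_sub_distrib, sum_const, nsmul_eq_mul, hcz T hT]
  have habs : |((m : ℝ) + 1) * N1 - ((d : ℝ) + 1) * N2| ≤
      ∑ T ∈ AT_LiftDown (l + d) i x, ∑ z ∈ univ \ insert i T,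
        |(if insert i T ∈ U then (1 : ℝ) else 0) - (if insert z T ∈ U then (1 : ℝ) else 0)| := by
    rw [← hD]
    refine (abs_sum_le_sum_abs _ _).trans (sum_le_sum fun T _ => abs_sum_le_sum_abs _ _)
  -- binomials
  have hb1 : ((d + m + 1 + 1).choose (d + 1) : ℝ) * (d + 1) =
      ((d + m + 1).choose d : ℝ) * (d + m + 1 + 1) := by
    have := Nat.add_one_mul_choose_eq (d + m + 1) d
    have h2 : (((d + m + 1 + 1) * (d + m + 1).choose d : ℕ) : ℝ) =
      (((d + m + 1 + 1).choose (d + 1) * (d + 1) : ℕ) : ℝ) := by rw [this]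
    push_cast at h2
    linarith
  have ha : (0 : ℝ) < ((d + m + 1).choose d : ℝ) := by
    exact_mod_cast Nat.choose_pos (by omega)
  have hb : (0 : ℝ) < ((d + m + 1 + 1).choose (d + 1) : ℝ) := by
    exact_mod_cast Nat.choose_pos (by omega)
  have hm1 : (0 : ℝ) < (m : ℝ) + 1 := by positivity
  have hd1 : (0 : ℝ) < (d : ℝ) + 1 := by positivity
  have hdm : (0 : ℝ) < (d : ℝ) + m + 1 + 1 := by positivity
  have hb2 : ((d + m + 1 + 1).choose (d + 1) : ℝ) =
      ((d + m + 1).choose d : ℝ) * (d + m + 1 + 1) / (d + 1) := by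
    rw [eq_div_iff hd1.ne', hb1]
  have hval : (N1 : ℝ) / ((d + m + 1).choose d : ℝ) -
      ((N1 : ℝ) + N2) / ((d + m + 1 + 1).choose (d + 1) : ℝ) =
      (((m : ℝ) + 1) * N1 - ((d : ℝ) + 1) * N2) /
        (((d + m + 1).choose d : ℝ) * (d + m + 1 + 1)) := by
    rw [hb2]
    field_simp
    ring
  rw [hval, abs_div, abs_of_pos (mul_pos ha hdm)]
  have hden : (((l + d + 1 + (m + 1) : ℕ) : ℝ) - 1 - ((l + d : ℕ) : ℝ)) = (m : ℝ) + 1 := by
    push_cast
    ring
  rw [hden]
  have hs0 : 0 ≤ ∑ T ∈ AT_LiftDown (l + d) i x, ∑ z ∈ univ \ insert i T,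
        |(if insert i T ∈ U then (1 : ℝ) else 0) - (if insert z T ∈ U then (1 : ℝ) else 0)| :=
    (abs_nonneg _).trans habs
  calc |((m : ℝ) + 1) * N1 - ((d : ℝ) + 1) * N2| / (((d + m + 1).choose d : ℝ) * (d + m + 1 + 1))
      ≤ (∑ T ∈ AT_LiftDown (l + d) i x, ∑ z ∈ univ \ insert i T,
        |(if insert i T ∈ U then (1 : ℝ) else 0) - (if insert z T ∈ U then (1 : ℝ) else 0)|) /
          (((d + m + 1).choose d : ℝ) * (d + m + 1 + 1)) := by
        gcongr
    _ ≤ _ := by
        apply div_le_div_of_nonneg_left hs0 (mul_pos ha hm1)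
        apply mul_le_mul_of_nonneg_left _ ha.le
        have : (0 : ℝ) ≤ d := by positivity
        linarith

theorem lift_down (U : Finset (Finset (Fin n))) (r : ℕ)
    (hU : U ⊆ powersetCard (r + 1) (univ : Finset (Fin n))) (i : Fin n) (l : ℕ) (hl : l ≤ r)
    (hrn : r + 2 ≤ n) :
    ∑ x ∈ powersetCard l ((univ : Finset (Fin n)).erase i),
        |lf U (r + 1) (insert i x) - lf U (r + 1) x| ≤ ((n - 1).choose l : ℝ) * infl U r i := by
  set D : Finset (Fin n) → ℝ := fun T => ∑ z ∈ univ \ insert i T,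
    |(if insert i T ∈ U then (1 : ℝ) else 0) - (if insert z T ∈ U then (1 : ℝ) else 0)| with hDdef
  have hE : ((univ : Finset (Fin n)).erase i).card = n - 1 := by
    rw [card_erase_of_mem (mem_univ i), card_univ, Fintype.card_fin]
  have hnr : (0 : ℝ) < (n : ℝ) - 1 - r := by
    have : ((r + 2 : ℕ) : ℝ) ≤ n := by exact_mod_cast hrn
    push_cast at this
    linarith
  have ha : (0 : ℝ) < ((n - 1 - l).choose (r - l) : ℝ) := by
    exact_mod_cast Nat.choose_pos (by omega)
  have hc : (0 : ℝ) < ((n - 1).choose r : ℝ) := by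
    exact_mod_cast Nat.choose_pos (by omega)
  have h1 : ∑ x ∈ powersetCard l ((univ : Finset (Fin n)).erase i),
      |lf U (r + 1) (insert i x) - lf U (r + 1) x| ≤
      ∑ x ∈ powersetCard l ((univ : Finset (Fin n)).erase i),
        (∑ T ∈ AT_LiftDown r i x, D T) / (((n - 1 - l).choose (r - l) : ℝ) * (n - 1 - r)) := by
    refine sum_le_sum fun x hx => ?_
    rw [mem_powersetCard] at hx
    have hix : i ∉ x := fun h => by
      have := hx.1 h
      simp at this
    exact point_LiftDown U r hU i l hl hrn x hix hx.2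
  refine h1.trans (le_of_eq ?_)
  rw [← sum_div]
  have h2 : ∑ x ∈ powersetCard l ((univ : Finset (Fin n)).erase i), ∑ T ∈ AT_LiftDown r i x, D T =
      (r.choose l : ℝ) * ∑ T ∈ powersetCard r ((univ : Finset (Fin n)).erase i), D T := by
    unfold AT_LiftDown
    simp_rw [sum_filter]
    rw [sum_comm, mul_sum]
    refine sum_congr rfl fun T hT => ?_
    rw [← sum_filter, sum_const, nsmul_eq_mul]
    congr 2
    rw [mem_powersetCard] at hT
    have : (powersetCard l ((univ : Finset (Fin n)).erase i)).filter (fun x => x ⊆ T) =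
        powersetCard l T := by
      ext x
      rw [mem_filter, mem_powersetCard, mem_powersetCard]
      constructor
      · rintro ⟨⟨_, h2⟩, h3⟩
        exact ⟨h3, h2⟩
      · rintro ⟨h1, h2⟩
        exact ⟨⟨h1.trans hT.1, h2⟩, h1⟩
    rw [this, card_powersetCard, hT.2]
  have h3 : (((n - 1).choose r : ℝ)) * (r.choose l : ℝ) =
      ((n - 1).choose l : ℝ) * ((n - 1 - l).choose (r - l) : ℝ) := by
    exact_mod_cast Nat.choose_mul (n := n - 1) (k := r) (s := l) hl
  rw [h2]
  unfold infl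
  change _ = ((n - 1).choose l : ℝ) *
    ((∑ T ∈ powersetCard r ((univ : Finset (Fin n)).erase i), D T) /
      (((n - 1).choose r : ℝ) * (n - 1 - r)))
  set S := ∑ T ∈ powersetCard r ((univ : Finset (Fin n)).erase i), D T
  rw [← mul_div_assoc, div_eq_div_iff (mul_pos ha hnr).ne' (mul_pos hc hnr).ne']
  calc (r.choose l : ℝ) * S * (((n - 1).choose r : ℝ) * (n - 1 - r))
      = (((n - 1).choose r : ℝ) * (r.choose l : ℝ)) * (S * (n - 1 - r)) := by ring
    _ = (((n - 1).choose l : ℝ) * ((n - 1 - l).choose (r - l) : ℝ)) * (S * (n - 1 - r)) := by rw [h3]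
    _ = _ := by ring

end Pool.Agent.OFK
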