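import Pool.Agent.OFK.LiftUp
import Pool.Agent.OFK.LiftDown
import Pool.Agent.OFK.InflSum

/-! # OFK, package Level: consequences of LiftUp/LiftDown (0.6 h) -/

set_option autoImplicit false

namespace Pool.Agent.OFK

open Finset

variable {n : ℕ}

private theorem step_level (U : Finset (Finset (Fin n))) (r : ℕ)
    (hU : U ⊆ powersetCard (r + 1) (univ : Finset (Fin n))) (hrn : r + 2 ≤ n) (i : Fin n) (l : ℕ)
    (hl : l < n) :
    ∑ x ∈ powersetCard l ((univ : Finset (Fin n)).erase i),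
        |lf U (r + 1) (insert i x) - lf U (r + 1) x| ≤ ((n - 1).choose l : ℝ) * infl U r i := by
  rcases Nat.lt_or_ge r l with h | h
  · exact lift_up U r hU i l h (by omega)
  · exact lift_down U r hU i l h hrn

/-- `∑_x = 2 ∑_{x ∌ i} = 2 ∑_ℓ ∑_{x ∌ i, |x| = ℓ} ≤ 2 ∑_{ℓ ≤ n-1} C(n-1,ℓ) infl = 2^n infl`
(for `x ∌ i` and for `x + i` the term is the same). -/
theorem cube_infl (U : Finset (Finset (Fin n))) (r : ℕ)
    (hU : U ⊆ powersetCard (r + 1) (univ : Finset (Fin n))) (hrn : r + 2 ≤ n) (i : Fin n) :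
    (∑ x : Finset (Fin n), |lf U (r + 1) (insert i x) - lf U (r + 1) (x.erase i)|) / 2 ^ n ≤
      infl U r i := by
  have hcard : ((univ : Finset (Fin n)).erase i).card = n - 1 := by
    rw [card_erase_of_mem (mem_univ i), card_univ, Fintype.card_fin]
  have huniv : (univ : Finset (Finset (Fin n))) =
      (insert i ((univ : Finset (Fin n)).erase i)).powerset := by
    rw [insert_erase (mem_univ i), powerset_univ]
  have hni : i ∉ (univ : Finset (Fin n)).erase i := notMem_erase i _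
  have h1 : ∑ x : Finset (Fin n), |lf U (r + 1) (insert i x) - lf U (r + 1) (x.erase i)| =
      2 * ∑ x ∈ ((univ : Finset (Fin n)).erase i).powerset,
        |lf U (r + 1) (insert i x) - lf U (r + 1) x| := by
    rw [huniv, sum_powerset_insert hni, two_mul]
    congr 1
    · refine sum_congr rfl fun x hx => ?_
      have hx' : i ∉ x := fun h => hni (mem_powerset.1 hx h)
      rw [erase_eq_of_notMem hx']
    · refine sum_congr rfl fun x hx => ?_
      have hx' : i ∉ x := fun h => hni (mem_powerset.1 hx h)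
      rw [erase_insert hx', insert_idem]
  have h2 : ∑ x ∈ ((univ : Finset (Fin n)).erase i).powerset,
        |lf U (r + 1) (insert i x) - lf U (r + 1) x| ≤ 2 ^ (n - 1) * infl U r i := by
    rw [sum_powerset, hcard]
    calc ∑ j ∈ range (n - 1 + 1), ∑ x ∈ powersetCard j ((univ : Finset (Fin n)).erase i),
          |lf U (r + 1) (insert i x) - lf U (r + 1) x|
        ≤ ∑ j ∈ range (n - 1 + 1), ((n - 1).choose j : ℝ) * infl U r i := by
          refine sum_le_sum fun j hj => step_level U r hU hrn i j ?_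
          have := mem_range.1 hj
          omega
      _ = 2 ^ (n - 1) * infl U r i := by
          rw [← sum_mul]
          congr 1
          exact_mod_cast Nat.sum_range_choose (n - 1)
  have h3 : (2 : ℝ) ^ n = 2 * 2 ^ (n - 1) := by
    rw [← pow_succ']
    congr 1
    omega
  rw [h1, h3, div_le_iff₀ (by positivity)]
  nlinarith [h2]

/-- `∑_{|x| = ℓ} ∑_{i ∉ x} = ∑_i ∑_{|x| = ℓ, x ∌ i} ≤ C(n-1,ℓ) ∑_i infl ≤ C(n-1,ℓ) 2 n oU` and
`n C(n-1,ℓ) = (n-ℓ) C(n,ℓ)`. -/
theorem level_drift (U : Finset (Finset (Fin n))) (r : ℕ)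
    (hU : U ⊆ powersetCard (r + 1) (univ : Finset (Fin n))) (hrn : r + 2 ≤ n) (l : ℕ)
    (hl : l < n) :
    ∑ x ∈ powersetCard l (univ : Finset (Fin n)), ∑ i ∈ univ \ x,
        |lf U (r + 1) (insert i x) - lf U (r + 1) x| ≤
      (n.choose l : ℝ) * ((n : ℝ) - l) * (2 * oU U r) := by
  have h1 : ∑ x ∈ powersetCard l (univ : Finset (Fin n)), ∑ i ∈ univ \ x,
        |lf U (r + 1) (insert i x) - lf U (r + 1) x| =
      ∑ i : Fin n, ∑ x ∈ powersetCard l ((univ : Finset (Fin n)).erase i),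
        |lf U (r + 1) (insert i x) - lf U (r + 1) x| := by
    refine sum_comm' fun x i => ?_
    simp only [mem_powersetCard, mem_sdiff, mem_univ, true_and, subset_univ, and_true]
    constructor
    · rintro ⟨h, h'⟩
      exact ⟨fun y hy => mem_erase.2 ⟨fun e => h' (e ▸ hy), mem_univ y⟩, h⟩
    · rintro ⟨h, h'⟩
      exact ⟨h', fun hi => (mem_erase.1 (h hi)).1 rfl⟩
  have h2 : ∑ i : Fin n, ∑ x ∈ powersetCard l ((univ : Finset (Fin n)).erase i),
        |lf U (r + 1) (insert i x) - lf U (r + 1) x| ≤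
      ((n - 1).choose l : ℝ) * ∑ i, infl U r i := by
    rw [mul_sum]
    exact sum_le_sum fun i _ => step_level U r hU hrn i l hl
  have h3 : ((n - 1).choose l : ℝ) * ∑ i, infl U r i ≤
      ((n - 1).choose l : ℝ) * (2 * n * oU U r) :=
    mul_le_mul_of_nonneg_left (infl_sum U r hU hrn) (by positivity)
  have h4 : ((n - 1).choose l : ℝ) * n = (n.choose l : ℝ) * ((n : ℝ) - l) := by
    obtain ⟨k, rfl⟩ : ∃ k, n = k + 1 := ⟨n - 1, by omega⟩
    have := Nat.choose_mul_succ_eq k l
    have h5 : ((k + 1 : ℕ) : ℝ) - (l : ℝ) = ((k + 1 - l : ℕ) : ℝ) := by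
      rw [Nat.cast_sub (by omega)]
    rw [h5]
    simp only [Nat.add_sub_cancel]
    exact_mod_cast this
  rw [h1, ← h4]
  linarith [h2, h3]

end Pool.Agent.OFK
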