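import Pool.Agent.OFK.Level
import Pool.Agent.OFK.Var

/-! # OFK, package Near: the lift is almost 0/1 (1 h)

`f = lf U (r+1)`, `a(ℓ) = (1/C(n,ℓ)) ∑_{|x| = ℓ} min(f x, 1 - f x)`. `a(r+1) = 0` (`lf_level`).
For `x' = x + i`: `min(f x', 1 - f x') ≤ min(f x, 1 - f x) + |f x' - f x|` and conversely. Averaging over
all pairs `(x, x+i)` with `|x| = ℓ` (every `(ℓ+1)`-set occurs `ℓ+1` times, every `ℓ`-set `n-ℓ` times,
`C(n,ℓ)(n-ℓ) = C(n,ℓ+1)(ℓ+1)`): `|a(ℓ+1) - a(ℓ)| ≤ 2 oU` by `level_drift`. So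
`a(ℓ) ≤ 2 oU |ℓ - (r+1)|`, and `f(1-f) ≤ min(f,1-f)`.
`near`: `∑_x = ∑_ℓ`, `|ℓ - (r+1)| ≤ |ℓ - n/2| + |k-1|/2`, `sum_choose_abs` gives
`≤ 2 oU (√n/2 + (k+1)/2) ≤ 2 oU (√n + k + 1)`. -/

set_option autoImplicit false

namespace Pool.Agent.OFK

open Finset

variable {n : ℕ}

private theorem dc_Near (l : ℕ) (G : Finset (Fin n) → ℝ) :
    ∑ x ∈ powersetCard l (univ : Finset (Fin n)), ∑ i ∈ univ \ x, G (insert i x) =
      ((l : ℝ) + 1) * ∑ y ∈ powersetCard (l + 1) (univ : Finset (Fin n)), G y := by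
  have h1 : ∀ y ∈ powersetCard (l + 1) (univ : Finset (Fin n)),
      ((l : ℝ) + 1) * G y = ∑ _i ∈ y, G y := by
    intro y hy
    rw [sum_const, (mem_powersetCard.1 hy).2, nsmul_eq_mul]
    push_cast
    ring
  rw [mul_sum, sum_congr rfl h1, sum_sigma', sum_sigma']
  refine sum_bij' (fun p _ => ⟨insert p.2 p.1, p.2⟩) (fun p _ => ⟨p.1.erase p.2, p.2⟩)
    ?_ ?_ ?_ ?_ ?_
  · rintro ⟨x, i⟩ hp
    simp only [mem_sigma, mem_powersetCard, mem_sdiff, mem_univ, true_and, subset_univ] at hp ⊢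
    exact ⟨by rw [card_insert_of_notMem hp.2, hp.1], mem_insert_self _ _⟩
  · rintro ⟨y, i⟩ hp
    simp only [mem_sigma, mem_powersetCard, mem_sdiff, mem_univ, true_and, subset_univ] at hp ⊢
    exact ⟨by rw [card_erase_of_mem hp.2, hp.1]; rfl, notMem_erase _ _⟩
  · rintro ⟨x, i⟩ hp
    simp only [mem_sigma, mem_powersetCard, mem_sdiff, mem_univ, true_and, subset_univ] at hp
    simp only [erase_insert hp.2]
  · rintro ⟨y, i⟩ hp
    simp only [mem_sigma, mem_powersetCard, subset_univ, true_and] at hp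
    simp only [insert_erase hp.2]
  · rintro ⟨x, i⟩ _
    rfl

private noncomputable def mn_Near (U : Finset (Finset (Fin n))) (r : ℕ) (x : Finset (Fin n)) : ℝ :=
  min (lf U (r + 1) x) (1 - lf U (r + 1) x)

private noncomputable def av_Near (U : Finset (Finset (Fin n))) (r l : ℕ) : ℝ :=
  (∑ x ∈ powersetCard l (univ : Finset (Fin n)), mn_Near U r x) / (n.choose l : ℝ)

private theorem oU_nonneg_Near (U : Finset (Finset (Fin n))) (r : ℕ)
    (hU : U ⊆ powersetCard (r + 1) (univ : Finset (Fin n))) (hrn : r + 2 ≤ n) : 0 ≤ oU U r := by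
  have h1 := infl_sum U r hU hrn
  have h2 : 0 ≤ ∑ i, infl U r i := sum_nonneg fun i _ => infl_nonneg U r hrn i
  have h3 : (0 : ℝ) < n := by
    have : 0 < n := by omega
    exact_mod_cast this
  by_contra h
  push Not at h
  nlinarith

private theorem step_Near (U : Finset (Finset (Fin n))) (r : ℕ)
    (hU : U ⊆ powersetCard (r + 1) (univ : Finset (Fin n))) (hrn : r + 2 ≤ n) (l : ℕ)
    (hl : l < n) : |av_Near U r (l + 1) - av_Near U r l| ≤ 2 * oU U r := by
  have hc : (0 : ℝ) < n.choose l := by exact_mod_cast Nat.choose_pos hl.le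
  have hc1 : (0 : ℝ) < n.choose (l + 1) := by exact_mod_cast Nat.choose_pos (show l + 1 ≤ n by omega)
  have hnl : (0 : ℝ) < (n : ℝ) - l := by
    have : (l : ℝ) < n := by exact_mod_cast hl
    linarith
  have hid : (n.choose (l + 1) : ℝ) * ((l : ℝ) + 1) = (n.choose l : ℝ) * ((n : ℝ) - l) := by
    have h := Nat.choose_succ_right_eq n l
    have h2 : ((n - l : ℕ) : ℝ) = (n : ℝ) - l := Nat.cast_sub hl.le
    rw [← h2]
    exact_mod_cast h
  have h1 : ∑ x ∈ powersetCard l (univ : Finset (Fin n)), ∑ _i ∈ univ \ x, mn_Near U r x =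
      ((n : ℝ) - l) * ∑ x ∈ powersetCard l (univ : Finset (Fin n)), mn_Near U r x := by
    rw [mul_sum]
    refine sum_congr rfl fun x hx => ?_
    have h2 : (univ \ x : Finset (Fin n)).card = n - l := by
      rw [card_sdiff_of_subset (subset_univ x), card_univ, Fintype.card_fin,
        (mem_powersetCard.1 hx).2]
    rw [sum_const, h2, nsmul_eq_mul, Nat.cast_sub hl.le]
  have h2 := dc_Near l (mn_Near U r)
  have h3 : |∑ x ∈ powersetCard l (univ : Finset (Fin n)), ∑ i ∈ univ \ x,
      mn_Near U r (insert i x) -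
      ∑ x ∈ powersetCard l (univ : Finset (Fin n)), ∑ _i ∈ univ \ x, mn_Near U r x| ≤
      (n.choose l : ℝ) * ((n : ℝ) - l) * (2 * oU U r) := by
    refine le_trans ?_ (level_drift U r hU hrn l hl)
    rw [← sum_sub_distrib]
    refine (abs_sum_le_sum_abs _ _).trans (sum_le_sum fun x _ => ?_)
    rw [← sum_sub_distrib]
    refine (abs_sum_le_sum_abs _ _).trans (sum_le_sum fun i _ => ?_)
    unfold mn_Near
    rw [abs_le]
    have h4 := abs_le.1 (le_refl |lf U (r + 1) (insert i x) - lf U (r + 1) x|)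
    constructor
    · rw [neg_le_sub_iff_le_add]
      refine le_trans ?_ (min_add_add_right _ _ _).le
      refine le_min ?_ ?_
      · refine (min_le_left _ _).trans ?_
        linarith [h4.1]
      · refine (min_le_right _ _).trans ?_
        linarith [h4.2]
    · rw [sub_le_iff_le_add']
      refine le_trans ?_ (min_add_add_right _ _ _).le
      refine le_min ?_ ?_
      · refine (min_le_left _ _).trans ?_
        linarith [h4.2]
      · refine (min_le_right _ _).trans ?_
        linarith [h4.1]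
  rw [h1, h2] at h3
  have e1 : ∑ y ∈ powersetCard (l + 1) (univ : Finset (Fin n)), mn_Near U r y =
      (n.choose (l + 1) : ℝ) * av_Near U r (l + 1) := by
    unfold av_Near
    field_simp
  have e2 : ∑ y ∈ powersetCard l (univ : Finset (Fin n)), mn_Near U r y =
      (n.choose l : ℝ) * av_Near U r l := by
    unfold av_Near
    field_simp
  rw [e1, e2] at h3
  have e3 : ((l : ℝ) + 1) * ((n.choose (l + 1) : ℝ) * av_Near U r (l + 1)) -
      ((n : ℝ) - l) * ((n.choose l : ℝ) * av_Near U r l) =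
      ((n.choose l : ℝ) * ((n : ℝ) - l)) * (av_Near U r (l + 1) - av_Near U r l) := by
    linear_combination (av_Near U r (l + 1)) * hid
  rw [e3, abs_mul, abs_of_pos (mul_pos hc hnl)] at h3
  exact le_of_mul_le_mul_left h3 (mul_pos hc hnl)

private theorem av_zero_Near (U : Finset (Finset (Fin n))) (r : ℕ)
    (hU : U ⊆ powersetCard (r + 1) (univ : Finset (Fin n))) : av_Near U r (r + 1) = 0 := by
  unfold av_Near
  rw [sum_eq_zero, zero_div]
  intro x hx
  unfold mn_Near
  rw [lf_level U (r + 1) hU x (mem_powersetCard.1 hx).2]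
  split_ifs <;> norm_num

private theorem av_le_Near (U : Finset (Finset (Fin n))) (r : ℕ)
    (hU : U ⊆ powersetCard (r + 1) (univ : Finset (Fin n))) (hrn : r + 2 ≤ n) (l : ℕ)
    (hl : l ≤ n) : av_Near U r l ≤ 2 * oU U r * |(l : ℝ) - (r + 1)| := by
  rcases Nat.le_total (r + 1) l with h | h
  · obtain ⟨d, rfl⟩ := Nat.exists_eq_add_of_le h
    have h1 : ∀ d : ℕ, r + 1 + d ≤ n → av_Near U r (r + 1 + d) ≤ 2 * oU U r * d := by
      intro d
      induction d with
      | zero =>
        intro _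
        rw [Nat.add_zero, av_zero_Near U r hU]
        simp
      | succ d ih =>
        intro hd
        have h2 := ih (by omega)
        have h3 := (abs_le.1 (step_Near U r hU hrn (r + 1 + d) (by omega))).2
        have h4 : r + 1 + (d + 1) = r + 1 + d + 1 := by omega
        rw [h4]
        push_cast
        linarith
    refine (h1 d hl).trans (le_of_eq ?_)
    congr 1
    push_cast
    rw [show (r : ℝ) + 1 + d - (r + 1) = d by ring, abs_of_nonneg (Nat.cast_nonneg d)]
  · obtain ⟨d, hd⟩ := Nat.exists_eq_add_of_le h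
    have h1 : ∀ d l : ℕ, r + 1 = l + d → av_Near U r l ≤ 2 * oU U r * d := by
      intro d
      induction d with
      | zero =>
        intro l hl
        obtain rfl : l = r + 1 := by omega
        rw [av_zero_Near U r hU]
        simp
      | succ d ih =>
        intro l hl
        have h2 := ih (l + 1) (by omega)
        have h3 := (abs_le.1 (step_Near U r hU hrn l (by omega))).1
        push_cast
        linarith
    refine (h1 d l hd).trans (le_of_eq ?_)
    congr 1
    have h2 : (r : ℝ) + 1 = l + d := by exact_mod_cast hd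
    rw [h2, show (l : ℝ) - (l + d) = -d by ring, abs_neg, abs_of_nonneg (Nat.cast_nonneg d)]

theorem near_level (U : Finset (Finset (Fin n))) (r : ℕ)
    (hU : U ⊆ powersetCard (r + 1) (univ : Finset (Fin n))) (hrn : r + 2 ≤ n) (l : ℕ)
    (hl : l ≤ n) :
    ∑ x ∈ powersetCard l (univ : Finset (Fin n)), lf U (r + 1) x * (1 - lf U (r + 1) x) ≤
      (n.choose l : ℝ) * (2 * oU U r * |(l : ℝ) - (r + 1)|) := by
  have hc : (0 : ℝ) < n.choose l := by exact_mod_cast Nat.choose_pos hl
  have h1 : ∑ x ∈ powersetCard l (univ : Finset (Fin n)), lf U (r + 1) x * (1 - lf U (r + 1) x) ≤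
      ∑ x ∈ powersetCard l (univ : Finset (Fin n)), mn_Near U r x := by
    refine sum_le_sum fun x _ => ?_
    have h2 := lf_nonneg U (r + 1) x
    have h3 := lf_le_one U (r + 1) hU x
    unfold mn_Near
    refine le_min ?_ ?_
    · nlinarith
    · nlinarith
  have e2 : ∑ y ∈ powersetCard l (univ : Finset (Fin n)), mn_Near U r y =
      (n.choose l : ℝ) * av_Near U r l := by
    unfold av_Near
    field_simp
  rw [e2] at h1
  exact h1.trans (mul_le_mul_of_nonneg_left (av_le_Near U r hU hrn l hl) hc.le)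

theorem near (r k : ℕ) (hn : n = 2 * r + 1 + k) (hrn : r + 2 ≤ n) (U : Finset (Finset (Fin n)))
    (hU : U ⊆ powersetCard (r + 1) (univ : Finset (Fin n))) :
    (∑ x : Finset (Fin n), lf U (r + 1) x * (1 - lf U (r + 1) x)) / 2 ^ n ≤
      2 * oU U r * (Real.sqrt n + k + 1) := by
  have ho := oU_nonneg_Near U r hU hrn
  rw [div_le_iff₀ (by positivity)]
  have h1 : ∑ x : Finset (Fin n), lf U (r + 1) x * (1 - lf U (r + 1) x) =
      ∑ l ∈ range (n + 1), ∑ x ∈ powersetCard l (univ : Finset (Fin n)),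
        lf U (r + 1) x * (1 - lf U (r + 1) x) := by
    rw [← powerset_univ, sum_powerset, card_univ, Fintype.card_fin]
  have h2 : ∑ l ∈ range (n + 1), ∑ x ∈ powersetCard l (univ : Finset (Fin n)),
        lf U (r + 1) x * (1 - lf U (r + 1) x) ≤
      ∑ l ∈ range (n + 1), (oU U r * ((n.choose l : ℝ) * |(n : ℝ) - 2 * l|) +
        oU U r * (k + 1) * (n.choose l : ℝ)) := by
    refine sum_le_sum fun l hl => ?_
    refine (near_level U r hU hrn l (by have := mem_range.1 hl; omega)).trans ?_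
    have h3 : |(l : ℝ) - (r + 1)| ≤ |(n : ℝ) - 2 * l| / 2 + ((k : ℝ) + 1) / 2 := by
      have h4 : (n : ℝ) = 2 * r + 1 + k := by
        rw [hn]
        push_cast
        ring
      have h5 := abs_le.1 (le_refl |(n : ℝ) - 2 * l|)
      have h6 : (0 : ℝ) ≤ k := Nat.cast_nonneg k
      rw [abs_le]
      constructor <;> linarith [h5.1, h5.2]
    have h4 : (0 : ℝ) ≤ n.choose l := Nat.cast_nonneg _
    calc (n.choose l : ℝ) * (2 * oU U r * |(l : ℝ) - (r + 1)|) ≤
        (n.choose l : ℝ) * (2 * oU U r * (|(n : ℝ) - 2 * l| / 2 + ((k : ℝ) + 1) / 2)) := by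
          refine mul_le_mul_of_nonneg_left ?_ h4
          exact mul_le_mul_of_nonneg_left h3 (by positivity)
      _ = _ := by ring
  have h3 : ∑ l ∈ range (n + 1), (n.choose l : ℝ) = 2 ^ n := by
    exact_mod_cast Nat.sum_range_choose n
  rw [sum_add_distrib, ← mul_sum, ← mul_sum, h3] at h2
  have h4 := sum_choose_abs n
  have h5 : oU U r * ∑ l ∈ range (n + 1), (n.choose l : ℝ) * |(n : ℝ) - 2 * l| ≤
      oU U r * (Real.sqrt n * 2 ^ n) := mul_le_mul_of_nonneg_left h4 ho
  have h6 : 0 ≤ oU U r * (Real.sqrt n * 2 ^ n) := by positivity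
  have h7 : 0 ≤ oU U r * ((k : ℝ) + 1) * 2 ^ n := by positivity
  rw [h1]
  calc _ ≤ _ := h2
    _ ≤ oU U r * (Real.sqrt n * 2 ^ n) + oU U r * ((k : ℝ) + 1) * 2 ^ n := by linarith
    _ ≤ 2 * (oU U r * (Real.sqrt n * 2 ^ n) + oU U r * ((k : ℝ) + 1) * 2 ^ n) := by linarith
    _ = _ := by ring

end Pool.Agent.OFK
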