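import Pool.Agent.OFK.CondAvg
import Pool.Agent.OFK.Near
import Pool.Agent.OFK.Level
import Pool.Agent.OFK.InflSum

/-! # OFK, package Junta: families of `(r+1)`-sets with small boundary are approximate juntas (1 h)

`cube_junta` is helper8's theorem (`Pool.Agent.OFK.Cube`); the hypothesis `hcube` below is its
statement. PROOF. `I0 = 6 (|C| + k + 1)`-like bound of `2 n oU ≤ 2 n C/(r+1)`, `a = infl U r`,
`f = lf U (r+1)`. It gives `J`, `|J| ≤ j₀` with `E f² - E (avg f J)² ≤ ε₀/4`. `near`: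
`E f - E f² ≤ 2 oU (√n + k + 1) ≤ ε₀/4` for large `n`. `avg f J x` depends on `x ∩ J` only:
`E f = 2^-j ∑_{u ⊆ J} avg f J u`, `E (avg f J)² = 2^-j ∑_u (avg f J u)²`. So
`2^-j ∑_u avg (1 - avg) ≤ ε₀/2`, and `cond_avg` with `ε₀/8` for all `j ≤ j₀`, together with
`|a(1-a) - b(1-b)| ≤ |a - b|` on `[0,1]`, finishes. (If `n` is small nothing is claimed.) -/

set_option autoImplicit false

namespace Pool.Agent.OFK

open Finset

private theorem fib_Junta {n : ℕ} (J : Finset (Fin n)) (g : Finset (Fin n) → ℝ) :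
    ∑ x : Finset (Fin n), g x = ∑ u ∈ J.powerset,
      ∑ x ∈ (univ : Finset (Finset (Fin n))).filter (fun y => y ∩ J = u), g x := by
  symm
  exact sum_fiberwise_of_maps_to (fun x _ => mem_powerset.2 inter_subset_right) g

private theorem card_fib_Junta {n : ℕ} (J u : Finset (Fin n)) (hu : u ⊆ J) :
    ((univ : Finset (Finset (Fin n))).filter (fun y => y ∩ J = u)).card = 2 ^ (n - J.card) := by
  have h1 : (univ \ J : Finset (Fin n)).powerset.card = 2 ^ (n - J.card) := by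
    rw [card_powerset, card_sdiff_of_subset (subset_univ J), card_univ, Fintype.card_fin]
  rw [← h1]
  refine card_nbij' (fun y => y \ J) (fun z => z ∪ u) ?_ ?_ ?_ ?_
  · intro y _
    simp only [coe_powerset, Set.mem_preimage, Set.mem_powerset_iff, coe_subset]
    exact sdiff_subset_sdiff (subset_univ y) (subset_refl J)
  · intro z hz
    simp only [coe_powerset, Set.mem_preimage, Set.mem_powerset_iff, coe_subset] at hz
    simp only [coe_filter, mem_univ, true_and, Set.mem_ofPred_eq]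
    ext i
    rw [mem_inter, mem_union]
    constructor
    · rintro ⟨h2 | h2, h3⟩
      · exact absurd h3 (mem_sdiff.1 (hz h2)).2
      · exact h2
    · intro h2
      exact ⟨Or.inr h2, hu h2⟩
  · intro y hy
    simp only [coe_filter, mem_univ, true_and, Set.mem_ofPred_eq] at hy
    rw [← hy]
    exact sdiff_union_inter y J
  · intro z hz
    simp only [coe_powerset, Set.mem_preimage, Set.mem_powerset_iff, coe_subset] at hz
    simp only
    ext i
    rw [mem_sdiff, mem_union]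
    constructor
    · rintro ⟨h2 | h2, h3⟩
      · exact h2
      · exact absurd (hu h2) h3
    · intro h2
      exact ⟨Or.inl h2, (mem_sdiff.1 (hz h2)).2⟩

private theorem avg_sum_Junta {n : ℕ} (f : Finset (Fin n) → ℝ) (J u : Finset (Fin n))
    (hu : u ⊆ J) : ∑ x ∈ (univ : Finset (Finset (Fin n))).filter (fun y => y ∩ J = u), f x =
      2 ^ (n - J.card) * avg f J u := by
  unfold avg
  rw [inter_eq_left.2 hu]
  field_simp

private theorem avg_sq_sum_Junta {n : ℕ} (f : Finset (Fin n) → ℝ) (J u : Finset (Fin n))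
    (hu : u ⊆ J) :
    ∑ x ∈ (univ : Finset (Finset (Fin n))).filter (fun y => y ∩ J = u), avg f J x ^ 2 =
      2 ^ (n - J.card) * avg f J u ^ 2 := by
  have h1 : ∀ x ∈ (univ : Finset (Finset (Fin n))).filter (fun y => y ∩ J = u),
      avg f J x ^ 2 = avg f J u ^ 2 := by
    intro x hx
    unfold avg
    rw [(mem_filter.1 hx).2, inter_eq_left.2 hu]
  rw [sum_congr rfl h1, sum_const, card_fib_Junta J u hu, nsmul_eq_mul]
  push_cast
  ring

private theorem avg_mem_Junta {n : ℕ} (f : Finset (Fin n) → ℝ) (hf : ∀ x, 0 ≤ f x ∧ f x ≤ 1)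
    (J u : Finset (Fin n)) (hu : u ⊆ J) : 0 ≤ avg f J u ∧ avg f J u ≤ 1 := by
  have h2 : (0 : ℝ) < 2 ^ (n - J.card) := by positivity
  have h3 := avg_sum_Junta f J u hu
  have h4 : 0 ≤ ∑ x ∈ (univ : Finset (Finset (Fin n))).filter (fun y => y ∩ J = u), f x :=
    sum_nonneg fun x _ => (hf x).1
  have h5 : ∑ x ∈ (univ : Finset (Finset (Fin n))).filter (fun y => y ∩ J = u), f x ≤
      2 ^ (n - J.card) := by
    refine (sum_le_sum fun x _ => (hf x).2).trans ?_
    rw [sum_const, card_fib_Junta J u hu, nsmul_eq_mul]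
    push_cast
    linarith
  constructor
  · by_contra h
    push Not at h
    nlinarith
  · by_contra h
    push Not at h
    nlinarith

private theorem sum_avg_Junta {n : ℕ} (f : Finset (Fin n) → ℝ) (J : Finset (Fin n)) :
    ∑ u ∈ J.powerset, avg f J u * (1 - avg f J u) =
      ((∑ x, f x) / 2 ^ n - (∑ x, avg f J x ^ 2) / 2 ^ n) * 2 ^ J.card := by
  have hJ : J.card ≤ n := by
    have := card_le_univ J
    rwa [Fintype.card_fin] at this
  have h2 : (2 : ℝ) ^ n = 2 ^ (n - J.card) * 2 ^ J.card := by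
    rw [← pow_add, Nat.sub_add_cancel hJ]
  have h3 : ∑ x, f x = 2 ^ (n - J.card) * ∑ u ∈ J.powerset, avg f J u := by
    rw [fib_Junta J f, mul_sum]
    exact sum_congr rfl fun u hu => avg_sum_Junta f J u (mem_powerset.1 hu)
  have h4 : ∑ x, avg f J x ^ 2 = 2 ^ (n - J.card) * ∑ u ∈ J.powerset, avg f J u ^ 2 := by
    rw [fib_Junta J fun x => avg f J x ^ 2, mul_sum]
    exact sum_congr rfl fun u hu => avg_sq_sum_Junta f J u (mem_powerset.1 hu)
  have h5 : ∑ u ∈ J.powerset, avg f J u * (1 - avg f J u) =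
      ∑ u ∈ J.powerset, avg f J u - ∑ u ∈ J.powerset, avg f J u ^ 2 := by
    rw [← sum_sub_distrib]
    exact sum_congr rfl fun u _ => by ring
  rw [h3, h4, h5, h2]
  have h6 : (2 : ℝ) ^ (n - J.card) ≠ 0 := by positivity
  have h7 : (2 : ℝ) ^ J.card ≠ 0 := by positivity
  field_simp

theorem junta (hcube : ∀ I0 eps : ℝ, 0 < eps → ∃ j0 : ℕ, ∀ n : ℕ, ∀ f : Finset (Fin n) → ℝ,
      (∀ x, 0 ≤ f x ∧ f x ≤ 1) → ∀ a : Fin n → ℝ,
      (∀ i, (∑ x : Finset (Fin n), |f (insert i x) - f (x.erase i)|) / 2 ^ n ≤ a i) →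
      ∑ i, a i ≤ I0 → ∃ J : Finset (Fin n), J.card ≤ j0 ∧
        (∑ x : Finset (Fin n), f x ^ 2) / 2 ^ n -
          (∑ x : Finset (Fin n), avg f J x ^ 2) / 2 ^ n ≤ eps)
    (k : ℕ) (C ε₀ : ℝ) (hε : 0 < ε₀) : ∃ j₀ N : ℕ, ∀ r n : ℕ, N ≤ r → n = 2 * r + 1 + k →
    ∀ U : Finset (Finset (Fin n)), U ⊆ powersetCard (r + 1) (univ : Finset (Fin n)) →
    ((r : ℝ) + 1) * oU U r ≤ C →
    ∃ J : Finset (Fin n), J.card ≤ j₀ ∧
      ∑ u ∈ J.powerset, pd U (r + 1) J u * (1 - pd U (r + 1) J u) ≤ ε₀ * 2 ^ J.card := by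
  obtain ⟨j0, hj0⟩ := hcube (2 * (k + 2) * C) (ε₀ / 4) (by positivity)
  obtain ⟨e, he⟩ : ∃ e : ℝ, e = min ε₀ 1 / 8 := ⟨_, rfl⟩
  have he0 : 0 < e := by
    rw [he]
    positivity
  have he1 : e ≤ ε₀ / 8 := by
    rw [he]
    have := min_le_left ε₀ 1
    linarith
  have he2 : e ≤ 1 := by
    rw [he]
    have := min_le_right ε₀ 1
    linarith
  choose Nf hNf using fun j : ℕ => cond_avg j k C e he0
  obtain ⟨D, hD⟩ : ∃ D : ℝ, D = 8 * C * (Real.sqrt (k + 2) + k + 1) / ε₀ := ⟨_, rfl⟩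
  obtain ⟨M, hM⟩ := exists_nat_ge (D ^ 2)
  refine ⟨j0, (range (j0 + 1)).sup Nf + M + 1, fun r n hr hn U hU hoU => ?_⟩
  have hrn : r + 2 ≤ n := by omega
  have hn' : (n : ℝ) = 2 * r + 1 + k := by
    rw [hn]
    push_cast
    ring
  have hr0 : (0 : ℝ) < (r : ℝ) + 1 := by positivity
  have hnpos : (0 : ℝ) < n := by
    rw [hn']
    positivity
  have hsum := infl_sum U r hU hrn
  have ho : 0 ≤ oU U r := by
    have h2 : 0 ≤ ∑ i, infl U r i := sum_nonneg fun i _ => infl_nonneg U r hrn i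
    by_contra h
    push Not at h
    nlinarith
  have hk0 : (0 : ℝ) ≤ k := Nat.cast_nonneg k
  have hI : ∑ i, infl U r i ≤ 2 * (k + 2) * C := by
    refine hsum.trans ?_
    have h1 : (n : ℝ) ≤ (k + 2) * (r + 1) := by
      rw [hn']
      nlinarith [(Nat.cast_nonneg r : (0 : ℝ) ≤ r),
        mul_nonneg hk0 (Nat.cast_nonneg r : (0 : ℝ) ≤ r)]
    calc 2 * (n : ℝ) * oU U r ≤ 2 * ((k + 2) * (r + 1)) * oU U r := by
          refine mul_le_mul_of_nonneg_right ?_ ho
          linarith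
      _ = 2 * (k + 2) * ((r + 1) * oU U r) := by ring
      _ ≤ 2 * (k + 2) * C := mul_le_mul_of_nonneg_left hoU (by positivity)
  have hf : ∀ x, 0 ≤ lf U (r + 1) x ∧ lf U (r + 1) x ≤ 1 := fun x =>
    ⟨lf_nonneg U (r + 1) x, lf_le_one U (r + 1) hU x⟩
  obtain ⟨J, hJ, hJ2⟩ := hj0 n (lf U (r + 1)) hf (infl U r)
    (fun i => cube_infl U r hU hrn i) hI
  refine ⟨J, hJ, ?_⟩
  have hnear : 2 * oU U r * (Real.sqrt n + k + 1) ≤ ε₀ / 4 := by
    have hs : 0 < Real.sqrt ((r : ℝ) + 1) := Real.sqrt_pos.2 hr0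
    have hss : Real.sqrt ((r : ℝ) + 1) * Real.sqrt ((r : ℝ) + 1) = (r : ℝ) + 1 :=
      Real.mul_self_sqrt hr0.le
    have hs1 : 1 ≤ Real.sqrt ((r : ℝ) + 1) := by
      rw [Real.one_le_sqrt]
      have : (0 : ℝ) ≤ r := Nat.cast_nonneg r
      linarith
    have hDs : D ≤ Real.sqrt ((r : ℝ) + 1) := by
      refine Real.le_sqrt_of_sq_le ?_
      have h1 : ((M : ℕ) : ℝ) ≤ r := by
        have h2 : M ≤ r := by omega
        exact_mod_cast h2
      linarith
    have hn2 : Real.sqrt n ≤ Real.sqrt (k + 2) * Real.sqrt ((r : ℝ) + 1) := by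
      rw [← Real.sqrt_mul (by positivity)]
      refine Real.sqrt_le_sqrt ?_
      rw [hn']
      nlinarith [(Nat.cast_nonneg r : (0 : ℝ) ≤ r),
        mul_nonneg hk0 (Nat.cast_nonneg r : (0 : ℝ) ≤ r)]
    have h3 : Real.sqrt n + k + 1 ≤ (Real.sqrt (k + 2) + k + 1) * Real.sqrt ((r : ℝ) + 1) := by
      nlinarith
    have h4 : 0 < Real.sqrt (k + 2) + k + 1 := by positivity
    have h5 : 8 * C * (Real.sqrt (k + 2) + k + 1) ≤ ε₀ * Real.sqrt ((r : ℝ) + 1) := by
      have h6 : D * ε₀ = 8 * C * (Real.sqrt (k + 2) + k + 1) := by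
        rw [hD]
        field_simp
      rw [← h6, mul_comm ε₀]
      exact mul_le_mul_of_nonneg_right hDs hε.le
    have h7 : 2 * oU U r * (Real.sqrt n + k + 1) * ((r : ℝ) + 1) ≤ ε₀ / 4 * ((r : ℝ) + 1) := by
      calc 2 * oU U r * (Real.sqrt n + k + 1) * ((r : ℝ) + 1)
          = 2 * (((r : ℝ) + 1) * oU U r) * (Real.sqrt n + k + 1) := by ring
        _ ≤ 2 * C * (Real.sqrt n + k + 1) := by
            refine mul_le_mul_of_nonneg_right ?_ (by positivity)
            linarith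
        _ ≤ 2 * C * ((Real.sqrt (k + 2) + k + 1) * Real.sqrt ((r : ℝ) + 1)) := by
            refine mul_le_mul_of_nonneg_left h3 ?_
            have : 0 ≤ ((r : ℝ) + 1) * oU U r := mul_nonneg hr0.le ho
            linarith
        _ = (8 * C * (Real.sqrt (k + 2) + k + 1)) * Real.sqrt ((r : ℝ) + 1) / 4 := by ring
        _ ≤ (ε₀ * Real.sqrt ((r : ℝ) + 1)) * Real.sqrt ((r : ℝ) + 1) / 4 := by
            have := mul_le_mul_of_nonneg_right h5 hs.le
            linarith
        _ = ε₀ / 4 * ((r : ℝ) + 1) := by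
            rw [mul_assoc, hss]
            ring
    exact le_of_mul_le_mul_right h7 hr0
  have hnr := near r k hn hrn U hU
  have hsplit : (∑ x : Finset (Fin n), lf U (r + 1) x * (1 - lf U (r + 1) x)) / 2 ^ n =
      (∑ x, lf U (r + 1) x) / 2 ^ n - (∑ x, lf U (r + 1) x ^ 2) / 2 ^ n := by
    rw [← sub_div, ← sum_sub_distrib]
    congr 1
    exact sum_congr rfl fun x _ => by ring
  have h8 : ∑ u ∈ J.powerset, avg (lf U (r + 1)) J u * (1 - avg (lf U (r + 1)) J u) ≤
      ε₀ / 2 * 2 ^ J.card := by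
    rw [sum_avg_Junta]
    refine mul_le_mul_of_nonneg_right ?_ (by positivity)
    linarith
  have h9 : ∀ u ∈ J.powerset, pd U (r + 1) J u * (1 - pd U (r + 1) J u) ≤
      avg (lf U (r + 1)) J u * (1 - avg (lf U (r + 1)) J u) + ε₀ / 4 := by
    intro u hu
    have hu' := mem_powerset.1 hu
    have hNr : Nf J.card ≤ r := by
      have h1 : Nf J.card ≤ (range (j0 + 1)).sup Nf :=
        le_sup (f := Nf) (mem_range.2 (by omega))
      omega
    have h10 := abs_le.1 (hNf J.card r n hNr hn U hU hoU J rfl u hu')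
    have h11 := avg_mem_Junta (lf U (r + 1)) hf J u hu'
    generalize avg (lf U (r + 1)) J u = x at h10 h11 ⊢
    generalize pd U (r + 1) J u = y at h10 ⊢
    have h12 : y * (1 - y) - x * (1 - x) = (x - y) * (x + y - 1) := by ring
    have h13 : |(x - y) * (x + y - 1)| ≤ e * 2 := by
      rw [abs_mul]
      refine mul_le_mul (abs_le.2 h10) ?_ (abs_nonneg _) he0.le
      rw [abs_le]
      constructor <;> linarith [h10.1, h10.2, h11.1, h11.2]
    have h14 := (abs_le.1 h13).2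
    linarith
  refine (sum_le_sum h9).trans ?_
  rw [sum_add_distrib, sum_const, card_powerset, nsmul_eq_mul]
  push_cast
  have h15 : (0 : ℝ) < 2 ^ J.card := by positivity
  nlinarith [h8]

end Pool.Agent.OFK
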