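import Pool.Agent.OFK.Defs

/-! # OFK, package Kap: the down-closure of an antichain level by level (0.8 h)

`KK F m` is the disjoint union of the members of size `m` of `F` and of the shadow of `KK F (m+1)`
(antichain), and local LYM (`Finset.local_lubell_yamamoto_meshalkin_inequality_div` in Mathlib)
gives `0 ≤ om F m`. Everything is a telescoping sum of
`kap F m = pl F m + om F m + kap F (m+1)`, with `kap F 0 = 1` and `kap F (n+1) = 0`. -/

set_option autoImplicit false

namespace Pool.Agent.OFK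

open Finset

variable {n : ℕ}

private theorem mem_KK_Kap {F : Finset (Finset (Fin n))} {m : ℕ} {T : Finset (Fin n)} :
    T ∈ KK F m ↔ T.card = m ∧ ∃ A ∈ F, T ⊆ A := by
  unfold KK
  rw [mem_filter, mem_powersetCard]
  exact ⟨fun h => ⟨h.1.2, h.2⟩, fun h => ⟨⟨subset_univ _, h.1⟩, h.2⟩⟩

private theorem KK_sub_Kap (F : Finset (Finset (Fin n))) (m : ℕ) :
    KK F m ⊆ powersetCard m (univ : Finset (Fin n)) := filter_subset _ _

/-- the same for an arbitrary family of `(r+1)`-sets -/
theorem oU_nonneg (U : Finset (Finset (Fin n))) (r : ℕ)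
    (hU : U ⊆ powersetCard (r + 1) (univ : Finset (Fin n))) : 0 ≤ oU U r := by
  have h1 : (U : Set (Finset (Fin n))).Sized (r + 1) := fun A hA =>
    (mem_powersetCard.1 (hU hA)).2
  have h2 := local_lubell_yamamoto_meshalkin_inequality_div (𝕜 := ℝ) (Nat.succ_ne_zero r) h1
  rw [Fintype.card_fin] at h2
  unfold oU
  exact sub_nonneg.2 h2

/-- local LYM for the shadow. (For `m + 1 > n` both terms are `0`.) -/
theorem om_nonneg (F : Finset (Finset (Fin n))) (m : ℕ) : 0 ≤ om F m :=
  oU_nonneg (KK F (m + 1)) m (KK_sub_Kap F (m + 1))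

/-- set form of `kap_step` -/
theorem KK_eq (F : Finset (Finset (Fin n))) (m : ℕ) :
    KK F m = F.filter (fun A => A.card = m) ∪ (KK F (m + 1)).shadow := by
  ext T
  rw [mem_KK_Kap, mem_union, mem_filter, mem_shadow_iff_insert_mem]
  constructor
  · rintro ⟨hc, A, hA, hT⟩
    by_cases h : T = A
    · exact Or.inl ⟨h ▸ hA, hc⟩
    · obtain ⟨x, hx, hxT⟩ := exists_of_ssubset (hT.ssubset_of_ne h)
      refine Or.inr ⟨x, hxT, mem_KK_Kap.2 ⟨?_, A, hA, insert_subset hx hT⟩⟩
      rw [card_insert_of_notMem hxT, hc]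
  · rintro (⟨hA, hc⟩ | ⟨x, hx, h⟩)
    · exact ⟨hc, T, hA, Subset.rfl⟩
    · obtain ⟨h1, A, hA, h2⟩ := mem_KK_Kap.1 h
      rw [card_insert_of_notMem hx] at h1
      exact ⟨by omega, A, hA, (subset_insert x T).trans h2⟩

theorem KK_disj (F : Finset (Finset (Fin n)))
    (hF : IsAntichain (· ⊆ ·) (F : Set (Finset (Fin n)))) (m : ℕ) :
    Disjoint (F.filter (fun A => A.card = m)) (KK F (m + 1)).shadow := by
  rw [disjoint_left]
  intro T hT hT'
  obtain ⟨x, hx, h⟩ := mem_shadow_iff_insert_mem.1 hT'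
  obtain ⟨-, A, hA, h2⟩ := mem_KK_Kap.1 h
  have h3 : T = A := hF.eq (mem_filter.1 hT).1 hA ((subset_insert x T).trans h2)
  exact hx (h3 ▸ h2 (mem_insert_self x T))

/-- `KK F m = F_m ∪ shadow (KK F (m+1))`, disjoint. -/
theorem kap_step (F : Finset (Finset (Fin n))) (hF : IsAntichain (· ⊆ ·) (F : Set (Finset (Fin n))))
    (m : ℕ) : kap F m = pl F m + om F m + kap F (m + 1) := by
  have h : (KK F m).card = (F.filter (fun A => A.card = m)).card + (KK F (m + 1)).shadow.card := by
    rw [KK_eq F m, card_union_of_disjoint (KK_disj F hF m)]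
  unfold om pl
  rw [kap, h, Nat.cast_add, add_div]
  ring

theorem kap_zero (F : Finset (Finset (Fin n))) (hF : F.Nonempty) : kap F 0 = 1 := by
  obtain ⟨A, hA⟩ := hF
  have h : KK F 0 = {∅} := by
    ext T
    rw [mem_KK_Kap, mem_singleton, card_eq_zero]
    exact ⟨fun h => h.1, fun h => ⟨h, A, hA, h ▸ empty_subset A⟩⟩
  rw [kap, h, card_singleton, Nat.choose_zero_right]
  norm_num

theorem kap_nonneg (F : Finset (Finset (Fin n))) (m : ℕ) : 0 ≤ kap F m := by
  unfold kap
  positivity

theorem kap_le_one (F : Finset (Finset (Fin n))) (m : ℕ) : kap F m ≤ 1 := by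
  unfold kap
  refine div_le_one_of_le₀ (Nat.cast_le.2 ?_) (Nat.cast_nonneg _)
  refine (card_le_card (KK_sub_Kap F m)).trans ?_
  rw [card_powersetCard, card_univ, Fintype.card_fin]

private theorem kap_big_Kap (F : Finset (Finset (Fin n))) {m : ℕ} (hm : n < m) : kap F m = 0 := by
  have h : KK F m = ∅ := by
    rw [eq_empty_iff_forall_notMem]
    intro T hT
    have h1 := (mem_KK_Kap.1 hT).1
    have h2 := card_le_univ T
    rw [Fintype.card_fin] at h2
    omega
  rw [kap, h, card_empty, Nat.cast_zero, zero_div]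

private theorem kap_sum_Kap (F : Finset (Finset (Fin n)))
    (hF : IsAntichain (· ⊆ ·) (F : Set (Finset (Fin n)))) (k : ℕ) :
    ∀ m, m + k = n + 1 → kap F m = ∑ j ∈ Ico m (n + 1), pl F j + ∑ j ∈ Ico m (n + 1), om F j := by
  induction k with
  | zero =>
    intro m hm
    have : m = n + 1 := hm
    subst this
    rw [kap_big_Kap F (Nat.lt_succ_self n), Ico_self, sum_empty, sum_empty, add_zero]
  | succ k ih =>
    intro m hm
    have h1 : m < n + 1 := by omega
    rw [kap_step F hF m, ih (m + 1) (by omega), sum_eq_sum_Ico_succ_bot h1,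
      sum_eq_sum_Ico_succ_bot h1]
    ring

private theorem filter_Kap (m : ℕ) :
    (range (n + 1)).filter (fun j => m ≤ j) = Ico m (n + 1) := by
  ext j
  rw [mem_filter, mem_range, mem_Ico]
  exact and_comm

private theorem up_eq_Kap (F : Finset (Finset (Fin n))) (m : ℕ) :
    up F m = ∑ j ∈ Ico m (n + 1), pl F j := by
  unfold up
  rw [filter_Kap]

private theorem miss_eq_Kap (F : Finset (Finset (Fin n)))
    (hF : IsAntichain (· ⊆ ·) (F : Set (Finset (Fin n)))) (hne : F.Nonempty) :
    miss F = ∑ j ∈ Ico 0 (n + 1), om F j := by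
  have h := kap_sum_Kap F hF (n + 1) 0 (Nat.zero_add _)
  rw [kap_zero F hne] at h
  unfold miss
  rw [range_eq_Ico, h]
  ring

theorem om_le_miss (F : Finset (Finset (Fin n)))
    (hF : IsAntichain (· ⊆ ·) (F : Set (Finset (Fin n)))) (hne : F.Nonempty) (m : ℕ) :
    om F m ≤ miss F := by
  rw [miss_eq_Kap F hF hne]
  by_cases hm : m < n + 1
  · exact single_le_sum (f := fun j => om F j) (fun j _ => om_nonneg F j)
      (mem_Ico.2 ⟨Nat.zero_le m, hm⟩)
  · have h1 : n.choose m = 0 := Nat.choose_eq_zero_of_lt (by omega)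
    have h2 : om F m = 0 := by
      unfold om
      rw [h1, kap_big_Kap F (by omega), Nat.cast_zero, div_zero, sub_zero]
    rw [h2]
    exact sum_nonneg fun j _ => om_nonneg F j

theorem miss_nonneg (F : Finset (Finset (Fin n)))
    (hF : IsAntichain (· ⊆ ·) (F : Set (Finset (Fin n)))) : 0 ≤ miss F := by
  rcases F.eq_empty_or_nonempty with h | h
  · subst h
    unfold miss pl
    simp
  · rw [miss_eq_Kap F hF h]
    exact sum_nonneg fun j _ => om_nonneg F j

theorem up_le_kap (F : Finset (Finset (Fin n)))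
    (hF : IsAntichain (· ⊆ ·) (F : Set (Finset (Fin n)))) (m : ℕ) : up F m ≤ kap F m := by
  rw [up_eq_Kap]
  by_cases hm : m ≤ n + 1
  · rw [kap_sum_Kap F hF (n + 1 - m) m (by omega)]
    exact le_add_of_nonneg_right (sum_nonneg fun j _ => om_nonneg F j)
  · rw [Ico_eq_empty (by omega), sum_empty]
    exact kap_nonneg F m

theorem kap_le_up (F : Finset (Finset (Fin n)))
    (hF : IsAntichain (· ⊆ ·) (F : Set (Finset (Fin n)))) (hne : F.Nonempty) (m : ℕ) :
    kap F m ≤ up F m + miss F := by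
  rw [up_eq_Kap]
  by_cases hm : m ≤ n + 1
  · rw [kap_sum_Kap F hF (n + 1 - m) m (by omega), miss_eq_Kap F hF hne]
    refine add_le_add_right ?_ _
    exact sum_le_sum_of_subset_of_nonneg (Ico_subset_Ico_left (Nat.zero_le m))
      fun j _ _ => om_nonneg F j
  · rw [Ico_eq_empty (by omega), sum_empty, zero_add, kap_big_Kap F (by omega)]
    exact miss_nonneg F hF

end Pool.Agent.OFK
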