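import Pool.Agent.OFK.Defs

/-! # OFK, package LiftUp: influence of the lift, levels above (1 h)

`U` a family of `(r+1)`-sets, `r + 1 ≤ ℓ ≤ n - 1`, `x` an `ℓ`-set without `i`. Split the
`(r+1)`-subsets of `x + i` by whether they contain `i`:
`lf(x+i) = (1 - (r+1)/(ℓ+1)) lf(x) + ((r+1)/(ℓ+1)) g(x)`, `g(x)` = the average of `1_U(T+i)` over the
`r`-subsets `T` of `x` (`C(ℓ,r+1)/C(ℓ+1,r+1) = (ℓ-r)/(ℓ+1)`, `C(ℓ,r)/C(ℓ+1,r+1) = (r+1)/(ℓ+1)`), and
`lf(x)` = the average of `1_U(T+z)` over the pairs (`T ⊆ x`, `|T| = r`, `z ∈ x \ T`). So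
`|lf(x+i) - lf(x)| ≤ |g(x) - lf(x)| ≤ (1/(C(ℓ,r)(ℓ-r))) ∑_{T ⊆ x, z ∈ x \ T} |1_U(T+i) - 1_U(T+z)|`.
Sum over `x`: every pair `(T, z)`, `z ∉ T + i`, lies in `C(n-2-r, ℓ-r-1)` sets `x`, and
`C(n-1,r)(n-1-r) C(n-2-r,ℓ-r-1) = C(n-1,ℓ) C(ℓ,r) (ℓ-r)` (both sides count the triples `(x,T,z)`). -/

set_option autoImplicit false

namespace Pool.Agent.OFK

open Finset

variable {n : ℕ}

private theorem card_sum_LiftUp (U : Finset (Finset (Fin n))) (r : ℕ)
    (hU : U ⊆ powersetCard (r + 1) (univ : Finset (Fin n))) (x : Finset (Fin n)) :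
    ((U.filter (fun y => y ⊆ x)).card : ℝ) =
      ∑ S ∈ powersetCard (r + 1) x, (if S ∈ U then (1 : ℝ) else 0) := by
  rw [Finset.sum_boole]
  congr 2
  ext S
  simp only [mem_filter, mem_powersetCard]
  constructor
  · rintro ⟨h1, h2⟩
    exact ⟨⟨h2, (mem_powersetCard.1 (hU h1)).2⟩, h1⟩
  · rintro ⟨⟨h1, _⟩, h3⟩
    exact ⟨h3, h1⟩

private theorem sum_insert_LiftUp (r : ℕ) (i : Fin n) (x : Finset (Fin n)) (hi : i ∉ x)
    (g : Finset (Fin n) → ℝ) :
    ∑ S ∈ powersetCard (r + 1) (insert i x), g S =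
      ∑ S ∈ powersetCard (r + 1) x, g S + ∑ T ∈ powersetCard r x, g (insert i T) := by
  rw [powersetCard_succ_insert hi, sum_union, sum_image]
  · intro S hS T hT hST
    have h1 : i ∉ S := fun h => hi ((mem_powersetCard.1 hS).1 h)
    have h2 : i ∉ T := fun h => hi ((mem_powersetCard.1 hT).1 h)
    have h3 : (insert i S).erase i = (insert i T).erase i := by
      rw [hST]
    rwa [erase_insert h1, erase_insert h2] at h3
  · rw [disjoint_left]
    intro S hS hS'
    obtain ⟨T, _, rfl⟩ := mem_image.1 hS'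
    exact hi ((mem_powersetCard.1 hS).1 (mem_insert_self i T))

private theorem sum_pairs_LiftUp (r : ℕ) (x : Finset (Fin n)) (g : Finset (Fin n) → ℝ) :
    ∑ T ∈ powersetCard r x, ∑ z ∈ x \ T, g (insert z T) =
      ((r : ℝ) + 1) * ∑ S ∈ powersetCard (r + 1) x, g S := by
  have h1 : ((r : ℝ) + 1) * ∑ S ∈ powersetCard (r + 1) x, g S =
      ∑ S ∈ powersetCard (r + 1) x, ∑ _z ∈ S, g S := by
    rw [mul_sum]
    apply sum_congr rfl
    intro S hS
    rw [sum_const, (mem_powersetCard.1 hS).2, nsmul_eq_mul]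
    push_cast
    ring
  rw [h1, sum_sigma', sum_sigma']
  refine sum_bij' (fun p _ => ⟨insert p.2 p.1, p.2⟩) (fun p _ => ⟨p.1.erase p.2, p.2⟩)
    ?_ ?_ ?_ ?_ ?_
  · rintro ⟨T, z⟩ h
    simp only [mem_sigma, mem_powersetCard, mem_sdiff] at h ⊢
    refine ⟨⟨insert_subset h.2.1 h.1.1, ?_⟩, mem_insert_self _ _⟩
    rw [card_insert_of_notMem h.2.2, h.1.2]
  · rintro ⟨S, z⟩ h
    simp only [mem_sigma, mem_powersetCard, mem_sdiff] at h ⊢
    refine ⟨⟨(erase_subset _ _).trans h.1.1, ?_⟩, h.1.1 h.2, notMem_erase _ _⟩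
    rw [card_erase_of_mem h.2, h.1.2]
    rfl
  · rintro ⟨T, z⟩ h
    simp only [mem_sigma, mem_powersetCard, mem_sdiff] at h
    simp only
    rw [erase_insert h.2.2]
  · rintro ⟨S, z⟩ h
    simp only [mem_sigma, mem_powersetCard] at h
    simp only
    rw [insert_erase h.2]
  · rintro ⟨T, z⟩ _
    rfl

private theorem count_LiftUp (A B : Finset (Fin n)) (hB : B ⊆ A) (m : ℕ) :
    ((powersetCard (B.card + m) A).filter (fun x => B ⊆ x)).card =
      (A.card - B.card).choose m := by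
  rw [← card_sdiff_of_subset hB, ← card_powersetCard]
  refine card_bij' (fun x _ => x \ B) (fun w _ => w ∪ B) ?_ ?_ ?_ ?_
  · intro x hx
    simp only [mem_filter, mem_powersetCard] at hx ⊢
    refine ⟨sdiff_subset_sdiff hx.1.1 subset_rfl, ?_⟩
    rw [card_sdiff_of_subset hx.2, hx.1.2]
    omega
  · intro w hw
    simp only [mem_filter, mem_powersetCard] at hw ⊢
    refine ⟨⟨union_subset (hw.1.trans sdiff_subset) hB, ?_⟩, subset_union_right⟩
    rw [card_union_of_disjoint, hw.2, add_comm]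
    exact disjoint_of_subset_left hw.1 sdiff_disjoint
  · intro x hx
    simp only [mem_filter, mem_powersetCard] at hx
    exact sdiff_union_of_subset hx.2
  · intro w hw
    simp only [mem_powersetCard] at hw
    rw [union_sdiff_right]
    exact sdiff_eq_self_of_disjoint (disjoint_of_subset_left hw.1 sdiff_disjoint)

private theorem swap_LiftUp (r m : ℕ) (A : Finset (Fin n))
    (φ : Finset (Fin n) → Fin n → ℝ) :
    ∑ x ∈ powersetCard (r + 1 + m) A, ∑ T ∈ powersetCard r x, ∑ z ∈ x \ T, φ T z =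
      ((A.card - (r + 1)).choose m : ℝ) *
        ∑ T ∈ powersetCard r A, ∑ z ∈ A \ T, φ T z := by
  rw [sum_comm' (s' := fun T => (powersetCard (r + 1 + m) A).filter (fun x => T ⊆ x))
    (t' := powersetCard r A)]
  swap
  · intro x T
    simp only [mem_filter, mem_powersetCard]
    constructor
    · rintro ⟨⟨h1, h2⟩, h3, h4⟩
      exact ⟨⟨⟨h1, h2⟩, h3⟩, h3.trans h1, h4⟩
    · rintro ⟨⟨⟨h1, h2⟩, h3⟩, _, h4⟩
      exact ⟨⟨h1, h2⟩, h3, h4⟩
  rw [mul_sum]
  apply sum_congr rfl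
  intro T hT
  rw [mem_powersetCard] at hT
  rw [sum_comm' (s' := fun z => (powersetCard (r + 1 + m) A).filter (fun x => insert z T ⊆ x))
    (t' := A \ T)]
  swap
  · intro x z
    simp only [mem_filter, mem_powersetCard, mem_sdiff, insert_subset_iff]
    constructor
    · rintro ⟨⟨⟨h1, h2⟩, h3⟩, h4, h5⟩
      exact ⟨⟨⟨h1, h2⟩, h4, h3⟩, h1 h4, h5⟩
    · rintro ⟨⟨⟨h1, h2⟩, h4, h3⟩, _, h5⟩
      exact ⟨⟨⟨h1, h2⟩, h3⟩, h4, h5⟩
  rw [mul_sum]
  apply sum_congr rfl
  intro z hz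
  rw [mem_sdiff] at hz
  have h1 : (insert z T).card = r + 1 := by
    rw [card_insert_of_notMem hz.2, hT.2]
  have h2 := count_LiftUp A (insert z T) (insert_subset hz.1 hT.1) m
  rw [h1] at h2
  rw [sum_const, nsmul_eq_mul, h2]

theorem lift_up (U : Finset (Finset (Fin n))) (r : ℕ)
    (hU : U ⊆ powersetCard (r + 1) (univ : Finset (Fin n))) (i : Fin n) (l : ℕ) (hl : r + 1 ≤ l)
    (hln : l + 1 ≤ n) :
    ∑ x ∈ powersetCard l ((univ : Finset (Fin n)).erase i),
        |lf U (r + 1) (insert i x) - lf U (r + 1) x| ≤ ((n - 1).choose l : ℝ) * infl U r i := by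
  obtain ⟨m, rfl⟩ := Nat.exists_eq_add_of_le hl
  have hcA : ((univ : Finset (Fin n)).erase i).card = n - 1 := by
    rw [card_erase_of_mem (mem_univ i), card_univ, Fintype.card_fin]
  -- the constants
  have hc0 : (0 : ℝ) < ((r + 1 + m).choose r : ℝ) * ((m : ℝ) + 1) := by
    have : 0 < (r + 1 + m).choose r := Nat.choose_pos (by omega)
    positivity
  -- pointwise bound
  have hpt : ∀ x ∈ powersetCard (r + 1 + m) ((univ : Finset (Fin n)).erase i),
      |lf U (r + 1) (insert i x) - lf U (r + 1) x| ≤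
        (∑ T ∈ powersetCard r x, ∑ z ∈ x \ T,
          |(if insert i T ∈ U then (1 : ℝ) else 0) - (if insert z T ∈ U then (1 : ℝ) else 0)|) /
          (((r + 1 + m).choose r : ℝ) * ((m : ℝ) + 1)) := by
    intro x hx
    rw [mem_powersetCard] at hx
    have hix : i ∉ x := fun h => notMem_erase i _ (hx.1 h)
    have hci : (insert i x).card = r + 1 + m + 1 := by
      rw [card_insert_of_notMem hix, hx.2]
    have e1 : lf U (r + 1) x = (∑ S ∈ powersetCard (r + 1) x, (if S ∈ U then (1 : ℝ) else 0)) /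
        ((r + 1 + m).choose (r + 1) : ℝ) := by
      rw [lf, if_pos (by omega), card_sum_LiftUp U r hU, hx.2]
    have e2 : lf U (r + 1) (insert i x) =
        (∑ S ∈ powersetCard (r + 1) x, (if S ∈ U then (1 : ℝ) else 0) +
          ∑ T ∈ powersetCard r x, (if insert i T ∈ U then (1 : ℝ) else 0)) /
        ((r + 1 + m + 1).choose (r + 1) : ℝ) := by
      rw [lf, if_pos (by omega), card_sum_LiftUp U r hU, hci,
        sum_insert_LiftUp r i x hix (fun S => if S ∈ U then (1 : ℝ) else 0)]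
    have e3 := sum_pairs_LiftUp r x (fun S => if S ∈ U then (1 : ℝ) else 0)
    have e4 : ∑ T ∈ powersetCard r x, ∑ _z ∈ x \ T, (if insert i T ∈ U then (1 : ℝ) else 0) =
        ((m : ℝ) + 1) * ∑ T ∈ powersetCard r x, (if insert i T ∈ U then (1 : ℝ) else 0) := by
      rw [mul_sum]
      apply sum_congr rfl
      intro T hT
      rw [mem_powersetCard] at hT
      rw [sum_const, card_sdiff_of_subset hT.1, hx.2, hT.2, nsmul_eq_mul]
      congr 1
      have : r + 1 + m - r = m + 1 := by omega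
      rw [this]
      push_cast
      ring
    set a := ∑ S ∈ powersetCard (r + 1) x, (if S ∈ U then (1 : ℝ) else 0) with ha
    set b := ∑ T ∈ powersetCard r x, (if insert i T ∈ U then (1 : ℝ) else 0) with hb
    have e5 : |((m : ℝ) + 1) * b - ((r : ℝ) + 1) * a| ≤ ∑ T ∈ powersetCard r x, ∑ z ∈ x \ T,
          |(if insert i T ∈ U then (1 : ℝ) else 0) - (if insert z T ∈ U then (1 : ℝ) else 0)| := by
      rw [← e4, ← e3, ← sum_sub_distrib]
      refine (abs_sum_le_sum_abs _ _).trans (sum_le_sum fun T _ => ?_)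
      rw [← sum_sub_distrib]
      exact abs_sum_le_sum_abs _ _
    have k1 : ((r + 1 + m + 1).choose (r + 1) : ℝ) * ((r : ℝ) + 1) =
        ((r : ℝ) + 1 + m + 1) * ((r + 1 + m).choose r : ℝ) := by
      have := Nat.add_one_mul_choose_eq (r + 1 + m) r
      have h2 := congrArg (fun t : ℕ => (t : ℝ)) this
      push_cast at h2
      linarith
    have k2 : ((r + 1 + m).choose (r + 1) : ℝ) * ((r : ℝ) + 1) =
        ((r + 1 + m).choose r : ℝ) * ((m : ℝ) + 1) := by
      have := Nat.choose_succ_right_eq (r + 1 + m) r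
      have h3 : r + 1 + m - r = m + 1 := by omega
      rw [h3] at this
      have h2 := congrArg (fun t : ℕ => (t : ℝ)) this
      push_cast at h2
      linarith
    have hCp : (0 : ℝ) < ((r + 1 + m).choose r : ℝ) := by
      exact_mod_cast Nat.choose_pos (by omega)
    have hC1 : (0 : ℝ) < ((r + 1 + m).choose (r + 1) : ℝ) := by
      exact_mod_cast Nat.choose_pos (by omega)
    have hC2 : (0 : ℝ) < ((r + 1 + m + 1).choose (r + 1) : ℝ) := by
      exact_mod_cast Nat.choose_pos (by omega)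
    set c := ((r + 1 + m).choose r : ℝ) with hc
    set c1 := ((r + 1 + m).choose (r + 1) : ℝ) with hc1
    set c2 := ((r + 1 + m + 1).choose (r + 1) : ℝ) with hc2
    have hr1 : (0 : ℝ) < (r : ℝ) + 1 := by positivity
    have hm1 : (0 : ℝ) < (m : ℝ) + 1 := by positivity
    have hrm : (0 : ℝ) < (r : ℝ) + 1 + m + 1 := by positivity
    have f1 : c1 = c * ((m : ℝ) + 1) / ((r : ℝ) + 1) := by
      rw [eq_div_iff hr1.ne']
      exact k2
    have f2 : c2 = ((r : ℝ) + 1 + m + 1) * c / ((r : ℝ) + 1) := by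
      rw [eq_div_iff hr1.ne']
      exact k1
    have e6 : lf U (r + 1) (insert i x) - lf U (r + 1) x =
        (((r : ℝ) + 1) / ((r : ℝ) + 1 + m + 1)) *
          ((((m : ℝ) + 1) * b - ((r : ℝ) + 1) * a) / (c * ((m : ℝ) + 1))) := by
      rw [e1, e2, f1, f2]
      field_simp
      ring
    rw [e6, abs_mul, abs_div, abs_of_pos hr1, abs_of_pos hrm, abs_div, abs_of_pos hc0]
    have h7 : ((r : ℝ) + 1) / ((r : ℝ) + 1 + m + 1) ≤ 1 := by
      rw [div_le_one hrm]
      linarith
    calc ((r : ℝ) + 1) / ((r : ℝ) + 1 + m + 1) *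
          (|((m : ℝ) + 1) * b - ((r : ℝ) + 1) * a| / (c * ((m : ℝ) + 1)))
        ≤ 1 * (|((m : ℝ) + 1) * b - ((r : ℝ) + 1) * a| / (c * ((m : ℝ) + 1))) := by
          apply mul_le_mul_of_nonneg_right h7
          positivity
      _ ≤ _ := by
          rw [one_mul]
          exact div_le_div_of_nonneg_right e5 hc0.le
  refine (sum_le_sum hpt).trans (le_of_eq ?_)
  rw [← sum_div, swap_LiftUp, hcA, infl]
  have hAT : ∀ T ∈ powersetCard r ((univ : Finset (Fin n)).erase i),
      ((univ : Finset (Fin n)).erase i) \ T = univ \ insert i T := by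
    intro T _
    ext z
    simp only [mem_sdiff, mem_erase, mem_univ, mem_insert, and_true, true_and, not_or]
  rw [sum_congr rfl fun T hT => by rw [hAT T hT]]
  set S := ∑ T ∈ powersetCard r ((univ : Finset (Fin n)).erase i), ∑ z ∈ univ \ insert i T,
    |(if insert i T ∈ U then (1 : ℝ) else 0) - (if insert z T ∈ U then (1 : ℝ) else 0)| with hS
  have hn1 : (0 : ℝ) < (n : ℝ) - 1 - r := by
    have : ((r + 1 + m + 1 : ℕ) : ℝ) ≤ n := by exact_mod_cast hln
    push_cast at this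
    have h2 : (0 : ℝ) ≤ m := Nat.cast_nonneg m
    linarith
  have hCn : (0 : ℝ) < ((n - 1).choose r : ℝ) := by
    exact_mod_cast Nat.choose_pos (by omega)
  have key : ((n - 1 - (r + 1)).choose m : ℝ) * (((n - 1).choose r : ℝ) * ((n : ℝ) - 1 - r)) =
      ((n - 1).choose (r + 1 + m) : ℝ) * (((r + 1 + m).choose r : ℝ) * ((m : ℝ) + 1)) := by
    obtain ⟨q, rfl⟩ : ∃ q, n = r + 1 + m + 1 + q := Nat.exists_eq_add_of_le hln
    have h1 : r + 1 + m + 1 + q - 1 = r + 1 + m + q := by omega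
    have h2 : r + 1 + m + q - (r + 1) = m + q := by omega
    rw [h1, h2]
    have h3 := Nat.choose_mul (n := r + 1 + m + q) (k := r + 1 + m) (s := r) (by omega)
    have h4 : r + 1 + m + q - r = m + q + 1 := by omega
    have h5 : r + 1 + m - r = m + 1 := by omega
    rw [h4, h5] at h3
    have h6 := Nat.add_one_mul_choose_eq (m + q) m
    have h3' := congrArg (fun t : ℕ => (t : ℝ)) h3
    have h6' := congrArg (fun t : ℕ => (t : ℝ)) h6
    push_cast at h3' h6' ⊢
    have h7 : (r : ℝ) + 1 + m + 1 + q - 1 - r = m + q + 1 := by ring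
    rw [h7]
    calc ((m + q).choose m : ℝ) * (((r + 1 + m + q).choose r : ℝ) * ((m : ℝ) + q + 1))
        = ((r + 1 + m + q).choose r : ℝ) * (((m : ℝ) + q + 1) * ((m + q).choose m : ℝ)) := by
          ring
      _ = ((r + 1 + m + q).choose r : ℝ) * (((m + q + 1).choose (m + 1) : ℝ) * ((m : ℝ) + 1)) := by
          rw [h6']
      _ = _ := by
          rw [← mul_assoc, ← h3']
          ring
  rw [div_eq_iff hc0.ne']
  rw [mul_div_assoc', div_mul_eq_mul_div, eq_div_iff (mul_pos hCn hn1).ne']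
  linear_combination S * key

end Pool.Agent.OFK
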