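import Mathlib

/-! # OFK: normalisation of an antichain of bounded diameter

Every member with a covering partner is replaced by its complement. -/

set_option autoImplicit false

namespace Pool.Agent.OFK

open Finset

variable {n : ℕ}

/-- a member with a covering partner has no disjoint partner -/
private theorem no_both_Norm {s k : ℕ} (hn : n = 2 * s + 1 + k) (hk : 1 ≤ k)
    (F : Finset (Finset (Fin n))) (hF : IsAntichain (· ⊆ ·) (F : Set (Finset (Fin n))))
    (hd : ∀ A ∈ F, ∀ B ∈ F, (symmDiff A B).card ≤ 2 * s + 1)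
    {A B C : Finset (Fin n)} (hA : A ∈ F) (hB : B ∈ F) (hC : C ∈ F) (hAB : A ∪ B = univ)
    (hAC : Disjoint A C) : False := by
  have h1 : C ⊆ B := by
    intro x hx
    have h2 : x ∈ A ∪ B := by rw [hAB]; exact mem_univ x
    rcases mem_union.1 h2 with h3 | h3
    · exact absurd hx (disjoint_left.1 hAC h3)
    · exact h3
  have h2 : C = B := by
    by_contra hne
    exact hF hC hB hne h1
  subst h2
  have h3 : symmDiff A C = univ := by
    ext x
    simp only [mem_symmDiff, mem_univ, iff_true]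
    have h4 : x ∈ A ∪ C := by rw [hAB]; exact mem_univ x
    rcases mem_union.1 h4 with h5 | h5
    · exact Or.inl ⟨h5, disjoint_left.1 hAC h5⟩
    · exact Or.inr ⟨h5, disjoint_right.1 hAC h5⟩
  have h4 := hd A hA C hC
  rw [h3, card_univ, Fintype.card_fin] at h4
  omega

theorem norm_exists {s k : ℕ} (hn : n = 2 * s + 1 + k) (hk : 1 ≤ k)
    (F : Finset (Finset (Fin n))) (hF : IsAntichain (· ⊆ ·) (F : Set (Finset (Fin n))))
    (hd : ∀ A ∈ F, ∀ B ∈ F, (symmDiff A B).card ≤ 2 * s + 1) :
    ∃ G : Finset (Finset (Fin n)), G.card = F.card ∧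
      IsAntichain (· ⊆ ·) (G : Set (Finset (Fin n))) ∧
      (∀ A ∈ G, ∀ B ∈ G, A ∪ B ≠ univ) ∧
      (∀ A ∈ G, ∀ B ∈ G, Disjoint A B → A.card + B.card ≤ 2 * s + 1) := by
  classical
  set P : Finset (Fin n) → Prop := fun A => ∃ B ∈ F, A ∪ B = univ with hP
  set f : Finset (Fin n) → Finset (Fin n) := fun A => if P A then Aᶜ else A with hf
  have key : ∀ {A B : Finset (Fin n)}, A ∈ F → B ∈ F → P A → Disjoint A B → False := by
    intro A B hA hB hPA hAB
    obtain ⟨C, hC, hAC⟩ := hPA
    exact no_both_Norm hn hk F hF hd hA hC hB hAC hAB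
  have eq_of_sub : ∀ {A B : Finset (Fin n)}, A ∈ F → B ∈ F → A ⊆ B → A = B := by
    intro A B hA hB h
    by_contra hne
    exact hF hA hB hne h
  have cov : ∀ {A B : Finset (Fin n)}, Aᶜ ⊆ B → A ∪ B = univ := by
    intro A B h
    ext x
    simp only [mem_union, mem_univ, iff_true]
    by_cases hx : x ∈ A
    · exact Or.inl hx
    · exact Or.inr (h (mem_compl.2 hx))
  have fpos : ∀ {A : Finset (Fin n)}, P A → f A = Aᶜ := fun {A} h => if_pos h
  have fneg : ∀ {A : Finset (Fin n)}, ¬ P A → f A = A := fun {A} h => if_neg h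
  have anti : ∀ {A B : Finset (Fin n)}, A ∈ F → B ∈ F → f A ⊆ f B → A = B := by
    intro A B hA hB h
    by_cases hPA : P A <;> by_cases hPB : P B
    · rw [fpos hPA, fpos hPB] at h
      exact (eq_of_sub hB hA (compl_subset_compl.1 h)).symm
    · rw [fpos hPA, fneg hPB] at h
      exact absurd ⟨A, hA, by rw [union_comm]; exact cov h⟩ hPB
    · rw [fneg hPA, fpos hPB] at h
      exact (key hB hA hPB (disjoint_left.2 fun x hx hx2 => mem_compl.1 (h hx2) hx)).elim
    · rw [fneg hPA, fneg hPB] at h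
      exact eq_of_sub hA hB h
  refine ⟨F.image f, ?_, ?_, ?_, ?_⟩
  · refine card_image_of_injOn ?_
    intro A hA B hB hAB
    exact anti hA hB (subset_of_eq hAB)
  · intro X hX Y hY hXY hsub
    rw [mem_coe, mem_image] at hX hY
    obtain ⟨A, hA, rfl⟩ := hX
    obtain ⟨B, hB, rfl⟩ := hY
    exact hXY (by rw [anti hA hB hsub])
  · intro X hX Y hY hXY
    rw [mem_image] at hX hY
    obtain ⟨A, hA, rfl⟩ := hX
    obtain ⟨B, hB, rfl⟩ := hY
    by_cases hPA : P A <;> by_cases hPB : P B
    · rw [fpos hPA, fpos hPB] at hXY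
      refine key hA hB hPA (disjoint_left.2 fun x hx hx2 => ?_)
      have h1 : x ∈ Aᶜ ∪ Bᶜ := by rw [hXY]; exact mem_univ x
      rcases mem_union.1 h1 with h2 | h2
      · exact mem_compl.1 h2 hx
      · exact mem_compl.1 h2 hx2
    · rw [fpos hPA, fneg hPB] at hXY
      have h1 : A ⊆ B := by
        intro x hx
        have h2 : x ∈ Aᶜ ∪ B := by rw [hXY]; exact mem_univ x
        rcases mem_union.1 h2 with h3 | h3
        · exact absurd hx (mem_compl.1 h3)
        · exact h3
      exact hPB (eq_of_sub hA hB h1 ▸ hPA)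
    · rw [fneg hPA, fpos hPB] at hXY
      have h1 : B ⊆ A := by
        intro x hx
        have h2 : x ∈ A ∪ Bᶜ := by rw [hXY]; exact mem_univ x
        rcases mem_union.1 h2 with h3 | h3
        · exact h3
        · exact absurd hx (mem_compl.1 h3)
      exact hPA (eq_of_sub hB hA h1 ▸ hPB)
    · rw [fneg hPA, fneg hPB] at hXY
      exact hPA ⟨B, hB, hXY⟩
  · intro X hX Y hY hXY
    rw [mem_image] at hX hY
    obtain ⟨A, hA, rfl⟩ := hX
    obtain ⟨B, hB, rfl⟩ := hY
    have hcard : ∀ {S T : Finset (Fin n)}, Disjoint S T → S.card + T.card = (symmDiff S T).card := by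
      intro S T hST
      rw [hST.symmDiff_eq_sup, sup_eq_union, card_union_of_disjoint hST]
    by_cases hPA : P A <;> by_cases hPB : P B
    · rw [fpos hPA, fpos hPB] at hXY ⊢
      rw [hcard hXY, compl_symmDiff_compl]
      exact hd A hA B hB
    · rw [fpos hPA, fneg hPB] at hXY
      have h1 : B ⊆ A := by
        intro x hx
        by_contra hxA
        exact disjoint_left.1 hXY (mem_compl.2 hxA) hx
      exact absurd (eq_of_sub hB hA h1 ▸ hPA) hPB
    · rw [fneg hPA, fpos hPB] at hXY
      have h1 : A ⊆ B := by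
        intro x hx
        by_contra hxB
        exact disjoint_left.1 hXY hx (mem_compl.2 hxB)
      exact absurd (eq_of_sub hA hB h1 ▸ hPB) hPA
    · rw [fneg hPA, fneg hPB] at hXY ⊢
      rw [hcard hXY]
      exact hd A hA B hB

end Pool.Agent.OFK
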