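import Pool.Agent.OFK.Final
import Pool.Agent.OFK.CaseOne
import Pool.Agent.OFK.Norm

/-! # MP_f155e9_co, `n + k` odd, `k` fixed, `n` large -/

set_option autoImplicit false

namespace Pool.Agent.OFK

open Finset

/-- For every `k` there is `N` such that for all `n ≥ N` with `n + k` odd every antichain of subsets
of an `n`-set of diameter at most `n - k` has at most `C(n, ⌈(n+k)/2⌉)` members. -/
theorem odd_fixed (k : ℕ) : ∃ N : ℕ, ∀ n : ℕ, N ≤ n → Odd (n + k) →
    ∀ F : Finset (Finset (Fin n)), IsAntichain (· ⊆ ·) (F : Set (Finset (Fin n))) →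
    (∀ A ∈ F, ∀ B ∈ F, (symmDiff A B).card ≤ n - k) → F.card ≤ n.choose ((n + k + 1) / 2) := by
  refine odd_fixed_of ?_ ?_ k
  · intro k
    refine ⟨24 * k ^ 2 + 16 * k + 4, fun s n hs hn F hF hd h => ?_⟩
    exact case_one hn (by omega) F hF hd h
  · intro s k n hn hk F hF hd
    exact norm_exists hn hk F hF hd

end Pool.Agent.OFK
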