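import Pool.Agent.OFK.PatA

/-! # OFK, package PatB: the boundary of `U`, split along the pattern (1.2 h)

`U ⊆ ` `(m+1)`-sets, `N = n - |J|`. Count pairs `(T, y)` with `T ∈ shadow U`, `y ∉ T`, `T + y ∉ U`:
their number is exactly `oU U m * C(n,m) * (n-m)`, because `|shadow U| (n-m) - |U| (m+1)` counts them
(every pair (`A ∈ U`, `y ∈ A`) gives `T = A - y` in the shadow) and `C(n,m)(n-m) = C(n,m+1)(m+1)`.

* `pat_excess`: those with `T ∩ J = u` and `y ∉ J` number
  `|tr (shadow U) J u| (N-m+|u|) - |tr U J u| (m+1-|u|)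
   = (pd (shadow U) m J u - pd U (m+1) J u) C(N,m-|u|) (N-(m-|u|))`.
* `pat_bdry`: those with `y = x ∈ J`, `T ∩ J = u ∌ x`, number at least
  `|tr (shadow U) J u| - |tr U J (u+x)| ≥ C(N,m-|u|) (pd U (m+1) J u - pd U (m+1) J (u+x))`
  by `pd_shadow` (note `m + 1 - |u+x| = m - |u|`). -/

set_option autoImplicit false

namespace Pool.Agent.OFK

open Finset

variable {n : ℕ}

/-- the pairs `(T, y)`, `T` in the shadow, `T + y` not in `U` -/
private def PP_PatB (U : Finset (Finset (Fin n))) : Finset (Finset (Fin n) × Fin n) :=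
  (U.shadow ×ˢ (univ : Finset (Fin n))).filter (fun p => p.2 ∉ p.1 ∧ insert p.2 p.1 ∉ U)

private theorem mem_tr_PatB {U : Finset (Finset (Fin n))} {J u A : Finset (Fin n)} :
    A ∈ tr U J u ↔ A ∈ U ∧ A ∩ J = u := by
  rw [tr, mem_filter]

/-- the general count -/
private theorem cnt_PatB (U : Finset (Finset (Fin n))) (q : Finset (Fin n) × Fin n → Prop)
    [DecidablePred q] :
    ((PP_PatB U).filter q).card +
      ((U ×ˢ (univ : Finset (Fin n))).filter (fun p => p.2 ∈ p.1 ∧ q (p.1.erase p.2, p.2))).card =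
    ((U.shadow ×ˢ (univ : Finset (Fin n))).filter (fun p => p.2 ∉ p.1 ∧ q p)).card := by
  have h1 : ((U ×ˢ (univ : Finset (Fin n))).filter
      (fun p => p.2 ∈ p.1 ∧ q (p.1.erase p.2, p.2))).card =
      ((U.shadow ×ˢ (univ : Finset (Fin n))).filter
        (fun p => (p.2 ∉ p.1 ∧ q p) ∧ insert p.2 p.1 ∈ U)).card := by
    refine Finset.card_bij (fun p _ => (p.1.erase p.2, p.2)) ?_ ?_ ?_
    · rintro ⟨A, y⟩ h
      simp only [mem_filter, mem_product, mem_univ, and_true] at h ⊢
      refine ⟨mem_shadow_iff.2 ⟨A, h.1, y, h.2.1, rfl⟩, ⟨notMem_erase y A, h.2.2⟩, ?_⟩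
      rw [insert_erase h.2.1]
      exact h.1
    · rintro ⟨A, y⟩ h ⟨B, z⟩ h' he
      simp only [mem_filter, mem_product, mem_univ, and_true] at h h'
      simp only [Prod.mk.injEq] at he
      obtain ⟨h2, rfl⟩ := he
      rw [← insert_erase h.2.1, ← insert_erase h'.2.1, h2]
    · rintro ⟨T, y⟩ h
      simp only [mem_filter, mem_product, mem_univ, and_true] at h
      refine ⟨(insert y T, y), ?_, ?_⟩
      · simp only [mem_filter, mem_product, mem_univ, and_true]
        refine ⟨h.2.2, mem_insert_self y T, ?_⟩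
        rw [erase_insert h.2.1.1]
        exact h.2.1.2
      · simp only [erase_insert h.2.1.1]
  rw [h1, PP_PatB, filter_filter]
  have h2 : ((U.shadow ×ˢ (univ : Finset (Fin n))).filter
      (fun p => (p.2 ∉ p.1 ∧ insert p.2 p.1 ∉ U) ∧ q p)) =
      (((U.shadow ×ˢ (univ : Finset (Fin n))).filter
        (fun p => p.2 ∉ p.1 ∧ q p)).filter
          (fun p : Finset (Fin n) × Fin n => ¬ insert p.2 p.1 ∈ U)) := by
    rw [filter_filter]
    refine filter_congr fun p _ => ?_
    tauto
  have h3 : ((U.shadow ×ˢ (univ : Finset (Fin n))).filter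
      (fun p => (p.2 ∉ p.1 ∧ q p) ∧ insert p.2 p.1 ∈ U)) =
      (((U.shadow ×ˢ (univ : Finset (Fin n))).filter
        (fun p => p.2 ∉ p.1 ∧ q p)).filter
          (fun p : Finset (Fin n) × Fin n => insert p.2 p.1 ∈ U)) := by
    rw [filter_filter]
  rw [h2, h3, add_comm, Finset.card_filter_add_card_filter_not]

/-- number of pairs of a product with a condition, fibre over the first coordinate -/
private theorem fib_PatB (U V : Finset (Finset (Fin n))) (q : Finset (Fin n) × Fin n → Prop)
    [DecidablePred q] (c : ℕ) (hV : V ⊆ U) (h0 : ∀ A ∈ U, A ∉ V → ∀ y, ¬ q (A, y))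
    (h1 : ∀ A ∈ V, ((univ : Finset (Fin n)).filter (fun y => q (A, y))).card = c) :
    ((U ×ˢ (univ : Finset (Fin n))).filter q).card = V.card * c := by
  have h2 : ((U ×ˢ (univ : Finset (Fin n))).filter q).card =
      ∑ A ∈ V, (((U ×ˢ (univ : Finset (Fin n))).filter q).filter (fun p => p.1 = A)).card := by
    refine Finset.card_eq_sum_card_fiberwise (f := fun p : Finset (Fin n) × Fin n => p.1) (t := V) fun p hp => ?_
    rw [mem_coe, mem_filter, mem_product] at hp
    by_contra hn
    exact h0 p.1 hp.1.1 hn p.2 hp.2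
  rw [h2, ← smul_eq_mul, ← Finset.sum_const]
  refine Finset.sum_congr rfl fun A hA => ?_
  rw [← h1 A hA]
  refine Finset.card_bij (fun p _ => p.2) ?_ ?_ ?_
  · rintro ⟨B, y⟩ h
    simp only [mem_filter, mem_product, mem_univ, and_true, true_and] at h ⊢
    obtain ⟨⟨_, h3⟩, rfl⟩ := h
    exact h3
  · rintro ⟨B, y⟩ h ⟨C, z⟩ h' he
    simp only [mem_filter, mem_product, mem_univ, and_true] at h h' he
    rw [h.2, h'.2, he]
  · intro y hy
    simp only [mem_filter, mem_univ, true_and] at hy
    refine ⟨(A, y), ?_, rfl⟩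
    simp only [mem_filter, mem_product, mem_univ, and_true]
    exact ⟨hV hA, hy⟩

private theorem card_PP_PatB (U : Finset (Finset (Fin n))) (m : ℕ)
    (hU : U ⊆ powersetCard (m + 1) (univ : Finset (Fin n))) (hm : m < n) :
    ((PP_PatB U).card : ℝ) = oU U m * ((n.choose m : ℝ) * ((n : ℝ) - m)) := by
  have hsh : ∀ T ∈ U.shadow, T.card = m := by
    intro T hT
    obtain ⟨A, hA, y, hy, rfl⟩ := mem_shadow_iff.1 hT
    rw [card_erase_of_mem hy, (mem_powersetCard.1 (hU hA)).2]
    rfl
  have h1 := cnt_PatB U (fun _ => True)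
  have h2 : ((U ×ˢ (univ : Finset (Fin n))).filter (fun p => p.2 ∈ p.1 ∧ True)).card =
      U.card * (m + 1) := by
    refine fib_PatB U U _ (m + 1) (subset_refl _) (fun A hA hn => absurd hA hn) fun A hA => ?_
    rw [← (mem_powersetCard.1 (hU hA)).2]
    congr 1
    ext y
    simp
  have h3 : ((U.shadow ×ˢ (univ : Finset (Fin n))).filter (fun p => p.2 ∉ p.1 ∧ True)).card =
      U.shadow.card * (n - m) := by
    refine fib_PatB _ _ _ (n - m) (subset_refl _) (fun A hA hn => absurd hA hn) fun A hA => ?_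
    have h4 : (univ.filter (fun y => y ∉ A ∧ True)) = univ \ A := by
      ext y
      simp
    rw [h4, card_univ_sdiff, Fintype.card_fin, hsh A hA]
  rw [h2, h3, filter_true_of_mem (fun _ _ => trivial)] at h1
  have h5 : ((PP_PatB U).card : ℝ) + (U.card : ℝ) * ((m : ℝ) + 1) =
      (U.shadow.card : ℝ) * ((n : ℝ) - m) := by
    have h6 : ((n - m : ℕ) : ℝ) = (n : ℝ) - m := by
      rw [Nat.cast_sub hm.le]
    rw [← h6]
    exact_mod_cast h1
  have h7 : ((n.choose (m + 1) : ℕ) : ℝ) * ((m : ℝ) + 1) = (n.choose m : ℝ) * ((n : ℝ) - m) := by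
    have h8 := Nat.choose_succ_right_eq n m
    have h6 : ((n - m : ℕ) : ℝ) = (n : ℝ) - m := by
      rw [Nat.cast_sub hm.le]
    rw [← h6]
    exact_mod_cast h8
  have hc0 : (n.choose m : ℝ) ≠ 0 := by
    exact_mod_cast (Nat.choose_pos hm.le).ne'
  have hc1 : ((n.choose (m + 1) : ℕ) : ℝ) ≠ 0 := by
    exact_mod_cast (Nat.choose_pos (Nat.succ_le_of_lt hm)).ne'
  unfold oU
  rw [sub_mul]
  have h9 : (U.shadow.card : ℝ) / (n.choose m : ℝ) * ((n.choose m : ℝ) * ((n : ℝ) - m)) =
      (U.shadow.card : ℝ) * ((n : ℝ) - m) := by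
    field_simp
  have h10 : (U.card : ℝ) / (n.choose (m + 1) : ℝ) * ((n.choose m : ℝ) * ((n : ℝ) - m)) =
      (U.card : ℝ) * ((m : ℝ) + 1) := by
    rw [← h7]
    field_simp
  rw [h9, h10]
  linarith

theorem pat_excess (U : Finset (Finset (Fin n))) (m : ℕ) (J u : Finset (Fin n))
    (hU : U ⊆ powersetCard (m + 1) (univ : Finset (Fin n))) (hu : u ⊆ J) (hum : u.card ≤ m)
    (hm : m < n) (hN : m - u.card < n - J.card) :
    (pd U.shadow m J u - pd U (m + 1) J u) *
        (((n - J.card).choose (m - u.card) : ℝ) * ((n : ℝ) - J.card - (m - u.card))) ≤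
      oU U m * ((n.choose m : ℝ) * ((n : ℝ) - m)) := by
  have hsh : U.shadow ⊆ powersetCard m (univ : Finset (Fin n)) := by
    intro T hT
    obtain ⟨A, hA, y, hy, rfl⟩ := mem_shadow_iff.1 hT
    rw [mem_powersetCard]
    refine ⟨subset_univ _, ?_⟩
    rw [card_erase_of_mem hy, (mem_powersetCard.1 (hU hA)).2]
    rfl
  have hJn : J.card ≤ n := by
    have := card_le_univ J
    rwa [Fintype.card_fin] at this
  have h1 := cnt_PatB U (fun p => p.1 ∩ J = u ∧ p.2 ∉ J)
  have h2 : ((U ×ˢ (univ : Finset (Fin n))).filter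
      (fun p => p.2 ∈ p.1 ∧ ((p.1.erase p.2) ∩ J = u ∧ p.2 ∉ J))).card =
      (tr U J u).card * (m + 1 - u.card) := by
    refine fib_PatB U (tr U J u) _ _ (filter_subset _ _) ?_ ?_
    · rintro A hA hn y ⟨_, h4, h5⟩
      apply hn
      refine mem_tr_PatB.2 ⟨hA, ?_⟩
      rw [← h4, erase_inter]
      exact (erase_eq_of_notMem fun h => h5 (mem_inter.1 h).2).symm
    · intro A hA
      obtain ⟨hA1, hA2⟩ := mem_tr_PatB.1 hA
      have h4 : (univ.filter (fun y => y ∈ A ∧ ((A.erase y) ∩ J = u ∧ y ∉ J))) = A \ J := by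
        ext y
        simp only [mem_filter, mem_univ, true_and, mem_sdiff]
        constructor
        · rintro ⟨h4, _, h5⟩
          exact ⟨h4, h5⟩
        · rintro ⟨h4, h5⟩
          refine ⟨h4, ?_, h5⟩
          rw [erase_inter, hA2]
          exact erase_eq_of_notMem fun h => h5 (hu h)
      rw [h4]
      have h5 := Finset.card_sdiff_add_card_inter A J
      rw [hA2, (mem_powersetCard.1 (hU hA1)).2] at h5
      omega
  have h3 : ((U.shadow ×ˢ (univ : Finset (Fin n))).filter
      (fun p => p.2 ∉ p.1 ∧ (p.1 ∩ J = u ∧ p.2 ∉ J))).card =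
      (tr U.shadow J u).card * (n - J.card - (m - u.card)) := by
    refine fib_PatB U.shadow (tr U.shadow J u) _ _ (filter_subset _ _) ?_ ?_
    · rintro A hA hn y ⟨_, h4, _⟩
      exact hn (mem_tr_PatB.2 ⟨hA, h4⟩)
    · intro T hT
      obtain ⟨hT1, hT2⟩ := mem_tr_PatB.1 hT
      have h4 : (univ.filter (fun y => y ∉ T ∧ (T ∩ J = u ∧ y ∉ J))) = univ \ (T ∪ J) := by
        ext y
        simp only [mem_filter, mem_univ, true_and, mem_sdiff, mem_union, not_or]
        tauto
      rw [h4, card_univ_sdiff, Fintype.card_fin]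
      have h5 := Finset.card_union_add_card_inter T J
      rw [hT2, (mem_powersetCard.1 (hsh hT1)).2] at h5
      omega
  rw [h2, h3] at h1
  have h6 : (((PP_PatB U).filter (fun p => p.1 ∩ J = u ∧ p.2 ∉ J)).card : ℝ) ≤
      ((PP_PatB U).card : ℝ) := by
    exact_mod_cast card_le_card (filter_subset _ _)
  rw [card_PP_PatB U m hU hm] at h6
  refine le_trans (le_of_eq ?_) h6
  have h7 : (((PP_PatB U).filter (fun p => p.1 ∩ J = u ∧ p.2 ∉ J)).card : ℝ) +
      ((tr U J u).card : ℝ) * ((m + 1 - u.card : ℕ) : ℝ) =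
      ((tr U.shadow J u).card : ℝ) * ((n - J.card - (m - u.card) : ℕ) : ℝ) := by
    exact_mod_cast h1
  have c1 : ((m - u.card : ℕ) : ℝ) = (m : ℝ) - u.card := Nat.cast_sub hum
  have c2 : ((n - J.card - (m - u.card) : ℕ) : ℝ) = (n : ℝ) - J.card - (m - u.card) := by
    rw [Nat.cast_sub hN.le, Nat.cast_sub hJn, c1]
  have c3 : m + 1 - u.card = m - u.card + 1 := by omega
  have h8 : (((n - J.card).choose (m + 1 - u.card) : ℕ) : ℝ) * ((m + 1 - u.card : ℕ) : ℝ) =
      ((n - J.card).choose (m - u.card) : ℝ) * ((n : ℝ) - J.card - (m - u.card)) := by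
    rw [← c2, c3]
    exact_mod_cast Nat.choose_succ_right_eq (n - J.card) (m - u.card)
  have h9 := tr_card_eq U (m + 1) J u hU hu
  have h10 := tr_card_eq U.shadow m J u hsh hu
  rw [sub_mul, ← h8]
  rw [h9, h10] at h7
  have e1 : pd U.shadow m J u * ((((n - J.card).choose (m + 1 - u.card) : ℕ) : ℝ) *
      ((m + 1 - u.card : ℕ) : ℝ)) = ((n - J.card).choose (m - u.card) : ℝ) *
      pd U.shadow m J u * ((n - J.card - (m - u.card) : ℕ) : ℝ) := by
    rw [h8, c2]
    ring
  rw [e1]
  linarith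

theorem pat_bdry (U : Finset (Finset (Fin n))) (m : ℕ) (J : Finset (Fin n))
    (hU : U ⊆ powersetCard (m + 1) (univ : Finset (Fin n))) (hJ : J.card ≤ m) (hm : m < n) :
    ∑ x ∈ J, ∑ u ∈ (J.erase x).powerset, ((n - J.card).choose (m - u.card) : ℝ) *
        (pd U (m + 1) J u - pd U (m + 1) J (insert x u)) ≤
      oU U m * ((n.choose m : ℝ) * ((n : ℝ) - m)) := by
  have hsh : U.shadow ⊆ powersetCard m (univ : Finset (Fin n)) := by
    intro T hT
    obtain ⟨A, hA, y, hy, rfl⟩ := mem_shadow_iff.1 hT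
    rw [mem_powersetCard]
    refine ⟨subset_univ _, ?_⟩
    rw [card_erase_of_mem hy, (mem_powersetCard.1 (hU hA)).2]
    rfl
  rw [← card_PP_PatB U m hU hm]
  have hkey : ∀ x ∈ J, ∀ u ∈ (J.erase x).powerset, ((n - J.card).choose (m - u.card) : ℝ) *
        (pd U (m + 1) J u - pd U (m + 1) J (insert x u)) ≤
      ((((PP_PatB U).filter (fun p => p.2 = x)).filter (fun p => p.1 ∩ J = u)).card : ℝ) := by
    intro x hx u hu
    have hu1 := mem_powerset.1 hu
    have huJ : u ⊆ J := hu1.trans (erase_subset _ _)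
    have hxu : x ∉ u := fun h => (mem_erase.1 (hu1 h)).1 rfl
    have hum : u.card ≤ m := (card_le_card huJ).trans hJ
    have h1 := cnt_PatB U (fun p => p.2 = x ∧ p.1 ∩ J = u)
    have h2 : ((U ×ˢ (univ : Finset (Fin n))).filter
        (fun p => p.2 ∈ p.1 ∧ (p.2 = x ∧ (p.1.erase p.2) ∩ J = u))).card =
        (tr U J (insert x u)).card * 1 := by
      refine fib_PatB U (tr U J (insert x u)) _ _ (filter_subset _ _) ?_ ?_
      · rintro A hA hn y ⟨h3, h4, h5⟩
        apply hn
        have h3' : y ∈ A := h3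
        have h4' : y = x := h4
        have h5' : (A.erase y) ∩ J = u := h5
        subst h4'
        refine mem_tr_PatB.2 ⟨hA, ?_⟩
        rw [← h5', erase_inter]
        exact (insert_erase (mem_inter.2 ⟨h3', hx⟩)).symm
      · intro A hA
        obtain ⟨hA1, hA2⟩ := mem_tr_PatB.1 hA
        have h4 : (univ.filter (fun y => y ∈ A ∧ (y = x ∧ (A.erase y) ∩ J = u))) = {x} := by
          ext y
          simp only [mem_filter, mem_univ, true_and, mem_singleton]
          constructor
          · rintro ⟨_, h4, _⟩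
            exact h4
          · rintro rfl
            have h5 : y ∈ A ∩ J := by
              rw [hA2]
              exact mem_insert_self y u
            refine ⟨(mem_inter.1 h5).1, rfl, ?_⟩
            rw [erase_inter, hA2, erase_insert hxu]
        rw [h4, card_singleton]
    have h3 : ((U.shadow ×ˢ (univ : Finset (Fin n))).filter
        (fun p => p.2 ∉ p.1 ∧ (p.2 = x ∧ p.1 ∩ J = u))).card =
        (tr U.shadow J u).card * 1 := by
      refine fib_PatB U.shadow (tr U.shadow J u) _ _ (filter_subset _ _) ?_ ?_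
      · rintro A hA hn y ⟨_, _, h4⟩
        exact hn (mem_tr_PatB.2 ⟨hA, h4⟩)
      · intro T hT
        obtain ⟨hT1, hT2⟩ := mem_tr_PatB.1 hT
        have h4 : (univ.filter (fun y => y ∉ T ∧ (y = x ∧ T ∩ J = u))) = {x} := by
          ext y
          simp only [mem_filter, mem_univ, true_and, mem_singleton]
          constructor
          · rintro ⟨_, h4, _⟩
            exact h4
          · rintro rfl
            refine ⟨fun h => hxu ?_, rfl, hT2⟩
            rw [← hT2]
            exact mem_inter.2 ⟨h, hx⟩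
        rw [h4, card_singleton]
    rw [h2, h3, mul_one, mul_one] at h1
    rw [filter_filter]
    have h5 : (((PP_PatB U).filter (fun p => p.2 = x ∧ p.1 ∩ J = u)).card : ℝ) +
        ((tr U J (insert x u)).card : ℝ) = ((tr U.shadow J u).card : ℝ) := by
      exact_mod_cast h1
    have h6 := tr_card_eq U (m + 1) J (insert x u) hU (insert_subset hx huJ)
    have h7 := tr_card_eq U.shadow m J u hsh huJ
    rw [card_insert_of_notMem hxu, Nat.add_sub_add_right] at h6
    have h8 := pd_shadow U m J u hU huJ hum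
    have h9 : ((n - J.card).choose (m - u.card) : ℝ) * pd U (m + 1) J u ≤
        ((n - J.card).choose (m - u.card) : ℝ) * pd U.shadow m J u :=
      mul_le_mul_of_nonneg_left h8 (Nat.cast_nonneg _)
    rw [mul_sub]
    linarith
  refine (Finset.sum_le_sum fun x hx => Finset.sum_le_sum fun u hu => hkey x hx u hu).trans ?_
  have h1 : ∀ x ∈ J, ∑ u ∈ (J.erase x).powerset,
      ((((PP_PatB U).filter (fun p => p.2 = x)).filter (fun p => p.1 ∩ J = u)).card : ℝ) =
      ((((PP_PatB U).filter (fun p => p.2 ∈ J)).filter (fun p => p.2 = x)).card : ℝ) := by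
    intro x hx
    have h2 : ((PP_PatB U).filter (fun p => p.2 = x)).card = ∑ u ∈ (J.erase x).powerset,
        (((PP_PatB U).filter (fun p => p.2 = x)).filter (fun p => p.1 ∩ J = u)).card := by
      refine Finset.card_eq_sum_card_fiberwise (f := fun p : Finset (Fin n) × Fin n => p.1 ∩ J) fun p hp => ?_
      have hp1 := mem_filter.1 (mem_coe.1 hp)
      have hp2 : p.2 ∉ p.1 := by
        have h4 := hp1.1
        unfold PP_PatB at h4
        exact (mem_filter.1 h4).2.1
      rw [mem_coe, mem_powerset]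
      intro z hz
      rw [mem_erase]
      refine ⟨?_, (mem_inter.1 hz).2⟩
      intro h5
      apply hp2
      rw [hp1.2, ← h5]
      exact (mem_inter.1 hz).1
    have h3 : ((PP_PatB U).filter (fun p => p.2 ∈ J)).filter (fun p => p.2 = x) =
        (PP_PatB U).filter (fun p => p.2 = x) := by
      rw [filter_filter]
      refine filter_congr fun p _ => ?_
      constructor
      · exact fun h => h.2
      · intro h
        exact ⟨h ▸ hx, h⟩
    rw [h3, h2, Nat.cast_sum]
  rw [Finset.sum_congr rfl h1, ← Nat.cast_sum]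
  have h2 : ((PP_PatB U).filter (fun p => p.2 ∈ J)).card =
      ∑ x ∈ J, (((PP_PatB U).filter (fun p => p.2 ∈ J)).filter (fun p => p.2 = x)).card := by
    refine Finset.card_eq_sum_card_fiberwise (f := fun p : Finset (Fin n) × Fin n => p.2) fun p hp => ?_
    rw [mem_coe, mem_filter] at hp
    exact hp.2
  have h3 : ((PP_PatB U).filter (fun p => p.2 ∈ J)).card ≤ (PP_PatB U).card :=
    card_le_card (filter_subset _ _)
  rw [h2] at h3
  exact Nat.cast_le.2 h3

end Pool.Agent.OFK
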