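import Pool.Agent.OFK.PatA

/-! # OFK, package PatP: two disjoint patterns (1 h)

`n = 2 s + 1 + k`, `u, v ⊆ J` disjoint, `q = |J \ (u ∪ v)|`, `a, b ≥ 1`, `a + b + q = k + 1`,
`R = univ \ J`, `N = |R|`. LYM on the ground set `R` for the family
`{A \ J : A ∈ F, A ∩ J = u, s+1 ≤ |A| ≤ s+a} ∪ {R \ B : B ∈ F, B ∩ J = v, s+1 ≤ |B| ≤ s+b}`.
It is an antichain and the union is disjoint: `A \ J ⊆ R \ B` means that `A, B` are disjoint
(`u ∩ v = ∅`), impossible because `|A| + |B| ≥ 2 s + 2`; `R \ B ⊆ A \ J` is impossible because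
`|A \ J| ≤ s + a - |u| = N - (s + b - |v|) ≤ |R \ B|`, so the two would be equal, which is the first
case. Sizes: `|A \ J| = |A| - |u|`, `C(N, N - (|B| - |v|)) = C(N, |B| - |v|)`. -/

set_option autoImplicit false

namespace Pool.Agent.OFK

open Finset

variable {n : ℕ}

/-- the members with trace `u` and size between `s + 1` and `s + a` -/
private def G_PatP (F : Finset (Finset (Fin n))) (J u : Finset (Fin n)) (s a : ℕ) :
    Finset (Finset (Fin n)) :=
  F.filter (fun A => A ∩ J = u ∧ s + 1 ≤ A.card ∧ A.card ≤ s + a)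

private theorem mem_G_PatP {F : Finset (Finset (Fin n))} {J u A : Finset (Fin n)} {s a : ℕ} :
    A ∈ G_PatP F J u s a ↔ A ∈ F ∧ A ∩ J = u ∧ s + 1 ≤ A.card ∧ A.card ≤ s + a := by
  rw [G_PatP, mem_filter]

private theorem sum_pd_PatP (F : Finset (Finset (Fin n))) (J u : Finset (Fin n)) (s a : ℕ) :
    ∑ i ∈ Icc 1 a, pd (F.filter (fun A => A.card = s + i)) (s + i) J u =
      ∑ A ∈ G_PatP F J u s a, ((n - J.card).choose (A.card - u.card) : ℝ)⁻¹ := by
  have hmap : ∀ A ∈ G_PatP F J u s a, A.card - s ∈ Icc 1 a := by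
    intro A hA
    obtain ⟨-, -, h1, h2⟩ := mem_G_PatP.1 hA
    rw [mem_Icc]
    omega
  rw [← Finset.sum_fiberwise_of_maps_to hmap]
  refine Finset.sum_congr rfl fun i hi => ?_
  rw [mem_Icc] at hi
  have e : tr (F.filter (fun A => A.card = s + i)) J u =
      (G_PatP F J u s a).filter (fun A => A.card - s = i) := by
    ext A
    rw [tr, mem_filter, mem_filter, mem_filter, mem_G_PatP]
    constructor
    · rintro ⟨⟨h1, h2⟩, h3⟩
      exact ⟨⟨h1, h3, by omega, by omega⟩, by omega⟩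
    · rintro ⟨⟨h1, h3, h4, h5⟩, h6⟩
      exact ⟨⟨h1, by omega⟩, h3⟩
  unfold pd
  rw [e]
  have h : ∀ A ∈ (G_PatP F J u s a).filter (fun A => A.card - s = i),
      ((n - J.card).choose (A.card - u.card) : ℝ)⁻¹ =
        ((n - J.card).choose (s + i - u.card) : ℝ)⁻¹ := by
    intro A hA
    obtain ⟨h1, h2⟩ := mem_filter.1 hA
    obtain ⟨-, -, h3, -⟩ := mem_G_PatP.1 h1
    have h4 : A.card = s + i := by omega
    rw [h4]
  rw [Finset.sum_congr rfl h, Finset.sum_const, nsmul_eq_mul, div_eq_mul_inv]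

private theorem card_sub_PatP {A J u : Finset (Fin n)} (h : A ∩ J = u) :
    (A.subtype (fun x => x ∉ J)).card = A.card - u.card := by
  have h1 : (A.subtype (fun x => x ∉ J)).map (Function.Embedding.subtype _) = A \ J := by
    ext y
    simp only [mem_map, mem_subtype, Function.Embedding.coe_subtype, Subtype.exists,
      exists_and_left, exists_prop, exists_eq_right_right, mem_sdiff]
  rw [← card_map (Function.Embedding.subtype _), h1]
  have h2 := Finset.card_sdiff_add_card_inter A J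
  rw [h] at h2
  omega

private theorem sub_mono_PatP {A B J u : Finset (Fin n)} (hA : A ∩ J = u) (hB : B ∩ J = u)
    (h : A.subtype (fun x => x ∉ J) ⊆ B.subtype (fun x => x ∉ J)) : A ⊆ B := by
  intro x hx
  by_cases hxJ : x ∈ J
  · have h1 : x ∈ A ∩ J := mem_inter.2 ⟨hx, hxJ⟩
    rw [hA, ← hB] at h1
    exact (mem_inter.1 h1).1
  · have h1 : (⟨x, hxJ⟩ : {x : Fin n // x ∉ J}) ∈ A.subtype (fun x => x ∉ J) := by
      rw [mem_subtype]
      exact hx
    have h2 := h h1
    rw [mem_subtype] at h2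
    exact h2

theorem pat_pair (s k : ℕ) (hn : n = 2 * s + 1 + k) (F : Finset (Finset (Fin n)))
    (hF : IsAntichain (· ⊆ ·) (F : Set (Finset (Fin n))))
    (hd : ∀ A ∈ F, ∀ B ∈ F, Disjoint A B → A.card + B.card ≤ 2 * s + 1)
    (J u v : Finset (Fin n)) (hJ : J.card ≤ s) (hu : u ⊆ J) (hv : v ⊆ J) (huv : Disjoint u v)
    (a b : ℕ) (ha : 1 ≤ a) (hb : 1 ≤ b) (hab : a + b + (J \ (u ∪ v)).card = k + 1) :
    ∑ i ∈ Icc 1 a, pd (F.filter (fun A => A.card = s + i)) (s + i) J u +
      ∑ i ∈ Icc 1 b, pd (F.filter (fun A => A.card = s + i)) (s + i) J v ≤ 1 := by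
  classical
  rw [sum_pd_PatP, sum_pd_PatP]
  have hN : Fintype.card {x : Fin n // x ∉ J} = n - J.card := by
    rw [Fintype.card_subtype_compl, Fintype.card_fin, Fintype.card_coe]
  have hJc : J.card = u.card + v.card + (J \ (u ∪ v)).card := by
    have h1 := Finset.card_sdiff_add_card_eq_card (union_subset hu hv)
    rw [card_union_of_disjoint huv] at h1
    omega
  let φ : Finset (Fin n) → Finset {x : Fin n // x ∉ J} := fun A => A.subtype (fun x => x ∉ J)
  have hφc : ∀ A w, A ∩ J = w → (φ A).card = A.card - w.card := fun A w h => card_sub_PatP h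
  have hφm : ∀ A B w, A ∩ J = w → B ∩ J = w → φ A ⊆ φ B → A ⊆ B := fun A B w h1 h2 h3 =>
    sub_mono_PatP h1 h2 h3
  have hno : ∀ A ∈ G_PatP F J u s a, ∀ B ∈ G_PatP F J v s b, ¬ φ A ⊆ (φ B)ᶜ := by
    intro A hA B hB h
    obtain ⟨hA1, hA2, hA3, hA4⟩ := mem_G_PatP.1 hA
    obtain ⟨hB1, hB2, hB3, hB4⟩ := mem_G_PatP.1 hB
    have hdis : Disjoint A B := by
      rw [Finset.disjoint_left]
      intro x hxA hxB
      by_cases hxJ : x ∈ J
      · have h1 : x ∈ u := by
          rw [← hA2]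
          exact mem_inter.2 ⟨hxA, hxJ⟩
        have h2 : x ∈ v := by
          rw [← hB2]
          exact mem_inter.2 ⟨hxB, hxJ⟩
        exact Finset.disjoint_left.1 huv h1 h2
      · have h1 : (⟨x, hxJ⟩ : {x : Fin n // x ∉ J}) ∈ φ A := by
          show (⟨x, hxJ⟩ : {x : Fin n // x ∉ J}) ∈ A.subtype (fun x => x ∉ J)
          rw [mem_subtype]
          exact hxA
        have h2 := mem_compl.1 (h h1)
        apply h2
        show (⟨x, hxJ⟩ : {x : Fin n // x ∉ J}) ∈ B.subtype (fun x => x ∉ J)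
        rw [mem_subtype]
        exact hxB
    have := hd A hA1 B hB1 hdis
    omega
  have hno' : ∀ A ∈ G_PatP F J u s a, ∀ B ∈ G_PatP F J v s b, ¬ (φ B)ᶜ ⊆ φ A := by
    intro A hA B hB h
    have hle : (φ A).card ≤ ((φ B)ᶜ).card := by
      obtain ⟨hA1, hA2, hA3, hA4⟩ := mem_G_PatP.1 hA
      obtain ⟨hB1, hB2, hB3, hB4⟩ := mem_G_PatP.1 hB
      rw [card_compl, hN, hφc A u hA2, hφc B v hB2]
      have h1 : u.card ≤ A.card := by
        rw [← hA2]
        exact card_le_card inter_subset_left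
      have h2 : v.card ≤ B.card := by
        rw [← hB2]
        exact card_le_card inter_subset_left
      omega
    have heq : (φ B)ᶜ = φ A := Finset.eq_of_subset_of_card_le h hle
    exact hno A hA B hB (by rw [heq])
  have hanti : IsAntichain (· ⊆ ·)
      (((G_PatP F J u s a).image φ ∪ (G_PatP F J v s b).image (fun B => (φ B)ᶜ) :
        Finset (Finset {x : Fin n // x ∉ J})) : Set (Finset {x : Fin n // x ∉ J})) := by
    intro X hX Y hY hne hsub
    rw [mem_coe, mem_union, mem_image, mem_image] at hX hY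
    rcases hX with ⟨A, hA, rfl⟩ | ⟨B, hB, rfl⟩
    · rcases hY with ⟨A', hA', rfl⟩ | ⟨B', hB', rfl⟩
      · obtain ⟨hA1, hA2, -, -⟩ := mem_G_PatP.1 hA
        obtain ⟨hA1', hA2', -, -⟩ := mem_G_PatP.1 hA'
        have h1 := hφm A A' u hA2 hA2' hsub
        by_cases h2 : A = A'
        · exact hne (by rw [h2])
        · exact hF hA1 hA1' h2 h1
      · exact hno A hA B' hB' hsub
    · rcases hY with ⟨A', hA', rfl⟩ | ⟨B', hB', rfl⟩
      · exact hno' A' hA' B hB hsub
      · obtain ⟨hB1, hB2, -, -⟩ := mem_G_PatP.1 hB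
        obtain ⟨hB1', hB2', -, -⟩ := mem_G_PatP.1 hB'
        have h0 : φ B' ⊆ φ B := Finset.compl_subset_compl.1 hsub
        have h1 := hφm B' B v hB2' hB2 h0
        by_cases h2 : B' = B
        · exact hne (by rw [h2])
        · exact hF hB1' hB1 h2 h1
  have hlym := Finset.lubell_yamamoto_meshalkin_inequality_sum_inv_choose (𝕜 := ℝ) hanti
  have hdisj : Disjoint ((G_PatP F J u s a).image φ)
      ((G_PatP F J v s b).image (fun B => (φ B)ᶜ)) := by
    rw [Finset.disjoint_left]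
    intro X hX hX'
    obtain ⟨A, hA, rfl⟩ := mem_image.1 hX
    obtain ⟨B, hB, h1⟩ := mem_image.1 hX'
    exact hno A hA B hB (by rw [← h1])
  have hinj1 : Set.InjOn φ (G_PatP F J u s a) := by
    intro A hA A' hA' h
    have hA2 := (mem_G_PatP.1 (mem_coe.1 hA)).2.1
    have hA2' := (mem_G_PatP.1 (mem_coe.1 hA')).2.1
    exact subset_antisymm (hφm A A' u hA2 hA2' h.subset) (hφm A' A u hA2' hA2 h.symm.subset)
  have hinj2 : Set.InjOn (fun B => (φ B)ᶜ) (G_PatP F J v s b) := by
    intro A hA A' hA' h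
    have hA2 := (mem_G_PatP.1 (mem_coe.1 hA)).2.1
    have hA2' := (mem_G_PatP.1 (mem_coe.1 hA')).2.1
    have h' : φ A = φ A' := compl_injective h
    exact subset_antisymm (hφm A A' v hA2 hA2' h'.subset) (hφm A' A v hA2' hA2 h'.symm.subset)
  rw [Finset.sum_union hdisj, Finset.sum_image hinj1, Finset.sum_image hinj2, hN] at hlym
  refine le_trans (le_of_eq ?_) hlym
  congr 1
  · refine Finset.sum_congr rfl fun A hA => ?_
    rw [hφc A u (mem_G_PatP.1 hA).2.1]
  · refine Finset.sum_congr rfl fun B hB => ?_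
    have h1 : (φ B).card ≤ n - J.card := by
      rw [← hN]
      exact Finset.card_le_univ _
    rw [card_compl, hN, Nat.choose_symm h1, hφc B v (mem_G_PatP.1 hB).2.1]

end Pool.Agent.OFK
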