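import Mathlib

/-! # OFK, package Pattern: the inequality on the patterns (1.5 h)

Needs Berge's theorem `Pool.Agent.OFK.Berge` (helper86: every down-closed `D` has
`π : Equiv.Perm D` with `Disjoint u (π u)`); import it or use the copy `berge` below (sorry) until
it is there.

PROOF. `P(u) := max {p 1 v : u ⊆ v ⊆ J}` is decreasing, `p 1 u ≤ P u ≤ p 1 u + j σ` (add one point at a
time). `∑_u p 1 u (j - 2|u|) ≥ ∑_u P u (j - 2|u|) - j · j σ · 2^j`.
For `θ ∈ [0,1)` let `D_θ = {u ⊆ J : θ < P u}`, a down-set; Berge: a permutation `π` of `D_θ` with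
`u ∩ π u = ∅`, so `∑_{D_θ} (j - 2|u|) = ∑_{D_θ} (j - |u| - |π u|) = ∑_{D_θ} q(u, π u)`, where
`q(u,v) = |J \ (u ∪ v)| ≥ 0`. Layer cake: `∑_u P u c(u) = ∫_0^1 ∑_{u ∈ D_θ} c(u) dθ`.
Put `e(u) = ∑_{i=2}^{k+1} p i u ≤ k`, `good = {u : p 1 u ≥ 1 - η}`.
(*) `u, v` good and disjoint, `2η + σ ≤ 1/2` ==> `q(u,v) ≥ k - e(u) - e(v) - 4k(2η+σ)`:
trivial if `q ≥ k`; else `d = k - q ≥ 1`, use the hypothesis for `a = i`, `b = d + 1 - i`, `i = 1..d`
and sum: `d (p 1 u + p 1 v - 1 - σ) ≤ ∑_{i=1}^{d} (p (i+1) u + p (d+2-i) v) ≤ e(u) + e(v)`, so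
`d ≤ (e(u)+e(v))/(1-2η-σ) ≤ e(u)+e(v) + 2k · 2(2η+σ)`.
For `θ < 1 - η` all good `u` are in `D_θ`; at least `|good| - |D_θ \ good|` of them have `π u` good
(`π` is injective), so, if `4(2η+σ) ≤ 1`,
`∑_{D_θ} q(u,π u) ≥ k|good| - k|D_θ \ good| - 4k(2η+σ)2^j - 2∑_u e(u)`; for `θ ≥ 1 - η` it is `≥ 0`.
`∫_0^{1-η} |D_θ \ good| dθ ≤ ∑_{u not good} P u ≤ ∑_{not good} p 1 u + jσ2^j ≤ (1/η)∑ p 1 (1 - p 1) + jσ2^j`
and `|good| ≥ ∑_{good} p 1 u ≥ ∑_u p 1 u - (1/η) ∑ p 1 (1 - p 1)`. Total: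
`∑ p 1 u (j-2|u|) ≥ k∑p 1 - 2∑e - [kη + 4k(2η+σ) + 2kε₀/η + kjσ + j²σ] 2^j`.
Choose `η = min(1/32, ε/(50k+1))`-like, `ε₀ = η ε/(8(k+1))`-like, then `σ` (depends on `j`). -/

set_option autoImplicit false

namespace Pool.Agent.OFK

open Finset

private theorem berge_Pattern {α : Type} [DecidableEq α] (D : Finset (Finset α))
    (hD : ∀ u ∈ D, ∀ v, v ⊆ u → v ∈ D) :
    ∃ π : Equiv.Perm D, ∀ u : D, Disjoint (u : Finset α) (π u : Finset α) := by
  have hall := (Finset.all_card_le_biUnion_card_iff_exists_injective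
    (fun u : D => D.attach.filter fun v : D => Disjoint (u : Finset α) (v : Finset α))).1 ?_
  · obtain ⟨f, hf, h⟩ := hall
    refine ⟨Equiv.ofBijective f (Finite.injective_iff_bijective.1 hf), fun u => ?_⟩
    have h1 := h u
    rw [mem_filter] at h1
    exact h1.2
  · intro s
    have h1 : (s.image (Subtype.val : D → Finset α)).card = s.card :=
      card_image_of_injective _ Subtype.val_injective
    have h2 := (s.image (Subtype.val : D → Finset α)).card_le_card_diffs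
    have h3 : (s.image (Subtype.val : D → Finset α)).diffs
        (s.image (Subtype.val : D → Finset α)) ⊆
        (s.biUnion fun u : D => D.attach.filter fun v : D =>
          Disjoint (u : Finset α) (v : Finset α)).image (Subtype.val : D → Finset α) := by
      intro w hw
      obtain ⟨a, ha, b, hb, rfl⟩ := mem_diffs.1 hw
      obtain ⟨a', ha', rfl⟩ := mem_image.1 ha
      obtain ⟨b', hb', rfl⟩ := mem_image.1 hb
      refine mem_image.2 ⟨⟨(a' : Finset α) \ b', hD _ a'.2 _ sdiff_subset⟩,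
        mem_biUnion.2 ⟨b', hb', mem_filter.2 ⟨mem_attach _ _, ?_⟩⟩, rfl⟩
      exact disjoint_sdiff
    calc s.card = (s.image (Subtype.val : D → Finset α)).card := h1.symm
      _ ≤ _ := h2
      _ ≤ _ := card_le_card h3
      _ ≤ _ := card_image_le

private theorem int_Pattern {x : ℝ} (h0 : 0 ≤ x) (h1 : x ≤ 1) :
    ∫ θ in (0 : ℝ)..1, (if θ < x then (1 : ℝ) else 0) = x := by
  have h2 : (fun θ : ℝ => if θ < x then (1 : ℝ) else 0) =
      (Set.Iio x).indicator fun _ => (1 : ℝ) := by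
    funext θ
    simp [Set.indicator_apply]
  rw [h2, intervalIntegral.integral_of_le zero_le_one,
    MeasureTheory.setIntegral_indicator measurableSet_Iio, MeasureTheory.setIntegral_const]
  have h3 : Set.Ioc (0 : ℝ) 1 ∩ Set.Iio x = Set.Ioo 0 x := by
    ext θ
    simp only [Set.mem_inter_iff, Set.mem_Ioc, Set.mem_Iio, Set.mem_Ioo]
    constructor
    · rintro ⟨⟨a, _⟩, b⟩
      exact ⟨a, b⟩
    · rintro ⟨a, b⟩
      exact ⟨⟨a, by linarith⟩, b⟩
  rw [h3, Real.volume_real_Ioo_of_le h0]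
  simp

private theorem intg_Pattern (x : ℝ) :
    IntervalIntegrable (fun θ : ℝ => if θ < x then (1 : ℝ) else 0) MeasureTheory.volume 0 1 := by
  apply Antitone.intervalIntegrable
  intro a b hab
  dsimp only
  split_ifs with h1 h2
  · exact le_rfl
  · exact absurd (lt_of_le_of_lt hab h1) h2
  · exact zero_le_one
  · exact le_rfl

private theorem layer_Pattern {ι : Type} (s : Finset ι) (c P : ι → ℝ) (A b : ℝ)
    (hP0 : ∀ i ∈ s, 0 ≤ P i) (hP1 : ∀ i ∈ s, P i ≤ 1) (hb0 : 0 ≤ b) (hb1 : b ≤ 1)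
    (h : ∀ θ : ℝ, 0 ≤ θ → θ < 1 →
      A * (if θ < b then 1 else 0) ≤ ∑ i ∈ s, c i * (if θ < P i then 1 else 0)) :
    A * b ≤ ∑ i ∈ s, c i * P i := by
  have h1 : A * b = ∫ θ in (0 : ℝ)..1, A * (if θ < b then (1 : ℝ) else 0) := by
    rw [intervalIntegral.integral_const_mul, int_Pattern hb0 hb1]
  have h2 : ∑ i ∈ s, c i * P i =
      ∫ θ in (0 : ℝ)..1, ∑ i ∈ s, c i * (if θ < P i then (1 : ℝ) else 0) := by
    rw [intervalIntegral.integral_finsetSum fun i _ => (intg_Pattern (P i)).const_mul _]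
    refine sum_congr rfl fun i hi => ?_
    rw [intervalIntegral.integral_const_mul, int_Pattern (hP0 i hi) (hP1 i hi)]
  rw [h1, h2]
  refine intervalIntegral.integral_mono_on zero_le_one ((intg_Pattern b).const_mul _) ?_ ?_
  · have h3 := IntervalIntegrable.sum s (μ := MeasureTheory.volume) (a := (0 : ℝ)) (b := 1)
      (f := fun i θ => c i * (if θ < P i then (1 : ℝ) else 0))
      (fun i _ => (intg_Pattern (P i)).const_mul _)
    have h4 : (fun θ : ℝ => ∑ i ∈ s, c i * (if θ < P i then (1 : ℝ) else 0)) =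
        ∑ i ∈ s, fun θ : ℝ => c i * (if θ < P i then (1 : ℝ) else 0) := by
      funext θ
      rw [Finset.sum_apply]
    rw [h4]
    exact h3
  · intro θ hθ
    rcases lt_or_eq_of_le hθ.2 with h4 | h4
    · exact h θ hθ.1 h4
    · rw [if_neg (by rw [h4]; exact not_lt.2 hb1), mul_zero]
      refine le_of_eq (Eq.symm (sum_eq_zero fun i hi => ?_))
      rw [if_neg (by rw [h4]; exact not_lt.2 (hP1 i hi)), mul_zero]

private theorem star_Pattern {n k : ℕ} {J : Finset (Fin n)} {p : ℕ → Finset (Fin n) → ℝ}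
    {σ η : ℝ} (hσ : 0 ≤ σ) (hη : 0 ≤ η) (h0 : ∀ i u, 0 ≤ p i u)
    (hc : ∀ u ⊆ J, ∀ v ⊆ J, Disjoint u v → ∀ a b : ℕ, 1 ≤ a → 1 ≤ b →
      a + b + (J \ (u ∪ v)).card = k + 1 →
      (p 1 u - p (a + 1) u) + (p 1 v - p (b + 1) v) ≤ 1 + σ)
    {u v : Finset (Fin n)} (hu : u ⊆ J) (hv : v ⊆ J) (huv : Disjoint u v)
    (gu : 1 - η ≤ p 1 u) (gv : 1 - η ≤ p 1 v) :
    (k : ℝ) - ∑ i ∈ Icc 2 (k + 1), p i u - ∑ i ∈ Icc 2 (k + 1), p i v - k * (2 * η + σ) ≤
      ((J \ (u ∪ v)).card : ℝ) := by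
  have e0 : ∀ w, 0 ≤ ∑ i ∈ Icc 2 (k + 1), p i w := fun w => sum_nonneg fun i _ => h0 i w
  have hk : (0 : ℝ) ≤ k * (2 * η + σ) := by positivity
  by_cases hq : k ≤ (J \ (u ∪ v)).card
  · have : (k : ℝ) ≤ ((J \ (u ∪ v)).card : ℝ) := by exact_mod_cast hq
    linarith [e0 u, e0 v]
  · obtain ⟨d, hd⟩ : ∃ d, (J \ (u ∪ v)).card + d = k := ⟨k - (J \ (u ∪ v)).card, by omega⟩
    have hle : ∀ w, ∑ i ∈ range d, p (i + 2) w ≤ ∑ i ∈ Icc 2 (k + 1), p i w := by
      intro w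
      have h1 : ∑ i ∈ range d, p (i + 2) w = ∑ i ∈ (range d).image (fun i => i + 2), p i w := by
        rw [sum_image]
        intro a _ b _ hab
        exact Nat.add_right_cancel hab
      rw [h1]
      refine sum_le_sum_of_subset_of_nonneg ?_ fun i _ _ => h0 i w
      intro i hi
      obtain ⟨a, ha, rfl⟩ := mem_image.1 hi
      rw [mem_range] at ha
      rw [mem_Icc]
      omega
    have h1 : ∀ i ∈ range d, (p 1 u - p (i + 2) u) + (p 1 v - p (d - 1 - i + 2) v) ≤ 1 + σ := by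
      intro i hi
      rw [mem_range] at hi
      have h2 := hc u hu v hv huv (i + 1) (d - i) (by omega) (by omega) (by omega)
      have h3 : d - 1 - i + 2 = d - i + 1 := by omega
      rw [h3]
      exact h2
    have h2 := sum_le_sum h1
    rw [sum_add_distrib, sum_sub_distrib, sum_sub_distrib, sum_const, sum_const, sum_const,
      card_range, nsmul_eq_mul, nsmul_eq_mul, nsmul_eq_mul,
      sum_range_reflect (fun i => p (i + 2) v) d] at h2
    have h3 : (d : ℝ) ≤ k := by exact_mod_cast (by omega : d ≤ k)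
    have h4 : (((J \ (u ∪ v)).card : ℕ) : ℝ) + d = k := by exact_mod_cast hd
    have h5 : (d : ℝ) * (1 - η) ≤ d * p 1 u := mul_le_mul_of_nonneg_left gu (Nat.cast_nonneg d)
    have h6 : (d : ℝ) * (1 - η) ≤ d * p 1 v := mul_le_mul_of_nonneg_left gv (Nat.cast_nonneg d)
    have h7 : (d : ℝ) * (2 * η + σ) ≤ k * (2 * η + σ) :=
      mul_le_mul_of_nonneg_right h3 (by positivity)
    nlinarith [hle u, hle v, e0 u, e0 v]

private theorem qcard_Pattern {n : ℕ} {J u v : Finset (Fin n)} (hu : u ⊆ J) (hv : v ⊆ J)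
    (huv : Disjoint u v) :
    ((J \ (u ∪ v)).card : ℝ) = J.card - u.card - v.card := by
  have h1 : (J \ (u ∪ v)).card + (u.card + v.card) = J.card := by
    rw [← card_union_of_disjoint huv]
    exact card_sdiff_add_card_eq_card (union_subset hu hv)
  have h2 : (((J \ (u ∪ v)).card + (u.card + v.card) : ℕ) : ℝ) = (J.card : ℝ) := by
    exact_mod_cast h1
  push_cast at h2
  linarith

/-- the sum over a down-closed family -/
private theorem dsum_Pattern {n k : ℕ} {J : Finset (Fin n)} {p : ℕ → Finset (Fin n) → ℝ}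
    {σ η : ℝ} (hσ : 0 ≤ σ) (hη : 0 ≤ η) (h0 : ∀ i u, 0 ≤ p i u)
    (hc : ∀ u ⊆ J, ∀ v ⊆ J, Disjoint u v → ∀ a b : ℕ, 1 ≤ a → 1 ≤ b →
      a + b + (J \ (u ∪ v)).card = k + 1 →
      (p 1 u - p (a + 1) u) + (p 1 v - p (b + 1) v) ≤ 1 + σ)
    {D : Finset (Finset (Fin n))} (hD : ∀ u ∈ D, ∀ v, v ⊆ u → v ∈ D) (hJ : D ⊆ J.powerset)
    {b : Finset (Fin n) → ℝ} (hb : ∀ u, b u = if 1 - η ≤ p 1 u then 0 else 1) :
    0 ≤ ∑ u ∈ D, ((J.card : ℝ) - 2 * u.card) ∧
    ∑ u ∈ D, (k * (1 - b u) - 2 * ∑ i ∈ Icc 2 (k + 1), p i u - k * (2 * η + σ)) ≤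
      ∑ u ∈ D, ((J.card : ℝ) - 2 * u.card + k * b u) := by
  obtain ⟨π, hπ⟩ := berge_Pattern D hD
  have hsub : ∀ u : D, (u : Finset (Fin n)) ⊆ J := fun u => mem_powerset.1 (hJ u.2)
  have hs : ∀ f : Finset (Fin n) → ℝ, ∑ u ∈ D, f u = ∑ u : D, f u := fun f =>
    (sum_coe_sort D f).symm
  have hp : ∀ f : Finset (Fin n) → ℝ, ∑ u : D, f (π u) = ∑ u : D, f u := fun f =>
    Equiv.sum_comp π fun u : D => f u
  have h1 : ∑ u ∈ D, ((J.card : ℝ) - 2 * u.card) =
      ∑ u : D, ((J \ ((u : Finset (Fin n)) ∪ π u)).card : ℝ) := by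
    rw [hs]
    have h2 : ∀ u : D, ((J \ ((u : Finset (Fin n)) ∪ π u)).card : ℝ) =
        J.card - (u : Finset (Fin n)).card - (π u : Finset (Fin n)).card := fun u =>
      qcard_Pattern (hsub u) (hsub (π u)) (hπ u)
    simp only [h2, sum_sub_distrib]
    rw [hp fun u => (u.card : ℝ), ← mul_sum]
    ring
  have h2 : ∀ u : D, (k : ℝ) * (1 - b u - b (π u)) - ∑ i ∈ Icc 2 (k + 1), p i u -
      ∑ i ∈ Icc 2 (k + 1), p i (π u) - k * (2 * η + σ) ≤
      ((J \ ((u : Finset (Fin n)) ∪ π u)).card : ℝ) := by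
    intro u
    have e0 : ∀ w, 0 ≤ ∑ i ∈ Icc 2 (k + 1), p i w := fun w => sum_nonneg fun i _ => h0 i w
    have hk : (0 : ℝ) ≤ k * (2 * η + σ) := by positivity
    have hk' : (0 : ℝ) ≤ k := Nat.cast_nonneg k
    have hq : (0 : ℝ) ≤ ((J \ ((u : Finset (Fin n)) ∪ π u)).card : ℝ) := Nat.cast_nonneg _
    by_cases gu : 1 - η ≤ p 1 u
    · by_cases gv : 1 - η ≤ p 1 (π u)
      · rw [hb, hb, if_pos gu, if_pos gv]
        have h3 := star_Pattern hσ hη h0 hc (hsub u) (hsub (π u)) (hπ u) gu gv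
        linarith
      · rw [hb, hb, if_pos gu, if_neg gv]
        linarith [e0 u, e0 (π u)]
    · by_cases gv : 1 - η ≤ p 1 (π u)
      · rw [hb, hb, if_neg gu, if_pos gv]
        linarith [e0 u, e0 (π u)]
      · rw [hb, hb, if_neg gu, if_neg gv]
        linarith [e0 u, e0 (π u)]
  refine ⟨by rw [h1]; exact sum_nonneg fun u _ => Nat.cast_nonneg _, ?_⟩
  rw [sum_add_distrib, h1]
  have h3 := sum_le_sum fun (u : D) (_ : u ∈ univ) => h2 u
  have h4 : ∑ u : D, ((k : ℝ) * (1 - b u - b (π u)) - ∑ i ∈ Icc 2 (k + 1), p i u -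
      ∑ i ∈ Icc 2 (k + 1), p i (π u) - k * (2 * η + σ)) =
      ∑ u : D, ((k : ℝ) * (1 - b u) - 2 * ∑ i ∈ Icc 2 (k + 1), p i u - k * (2 * η + σ)) -
        ∑ u : D, (k : ℝ) * b u := by
    have h5 := hp fun u => (k : ℝ) * b u
    have h6 := hp fun u => ∑ i ∈ Icc 2 (k + 1), p i u
    rw [← sum_sub_distrib]
    have h7 : ∑ u : D, ((k : ℝ) * b (π u) + ∑ i ∈ Icc 2 (k + 1), p i (π u)) =
        ∑ u : D, ((k : ℝ) * b u + ∑ i ∈ Icc 2 (k + 1), p i u) := by
      rw [sum_add_distrib, sum_add_distrib, h5, h6]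
    have h8 : ∀ u : D, ((k : ℝ) * (1 - b u - b (π u)) - ∑ i ∈ Icc 2 (k + 1), p i u -
        ∑ i ∈ Icc 2 (k + 1), p i (π u) - k * (2 * η + σ)) =
        ((k : ℝ) * (1 - b u) - 2 * ∑ i ∈ Icc 2 (k + 1), p i u - k * (2 * η + σ) - k * b u) +
        ((k : ℝ) * b u + ∑ i ∈ Icc 2 (k + 1), p i u) -
        ((k : ℝ) * b (π u) + ∑ i ∈ Icc 2 (k + 1), p i (π u)) := by
      intro u
      ring
    simp only [h8]
    rw [sum_sub_distrib, sum_add_distrib, h7]
    ring
  rw [h4] at h3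
  rw [hs, hs]
  linarith

private theorem sup_Pattern {n : ℕ} {J : Finset (Fin n)} {f : Finset (Fin n) → ℝ} {σ : ℝ}
    (hσ : 0 ≤ σ) (h0 : ∀ u, 0 ≤ f u) (h1 : ∀ u ⊆ J, f u ≤ 1)
    (hs : ∀ u ⊆ J, ∀ x ∈ J, x ∉ u → f (insert x u) ≤ f u + σ) :
    ∃ P : Finset (Fin n) → ℝ, (∀ u, 0 ≤ P u) ∧ (∀ u ⊆ J, P u ≤ 1) ∧ (∀ u, f u ≤ P u) ∧
      (∀ u ⊆ J, P u ≤ f u + J.card * σ) ∧ ∀ u ⊆ J, ∀ v, v ⊆ u → P u ≤ P v := by
  have hne : J.powerset.Nonempty := ⟨∅, mem_powerset.2 (empty_subset _)⟩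
  have hf : ∀ u, f u ≤ J.powerset.sup' hne fun w => f (u ∪ w) := by
    intro u
    have h2 := le_sup' (fun w => f (u ∪ w)) (mem_powerset.2 (empty_subset J))
    simpa using h2
  refine ⟨fun u => J.powerset.sup' hne fun w => f (u ∪ w), fun u => (h0 u).trans (hf u),
    fun u hu => ?_, hf, fun u hu => ?_, fun u hu v hv => ?_⟩
  · refine sup'_le _ _ fun w hw => h1 _ (union_subset hu (mem_powerset.1 hw))
  · refine sup'_le _ _ fun w hw => ?_
    have hw' := mem_powerset.1 hw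
    have h2 : ∀ w : Finset (Fin n), w ⊆ J → f (u ∪ w) ≤ f u + w.card * σ := by
      intro w
      induction w using Finset.induction_on with
      | empty => intro _; simp
      | insert x w hx ih =>
        intro hxw
        have h3 := ih ((subset_insert x w).trans hxw)
        rw [union_insert, card_insert_of_notMem hx]
        by_cases h4 : x ∈ u ∪ w
        · rw [insert_eq_of_mem h4]
          push_cast
          linarith
        · have h5 := hs (u ∪ w) (union_subset hu ((subset_insert x w).trans hxw)) x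
            (hxw (mem_insert_self x w)) h4
          push_cast
          linarith
    have h3 : (w.card : ℝ) ≤ J.card := by exact_mod_cast card_le_card hw'
    have h4 := mul_le_mul_of_nonneg_right h3 hσ
    linarith [h2 w hw']
  · refine sup'_le _ _ fun w hw => ?_
    have h2 : u ∪ w = v ∪ (u ∪ w) := by
      rw [← union_assoc, union_eq_right.2 hv]
    rw [h2]
    exact le_sup' (fun w => f (v ∪ w)) (mem_powerset.2 (union_subset hu (mem_powerset.1 hw)))

theorem pattern (k : ℕ) (ε : ℝ) (hε : 0 < ε) :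
    ∃ ε₀ : ℝ, 0 < ε₀ ∧ ∀ j : ℕ, ∃ σ : ℝ, 0 < σ ∧ ∀ (n : ℕ) (J : Finset (Fin n)), J.card = j →
    ∀ p : ℕ → Finset (Fin n) → ℝ, (∀ i u, 0 ≤ p i u) → (∀ i, ∀ u ⊆ J, p i u ≤ 1) →
    (∀ u ⊆ J, ∀ x ∈ J, x ∉ u → p 1 (insert x u) ≤ p 1 u + σ) →
    (∀ u ⊆ J, ∀ v ⊆ J, Disjoint u v → ∀ a b : ℕ, 1 ≤ a → 1 ≤ b →
      a + b + (J \ (u ∪ v)).card = k + 1 →
      (p 1 u - p (a + 1) u) + (p 1 v - p (b + 1) v) ≤ 1 + σ) →
    ∑ u ∈ J.powerset, p 1 u * (1 - p 1 u) ≤ ε₀ * 2 ^ j →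
    k * ∑ u ∈ J.powerset, p 1 u - 2 * ∑ u ∈ J.powerset, ∑ i ∈ Icc 2 (k + 1), p i u - ε * 2 ^ j ≤
      ∑ u ∈ J.powerset, p 1 u * ((j : ℝ) - 2 * u.card) := by
  have hk0 : (0 : ℝ) ≤ k := Nat.cast_nonneg k
  obtain ⟨η, hη, hη1, hη2⟩ : ∃ η : ℝ, 0 < η ∧ η ≤ 1 ∧ 3 * k * η ≤ ε / 4 := by
    refine ⟨ε / (12 * (k + 1) * (1 + ε)), by positivity, ?_, ?_⟩
    · rw [div_le_one (by positivity)]
      nlinarith [mul_nonneg hk0 hε.le]
    · rw [mul_div_assoc', div_le_div_iff₀ (by positivity) (by norm_num)]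
      nlinarith [mul_nonneg hk0 hε.le, mul_nonneg (mul_nonneg hk0 hε.le) hε.le,
        mul_pos hε hε]
  refine ⟨η * ε / (8 * (k + 1)), by positivity, fun j => ?_⟩
  refine ⟨ε / (4 * (k + k * j + j ^ 2 + 1)), by positivity, ?_⟩
  intro n J hJ p h0 h1 hs hc hε0
  set σ : ℝ := ε / (4 * (k + k * j + j ^ 2 + 1)) with hσd
  have hσ : 0 < σ := by positivity
  have hσ2 : σ * (k + k * j + j ^ 2) ≤ ε / 4 := by
    rw [hσd, div_mul_eq_mul_div, div_le_div_iff₀ (by positivity) (by norm_num)]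
    nlinarith [mul_nonneg hk0 hε.le]
  obtain ⟨P, P0, P1, Pf, Pσ, Pmono⟩ := sup_Pattern hσ.le (h0 1) (h1 1) hs
  obtain ⟨b, hb⟩ : ∃ b : Finset (Fin n) → ℝ, ∀ u, b u = if 1 - η ≤ p 1 u then 0 else 1 :=
    ⟨_, fun _ => rfl⟩
  obtain ⟨e, he⟩ : ∃ e : Finset (Fin n) → ℝ, ∀ u, e u = ∑ i ∈ Icc 2 (k + 1), p i u :=
    ⟨_, fun _ => rfl⟩
  have e0 : ∀ u, 0 ≤ e u := fun u => by
    rw [he]
    exact sum_nonneg fun i _ => h0 i u
  have b0 : ∀ u, 0 ≤ b u := fun u => by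
    rw [hb]
    split_ifs <;> norm_num
  have b1 : ∀ u, b u ≤ 1 := fun u => by
    rw [hb]
    split_ifs <;> norm_num
  have hJr : (J.card : ℝ) = j := by exact_mod_cast hJ
  have hτ : (0 : ℝ) ≤ k * (2 * η + σ) := by positivity
  -- the layer cake
  have hlay := layer_Pattern J.powerset (fun u => (J.card : ℝ) - 2 * u.card + k * b u) P
    (∑ u ∈ J.powerset, (k * (1 - b u) - 2 * e u - k * (2 * η + σ))) (1 - η)
    (fun u _ => P0 u) (fun u hu => P1 u (mem_powerset.1 hu)) (by linarith) (by linarith) ?_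
  swap
  · intro θ _ _
    have hD : ∀ u ∈ J.powerset.filter (fun u => θ < P u), ∀ v, v ⊆ u →
        v ∈ J.powerset.filter (fun u => θ < P u) := by
      intro u hu v hv
      rw [mem_filter, mem_powerset] at hu ⊢
      exact ⟨hv.trans hu.1, lt_of_lt_of_le hu.2 (Pmono u hu.1 v hv)⟩
    obtain ⟨d1, d2⟩ := dsum_Pattern hσ.le hη.le h0 hc hD (filter_subset _ _) hb
    have h2 : ∑ u ∈ J.powerset, ((J.card : ℝ) - 2 * u.card + k * b u) *
        (if θ < P u then 1 else 0) =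
        ∑ u ∈ J.powerset.filter (fun u => θ < P u), ((J.card : ℝ) - 2 * u.card + k * b u) := by
      rw [sum_filter]
      refine sum_congr rfl fun u _ => ?_
      split_ifs
      · rw [mul_one]
      · rw [mul_zero]
    rw [h2]
    split_ifs with hθ
    · rw [mul_one]
      refine le_trans ?_ d2
      rw [← sum_filter_add_sum_filter_not J.powerset (fun u => θ < P u)]
      have h3 : ∑ u ∈ J.powerset.filter (fun u => ¬ θ < P u),
          ((k : ℝ) * (1 - b u) - 2 * e u - k * (2 * η + σ)) ≤ 0 := by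
        refine sum_nonpos fun u hu => ?_
        rw [mem_filter, not_lt] at hu
        have h4 : ¬ 1 - η ≤ p 1 u := by
          intro h5
          linarith [Pf u, hu.2]
        rw [hb, if_neg h4]
        linarith [e0 u]
      have h4 : ∑ u ∈ J.powerset.filter (fun u => θ < P u),
          ((k : ℝ) * (1 - b u) - 2 * e u - k * (2 * η + σ)) =
          ∑ u ∈ J.powerset.filter (fun u => θ < P u),
          ((k : ℝ) * (1 - b u) - 2 * ∑ i ∈ Icc 2 (k + 1), p i u - k * (2 * η + σ)) :=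
        sum_congr rfl fun u _ => by rw [he]
      linarith
    · rw [mul_zero, sum_add_distrib]
      exact add_nonneg d1 (sum_nonneg fun u _ => mul_nonneg hk0 (b0 u))
  -- the upper bound for the constant
  have hcard : ∀ a : ℝ, ∑ _u ∈ J.powerset, a = a * 2 ^ j := by
    intro a
    rw [sum_const, card_powerset, hJ, nsmul_eq_mul]
    push_cast
    ring
  have hA : ∑ u ∈ J.powerset, ((k : ℝ) * (1 - b u) - 2 * e u - k * (2 * η + σ)) ≤ k * 2 ^ j := by
    rw [← hcard]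
    refine sum_le_sum fun u _ => ?_
    nlinarith [e0 u, b0 u, mul_nonneg hk0 (b0 u)]
  have hA2 : ∑ u ∈ J.powerset, ((k : ℝ) * (1 - b u) - 2 * e u - k * (2 * η + σ)) - k * η * 2 ^ j ≤
      (∑ u ∈ J.powerset, ((k : ℝ) * (1 - b u) - 2 * e u - k * (2 * η + σ))) * (1 - η) := by
    nlinarith [mul_le_mul_of_nonneg_left hA hη.le]
  -- termwise
  have hterm : ∀ u ∈ J.powerset, ((k : ℝ) * (1 - b u) - 2 * e u - k * (2 * η + σ)) -
      ((J.card : ℝ) - 2 * u.card + k * b u) * P u ≥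
      k * p 1 u - 2 * e u - k * (2 * η + σ) - (k * j * σ + j ^ 2 * σ) -
        p 1 u * ((j : ℝ) - 2 * u.card) - 2 * k / η * (p 1 u * (1 - p 1 u)) := by
    intro u hu
    have hu' := mem_powerset.1 hu
    have hcu : (u.card : ℝ) ≤ j := by
      rw [← hJr]
      exact_mod_cast card_le_card hu'
    have hcu0 : (0 : ℝ) ≤ u.card := Nat.cast_nonneg _
    have a1 : 0 ≤ P u - p 1 u := by linarith [Pf u]
    have a2 : P u - p 1 u ≤ j * σ := by
      have := Pσ u hu'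
      rw [hJr] at this
      linarith
    have p0 := h0 1 u
    have p1 := h1 1 u hu'
    rw [hJr]
    -- the first error
    have c1 : (P u - p 1 u) * ((j : ℝ) - 2 * u.card) ≤ j ^ 2 * σ := by
      have hj0 : (0 : ℝ) ≤ j := Nat.cast_nonneg j
      calc (P u - p 1 u) * ((j : ℝ) - 2 * u.card) ≤ (P u - p 1 u) * j :=
            mul_le_mul_of_nonneg_left (by linarith) a1
        _ ≤ j * σ * j := mul_le_mul_of_nonneg_right a2 hj0
        _ = j ^ 2 * σ := by ring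
    -- the second error
    have c2 : k * b u * P u ≤ k * b u * p 1 u + k * j * σ := by
      have hkb : 0 ≤ k * b u := mul_nonneg hk0 (b0 u)
      have hjs : (0 : ℝ) ≤ j * σ := by positivity
      calc k * b u * P u = k * b u * p 1 u + k * b u * (P u - p 1 u) := by ring
        _ ≤ k * b u * p 1 u + k * b u * (j * σ) := by
            linarith [mul_le_mul_of_nonneg_left a2 hkb]
        _ ≤ k * b u * p 1 u + k * 1 * (j * σ) := by
            linarith [mul_le_mul_of_nonneg_right (mul_le_mul_of_nonneg_left (b1 u) hk0) hjs]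
        _ = _ := by ring
    -- the bad patterns
    have c3 : 2 * k * (b u * p 1 u) ≤ 2 * k / η * (p 1 u * (1 - p 1 u)) := by
      have h2k : 0 ≤ 2 * (k : ℝ) := by positivity
      have h3 : b u * p 1 u ≤ 1 / η * (p 1 u * (1 - p 1 u)) := by
        rw [hb]
        split_ifs with h4
        · rw [zero_mul]
          have : 0 ≤ p 1 u * (1 - p 1 u) := mul_nonneg p0 (by linarith)
          positivity
        · rw [one_mul, one_div, inv_mul_eq_div, le_div_iff₀ hη]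
          nlinarith
      calc 2 * k * (b u * p 1 u) ≤ 2 * k * (1 / η * (p 1 u * (1 - p 1 u))) :=
            mul_le_mul_of_nonneg_left h3 h2k
        _ = _ := by ring
    have c4 : k * p 1 u - k * (b u * p 1 u) ≤ k * (1 - b u) := by
      have : (1 - b u) * p 1 u ≤ (1 - b u) * 1 :=
        mul_le_mul_of_nonneg_left p1 (by linarith [b1 u])
      nlinarith [mul_le_mul_of_nonneg_left this hk0]
    have c5 : ((j : ℝ) - 2 * u.card + k * b u) * P u =
        p 1 u * ((j : ℝ) - 2 * u.card) + (P u - p 1 u) * ((j : ℝ) - 2 * u.card) +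
          k * b u * P u := by ring
    rw [c5]
    linarith
  have hsum := sum_le_sum hterm
  have hR : ∑ u ∈ J.powerset, (k * p 1 u - 2 * e u - k * (2 * η + σ) - (k * j * σ + j ^ 2 * σ) -
        p 1 u * ((j : ℝ) - 2 * u.card) - 2 * k / η * (p 1 u * (1 - p 1 u))) =
      k * ∑ u ∈ J.powerset, p 1 u - 2 * ∑ u ∈ J.powerset, e u - k * (2 * η + σ) * 2 ^ j -
        (k * j * σ + j ^ 2 * σ) * 2 ^ j - ∑ u ∈ J.powerset, p 1 u * ((j : ℝ) - 2 * u.card) -
        2 * k / η * ∑ u ∈ J.powerset, p 1 u * (1 - p 1 u) := by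
    simp only [sum_sub_distrib, ← mul_sum, hcard]
  have hL : ∑ u ∈ J.powerset, (((k : ℝ) * (1 - b u) - 2 * e u - k * (2 * η + σ)) -
      ((J.card : ℝ) - 2 * u.card + k * b u) * P u) =
      ∑ u ∈ J.powerset, ((k : ℝ) * (1 - b u) - 2 * e u - k * (2 * η + σ)) -
        ∑ u ∈ J.powerset, ((J.card : ℝ) - 2 * u.card + k * b u) * P u := sum_sub_distrib _ _
  rw [hR, hL] at hsum
  have hE : 2 * k / η * ∑ u ∈ J.powerset, p 1 u * (1 - p 1 u) ≤ ε / 4 * 2 ^ j := by
    have h2 : 0 ≤ 2 * k / η := by positivity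
    refine (mul_le_mul_of_nonneg_left hε0 h2).trans ?_
    rw [← mul_assoc]
    refine mul_le_mul_of_nonneg_right ?_ (by positivity)
    have h3 : 2 * k / η * (η * ε / (8 * (k + 1))) = k / (k + 1) * (ε / 4) := by
      field_simp
      ring
    rw [h3]
    have h4 : (k : ℝ) / (k + 1) ≤ 1 := by
      rw [div_le_one (by positivity)]
      linarith
    nlinarith
  have h2j : (0 : ℝ) < 2 ^ j := by positivity
  have hF : k * (2 * η + σ) * 2 ^ j + (k * j * σ + j ^ 2 * σ) * 2 ^ j + k * η * 2 ^ j ≤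
      ε / 2 * 2 ^ j := by
    rw [← add_mul, ← add_mul]
    refine mul_le_mul_of_nonneg_right ?_ h2j.le
    nlinarith
  have he' : ∑ u ∈ J.powerset, ∑ i ∈ Icc 2 (k + 1), p i u = ∑ u ∈ J.powerset, e u :=
    sum_congr rfl fun u _ => (he u).symm
  rw [he']
  have hEF : 0 ≤ ε / 4 * 2 ^ j := by positivity
  linarith

end Pool.Agent.OFK
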