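import Pool.Agent.OFK.Kap
import Pool.Agent.OFK.PatB
import Pool.Agent.OFK.PatP
import Pool.Agent.OFK.BinA
import Pool.Agent.OFK.Pattern
import Pool.Agent.OFK70.Bridge

/-! # OFK: the boundary of the down-closure at level `s+1` (assembly) -/

set_option autoImplicit false

namespace Pool.Agent.OFK

open Finset

/-- the boundary of a function on the subsets of `J` -/
theorem bdry_sum {n : ℕ} (J : Finset (Fin n)) (p : Finset (Fin n) → ℝ) :
    ∑ x ∈ J, ∑ u ∈ (J.erase x).powerset, (p u - p (insert x u)) =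
      ∑ u ∈ J.powerset, p u * ((J.card : ℝ) - 2 * u.card) := by
  have h1 : ∑ x ∈ J, ∑ u ∈ (J.erase x).powerset, p u =
      ∑ u ∈ J.powerset, p u * ((J.card : ℝ) - u.card) := by
    rw [Finset.sum_comm' (t' := J.powerset) (s' := fun u => J \ u)]
    · refine sum_congr rfl fun u hu => ?_
      rw [mem_powerset] at hu
      rw [sum_const, card_sdiff_of_subset hu, nsmul_eq_mul, Nat.cast_sub (card_le_card hu)]
      ring
    · intro x u
      simp only [mem_powerset, mem_sdiff, subset_erase]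
      tauto
  have h2 : ∑ x ∈ J, ∑ u ∈ (J.erase x).powerset, p (insert x u) =
      ∑ u ∈ J.powerset, p u * (u.card : ℝ) := by
    have : ∀ x ∈ J, ∑ u ∈ (J.erase x).powerset, p (insert x u) =
        ∑ v ∈ J.powerset with x ∈ v, p v := by
      intro x hx
      refine sum_bij (fun u _ => insert x u) ?_ ?_ ?_ ?_
      · intro u hu
        rw [mem_powerset, subset_erase] at hu
        rw [mem_filter, mem_powerset]
        exact ⟨insert_subset hx hu.1, mem_insert_self _ _⟩
      · intro u hu v hv huv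
        rw [mem_powerset, subset_erase] at hu hv
        have := congrArg (fun w => w.erase x) huv
        simpa [erase_insert hu.2, erase_insert hv.2] using this
      · intro v hv
        rw [mem_filter, mem_powerset] at hv
        refine ⟨v.erase x, ?_, insert_erase hv.2⟩
        rw [mem_powerset]
        exact erase_subset_erase _ hv.1
      · intro u _
        rfl
    rw [sum_congr rfl this, Finset.sum_comm' (t' := J.powerset) (s' := fun v => v)]
    · refine sum_congr rfl fun u _ => ?_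
      rw [sum_const, nsmul_eq_mul]
      ring
    · intro x v
      simp only [mem_powerset, mem_filter]
      constructor
      · rintro ⟨_, h2, h3⟩
        exact ⟨h3, h2⟩
      · rintro ⟨h1, h2⟩
        exact ⟨h2 h1, h2, h1⟩
  calc ∑ x ∈ J, ∑ u ∈ (J.erase x).powerset, (p u - p (insert x u))
      = ∑ x ∈ J, ∑ u ∈ (J.erase x).powerset, p u -
          ∑ x ∈ J, ∑ u ∈ (J.erase x).powerset, p (insert x u) := by
        rw [← sum_sub_distrib]
        exact sum_congr rfl fun x _ => sum_sub_distrib _ _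
    _ = _ := by
        rw [h1, h2, ← sum_sub_distrib]
        exact sum_congr rfl fun u _ => by ring

theorem KK_sub {n : ℕ} (F : Finset (Finset (Fin n))) (m : ℕ) :
    KK F m ⊆ powersetCard m (univ : Finset (Fin n)) := filter_subset _ _

/-- the excess over a pattern is small -/
theorem excess_small {n : ℕ} (U : Finset (Finset (Fin n))) (m : ℕ) (J u : Finset (Fin n))
    (hU : U ⊆ powersetCard (m + 1) (univ : Finset (Fin n))) (hu : u ⊆ J) (hum : u.card ≤ m)
    (hm : m < n) (hN : m - u.card < n - J.card)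
    (hb : (n.choose m : ℝ) * ((n : ℝ) - m) ≤ 2 ^ (J.card + 1) *
      (((n - J.card).choose (m - u.card) : ℝ) * ((n : ℝ) - J.card - (m - u.card)))) :
    pd U.shadow m J u - pd U (m + 1) J u ≤ 2 ^ (J.card + 1) * oU U m := by
  have h := pat_excess U m J u hU hu hum hm hN
  have ho : 0 ≤ oU U m := oU_nonneg U m hU
  have hJ : J.card ≤ n := by
    have := card_le_univ J
    simpa using this
  have hD1 : (0 : ℝ) < ((n - J.card).choose (m - u.card) : ℝ) := by
    exact_mod_cast Nat.choose_pos hN.le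
  have hD2 : (0 : ℝ) < (n : ℝ) - J.card - (m - u.card) := by
    have h1 : ((m - u.card : ℕ) : ℝ) < ((n - J.card : ℕ) : ℝ) := by exact_mod_cast hN
    rw [Nat.cast_sub hum, Nat.cast_sub hJ] at h1
    linarith
  have hD := mul_pos hD1 hD2
  have h2 : (pd U.shadow m J u - pd U (m + 1) J u) *
        (((n - J.card).choose (m - u.card) : ℝ) * ((n : ℝ) - J.card - (m - u.card))) ≤
      (2 ^ (J.card + 1) * oU U m) *
        (((n - J.card).choose (m - u.card) : ℝ) * ((n : ℝ) - J.card - (m - u.card))) := by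
    refine h.trans ?_
    calc oU U m * ((n.choose m : ℝ) * ((n : ℝ) - m))
        ≤ oU U m * (2 ^ (J.card + 1) * (((n - J.card).choose (m - u.card) : ℝ) *
          ((n : ℝ) - J.card - (m - u.card)))) := mul_le_mul_of_nonneg_left hb ho
      _ = _ := by ring
  exact le_of_mul_le_mul_right h2 hD

/-- one level of the down-closure over a pattern -/
theorem kk_step {n : ℕ} (F : Finset (Finset (Fin n)))
    (hF : IsAntichain (· ⊆ ·) (F : Set (Finset (Fin n)))) (m : ℕ) (J u : Finset (Fin n))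
    (hu : u ⊆ J) (hum : u.card ≤ m) (hm : m < n) (hN : m - u.card < n - J.card)
    (hb : (n.choose m : ℝ) * ((n : ℝ) - m) ≤ 2 ^ (J.card + 1) *
      (((n - J.card).choose (m - u.card) : ℝ) * ((n : ℝ) - J.card - (m - u.card)))) :
    pd (KK F m) m J u - pd (KK F (m + 1)) (m + 1) J u ≤
      pd (F.filter (fun A => A.card = m)) m J u + 2 ^ (J.card + 1) * om F m := by
  have h1 := excess_small (KK F (m + 1)) m J u (KK_sub F (m + 1)) hu hum hm hN hb
  have h2 : pd (KK F m) m J u = pd (F.filter (fun A => A.card = m)) m J u +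
      pd (KK F (m + 1)).shadow m J u := by
    have h3 : tr (KK F m) J u = tr (F.filter (fun A => A.card = m)) J u ∪
        tr (KK F (m + 1)).shadow J u := by
      unfold tr
      rw [KK_eq F m, filter_union]
    have h4 : Disjoint (tr (F.filter (fun A => A.card = m)) J u)
        (tr (KK F (m + 1)).shadow J u) :=
      (KK_disj F hF m).mono (filter_subset _ _) (filter_subset _ _)
    unfold pd
    rw [h3, card_union_of_disjoint h4, Nat.cast_add, add_div]
  have h5 : om F m = oU (KK F (m + 1)) m := rfl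
  rw [h5]
  linarith

/-- several levels -/
theorem kk_steps {n : ℕ} (s k : ℕ) (hn : n = 2 * s + 1 + k) (F : Finset (Finset (Fin n)))
    (hF : IsAntichain (· ⊆ ·) (F : Set (Finset (Fin n)))) (hne : F.Nonempty)
    (J u : Finset (Fin n)) (hu : u ⊆ J) (hJs : J.card ≤ s)
    (hb : ∀ m, s ≤ m → m ≤ s + k + 2 → ∀ c ≤ J.card,
      (n.choose m : ℝ) * ((n : ℝ) - m) ≤ 2 ^ (J.card + 1) *
      (((n - J.card).choose (m - c) : ℝ) * ((n : ℝ) - J.card - (m - c)))) :
    ∀ a : ℕ, a ≤ k → pd (KK F (s + 1)) (s + 1) J u -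
        pd (KK F (s + (a + 1))) (s + (a + 1)) J u ≤
      ∑ i ∈ Icc 1 a, pd (F.filter (fun A => A.card = s + i)) (s + i) J u +
        a * (2 ^ (J.card + 1) * miss F) := by
  intro a
  induction a with
  | zero => intro _; simp
  | succ a ih =>
    intro ha
    have h1 := ih (by omega)
    have huc : u.card ≤ J.card := card_le_card hu
    have h2 := kk_step F hF (s + (a + 1)) J u hu (by omega) (by omega) (by omega)
      (hb (s + (a + 1)) (by omega) (by omega) u.card huc)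
    have h3 := om_le_miss F hF hne (s + (a + 1))
    have h4 : (2 : ℝ) ^ (J.card + 1) * om F (s + (a + 1)) ≤ 2 ^ (J.card + 1) * miss F :=
      mul_le_mul_of_nonneg_left h3 (by positivity)
    have h5 : Icc 1 (a + 1) = insert (a + 1) (Icc 1 a) := by
      ext x; simp only [mem_Icc, mem_insert]; omega
    have h6 : a + 1 ∉ Icc 1 a := by simp
    rw [h5, sum_insert h6]
    have h7 : s + (a + 1) + 1 = s + (a + 1 + 1) := by omega
    rw [h7] at h2
    push_cast
    linarith

/-- density of a family through the densities over the patterns -/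
theorem kap_pat {n : ℕ} (V : Finset (Finset (Fin n))) (m j : ℕ) (J : Finset (Fin n))
    (hJ : J.card = j) (e : ℝ) (he : 0 ≤ e) (hmn : m ≤ n)
    (hV : V ⊆ powersetCard m (univ : Finset (Fin n)))
    (hb : ∀ c ≤ j, (1 - e) * (n.choose m : ℝ) ≤ 2 ^ j * ((n - j).choose (m - c) : ℝ) ∧
      2 ^ j * ((n - j).choose (m - c) : ℝ) ≤ (1 + e) * (n.choose m : ℝ)) :
    ∑ u ∈ J.powerset, pd V m J u ≤ 2 ^ j * ((V.card : ℝ) / (n.choose m : ℝ)) + e * 2 ^ j ∧
    2 ^ j * ((V.card : ℝ) / (n.choose m : ℝ)) - e * 2 ^ j ≤ ∑ u ∈ J.powerset, pd V m J u := by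
  have hB : (0 : ℝ) < (n.choose m : ℝ) := by exact_mod_cast Nat.choose_pos hmn
  have hS : ∑ u ∈ J.powerset, pd V m J u ≤ 2 ^ j := by
    calc ∑ u ∈ J.powerset, pd V m J u ≤ ∑ u ∈ J.powerset, (1 : ℝ) :=
          sum_le_sum fun u hu => pd_le_one V m J u hV (mem_powerset.1 hu)
      _ = 2 ^ j := by rw [sum_const, card_powerset, hJ, nsmul_eq_mul, mul_one]; norm_cast
  have hS0 : 0 ≤ ∑ u ∈ J.powerset, pd V m J u := sum_nonneg fun u _ => pd_nonneg V m J u
  have hc : (V.card : ℝ) = ∑ u ∈ J.powerset, ((n - j).choose (m - u.card) : ℝ) * pd V m J u := by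
    rw [← sum_tr_card V J, Nat.cast_sum]
    refine sum_congr rfl fun u hu => ?_
    rw [tr_card_eq V m J u hV (mem_powerset.1 hu), hJ]
  have h1 : 2 ^ j * (V.card : ℝ) ≤ (1 + e) * (n.choose m : ℝ) * ∑ u ∈ J.powerset, pd V m J u := by
    rw [hc, mul_sum, mul_sum]
    refine sum_le_sum fun u hu => ?_
    have h2 := (hb u.card (by rw [← hJ]; exact card_le_card (mem_powerset.1 hu))).2
    calc 2 ^ j * (((n - j).choose (m - u.card) : ℝ) * pd V m J u)
        = (2 ^ j * ((n - j).choose (m - u.card) : ℝ)) * pd V m J u := by ring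
      _ ≤ _ := mul_le_mul_of_nonneg_right h2 (pd_nonneg V m J u)
  have h3 : (1 - e) * (n.choose m : ℝ) * ∑ u ∈ J.powerset, pd V m J u ≤ 2 ^ j * (V.card : ℝ) := by
    rw [hc, mul_sum, mul_sum]
    refine sum_le_sum fun u hu => ?_
    have h2 := (hb u.card (by rw [← hJ]; exact card_le_card (mem_powerset.1 hu))).1
    calc (1 - e) * (n.choose m : ℝ) * pd V m J u
        ≤ (2 ^ j * ((n - j).choose (m - u.card) : ℝ)) * pd V m J u :=
          mul_le_mul_of_nonneg_right h2 (pd_nonneg V m J u)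
      _ = _ := by ring
  set S := ∑ u ∈ J.powerset, pd V m J u with hSdef
  have h4 : 2 ^ j * ((V.card : ℝ) / (n.choose m : ℝ)) ≤ (1 + e) * S := by
    rw [← mul_div_assoc, div_le_iff₀ hB]
    linarith
  have h5 : (1 - e) * S ≤ 2 ^ j * ((V.card : ℝ) / (n.choose m : ℝ)) := by
    rw [← mul_div_assoc, le_div_iff₀ hB]
    linarith
  have h6 : e * S ≤ e * 2 ^ j := mul_le_mul_of_nonneg_left hS he
  constructor <;> nlinarith

theorem core (k : ℕ) (hk : 1 ≤ k) (ε : ℝ) (hε : 0 < ε) : ∃ ε₀ : ℝ, 0 < ε₀ ∧ ∀ j : ℕ, ∃ N : ℕ,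
    ∀ s n : ℕ, N ≤ s → n = 2 * s + 1 + k → ∀ F : Finset (Finset (Fin n)),
    IsAntichain (· ⊆ ·) (F : Set (Finset (Fin n))) →
    (∀ A ∈ F, ∀ B ∈ F, Disjoint A B → A.card + B.card ≤ 2 * s + 1) → F.Nonempty →
    ((s : ℝ) + 1) * miss F ≤ k + 1 → ∀ J : Finset (Fin n), J.card = j →
    ∑ u ∈ J.powerset, pd (KK F (s + 1)) (s + 1) J u * (1 - pd (KK F (s + 1)) (s + 1) J u) ≤
      ε₀ * 2 ^ j →
    k * kap F (s + 1) - 2 * ∑ i ∈ Icc 2 (k + 1), kap F (s + i) - ε ≤ ((s : ℝ) + 1) * miss F := by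
  obtain ⟨ε₀, hε₀, hpat⟩ := pattern k (ε / 4) (by positivity)
  refine ⟨ε₀, hε₀, fun j => ?_⟩
  obtain ⟨σ, hσ, hp⟩ := hpat j
  set e : ℝ := ε / (8 * (j + 3 * k + 1)) with hedef
  have hepos : 0 < e := by positivity
  obtain ⟨N1, hN1⟩ := binA j k e hepos
  obtain ⟨N2, hN2⟩ := binA' j k
  obtain ⟨N3, hN3⟩ := exists_nat_ge (((k : ℝ) + 1) * (2 ^ (j + 1) * (k + 1)) / σ)
  obtain ⟨N4, hN4⟩ := exists_nat_ge (8 * ((k : ℝ) * (k + 1)) / ε)
  refine ⟨N1 + N2 + N3 + N4 + j, fun s n hs hn F hF hd hne hM1 J hJ hjunta => ?_⟩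
  have hs1 : N1 ≤ s := by omega
  have hs2 : N2 ≤ s := by omega
  have hs3 : N3 ≤ s := by omega
  have hs4 : N4 ≤ s := by omega
  have hjs : j ≤ s := by omega
  have hM0 : 0 ≤ miss F := miss_nonneg F hF
  have hspos : (0 : ℝ) < (s : ℝ) + 1 := by positivity
  have hMle : miss F ≤ ((k : ℝ) + 1) / (s + 1) := by
    rw [le_div_iff₀ hspos]; linarith
  have hs3' : ((k : ℝ) + 1) * (2 ^ (j + 1) * miss F) ≤ σ := by
    have h1 : ((k : ℝ) + 1) * (2 ^ (j + 1) * (k + 1)) / σ ≤ s + 1 := by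
      have : (N3 : ℝ) ≤ s := by exact_mod_cast hs3
      linarith
    rw [div_le_iff₀ hσ] at h1
    calc ((k : ℝ) + 1) * (2 ^ (j + 1) * miss F)
        ≤ ((k : ℝ) + 1) * (2 ^ (j + 1) * (((k : ℝ) + 1) / (s + 1))) := by gcongr
      _ = ((k : ℝ) + 1) * (2 ^ (j + 1) * (k + 1)) / (s + 1) := by ring
      _ ≤ σ := by rw [div_le_iff₀ hspos]; linarith
  have hs3'' : 2 ^ (j + 1) * miss F ≤ σ := by
    have : (0 : ℝ) ≤ 2 ^ (j + 1) * miss F := by positivity
    have hk0 : (0 : ℝ) ≤ k := Nat.cast_nonneg k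
    nlinarith
  have hs4' : (k : ℝ) * miss F ≤ ε / 8 := by
    have h1 : 8 * ((k : ℝ) * (k + 1)) / ε ≤ s + 1 := by
      have : (N4 : ℝ) ≤ s := by exact_mod_cast hs4
      linarith
    rw [div_le_iff₀ hε] at h1
    calc (k : ℝ) * miss F ≤ (k : ℝ) * (((k : ℝ) + 1) / (s + 1)) := by gcongr
      _ = (k : ℝ) * (k + 1) / (s + 1) := by ring
      _ ≤ ε / 8 := by rw [div_le_iff₀ hspos]; linarith
  have hb2 : ∀ m, s ≤ m → m ≤ s + k + 2 → ∀ c ≤ J.card,
      (n.choose m : ℝ) * ((n : ℝ) - m) ≤ 2 ^ (J.card + 1) *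
      (((n - J.card).choose (m - c) : ℝ) * ((n : ℝ) - J.card - (m - c))) := by
    intro m hm1 hm2 c hc
    rw [hJ] at hc ⊢
    subst hn
    exact hN2 s hs2 m hm1 hm2 c hc
  have hb1 : ∀ m, s ≤ m → m ≤ s + k + 2 → ∀ c ≤ j,
      (1 - e) * (n.choose m : ℝ) ≤ 2 ^ j * ((n - j).choose (m - c) : ℝ) ∧
      2 ^ j * ((n - j).choose (m - c) : ℝ) ≤ (1 + e) * (n.choose m : ℝ) := by
    intro m hm1 hm2 c hc
    subst hn
    exact hN1 s hs1 m hm1 hm2 c hc
  -- the functions on the patterns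
  set p : ℕ → Finset (Fin n) → ℝ := fun i u => pd (KK F (s + i)) (s + i) J u with hpdef
  have hp0 : ∀ i u, 0 ≤ p i u := fun i u => pd_nonneg _ _ _ _
  have hp1 : ∀ i, ∀ u ⊆ J, p i u ≤ 1 := fun i u hu => pd_le_one _ _ _ _ (KK_sub F (s + i)) hu
  have hmono : ∀ u ⊆ J, ∀ x ∈ J, x ∉ u → p 1 (insert x u) ≤ p 1 u + σ := by
    intro u hu x hx hxu
    have huc : u.card ≤ J.card := card_le_card hu
    have h1 := pd_insert (KK F (s + 1)) s J u x (KK_sub F (s + 1)) hu hx hxu
    have h2 := excess_small (KK F (s + 1)) s J u (KK_sub F (s + 1)) hu (by omega) (by omega)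
      (by omega) (hb2 s le_rfl (by omega) u.card huc)
    have h3 : oU (KK F (s + 1)) s ≤ miss F := om_le_miss F hF hne s
    have h4 : (2 : ℝ) ^ (J.card + 1) * oU (KK F (s + 1)) s ≤ 2 ^ (J.card + 1) * miss F :=
      mul_le_mul_of_nonneg_left h3 (by positivity)
    rw [hJ] at h2 h4
    change pd (KK F (s + 1)) (s + 1) J (insert x u) ≤ pd (KK F (s + 1)) (s + 1) J u + σ
    linarith
  have hpair : ∀ u ⊆ J, ∀ v ⊆ J, Disjoint u v → ∀ a b : ℕ, 1 ≤ a → 1 ≤ b →
      a + b + (J \ (u ∪ v)).card = k + 1 →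
      (p 1 u - p (a + 1) u) + (p 1 v - p (b + 1) v) ≤ 1 + σ := by
    intro u hu v hv huv a b ha hb hab
    have h1 := kk_steps s k hn F hF hne J u hu (by omega) hb2 a (by omega)
    have h2 := kk_steps s k hn F hF hne J v hv (by omega) hb2 b (by omega)
    have h3 := pat_pair s k hn F hF hd J u v (by omega) hu hv huv a b ha hb hab
    have h4 : ((a : ℝ) + b) * (2 ^ (J.card + 1) * miss F) ≤ σ := by
      have h5 : ((a : ℝ) + b) ≤ k + 1 := by
        have : a + b ≤ k + 1 := by omega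
        exact_mod_cast this
      rw [hJ]
      calc ((a : ℝ) + b) * (2 ^ (j + 1) * miss F)
          ≤ ((k : ℝ) + 1) * (2 ^ (j + 1) * miss F) := by gcongr
        _ ≤ σ := hs3'
    change (pd (KK F (s + 1)) (s + 1) J u - pd (KK F (s + (a + 1))) (s + (a + 1)) J u) +
      (pd (KK F (s + 1)) (s + 1) J v - pd (KK F (s + (b + 1))) (s + (b + 1)) J v) ≤ 1 + σ
    nlinarith
  have hmain := hp n J hJ p hp0 hp1 hmono hpair hjunta
  -- the boundary
  have hbd := pat_bdry (KK F (s + 1)) s J (KK_sub F (s + 1)) (by omega) (by omega)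
  set B : ℝ := (n.choose s : ℝ) with hBdef
  have hB : 0 < B := by rw [hBdef]; exact_mod_cast Nat.choose_pos (by omega)
  set S : ℝ := ∑ u ∈ J.powerset, p 1 u * ((j : ℝ) - 2 * u.card) with hSdef
  have hS : ∑ x ∈ J, ∑ u ∈ (J.erase x).powerset, (p 1 u - p 1 (insert x u)) = S := by
    rw [bdry_sum J (p 1), hJ]
  have hlow : B * (S - e * (j * 2 ^ j)) ≤ 2 ^ j * ∑ x ∈ J, ∑ u ∈ (J.erase x).powerset,
      ((n - J.card).choose (s - u.card) : ℝ) * (pd (KK F (s + 1)) (s + 1) J u -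
        pd (KK F (s + 1)) (s + 1) J (insert x u)) := by
    have h1 : ∀ x ∈ J, ∑ u ∈ (J.erase x).powerset, (B * (p 1 u - p 1 (insert x u)) - e * B) ≤
        ∑ u ∈ (J.erase x).powerset, 2 ^ j * (((n - J.card).choose (s - u.card) : ℝ) *
          (pd (KK F (s + 1)) (s + 1) J u - pd (KK F (s + 1)) (s + 1) J (insert x u))) := by
      intro x hx
      refine sum_le_sum fun u hu => ?_
      rw [mem_powerset, subset_erase] at hu
      have huc : u.card ≤ j := by rw [← hJ]; exact card_le_card hu.1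
      have h2 := hb1 s le_rfl (by omega) u.card huc
      have h3 : p 1 u - p 1 (insert x u) ≤ 1 := by
        have := hp1 1 u hu.1
        have := hp0 1 (insert x u)
        linarith
      have h4 : -1 ≤ p 1 u - p 1 (insert x u) := by
        have := hp0 1 u
        have := hp1 1 (insert x u) (insert_subset hx hu.1)
        linarith
      have h5 : pd (KK F (s + 1)) (s + 1) J u - pd (KK F (s + 1)) (s + 1) J (insert x u) =
        p 1 u - p 1 (insert x u) := rfl
      rw [h5, hJ]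
      set d := p 1 u - p 1 (insert x u)
      have h6 : 2 ^ j * (((n - j).choose (s - u.card) : ℝ) * d) =
        (2 ^ j * ((n - j).choose (s - u.card) : ℝ)) * d := by ring
      rw [h6]
      set w := 2 ^ j * ((n - j).choose (s - u.card) : ℝ)
      have h7 : |(w - B) * d| ≤ e * B := by
        rw [abs_mul]
        have h8 : |w - B| ≤ e * B := by
          rw [abs_le]; constructor <;> linarith [h2.1, h2.2]
        have h9 : |d| ≤ 1 := abs_le.2 ⟨h4, h3⟩
        calc |w - B| * |d| ≤ (e * B) * 1 :=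
              mul_le_mul h8 h9 (abs_nonneg _) (by positivity)
          _ = e * B := mul_one _
      have h10 := (abs_le.1 h7).1
      nlinarith
    have h11 := sum_le_sum h1
    have h12 : ∑ x ∈ J, ∑ u ∈ (J.erase x).powerset, (B * (p 1 u - p 1 (insert x u)) - e * B) =
        B * S - ∑ x ∈ J, ∑ u ∈ (J.erase x).powerset, e * B := by
      rw [← hS, mul_sum, ← sum_sub_distrib]
      refine sum_congr rfl fun x _ => ?_
      rw [mul_sum, ← sum_sub_distrib]
    have h13 : ∑ x ∈ J, ∑ u ∈ (J.erase x).powerset, e * B ≤ (e * B) * (j * 2 ^ j) := by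
      have h14 : ∀ x ∈ J, ∑ u ∈ (J.erase x).powerset, e * B ≤ 2 ^ j * (e * B) := by
        intro x _
        rw [sum_const, card_powerset, nsmul_eq_mul]
        have h15 : (J.erase x).card ≤ j := by
          rw [← hJ]
          exact card_le_card (erase_subset x J)
        have h16 : ((2 ^ (J.erase x).card : ℕ) : ℝ) ≤ 2 ^ j := by
          push_cast
          exact pow_le_pow_right₀ (by norm_num) h15
        exact mul_le_mul_of_nonneg_right h16 (by positivity)
      calc ∑ x ∈ J, ∑ u ∈ (J.erase x).powerset, e * B ≤ ∑ x ∈ J, 2 ^ j * (e * B) :=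
            sum_le_sum h14
        _ = (e * B) * (j * 2 ^ j) := by rw [sum_const, nsmul_eq_mul, hJ]; ring
    have h17 : ∑ x ∈ J, ∑ u ∈ (J.erase x).powerset, 2 ^ j *
          (((n - J.card).choose (s - u.card) : ℝ) *
          (pd (KK F (s + 1)) (s + 1) J u - pd (KK F (s + 1)) (s + 1) J (insert x u))) =
        2 ^ j * ∑ x ∈ J, ∑ u ∈ (J.erase x).powerset,
          ((n - J.card).choose (s - u.card) : ℝ) * (pd (KK F (s + 1)) (s + 1) J u -
          pd (KK F (s + 1)) (s + 1) J (insert x u)) := by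
      rw [mul_sum]
      refine sum_congr rfl fun x _ => ?_
      rw [mul_sum]
    rw [h17, h12] at h11
    calc B * (S - e * (j * 2 ^ j)) = B * S - (e * B) * (j * 2 ^ j) := by ring
      _ ≤ B * S - ∑ x ∈ J, ∑ u ∈ (J.erase x).powerset, e * B := by linarith
      _ ≤ _ := h11
  have hns : (n : ℝ) - s = s + 1 + k := by
    rw [hn]; push_cast; ring
  have hoM : oU (KK F (s + 1)) s ≤ miss F := om_le_miss F hF hne s
  have ho0 : 0 ≤ oU (KK F (s + 1)) s := oU_nonneg _ s (KK_sub F (s + 1))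
  have h2j : (0 : ℝ) < 2 ^ j := by positivity
  have hSle : S - e * (j * 2 ^ j) ≤ 2 ^ j * (((s : ℝ) + 1) * miss F + ε / 8) := by
    have h1 : B * (S - e * (j * 2 ^ j)) ≤
        B * (2 ^ j * (((s : ℝ) + 1) * miss F + ε / 8)) := by
      calc B * (S - e * (j * 2 ^ j)) ≤ 2 ^ j * _ := hlow
        _ ≤ 2 ^ j * (oU (KK F (s + 1)) s * (B * ((n : ℝ) - s))) :=
            mul_le_mul_of_nonneg_left hbd h2j.le
        _ = B * (2 ^ j * (oU (KK F (s + 1)) s * ((s : ℝ) + 1 + k))) := by rw [hns]; ring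
        _ ≤ B * (2 ^ j * (miss F * ((s : ℝ) + 1 + k))) := by gcongr
        _ ≤ _ := by
            have : miss F * ((s : ℝ) + 1 + k) ≤ ((s : ℝ) + 1) * miss F + ε / 8 := by linarith
            gcongr
    exact le_of_mul_le_mul_left h1 hB
  -- the densities
  have hkap1 : 2 ^ j * kap F (s + 1) - e * 2 ^ j ≤ ∑ u ∈ J.powerset, p 1 u :=
    (kap_pat (KK F (s + 1)) (s + 1) j J hJ e hepos.le (by omega) (KK_sub F (s + 1))
      (hb1 (s + 1) (by omega) (by omega))).2
  have hkap2 : ∑ u ∈ J.powerset, ∑ i ∈ Icc 2 (k + 1), p i u ≤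
      2 ^ j * ∑ i ∈ Icc 2 (k + 1), kap F (s + i) + k * (e * 2 ^ j) := by
    rw [sum_comm]
    calc ∑ i ∈ Icc 2 (k + 1), ∑ u ∈ J.powerset, p i u
        ≤ ∑ i ∈ Icc 2 (k + 1), (2 ^ j * kap F (s + i) + e * 2 ^ j) := by
          refine sum_le_sum fun i hi => ?_
          rw [mem_Icc] at hi
          exact (kap_pat (KK F (s + i)) (s + i) j J hJ e hepos.le (by omega) (KK_sub F (s + i))
            (hb1 (s + i) (by omega) (by omega))).1
      _ = _ := by
          rw [sum_add_distrib, mul_sum, sum_const, Nat.card_Icc, nsmul_eq_mul]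
          have : k + 1 + 1 - 2 = k := by omega
          rw [this]
  have hk0 : (0 : ℝ) ≤ k := Nat.cast_nonneg k
  have hj0 : (0 : ℝ) ≤ j := Nat.cast_nonneg j
  have he8 : e * ((j : ℝ) + 3 * k) ≤ ε / 8 := by
    have h1 : e * ((j : ℝ) + 3 * k + 1) = ε / 8 := by
      rw [hedef]
      field_simp
    nlinarith
  have hfin : 2 ^ j * (k * kap F (s + 1) - 2 * ∑ i ∈ Icc 2 (k + 1), kap F (s + i) - ε) ≤
      2 ^ j * (((s : ℝ) + 1) * miss F) := by
    have h1 : (k : ℝ) * (2 ^ j * kap F (s + 1) - e * 2 ^ j) ≤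
        k * ∑ u ∈ J.powerset, p 1 u := mul_le_mul_of_nonneg_left hkap1 hk0
    have h2 : e * ((j : ℝ) + 3 * k) * 2 ^ j ≤ ε / 8 * 2 ^ j :=
      mul_le_mul_of_nonneg_right he8 h2j.le
    have h3 : 0 < ε * 2 ^ j := by positivity
    have h4 := hmain
    have h6 : 2 ^ j * (k * kap F (s + 1) - 2 * ∑ i ∈ Icc 2 (k + 1), kap F (s + i)) ≤
        2 ^ j * (((s : ℝ) + 1) * miss F) + (ε / 8 * 2 ^ j + ε / 8 * 2 ^ j + ε / 4 * 2 ^ j) := by
      generalize ∑ u ∈ J.powerset, p 1 u = P at *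
      generalize ∑ u ∈ J.powerset, ∑ i ∈ Icc 2 (k + 1), p i u = Q at *
      generalize ∑ i ∈ Icc 2 (k + 1), kap F (s + i) = R at *
      linarith
    linarith
  exact le_of_mul_le_mul_left hfin h2j

/-- Case 2: the inequality for the boundary of the down-closure. -/
theorem main_two (k : ℕ) (hk : 1 ≤ k) (ε : ℝ) (hε : 0 < ε) : ∃ N : ℕ, ∀ s n : ℕ, N ≤ s → n = 2 * s + 1 + k →
    ∀ F : Finset (Finset (Fin n)), IsAntichain (· ⊆ ·) (F : Set (Finset (Fin n))) →
    (∀ A ∈ F, ∀ B ∈ F, Disjoint A B → A.card + B.card ≤ 2 * s + 1) → F.Nonempty →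
    ((s : ℝ) + 1) * miss F ≤ k + 1 →
    k * kap F (s + 1) - 2 * ∑ i ∈ Icc 2 (k + 1), kap F (s + i) - ε ≤ ((s : ℝ) + 1) * miss F := by
  obtain ⟨ε₀, hε₀, hcore⟩ := core k hk ε hε
  obtain ⟨j₀, N0, hj⟩ := Pool.Agent.OFK70.junta k (k + 1) ε₀ hε₀
  choose N hN using hcore
  refine ⟨N0 + ∑ j ∈ range (j₀ + 1), N j, fun s n hs hn F hF hd hne hM => ?_⟩
  have ho : ((s : ℝ) + 1) * oU (KK F (s + 1)) s ≤ (k : ℝ) + 1 := by
    have h1 : oU (KK F (s + 1)) s ≤ miss F := om_le_miss F hF hne s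
    have h2 : (0 : ℝ) ≤ (s : ℝ) + 1 := by positivity
    nlinarith
  obtain ⟨J, hJ, hJ2⟩ := hj s n (by omega) hn (KK F (s + 1)) (KK_sub F (s + 1)) ho
  have h3 : N J.card ≤ ∑ j ∈ range (j₀ + 1), N j :=
    single_le_sum (f := N) (fun _ _ => Nat.zero_le _) (mem_range.2 (by omega))
  exact hN J.card s n (by omega) hn F hF hd hne hM J rfl hJ2

end Pool.Agent.OFK
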