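import Pool.Agent.OFK.Defs

/-! # OFK, package PatA: densities over a pattern (1 h)

`R = univ \ J`, `N = n - |J|`. The map `A ↦ A \ J` is a bijection from the `m`-sets with trace `u`
on `J` (`u ⊆ J`, `|u| ≤ m`) onto the `(m - |u|)`-subsets of `R`. -/

set_option autoImplicit false

namespace Pool.Agent.OFK

open Finset

variable {n : ℕ}

private theorem union_PatA (A J : Finset (Fin n)) : A \ J ∪ A ∩ J = A := by
  ext y
  simp only [mem_union, mem_sdiff, mem_inter]
  tauto

private theorem card_sdiff_PatA {A J u : Finset (Fin n)} (h : A ∩ J = u) :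
    (A \ J).card = A.card - u.card := by
  have h1 := Finset.card_sdiff_add_card_inter A J
  rw [h] at h1
  omega

private theorem mem_tr_PatA {U : Finset (Finset (Fin n))} {J u A : Finset (Fin n)} :
    A ∈ tr U J u ↔ A ∈ U ∧ A ∩ J = u := by
  rw [tr, mem_filter]

theorem pd_nonneg (U : Finset (Finset (Fin n))) (m : ℕ) (J u : Finset (Fin n)) :
    0 ≤ pd U m J u := by
  exact div_nonneg (Nat.cast_nonneg _) (Nat.cast_nonneg _)

theorem tr_card_le (U : Finset (Finset (Fin n))) (m : ℕ) (J u : Finset (Fin n))
    (hU : U ⊆ powersetCard m (univ : Finset (Fin n))) (hu : u ⊆ J) :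
    (tr U J u).card ≤ (n - J.card).choose (m - u.card) := by
  have h1 : (powersetCard (m - u.card) ((univ : Finset (Fin n)) \ J)).card =
      (n - J.card).choose (m - u.card) := by
    rw [card_powersetCard, card_univ_sdiff, Fintype.card_fin]
  rw [← h1]
  refine Finset.card_le_card_of_injOn (fun A => A \ J) ?_ ?_
  · intro A hA
    obtain ⟨hA1, hA2⟩ := mem_tr_PatA.1 (mem_coe.1 hA)
    have hA3 := (mem_powersetCard.1 (hU hA1)).2
    rw [mem_coe, mem_powersetCard]
    refine ⟨sdiff_subset_sdiff (subset_univ _) (subset_refl _), ?_⟩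
    rw [card_sdiff_PatA hA2, hA3]
  · intro A hA B hB hAB
    have hA2 := (mem_tr_PatA.1 (mem_coe.1 hA)).2
    have hB2 := (mem_tr_PatA.1 (mem_coe.1 hB)).2
    have hAB' : A \ J = B \ J := hAB
    rw [← union_PatA A J, ← union_PatA B J, hAB', hA2, hB2]

theorem pd_le_one (U : Finset (Finset (Fin n))) (m : ℕ) (J u : Finset (Fin n))
    (hU : U ⊆ powersetCard m (univ : Finset (Fin n))) (hu : u ⊆ J) : pd U m J u ≤ 1 := by
  unfold pd
  exact div_le_one_of_le₀ (by exact_mod_cast tr_card_le U m J u hU hu) (Nat.cast_nonneg _)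

/-- `|tr U J u| = C(N, m-|u|) pd U m J u` (also when the binomial is `0`). -/
theorem tr_card_eq (U : Finset (Finset (Fin n))) (m : ℕ) (J u : Finset (Fin n))
    (hU : U ⊆ powersetCard m (univ : Finset (Fin n))) (hu : u ⊆ J) :
    ((tr U J u).card : ℝ) = ((n - J.card).choose (m - u.card) : ℝ) * pd U m J u := by
  unfold pd
  have h1 := tr_card_le U m J u hU hu
  rcases Nat.eq_zero_or_pos ((n - J.card).choose (m - u.card)) with h | h
  · rw [h] at h1 ⊢
    have h2 : (tr U J u).card = 0 := Nat.le_zero.1 h1
    rw [h2]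
    simp
  · rw [mul_div_cancel₀]
    exact_mod_cast h.ne'

theorem sum_tr_card (U : Finset (Finset (Fin n))) (J : Finset (Fin n)) :
    ∑ u ∈ J.powerset, (tr U J u).card = U.card := by
  symm
  exact Finset.card_eq_sum_card_fiberwise (f := fun A => A ∩ J) (t := J.powerset) fun A _ =>
    mem_coe.2 (mem_powerset.2 inter_subset_right)

/-- local LYM inside the pattern: the shadow within `R` of the sets with trace `u` is contained in
the trace-`u` part of the shadow. (`Finset.local_lubell_yamamoto_meshalkin_inequality_div` on the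
subtype of `R`.) -/
theorem pd_shadow (U : Finset (Finset (Fin n))) (m : ℕ) (J u : Finset (Fin n))
    (hU : U ⊆ powersetCard (m + 1) (univ : Finset (Fin n))) (hu : u ⊆ J) (hum : u.card ≤ m) :
    pd U (m + 1) J u ≤ pd U.shadow m J u := by
  classical
  have hcard : Fintype.card {x : Fin n // x ∉ J} = n - J.card := by
    rw [Fintype.card_subtype_compl, Fintype.card_fin, Fintype.card_coe]
  have hsub : ∀ A : Finset (Fin n),
      (A.subtype (fun x => x ∉ J)).map (Function.Embedding.subtype _) = A \ J := by
    intro A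
    ext y
    simp only [mem_map, mem_subtype, Function.Embedding.coe_subtype, Subtype.exists,
      exists_and_left, exists_prop, exists_eq_right_right, mem_sdiff]
  have hsz : ∀ A ∈ tr U J u, (A.subtype (fun x => x ∉ J)).card = m + 1 - u.card := by
    intro A hA
    obtain ⟨hA1, hA2⟩ := mem_tr_PatA.1 hA
    have hA3 := (mem_powersetCard.1 (hU hA1)).2
    rw [← card_map (Function.Embedding.subtype _), hsub, card_sdiff_PatA hA2, hA3]
  set 𝒜 : Finset (Finset {x : Fin n // x ∉ J}) :=
    (tr U J u).image (fun A => A.subtype (fun x => x ∉ J)) with h𝒜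
  have hcA : 𝒜.card = (tr U J u).card := by
    refine Finset.card_image_of_injOn ?_
    intro A hA B hB hAB
    have hA2 := (mem_tr_PatA.1 (mem_coe.1 hA)).2
    have hB2 := (mem_tr_PatA.1 (mem_coe.1 hB)).2
    have hAB' : A \ J = B \ J := by
      rw [← hsub A, ← hsub B]
      exact congrArg _ hAB
    rw [← union_PatA A J, ← union_PatA B J, hAB', hA2, hB2]
  have hsized : (𝒜 : Set (Finset {x : Fin n // x ∉ J})).Sized (m + 1 - u.card) := by
    intro B hB
    obtain ⟨A, hA, rfl⟩ := mem_image.1 (mem_coe.1 hB)
    exact hsz A hA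
  have hlym := Finset.local_lubell_yamamoto_meshalkin_inequality_div (𝕜 := ℝ)
    (r := m + 1 - u.card) (by omega) hsized
  rw [hcard, hcA] at hlym
  have hle : 𝒜.shadow.card ≤ (tr U.shadow J u).card := by
    refine Finset.card_le_card_of_injOn
      (fun B => B.map (Function.Embedding.subtype _) ∪ u) ?_ ?_
    · intro B hB
      obtain ⟨C, hC, y, hy, rfl⟩ := mem_shadow_iff.1 (mem_coe.1 hB)
      obtain ⟨A, hA, rfl⟩ := mem_image.1 hC
      obtain ⟨hA1, hA2⟩ := mem_tr_PatA.1 hA
      have hyA : (y : Fin n) ∈ A := mem_subtype.1 hy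
      have hyJ : (y : Fin n) ∉ J := y.2
      have he : ((A.subtype (fun x => x ∉ J)).erase y).map (Function.Embedding.subtype _) ∪ u
          = A.erase (y : Fin n) := by
        rw [map_erase, hsub, ← hA2]
        ext z
        simp only [Function.Embedding.coe_subtype, mem_union, mem_erase, mem_sdiff, mem_inter]
        constructor
        · rintro (⟨h1, h2, _⟩ | ⟨h1, h2⟩)
          · exact ⟨h1, h2⟩
          · exact ⟨fun h3 => hyJ (h3 ▸ h2), h1⟩
        · rintro ⟨h1, h2⟩
          by_cases h3 : z ∈ J
          · exact Or.inr ⟨h2, h3⟩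
          · exact Or.inl ⟨h1, h2, h3⟩
      rw [mem_coe]
      refine mem_tr_PatA.2 ⟨?_, ?_⟩
      · show ((A.subtype (fun x => x ∉ J)).erase y).map (Function.Embedding.subtype _) ∪ u
          ∈ U.shadow
        rw [he]
        exact mem_shadow_iff.2 ⟨A, hA1, y, hyA, rfl⟩
      · show (((A.subtype (fun x => x ∉ J)).erase y).map (Function.Embedding.subtype _) ∪ u) ∩ J
          = u
        rw [he, erase_inter, hA2, erase_eq_of_notMem]
        intro h3
        exact hyJ (hu h3)
    · intro B _ C _ hBC
      have hBC' : B.map (Function.Embedding.subtype _) ∪ u =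
          C.map (Function.Embedding.subtype _) ∪ u := hBC
      ext z
      have hz : (z : Fin n) ∉ u := fun h => z.2 (hu h)
      have h1 : ∀ D : Finset {x : Fin n // x ∉ J}, z ∈ D ↔
          (z : Fin n) ∈ D.map (Function.Embedding.subtype _) ∪ u := by
        intro D
        constructor
        · intro h
          exact mem_union_left _ (mem_map.2 ⟨z, h, rfl⟩)
        · intro h
          rcases mem_union.1 h with h | h
          · obtain ⟨w, hw, hwz⟩ := mem_map.1 h
            have : w = z := Subtype.ext hwz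
            exact this ▸ hw
          · exact absurd h hz
      rw [h1 B, h1 C, hBC']
  unfold pd
  refine hlym.trans ?_
  have h3 : m + 1 - u.card - 1 = m - u.card := by omega
  rw [h3]
  exact div_le_div_of_nonneg_right (by exact_mod_cast hle) (Nat.cast_nonneg _)

/-- erase `x`: `A ↦ A.erase x` is injective from the sets of `U` with trace `u + x` to the sets of
the shadow with trace `u`; the binomials are the same. -/
theorem pd_insert (U : Finset (Finset (Fin n))) (m : ℕ) (J u : Finset (Fin n)) (x : Fin n)
    (hU : U ⊆ powersetCard (m + 1) (univ : Finset (Fin n))) (hu : u ⊆ J) (hx : x ∈ J)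
    (hxu : x ∉ u) : pd U (m + 1) J (insert x u) ≤ pd U.shadow m J u := by
  unfold pd
  rw [card_insert_of_notMem hxu, Nat.add_sub_add_right]
  refine div_le_div_of_nonneg_right ?_ (Nat.cast_nonneg _)
  have hle : (tr U J (insert x u)).card ≤ (tr U.shadow J u).card := by
    have hmem : ∀ A ∈ tr U J (insert x u), x ∈ A := by
      intro A hA
      have hA2 := (mem_tr_PatA.1 hA).2
      have h1 : x ∈ A ∩ J := by
        rw [hA2]
        exact mem_insert_self x u
      exact (mem_inter.1 h1).1
    refine Finset.card_le_card_of_injOn (fun A => A.erase x) ?_ ?_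
    · intro A hA
      obtain ⟨hA1, hA2⟩ := mem_tr_PatA.1 (mem_coe.1 hA)
      rw [mem_coe]
      refine mem_tr_PatA.2 ⟨mem_shadow_iff.2 ⟨A, hA1, x, hmem A (mem_coe.1 hA), rfl⟩, ?_⟩
      show A.erase x ∩ J = u
      rw [erase_inter, hA2, erase_insert hxu]
    · intro A hA B hB hAB
      have hAB' : A.erase x = B.erase x := hAB
      rw [← insert_erase (hmem A (mem_coe.1 hA)), ← insert_erase (hmem B (mem_coe.1 hB)), hAB']
  exact_mod_cast hle

end Pool.Agent.OFK
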